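import Mathlib

/-!
# Heights of values of integer polynomials
-/

namespace H32.T3

open Height Height.AdmissibleAbsValues MvPolynomial Finset

section nrm

variable {ι : Type*}

/-- The sum of the absolute values of the coefficients. -/
noncomputable def nrm (P : MvPolynomial ι ℤ) : ℝ := ∑ m ∈ P.support, |((P.coeff m : ℤ) : ℝ)|

lemma nrm_nonneg (P : MvPolynomial ι ℤ) : 0 ≤ nrm P := sum_nonneg fun _ _ ↦ abs_nonneg _

lemma nrm_eq {P : MvPolynomial ι ℤ} {S : Finset (ι →₀ ℕ)} (h : P.support ⊆ S) :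
    nrm P = ∑ m ∈ S, |((P.coeff m : ℤ) : ℝ)| := by
  unfold nrm
  refine sum_subset h fun m _ hm ↦ ?_
  rw [notMem_support_iff.mp hm]
  simp

lemma nrm_zero : nrm (0 : MvPolynomial ι ℤ) = 0 := by simp [nrm]

lemma nrm_add_le (P Q : MvPolynomial ι ℤ) : nrm (P + Q) ≤ nrm P + nrm Q := by
  classical
  rw [nrm_eq (support_add (p := P) (q := Q)), nrm_eq (subset_union_left (s₂ := Q.support)),
    nrm_eq (subset_union_right (s₁ := P.support)), ← sum_add_distrib]
  refine sum_le_sum fun m _ ↦ ?_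
  rw [coeff_add]
  push_cast
  exact abs_add_le _ _

lemma nrm_sum_le {α : Type*} (s : Finset α) (P : α → MvPolynomial ι ℤ) :
    nrm (∑ i ∈ s, P i) ≤ ∑ i ∈ s, nrm (P i) := by
  classical
  induction s using Finset.induction_on with
  | empty => simp [nrm_zero]
  | insert i t hi ih =>
    rw [sum_insert hi, sum_insert hi]
    exact (nrm_add_le _ _).trans (by gcongr)

lemma nrm_monomial (m : ι →₀ ℕ) (c : ℤ) : nrm (monomial m c) = |(c : ℝ)| := by
  classical
  rw [nrm_eq (support_monomial_subset (s := m) (a := c))]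
  simp

lemma nrm_monomial_mul (m : ι →₀ ℕ) (c : ℤ) (P : MvPolynomial ι ℤ) :
    nrm (monomial m c * P) ≤ |(c : ℝ)| * nrm P := by
  classical
  have h : monomial m c * P = ∑ k ∈ P.support, monomial (m + k) (c * P.coeff k) := by
    conv_lhs => rw [P.as_sum, mul_sum]
    refine sum_congr rfl fun k _ ↦ ?_
    rw [monomial_mul]
  rw [h]
  refine (nrm_sum_le _ _).trans ?_
  unfold nrm
  rw [mul_sum]
  refine sum_le_sum fun k _ ↦ ?_
  have := nrm_monomial (m + k) (c * P.coeff k)
  unfold nrm at this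
  rw [this]
  push_cast
  rw [abs_mul]

lemma nrm_mul_le (P Q : MvPolynomial ι ℤ) : nrm (P * Q) ≤ nrm P * nrm Q := by
  classical
  conv_lhs => rw [P.as_sum, sum_mul]
  refine (nrm_sum_le _ _).trans ?_
  rw [nrm, sum_mul]
  exact sum_le_sum fun m _ ↦ nrm_monomial_mul _ _ _

lemma nrm_C (c : ℤ) : nrm (C c : MvPolynomial ι ℤ) = |(c : ℝ)| := nrm_monomial _ _

lemma nrm_X (i : ι) : nrm (X i : MvPolynomial ι ℤ) = 1 := by
  rw [X, nrm_monomial]; simp

lemma nrm_one : nrm (1 : MvPolynomial ι ℤ) = 1 := by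
  have := nrm_C (ι := ι) 1
  simpa using this

lemma nrm_neg (P : MvPolynomial ι ℤ) : nrm (-P) = nrm P := by
  unfold nrm
  rw [support_neg]
  refine sum_congr rfl fun m _ ↦ ?_
  simp

lemma nrm_pow_le (P : MvPolynomial ι ℤ) (n : ℕ) : nrm (P ^ n) ≤ nrm P ^ n := by
  induction n with
  | zero => simp [nrm_one]
  | succ n ih =>
    rw [pow_succ, pow_succ]
    exact (nrm_mul_le _ _).trans (by gcongr; exact nrm_nonneg _)

lemma one_le_nrm {P : MvPolynomial ι ℤ} (h : P ≠ 0) : 1 ≤ nrm P := by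
  obtain ⟨m, hm⟩ := support_nonempty.mpr h
  have h1 : |((P.coeff m : ℤ) : ℝ)| ≤ nrm P :=
    single_le_sum (f := fun m ↦ |((P.coeff m : ℤ) : ℝ)|) (fun _ _ ↦ abs_nonneg _) hm
  have h2 : P.coeff m ≠ 0 := mem_support_iff.mp hm
  have h3 : (1 : ℝ) ≤ |((P.coeff m : ℤ) : ℝ)| := by
    have := Int.one_le_abs h2
    exact_mod_cast this
  linarith

end nrm

section abs

variable {K : Type*} [Field K] {ι : Type*} [Fintype ι]

lemma abv_natCast_le (v : AbsoluteValue K ℝ) (n : ℕ) : v (n : K) ≤ n := by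
  induction n with
  | zero => simp
  | succ n ih =>
    push_cast
    exact (v.add_le _ _).trans (by rw [v.map_one]; gcongr)

lemma abv_intCast_le (v : AbsoluteValue K ℝ) (n : ℤ) : v (n : K) ≤ |(n : ℝ)| := by
  rcases Int.eq_nat_or_neg n with ⟨m, rfl | rfl⟩
  · simpa using abv_natCast_le v m
  · simpa using abv_natCast_le v m

lemma prod_le_of_deg (v : AbsoluteValue K ℝ) (x : ι → K) {m : ι →₀ ℕ} {d : ι → ℕ}
    (h : ∀ i, m i ≤ d i) : ∏ i, v (x i) ^ m i ≤ ∏ i, max (v (x i)) 1 ^ d i := by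
  refine prod_le_prod (fun i _ ↦ by positivity) fun i _ ↦ ?_
  calc v (x i) ^ m i ≤ max (v (x i)) 1 ^ m i := by gcongr; exact le_max_left _ _
    _ ≤ _ := pow_le_pow_right₀ (le_max_right _ _) (h i)

lemma abv_aeval_le (v : AbsoluteValue K ℝ) (x : ι → K) (P : MvPolynomial ι ℤ) {d : ι → ℕ}
    (hd : ∀ m ∈ P.support, ∀ i, m i ≤ d i) :
    v (aeval x P) ≤ nrm P * ∏ i, max (v (x i)) 1 ^ d i := by
  rw [aeval_def, eval₂_eq']
  refine (v.sum_le _ _).trans ?_
  rw [nrm, sum_mul]
  refine sum_le_sum fun m hm ↦ ?_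
  rw [v.map_mul, map_prod]
  simp_rw [map_pow]
  have h1 : v ((algebraMap ℤ K) (coeff m P)) ≤ |((coeff m P : ℤ) : ℝ)| := by
    simpa using abv_intCast_le v (coeff m P)
  exact mul_le_mul h1 (prod_le_of_deg v x (hd m hm)) (prod_nonneg fun i _ ↦ by positivity)
    (abs_nonneg _)

lemma abv_aeval_le_nonarch {v : AbsoluteValue K ℝ} (hv : IsNonarchimedean v) (x : ι → K)
    (P : MvPolynomial ι ℤ) {d : ι → ℕ} (hd : ∀ m ∈ P.support, ∀ i, m i ≤ d i) :
    v (aeval x P) ≤ ∏ i, max (v (x i)) 1 ^ d i := by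
  have hpos : 0 < ∏ i, max (v (x i)) 1 ^ d i :=
    prod_pos fun i _ ↦ pow_pos (lt_of_lt_of_le one_pos (le_max_right _ _)) _
  rw [aeval_def, eval₂_eq']
  rcases P.support.eq_empty_or_nonempty with h | h
  · rw [h]; simpa using hpos.le
  have key : ∀ m ∈ P.support, v ((algebraMap ℤ K) (coeff m P) * ∏ i, x i ^ m i) ≤
      ∏ i, max (v (x i)) 1 ^ d i := by
    intro m hm
    rw [v.map_mul, map_prod]
    simp_rw [map_pow]
    have h1 : v ((algebraMap ℤ K) (coeff m P)) ≤ 1 := by
      have : v ((coeff m P : ℤ) : K) ≤ 1 := IsNonarchimedean.apply_intCast_le_one hv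
      simpa using this
    calc _ ≤ 1 * ∏ i, v (x i) ^ m i := by
          gcongr
      _ = ∏ i, v (x i) ^ m i := one_mul _
      _ ≤ _ := prod_le_of_deg v x (hd m hm)
  have hsum : ∀ s : Finset (ι →₀ ℕ), (∀ m ∈ s, v ((algebraMap ℤ K) (coeff m P) * ∏ i, x i ^ m i) ≤
      ∏ i, max (v (x i)) 1 ^ d i) → v (∑ m ∈ s, (algebraMap ℤ K) (coeff m P) * ∏ i, x i ^ m i) ≤
      ∏ i, max (v (x i)) 1 ^ d i := by
    classical
    intro s
    induction s using Finset.induction_on with
    | empty => intro _; simpa using hpos.le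
    | insert m t hm ih =>
      intro hs
      rw [sum_insert hm]
      exact (hv _ _).trans (max_le (hs m (mem_insert_self _ _))
        (ih fun m' hm' ↦ hs m' (mem_insert_of_mem hm')))
  exact hsum _ key

end abs

section height

variable {K : Type*} [Field K] [AdmissibleAbsValues K] {ι : Type*} [Fintype ι]

lemma finite_max (y : K) :
    (fun v : nonarchAbsVal (K := K) ↦ max (v.val y) 1).HasFiniteMulSupport := by
  rcases eq_or_ne y 0 with h | h
  · simp [h, Function.HasFiniteMulSupport]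
  · refine (hasFiniteMulSupport h).subset fun v hv ↦ ?_
    rw [Function.mem_mulSupport] at hv ⊢
    intro h1
    apply hv
    rw [h1]; simp

lemma finite_max_pow (y : K) (n : ℕ) :
    (fun v : nonarchAbsVal (K := K) ↦ max (v.val y) 1 ^ n).HasFiniteMulSupport :=
  (finite_max y).subset fun v hv ↦ by
    rw [Function.mem_mulSupport] at hv ⊢
    intro h1
    apply hv
    rw [h1, one_pow]

lemma finite_prod (x : ι → K) (d : ι → ℕ) :
    (fun v : nonarchAbsVal (K := K) ↦ ∏ i, max (v.val (x i)) 1 ^ d i).HasFiniteMulSupport := by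
  refine (Set.finite_iUnion fun i ↦ finite_max_pow (x i) (d i)).subset fun v hv ↦ ?_
  rw [Function.mem_mulSupport] at hv
  rw [Set.mem_iUnion]
  by_contra hcon
  push Not at hcon
  apply hv
  refine prod_eq_one fun i _ ↦ ?_
  have := hcon i
  rwa [Function.mem_mulSupport, not_not] at this

lemma prod_mulHeight₁ (x : ι → K) (d : ι → ℕ) :
    ∏ i, mulHeight₁ (x i) ^ d i =
      (archAbsVal.map fun v : AbsoluteValue K ℝ ↦ ∏ i, max (v (x i)) 1 ^ d i).prod *
      ∏ᶠ v : nonarchAbsVal (K := K), ∏ i, max (v.val (x i)) 1 ^ d i := by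
  simp_rw [mulHeight₁_eq, mul_pow]
  rw [prod_mul_distrib]
  congr 1
  · rw [Multiset.prod_map_prod]
    refine prod_congr rfl fun i _ ↦ ?_
    rw [Multiset.prod_map_pow]
  · rw [finprod_prod_comm _ _ fun i _ ↦ finite_max_pow (x i) (d i)]
    refine prod_congr rfl fun i _ ↦ ?_
    rw [finprod_pow (finite_max (x i))]

/-- Height of a tuple of values of integer polynomials. -/
theorem mulHeight_aeval_le {κ : Type*} [Finite κ] (x : ι → K) (P : κ → MvPolynomial ι ℤ)
    {d : ι → ℕ} (hd : ∀ j, ∀ m ∈ (P j).support, ∀ i, m i ≤ d i) {B : ℝ} (hB : 1 ≤ B)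
    (hP : ∀ j, nrm (P j) ≤ B) :
    mulHeight (fun j ↦ aeval x (P j)) ≤ B ^ totalWeight K * ∏ i, mulHeight₁ (x i) ^ d i := by
  have h1 : (1 : ℝ) ≤ B ^ totalWeight K * ∏ i, mulHeight₁ (x i) ^ d i :=
    one_le_mul_of_one_le_of_one_le (one_le_pow₀ hB)
      (Finset.one_le_prod fun i _ ↦ one_le_pow₀ (one_le_mulHeight₁ _))
  rcases isEmpty_or_nonempty κ with hκ | hκ
  · rw [mulHeight_eq_one_of_subsingleton]; exact h1
  rcases eq_or_ne (fun j ↦ aeval x (P j)) 0 with h | h
  · rw [h, mulHeight_zero]; exact h1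
  have hB0 : 0 ≤ B := by linarith
  rw [mulHeight_eq h, prod_mulHeight₁, ← mul_assoc, totalWeight, ← Multiset.prod_replicate,
    ← Multiset.map_const', ← Multiset.prod_map_mul]
  have hpos : ∀ v : AbsoluteValue K ℝ, 0 < ∏ i, max (v (x i)) 1 ^ d i := fun v ↦
    prod_pos fun i _ ↦ pow_pos (lt_of_lt_of_le one_pos (le_max_right _ _)) _
  gcongr
  · exact finprod_nonneg fun v ↦ Real.iSup_nonneg_of_nonnegHomClass v.val _
  · exact Multiset.prod_map_nonneg fun v _ ↦ mul_nonneg hB0 (hpos v).le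
  · refine Multiset.prod_map_le_prod_map₀ _ _
      (fun v _ ↦ Real.iSup_nonneg_of_nonnegHomClass v _) fun v _ ↦ ?_
    refine ciSup_le fun j ↦ (abv_aeval_le v x (P j) (hd j)).trans ?_
    have := (hpos v).le
    gcongr
    exact hP j
  · refine finprod_le_finprod (by fun_prop (disch := assumption))
      (fun v ↦ Real.iSup_nonneg_of_nonnegHomClass v.val _) ?_ fun v ↦ ?_
    · exact finite_prod x d
    · exact ciSup_le fun j ↦ abv_aeval_le_nonarch (isNonarchimedean _ v.prop) x (P j) (hd j)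

/-- Height of a value of an integer polynomial. -/
theorem mulHeight₁_aeval_le (x : ι → K) (P : MvPolynomial ι ℤ)
    {d : ι → ℕ} (hd : ∀ m ∈ P.support, ∀ i, m i ≤ d i) {B : ℝ} (hB : 1 ≤ B) (hP : nrm P ≤ B) :
    mulHeight₁ (aeval x P) ≤ B ^ totalWeight K * ∏ i, mulHeight₁ (x i) ^ d i := by
  have h := mulHeight_aeval_le (κ := Fin 2) x ![P, 1] (d := d) ?_ hB ?_
  · rw [mulHeight₁_eq_mulHeight]
    convert h using 2
    ext j
    fin_cases j <;> simp
  · intro j
    fin_cases j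
    · exact hd
    · intro m hm i
      have h1 : m ∈ (1 : MvPolynomial ι ℤ).support := hm
      rw [support_one, mem_singleton] at h1
      simp [h1]
  · intro j
    fin_cases j
    · exact hP
    · simpa [nrm_one] using hB

/-- Height of a root of a polynomial. -/
theorem mulHeight₁_root_le {n : ℕ} (b : Fin (n + 1) → K) (ξ : K) (hb : b (Fin.last n) ≠ 0)
    (h : ∑ i, b i * ξ ^ (i : ℕ) = 0) :
    mulHeight₁ ξ ≤ (n : ℝ) ^ totalWeight K * mulHeight b := by
  -- normalise
  set c : Fin (n + 1) → K := fun i ↦ (b (Fin.last n))⁻¹ * b i with hc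
  have hcb : mulHeight c = mulHeight b := by
    have := mulHeight_smul_eq_mulHeight b (inv_ne_zero hb)
    rw [← this]
    rfl
  have hcl : c (Fin.last n) = 1 := inv_mul_cancel₀ hb
  have hsum : ∑ i, c i * ξ ^ (i : ℕ) = 0 := by
    have : ∑ i, c i * ξ ^ (i : ℕ) = (b (Fin.last n))⁻¹ * ∑ i, b i * ξ ^ (i : ℕ) := by
      rw [mul_sum]
      refine sum_congr rfl fun i _ ↦ ?_
      rw [hc]; ring
    rw [this, h, mul_zero]
  rw [Fin.sum_univ_castSucc, hcl, one_mul, Fin.val_last] at hsum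
  simp only [Fin.val_castSucc] at hsum
  have hn : n ≠ 0 := by
    rintro rfl
    simp at hsum
  have hn1 : (1 : ℝ) ≤ n := by exact_mod_cast Nat.one_le_iff_ne_zero.mpr hn
  have hξ : ξ ^ n = -∑ i : Fin n, c i.castSucc * ξ ^ (i : ℕ) := by linear_combination hsum
  have hc0 : c ≠ 0 := fun h0 ↦ by
    have := congrFun h0 (Fin.last n)
    rw [hcl] at this
    exact one_ne_zero this
  have hsup : ∀ v : AbsoluteValue K ℝ, ∀ i, v (c i) ≤ ⨆ i, v (c i) := fun v i ↦
    Finite.le_ciSup (fun i ↦ v (c i)) i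
  have hsup1 : ∀ v : AbsoluteValue K ℝ, 1 ≤ ⨆ i, v (c i) := fun v ↦ by
    have := hsup v (Fin.last n)
    rwa [hcl, v.map_one] at this
  have harch : ∀ v : AbsoluteValue K ℝ, max (v ξ) 1 ≤ n * ⨆ i, v (c i) := by
    intro v
    have h1 := hsup1 v
    refine max_le ?_ (by nlinarith)
    rcases le_or_gt (v ξ) 1 with h2 | h2
    · nlinarith
    have hv0 : 0 < v ξ := by linarith
    have h3 : v ξ ^ n ≤ n * (⨆ i, v (c i)) * v ξ ^ (n - 1) := by
      rw [← v.map_pow, hξ, v.map_neg]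
      refine (v.sum_le _ _).trans ?_
      calc ∑ i : Fin n, v (c i.castSucc * ξ ^ (i : ℕ))
          ≤ ∑ _i : Fin n, (⨆ i, v (c i)) * v ξ ^ (n - 1) := by
            refine sum_le_sum fun i _ ↦ ?_
            rw [v.map_mul, v.map_pow]
            have := hsup v i.castSucc
            gcongr
            · exact h2.le
            · omega
        _ = _ := by simp [mul_assoc]
    obtain ⟨k, rfl⟩ := Nat.exists_eq_succ_of_ne_zero hn
    rw [Nat.succ_sub_one, pow_succ] at h3
    have hk : 0 < v ξ ^ k := by positivity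
    have h4 : v ξ ^ k * v ξ ≤ v ξ ^ k * (((k.succ : ℕ) : ℝ) * ⨆ i, v (c i)) := by linarith
    exact le_of_mul_le_mul_left h4 hk
  have hnon : ∀ v : AbsoluteValue K ℝ, IsNonarchimedean v → max (v ξ) 1 ≤ ⨆ i, v (c i) := by
    intro v hv
    have h1 := hsup1 v
    refine max_le ?_ h1
    rcases le_or_gt (v ξ) 1 with h2 | h2
    · linarith
    have hv0 : 0 < v ξ := by linarith
    have h3 : v ξ ^ n ≤ (⨆ i, v (c i)) * v ξ ^ (n - 1) := by
      rw [← v.map_pow, hξ, v.map_neg]
      have hle : ∀ s : Finset (Fin n), v (∑ i ∈ s, c i.castSucc * ξ ^ (i : ℕ)) ≤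
          (⨆ i, v (c i)) * v ξ ^ (n - 1) := by
        intro s
        induction s using Finset.induction_on with
        | empty => simp; positivity
        | insert i t hi ih =>
          rw [sum_insert hi]
          refine (hv _ _).trans (max_le ?_ ih)
          rw [v.map_mul, v.map_pow]
          have := hsup v i.castSucc
          gcongr
          · exact h2.le
          · omega
      exact hle _
    obtain ⟨k, rfl⟩ := Nat.exists_eq_succ_of_ne_zero hn
    rw [Nat.succ_sub_one, pow_succ] at h3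
    have hk : 0 < v ξ ^ k := by positivity
    have h4 : v ξ ^ k * v ξ ≤ v ξ ^ k * ⨆ i, v (c i) := by linarith
    exact le_of_mul_le_mul_left h4 hk
  rw [← hcb, mulHeight_eq hc0, mulHeight₁_eq, ← mul_assoc, totalWeight,
    ← Multiset.prod_replicate, ← Multiset.map_const', ← Multiset.prod_map_mul]
  gcongr
  · exact finprod_nonneg fun v ↦ by positivity
  · exact Multiset.prod_map_nonneg fun v _ ↦ mul_nonneg (by positivity)
      (Real.iSup_nonneg_of_nonnegHomClass v _)
  · refine Multiset.prod_map_le_prod_map₀ _ _ (fun v _ ↦ by positivity) fun v _ ↦ harch v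
  · refine finprod_le_finprod (finite_max ξ) (fun v ↦ by positivity) (by fun_prop (disch := assumption))
      fun v ↦ hnon v.val (isNonarchimedean _ v.prop)

end height

section liouville

open NumberField

variable {K : Type*} [Field K] [NumberField K]

/-- Liouville inequality. -/
theorem liouville (σ : K →+* ℂ) {y : K} (hy : y ≠ 0) : (mulHeight₁ y)⁻¹ ≤ ‖σ y‖ := by
  classical
  set v : InfinitePlace K := InfinitePlace.mk σ with hv
  have hvy : v y = ‖σ y‖ := rfl
  have hpos : 0 < ‖σ y‖ := by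
    rw [norm_pos_iff]
    exact (map_ne_zero σ).mpr hy
  have h1 : ‖σ y‖⁻¹ ≤ mulHeight₁ y := by
    rw [← mulHeight₁_inv, NumberField.mulHeight₁_eq]
    have h2 : (1 : ℝ) ≤ ∏ᶠ w : FinitePlace K, max (w y⁻¹) 1 :=
      one_le_finprod fun _ ↦ le_max_right _ _
    have h3 : max (v y⁻¹) 1 ^ v.mult ≤ ∏ w : InfinitePlace K, max (w y⁻¹) 1 ^ w.mult := by
      rw [← Finset.mul_prod_erase _ _ (Finset.mem_univ v)]
      refine le_mul_of_one_le_right (by positivity) ?_
      exact Finset.one_le_prod fun w _ ↦ one_le_pow₀ (le_max_right _ _)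
    have h4 : ‖σ y‖⁻¹ ≤ max (v y⁻¹) 1 := by
      rw [map_inv₀, hvy]
      exact le_max_left _ _
    have h5 : max (v y⁻¹) 1 ≤ max (v y⁻¹) 1 ^ v.mult :=
      le_self_pow₀ (le_max_right _ _) v.mult_ne_zero
    calc ‖σ y‖⁻¹ ≤ max (v y⁻¹) 1 ^ v.mult * 1 := by rw [mul_one]; exact h4.trans h5
      _ ≤ _ := by gcongr
  exact inv_le_of_inv_le₀ hpos h1

end liouville

end H32.T3
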