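import Pool.Agent.H32.T3.Wp2

/-!
# The differential system near the two-torsion point
-/

namespace H32.T3

open UpperHalfPlane hiding I
open Complex EisensteinSeries ModularForm Filter Topology

/-- The open strip. -/
def Strip (τ : ℍ) : Set ℂ := {u | 0 < u.im ∧ u.im < τ.im}

lemma isOpen_Strip (τ : ℍ) : IsOpen (Strip τ) :=
  (isOpen_lt continuous_const Complex.continuous_im).inter
    (isOpen_lt Complex.continuous_im continuous_const)

lemma isPreconnected_Strip (τ : ℍ) : IsPreconnected (Strip τ) := by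
  have h : Convex ℝ (Strip τ) :=
    (convex_halfSpace_im_gt 0).inter (convex_halfSpace_im_lt τ.im)
  exact h.isPreconnected

lemma Strip_lattice {τ : ℍ} {u : ℂ} (hu : u ∈ Strip τ) : u ∉ (LL τ).lattice := by
  intro h
  rw [PeriodPair.mem_lattice] at h
  obtain ⟨m, n, h⟩ := h
  have h1 := congrArg Complex.im h
  have h2 : ((m : ℂ) * (LL τ).ω₁ + (n : ℂ) * (LL τ).ω₂).im = m * τ.im := by
    change ((m : ℂ) * (τ : ℂ) + (n : ℂ) * 1).im = m * τ.im
    simp
  rw [h2] at h1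
  obtain ⟨h3, h4⟩ := hu
  rw [← h1] at h3 h4
  have hτ := τ.im_pos
  have h5 : (0 : ℝ) < m := by
    by_contra hcon
    push Not at hcon
    nlinarith
  have h6 : (m : ℝ) < 1 := by
    by_contra hcon
    push Not at hcon
    nlinarith
  have h7 : 0 < m := by exact_mod_cast h5
  have h8 : m < 1 := by exact_mod_cast h6
  omega

lemma hasDerivAt_wp {τ : ℍ} {u : ℂ} (hu : u ∈ Strip τ) :
    HasDerivAt (LL τ).weierstrassP ((LL τ).derivWeierstrassP u) u := by
  have h1 := (LL τ).analyticOnNhd_weierstrassP u (Strip_lattice hu)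
  have h2 := h1.differentiableAt.hasDerivAt
  rwa [PeriodPair.deriv_weierstrassP] at h2

lemma wp_not_const (τ : ℍ) : ¬ ∀ z ∈ Strip τ, (LL τ).derivWeierstrassP z = 0 := by
  intro hz
  -- `℘` is constant on the strip
  set z₀ : ℂ := I * (τ.im / 2 : ℝ) with hz₀
  have hτ := τ.im_pos
  have hI : ∀ t : ℝ, (I * (t : ℂ)).im = t := fun t ↦ by simp
  have hz0 : z₀ ∈ Strip τ := by
    rw [hz₀]
    refine ⟨?_, ?_⟩ <;> rw [hI] <;> linarith
  have hconst : ∀ z ∈ Strip τ, (LL τ).weierstrassP z = (LL τ).weierstrassP z₀ := by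
    intro z hz'
    have hd : DifferentiableOn ℂ (LL τ).weierstrassP (Strip τ) := fun w hw ↦
      (hasDerivAt_wp hw).differentiableAt.differentiableWithinAt
    have hder : (Strip τ).EqOn (deriv (LL τ).weierstrassP) 0 := fun w hw ↦ by
      rw [PeriodPair.deriv_weierstrassP]
      exact hz w hw
    exact (isOpen_Strip τ).is_const_of_deriv_eq_zero (isPreconnected_Strip τ) hd hder hz' hz0
  set c := (LL τ).weierstrassP z₀
  have hcont : ContinuousAt ((LL τ).weierstrassPExcept 0) 0 :=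
    ((LL τ).analyticAt_weierstrassPExcept 0).continuousAt
  have h0mem : (0 : ℂ) ∈ (LL τ).lattice := zero_mem _
  -- limits along `i t`
  have hline : Tendsto (fun t : ℝ ↦ I * (t : ℂ)) (𝓝[>] 0) (𝓝 0) := by
    have : Tendsto (fun t : ℝ ↦ I * (t : ℂ)) (𝓝 0) (𝓝 (I * ((0 : ℝ) : ℂ))) :=
      (Continuous.tendsto (by fun_prop) 0)
    rw [Complex.ofReal_zero, mul_zero] at this
    exact this.mono_left nhdsWithin_le_nhds
  have hl1 : Tendsto (fun t : ℝ ↦ (I * (t : ℂ)) ^ 2 * (LL τ).weierstrassPExcept 0 (I * t) + 1)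
      (𝓝[>] 0) (𝓝 (0 ^ 2 * (LL τ).weierstrassPExcept 0 0 + 1)) :=
    ((hline.pow 2).mul (hcont.tendsto.comp hline)).add_const 1
  have hl2 : Tendsto (fun t : ℝ ↦ (I * (t : ℂ)) ^ 2 * c) (𝓝[>] 0) (𝓝 (0 ^ 2 * c)) :=
    (hline.pow 2).mul_const c
  have heq : (fun t : ℝ ↦ (I * (t : ℂ)) ^ 2 * (LL τ).weierstrassPExcept 0 (I * t) + 1) =ᶠ[𝓝[>] 0]
      fun t : ℝ ↦ (I * (t : ℂ)) ^ 2 * c := by
    filter_upwards [Ioo_mem_nhdsGT hτ] with t ht
    have htS : I * (t : ℂ) ∈ Strip τ := by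
      refine ⟨?_, ?_⟩ <;> rw [hI]
      · exact ht.1
      · exact ht.2
    have h1 := (LL τ).weierstrassPExcept_add ⟨0, h0mem⟩ (I * t)
    rw [hconst _ htS] at h1
    simp only [sub_zero] at h1
    have hne : I * (t : ℂ) ≠ 0 := mul_ne_zero I_ne_zero (by exact_mod_cast ht.1.ne')
    have h3 : (I * (t : ℂ)) ^ 2 * (1 / (I * t) ^ 2) = 1 := mul_one_div_cancel (pow_ne_zero _ hne)
    have h4 : (1 : ℂ) / 0 ^ 2 = 0 := by simp
    rw [← h1, h4, sub_zero]
    linear_combination -h3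
  have h2 := tendsto_nhds_unique (hl1.congr' heq) hl2
  norm_num at h2

theorem hasDerivAt_wp' {τ : ℍ} {u : ℂ} (hu : u ∈ Strip τ) :
    HasDerivAt (LL τ).derivWeierstrassP
      (6 * (LL τ).weierstrassP u ^ 2 - (LL τ).g₂ / 2) u := by
  set P := (LL τ).weierstrassP
  set P' := (LL τ).derivWeierstrassP with hP'
  have hanP : AnalyticOnNhd ℂ P (Strip τ) := fun z hz ↦
    (LL τ).analyticOnNhd_weierstrassP z (Strip_lattice hz)
  have hanP' : AnalyticOnNhd ℂ P' (Strip τ) := fun z hz ↦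
    (LL τ).analyticOnNhd_derivWeierstrassP z (Strip_lattice hz)
  have hprod : ∀ z ∈ Strip τ, P' z * (deriv P' z - (6 * P z ^ 2 - (LL τ).g₂ / 2)) = 0 := by
    intro z hz
    have h1 : HasDerivAt P (P' z) z := hasDerivAt_wp hz
    have h2 : HasDerivAt P' (deriv P' z) z := (hanP' z hz).differentiableAt.hasDerivAt
    have h3 : HasDerivAt (fun z ↦ P' z ^ 2) (2 * P' z ^ 1 * deriv P' z) z := by
      simpa using h2.fun_pow 2
    have h4 : HasDerivAt (fun z ↦ 4 * P z ^ 3 - (LL τ).g₂ * P z - (LL τ).g₃)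
        (4 * (3 * P z ^ 2 * P' z) - (LL τ).g₂ * P' z) z := by
      have := ((h1.fun_pow 3).const_mul 4).fun_sub (h1.const_mul (LL τ).g₂)
      simpa using this.sub_const (LL τ).g₃
    have h5 : (fun z ↦ P' z ^ 2) =ᶠ[𝓝 z] fun z ↦ 4 * P z ^ 3 - (LL τ).g₂ * P z - (LL τ).g₃ := by
      filter_upwards [(isOpen_Strip τ).mem_nhds hz] with w hw
      exact (LL τ).derivWeierstrassP_sq w (Strip_lattice hw)
    have h6 := h3.unique (h4.congr_of_eventuallyEq h5)
    linear_combination h6 / 2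
  have han2 : AnalyticOnNhd ℂ (fun z ↦ deriv P' z - (6 * P z ^ 2 - (LL τ).g₂ / 2)) (Strip τ) := by
    intro z hz
    have h1 := hanP z hz
    have h2 := (hanP' z hz).deriv
    fun_prop
  rcases hanP'.eq_zero_or_eq_zero_of_mul_eq_zero han2 hprod (isPreconnected_Strip τ) with h | h
  · exact absurd h (wp_not_const τ)
  · have h1 := h u hu
    have h2 : deriv P' u = 6 * P u ^ 2 - (LL τ).g₂ / 2 := by linear_combination h1
    rw [← h2]
    exact (hanP' u hu).differentiableAt.hasDerivAt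

lemma half_mem {τ : ℍ} {s : ℂ} (hs : |s.im| < τ.im / 2) : s + (τ : ℂ) / 2 ∈ Strip τ := by
  have him : (s + τ / 2 : ℂ).im = s.im + τ.im / 2 := by
    rw [Complex.add_im]
    congr 1
    have : ((τ : ℂ) / 2) = (τ : ℂ) / ((2 : ℝ) : ℂ) := by norm_num
    rw [this, Complex.div_ofReal_im, UpperHalfPlane.coe_im]
  rw [abs_lt] at hs
  refine ⟨?_, ?_⟩ <;> rw [him] <;> linarith

lemma wp'_half (τ : ℍ) : (LL τ).derivWeierstrassP ((τ : ℂ) / 2) = 0 := by
  have h1 := (LL τ).derivWeierstrassP_neg ((τ : ℂ) / 2)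
  have h2 := (LL τ).derivWeierstrassP_add_coe (-((τ : ℂ) / 2)) ⟨(LL τ).ω₁, (LL τ).ω₁_mem_lattice⟩
  have h3 : (-((τ : ℂ) / 2)) + (LL τ).ω₁ = (τ : ℂ) / 2 := by
    change (-((τ : ℂ) / 2)) + (τ : ℂ) = (τ : ℂ) / 2
    ring
  change (LL τ).derivWeierstrassP ((-((τ : ℂ) / 2)) + (LL τ).ω₁) = _ at h2
  rw [h3, h1] at h2
  have h4 : (2 : ℂ) * (LL τ).derivWeierstrassP ((τ : ℂ) / 2) = 0 := by linear_combination h2
  rcases mul_eq_zero.mp h4 with h | h
  · norm_num at h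
  · exact h

/-- The data attached to `τ` and a square root `lam` of `g₃ / g₂`. -/
theorem system {τ : ℍ} {lam : ℂ} (h4 : E₄ τ ≠ 0) (h6 : E₆ τ ≠ 0)
    (hlam : lam ^ 2 = (LL τ).g₃ / (LL τ).g₂) :
    ∃ X X1 Y : ℂ → ℂ,
      (∀ s : ℂ, |s.im| < τ.im / 2 →
        P2 lam (G2 τ) (pp τ) (ee s) = th (pp τ) (ee s) ^ 2 * X s ∧
        P1 lam (pp τ) (ee s) = th (pp τ) (ee s) * Y s ∧
        HasDerivAt X (lam * X1 s) s ∧
        HasDerivAt X1 (lam * (6 * X s ^ 2 - 27 / 2 * (E₄ τ ^ 3 / E₆ τ ^ 2))) s ∧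
        HasDerivAt Y (lam * (-X s - 3 / 2 * (E2 τ * E₄ τ / E₆ τ))) s) ∧
      X1 0 = 0 ∧ Y 0 = 0 ∧
      4 * X 0 ^ 3 - 2 * (27 / 2 * (E₄ τ ^ 3 / E₆ τ ^ 2)) * X 0 -
        2 * (27 / 2 * (E₄ τ ^ 3 / E₆ τ ^ 2)) = 0 := by
  have hpi : (Real.pi : ℂ) ≠ 0 := by exact_mod_cast Real.pi_ne_zero
  have hg2 := g2_eq τ
  have hg3 := g3_eq τ
  have hg20 : (LL τ).g₂ ≠ 0 := by
    rw [hg2]
    exact mul_ne_zero (div_ne_zero (mul_ne_zero (by norm_num) (pow_ne_zero _ hpi)) (by norm_num)) h4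
  have hg30 : (LL τ).g₃ ≠ 0 := by
    rw [hg3]
    exact mul_ne_zero (div_ne_zero (mul_ne_zero (by norm_num) (pow_ne_zero _ hpi)) (by norm_num)) h6
  have hlam0 : lam ≠ 0 := by
    rintro rfl
    rw [zero_pow (by norm_num)] at hlam
    exact div_ne_zero hg30 hg20 hlam.symm
  have hh : (LL τ).g₂ / (2 * lam ^ 4) = 27 / 2 * (E₄ τ ^ 3 / E₆ τ ^ 2) := by
    have : lam ^ 4 = ((LL τ).g₃ / (LL τ).g₂) ^ 2 := by rw [← hlam]; ring
    rw [this, hg2, hg3]
    field_simp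
    ring
  have hk : (lam ^ 2)⁻¹ * G2 τ = 3 / 2 * (E2 τ * E₄ τ / E₆ τ) := by
    have hE2 : E2 τ = (3 / (Real.pi : ℂ) ^ 2) * G2 τ := by
      have : E2 τ = (1 / (2 * riemannZeta 2)) * G2 τ := rfl
      rw [this, riemannZeta_two]
      field_simp
      ring
    rw [hlam, hE2, hg2, hg3]
    field_simp
    ring
  refine ⟨fun s ↦ (lam ^ 2)⁻¹ * (LL τ).weierstrassP (s + τ / 2),
    fun s ↦ (lam ^ 3)⁻¹ * (LL τ).derivWeierstrassP (s + τ / 2),
    fun s ↦ P1 lam (pp τ) (ee s) / th (pp τ) (ee s), ?_, ?_, ?_, ?_⟩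
  · intro s hs
    have hth := th_ne_zero (norm_pp_lt τ) (ee_mem_Reg hs)
    have hS := half_mem hs
    refine ⟨?_, ?_, ?_, ?_, ?_⟩
    · rw [P2_wp hs]; ring
    · field_simp
    · have h1 := (hasDerivAt_wp hS).comp_add_const s ((τ : ℂ) / 2)
      refine (h1.const_mul (lam ^ 2)⁻¹).congr_deriv ?_
      field_simp
    · have h1 := (hasDerivAt_wp' hS).comp_add_const s ((τ : ℂ) / 2)
      refine (h1.const_mul (lam ^ 3)⁻¹).congr_deriv ?_
      rw [← hh]
      field_simp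
    · refine (hasDerivAt_P1 hs hlam0).congr_deriv ?_
      rw [← hk]
  · simp only [zero_add]
    rw [wp'_half, mul_zero]
  · have h0 : ee 0 = 1 := by simp [ee]
    have hs : |(0 : ℂ).im| < τ.im / 2 := by
      have := τ.im_pos
      simpa using this
    have h1 : P1 lam (pp τ) (ee 0) = 0 := by
      rw [P1, th1_eq (norm_pp_lt τ) (ee_mem_Reg hs), zt, h0, inv_one]
      simp
    simp only
    rw [h1, zero_div]
  · simp only [zero_add]
    have h1 := (LL τ).derivWeierstrassP_sq ((τ : ℂ) / 2) (Strip_lattice (by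
      have := half_mem (τ := τ) (s := 0) (by have := τ.im_pos; simpa using this)
      rwa [zero_add] at this))
    rw [wp'_half] at h1
    have hl3 : (LL τ).g₃ = lam ^ 2 * (LL τ).g₂ := by
      rw [hlam]; field_simp
    rw [hl3] at h1
    rw [← hh]
    field_simp
    linear_combination (-1) * h1

end H32.T3
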