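import Pool.Agent.H32.HeckeI

/-!
# Integral forms of weight `12 M` as integer polynomials in `j`
-/

open UpperHalfPlane hiding I
open Complex EisensteinSeries ModularForm MatrixGroups
open scoped Real

namespace H32.T3

/-! ### A norm on integer polynomials -/

section nr

open Polynomial Finset

/-- The sum of the absolute values of the coefficients. -/
noncomputable def nr (P : ℤ[X]) : ℝ := ∑ i ∈ P.support, |((P.coeff i : ℤ) : ℝ)|

lemma nr_nonneg (P : ℤ[X]) : 0 ≤ nr P := sum_nonneg fun _ _ ↦ abs_nonneg _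

lemma nr_eq {P : ℤ[X]} {S : Finset ℕ} (h : P.support ⊆ S) :
    nr P = ∑ i ∈ S, |((P.coeff i : ℤ) : ℝ)| := by
  unfold nr
  refine sum_subset h fun m _ hm ↦ ?_
  rw [notMem_support_iff.mp hm]
  simp

lemma nr_zero : nr 0 = 0 := by simp [nr]

lemma nr_add_le (P Q : ℤ[X]) : nr (P + Q) ≤ nr P + nr Q := by
  rw [nr_eq (support_add (p := P) (q := Q)), nr_eq (subset_union_left (s₂ := Q.support)),
    nr_eq (subset_union_right (s₁ := P.support)), ← sum_add_distrib]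
  refine sum_le_sum fun m _ ↦ ?_
  rw [coeff_add]
  push_cast
  exact abs_add_le _ _

lemma nr_sum_le {α : Type*} (s : Finset α) (P : α → ℤ[X]) :
    nr (∑ i ∈ s, P i) ≤ ∑ i ∈ s, nr (P i) := by
  classical
  induction s using Finset.induction_on with
  | empty => simp [nr_zero]
  | insert i t hi ih =>
    rw [sum_insert hi, sum_insert hi]
    exact (nr_add_le _ _).trans (by gcongr)

lemma nr_monomial (m : ℕ) (c : ℤ) : nr (monomial m c) = |(c : ℝ)| := by
  rw [nr_eq (support_monomial_subset m c)]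
  simp

lemma nr_monomial_mul (m : ℕ) (c : ℤ) (P : ℤ[X]) :
    nr (monomial m c * P) ≤ |(c : ℝ)| * nr P := by
  have h : monomial m c * P = ∑ k ∈ P.support, monomial (m + k) (c * P.coeff k) := by
    conv_lhs => rw [P.as_sum_support, mul_sum]
    refine sum_congr rfl fun k _ ↦ ?_
    rw [monomial_mul_monomial]
  rw [h]
  refine (nr_sum_le _ _).trans ?_
  unfold nr
  rw [mul_sum]
  refine sum_le_sum fun k _ ↦ ?_
  have := nr_monomial (m + k) (c * P.coeff k)
  unfold nr at this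
  rw [this]
  push_cast
  rw [abs_mul]

lemma nr_mul_le (P Q : ℤ[X]) : nr (P * Q) ≤ nr P * nr Q := by
  conv_lhs => rw [P.as_sum_support, sum_mul]
  refine (nr_sum_le _ _).trans ?_
  rw [nr, sum_mul]
  exact sum_le_sum fun m _ ↦ nr_monomial_mul _ _ _

lemma nr_C (c : ℤ) : nr (C c) = |(c : ℝ)| := nr_monomial _ _

lemma nr_X_pow (n : ℕ) : nr (X ^ n) = 1 := by
  rw [X_pow_eq_monomial, nr_monomial]; simp

lemma nr_one : nr 1 = 1 := by
  have := nr_C 1
  simpa using this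

lemma nr_neg (P : ℤ[X]) : nr (-P) = nr P := by
  unfold nr
  rw [support_neg]
  refine sum_congr rfl fun m _ ↦ ?_
  simp

lemma coeff_le_nr (P : ℤ[X]) (i : ℕ) : |((P.coeff i : ℤ) : ℝ)| ≤ nr P := by
  by_cases h : i ∈ P.support
  · exact single_le_sum (f := fun m ↦ |((P.coeff m : ℤ) : ℝ)|) (fun _ _ ↦ abs_nonneg _) h
  · rw [notMem_support_iff.mp h]
    simpa using nr_nonneg P

end nr

/-- The `j`-function. -/
noncomputable def jf (τ : ℍ) : ℂ := E₄ τ ^ 3 / discriminant τ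

lemma jf_mul (τ : ℍ) : jf τ * discriminant τ = E₄ τ ^ 3 :=
  div_mul_cancel₀ _ (discriminant_ne_zero τ)

lemma jf_sub (τ : ℍ) : (jf τ - 1728) * discriminant τ = E₆ τ ^ 2 := by
  have := discriminant_eq_E₄_cube_sub_E₆_sq τ
  rw [sub_mul, jf_mul, this]
  ring

/-- The constant coefficient of the `q`-expansion. -/
lemma norm_coeff_zero_le {k : ℤ} (f : ModularForm 𝒮ℒ k) {B t : ℝ} (ht : 0 < t)
    (hB : ∀ τ : ℍ, τ.im = t → ‖f τ‖ ≤ B) : ‖(qExpansion 1 f).coeff 0‖ ≤ B := by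
  rw [ModularFormClass.qExpansion_coeff_eq_intervalIntegral (t := t) f one_pos
    one_mem_strictPeriods_SL 0 ht]
  have h := intervalIntegral.norm_integral_le_of_norm_le_const (a := (0 : ℝ)) (b := 1)
    (f := fun u : ℝ ↦ 1 / Function.Periodic.qParam 1 (u + t * I) ^ 0 *
      f ⟨u + t * I, by simpa using ht⟩) (C := B) ?_
  · simpa using h
  · intro u _
    simp only [pow_zero, div_one, one_mul]
    apply hB
    simp [UpperHalfPlane.im]

lemma norm_qq (τ : ℍ) : ‖qq τ‖ = Real.exp (-2 * π * τ.im) := by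
  rw [qq_eq, Complex.norm_exp]
  congr 1
  simp

lemma tail_bound {f : ℍ → ℂ} {c : ℕ → ℂ} (hf : ∀ τ, HasSum (fun m ↦ c m * qq τ ^ m) (f τ))
    (n : ℕ) : ∃ C : ℝ, 0 ≤ C ∧ ∀ τ : ℍ, 1 ≤ τ.im →
      ‖f τ - ∑ m ∈ Finset.range n, c m * qq τ ^ m‖ ≤ C * ‖qq τ‖ ^ n := by
  have h0 : ‖qq UpperHalfPlane.I‖ = Real.exp (-2 * π) := by
    rw [norm_qq]; simp
  have hs : Summable fun m ↦ ‖c (m + n)‖ * Real.exp (-2 * π) ^ m := by
    have h1 := ((summable_nat_add_iff n).mpr (hf UpperHalfPlane.I).summable.norm).mul_right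
      ((Real.exp (-2 * π) ^ n)⁻¹)
    refine h1.congr fun m ↦ ?_
    rw [norm_mul, norm_pow, h0, pow_add]
    have : Real.exp (-2 * π) ^ n ≠ 0 := by positivity
    field_simp
  refine ⟨∑' m, ‖c (m + n)‖ * Real.exp (-2 * π) ^ m, tsum_nonneg fun _ ↦ by positivity,
    fun τ hτ ↦ ?_⟩
  have h1 := (hasSum_nat_add_iff' n).mpr (hf τ)
  rw [← h1.tsum_eq, ← tsum_mul_right]
  refine tsum_of_norm_bounded (hs.mul_right _).hasSum fun m ↦ ?_
  rw [norm_mul, norm_pow, pow_add, mul_assoc]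
  gcongr
  rw [norm_qq]
  apply Real.exp_le_exp.mpr
  nlinarith [Real.pi_pos]

lemma hasSum_disc (τ : ℍ) :
    HasSum (fun m : ℕ ↦ ((psD.coeff m : ℤ) : ℂ) * qq τ ^ m) (discriminant τ) := by
  have h := ModularForm.hasSum_qExpansion (k := 12) CuspForm.discriminant one_pos
    one_mem_strictPeriods_SL τ
  refine h.congr_fun fun m ↦ ?_
  change _ = (PowerSeries.coeff m) (qExpansion 1 ModularForm.discriminant) * _
  rw [q_disc, PowerSeries.coeff_map, eq_intCast]
  rfl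

/-- Behaviour at infinity. -/
lemma near_inf : ∃ Y : ℝ, 1 ≤ Y ∧ ∀ τ : ℍ, Y ≤ τ.im →
    ‖qq τ‖ / 2 ≤ ‖discriminant τ‖ ∧ ‖discriminant τ‖ ≤ 2 * ‖qq τ‖ ∧
      1 / 2 ≤ ‖E₆ τ‖ ∧ ‖E₆ τ‖ ≤ 2 := by
  obtain ⟨C1, hC1, h1⟩ := tail_bound hasSum_disc 2
  obtain ⟨C2, hC2, h2⟩ := tail_bound hasSum_E6 1
  refine ⟨2 * C1 + 2 * C2 + 1, by linarith, fun τ hτ ↦ ?_⟩
  have hτ1 : 1 ≤ τ.im := by linarith
  have h3 := h1 τ hτ1
  have h4 := h2 τ hτ1
  rw [Finset.sum_range_succ, Finset.sum_range_one, psD_coeff_zero, psD_coeff_one] at h3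
  simp only [Int.cast_zero, zero_mul, Int.cast_one, pow_one, one_mul, zero_add] at h3
  rw [Finset.sum_range_one] at h4
  simp only [if_true, Int.cast_one, pow_zero, mul_one, pow_one] at h4
  have hq0 : 0 < ‖qq τ‖ := by rw [norm_qq]; positivity
  have hq : ‖qq τ‖ * τ.im ≤ 1 := by
    rw [norm_qq]
    have h5 : τ.im ≤ Real.exp (2 * π * τ.im) := by
      have h6 := Real.add_one_le_exp (2 * π * τ.im)
      nlinarith [Real.pi_gt_three]
    calc Real.exp (-2 * π * τ.im) * τ.im ≤ Real.exp (-2 * π * τ.im) * Real.exp (2 * π * τ.im) := by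
          gcongr
      _ = 1 := by rw [← Real.exp_add]; simp
  have h5 : C1 * ‖qq τ‖ ≤ 1 / 2 := by
    have : (2 * C1) * ‖qq τ‖ ≤ τ.im * ‖qq τ‖ := by gcongr; linarith
    linarith
  have h6 : C2 * ‖qq τ‖ ≤ 1 / 2 := by
    have : (2 * C2) * ‖qq τ‖ ≤ τ.im * ‖qq τ‖ := by gcongr; linarith
    linarith
  have h7 : C1 * ‖qq τ‖ ^ 2 ≤ ‖qq τ‖ / 2 := by
    calc C1 * ‖qq τ‖ ^ 2 = (C1 * ‖qq τ‖) * ‖qq τ‖ := by ring
      _ ≤ 1 / 2 * ‖qq τ‖ := by gcongr
      _ = _ := by ring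
  have h8 := norm_sub_norm_le (qq τ) (qq τ - discriminant τ)
  rw [norm_sub_rev (qq τ) (discriminant τ)] at h8
  have h9 := norm_sub_norm_le (discriminant τ) (qq τ)
  have h10 := norm_sub_norm_le (E₆ τ) 1
  have h11 := norm_sub_norm_le 1 (E₆ τ)
  rw [norm_sub_rev 1 (E₆ τ)] at h11
  rw [norm_one] at h10 h11
  have e : qq τ - (qq τ - discriminant τ) = discriminant τ := by ring
  rw [e] at h8
  refine ⟨by linarith, by linarith, by linarith, by linarith⟩

/-- Forms of weight `12 M` with integral `q`-expansion are `Δ ^ M` times an integer polynomial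
in `j`, with explicit bounds. -/
theorem exists_polyJ {t : ℝ} (ht : 0 < t) {δ a : ℝ} (hδ : 0 < δ)
    (hΔ : ∀ τ : ℍ, τ.im = t → δ ≤ ‖discriminant τ‖) (ha1 : 1 ≤ a)
    (ha : ∀ τ : ℍ, τ.im = t → ‖E₄ τ‖ ≤ a) {C : ℝ} (hC : 2 ≤ C) (hC' : 2 * a ^ 3 / δ ≤ C)
    (hC'' : a ^ 3 ≤ C) :
    ∀ (M : ℕ) (f : ModularForm 𝒮ℒ ((12 * M : ℕ) : ℤ)) (B : ℝ), IntPS (qExpansion 1 f) →
      (∀ τ : ℍ, τ.im = t → ‖f τ‖ ≤ B) → ∃ P : Polynomial ℤ, P.natDegree ≤ M ∧
        nr P ≤ B * C ^ (2 * M ^ 2) ∧ ∀ τ, f τ = Polynomial.aeval (jf τ) P * discriminant τ ^ M := by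
  have step : ∀ (M : ℕ) (f : ModularForm 𝒮ℒ ((12 * M : ℕ) : ℤ)) (B : ℝ),
      IntPS (qExpansion 1 f) → (∀ τ : ℍ, τ.im = t → ‖f τ‖ ≤ B) →
      ∃ (c0 : ℤ) (g : ModularForm 𝒮ℒ (((12 * M : ℕ) : ℤ) - 12)), IntPS (qExpansion 1 g) ∧
        |(c0 : ℝ)| ≤ B ∧ ∀ τ, f τ = c0 * E₄ τ ^ (3 * M) + discriminant τ * g τ := by
    intro M f B hf hB
    set e : ModularForm 𝒮ℒ ((12 * M : ℕ) : ℤ) :=
      ModularForm.mcast (by push_cast; ring) (E₄.pow (3 * M)) with he
    have heq : qExpansion 1 e = (qExpansion 1 E₄) ^ (3 * M) := by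
      rw [he]
      simp only [coe_mcast, ModularForm.qExpansion_pow one_pos one_mem_strictPeriods_SL]
    have hcoef := norm_coeff_zero_le f ht hB
    obtain ⟨p, hp⟩ := hf
    set c0 : ℤ := p.coeff 0 with hc0
    set f1 : ModularForm 𝒮ℒ ((12 * M : ℕ) : ℤ) := f - (c0 : ℂ) • e with hf1
    have hq1 : qExpansion 1 f1 = PowerSeries.map (Int.castRingHom ℂ)
        (p - PowerSeries.C c0 * (1 + PowerSeries.C 240 * psA) ^ (3 * M)) := by
      rw [hf1, FunLike.coe_sub, ModularForm.qExpansion_sub one_pos one_mem_strictPeriods_SL,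
        FunLike.coe_smul, ModularForm.qExpansion_smul one_pos one_mem_strictPeriods_SL, heq, qE4,
        hp, map_sub, map_mul, map_pow, PowerSeries.smul_eq_C_mul, PowerSeries.map_C]
      rfl
    have h0 : (qExpansion 1 f1).coeff 0 = 0 := by
      rw [hq1, PowerSeries.coeff_map]
      have : (p - PowerSeries.C c0 * (1 + PowerSeries.C 240 * psA) ^ (3 * M)).coeff 0 = 0 := by
        rw [map_sub, PowerSeries.coeff_C_mul]
        simp [hc0, psA]
      rw [this]; simp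
    have hq1' : IntPS (qExpansion 1 f1) := ⟨_, hq1⟩
    have hg := intPS_div f1 h0 hq1'
    refine ⟨c0, CuspForm.discriminantEquiv (toCuspForm f1 h0), hg, ?_, fun τ ↦ ?_⟩
    · rw [hp, PowerSeries.coeff_map, eq_intCast, Complex.norm_intCast] at hcoef
      exact hcoef
    · rw [discriminant_mul_discriminantEquiv_apply (toCuspForm f1 h0) τ]
      change _ = _ + f1 τ
      rw [hf1]
      simp only [sub_apply, smul_apply, smul_eq_mul, he, coe_mcast, coe_pow, Pi.pow_apply]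
      ring
  have hC0 : 0 < C := by linarith
  have hC1 : 1 ≤ C := by linarith
  intro M
  induction M with
  | zero =>
    intro f B hf hB
    obtain ⟨c0, g, hg, hc0, hfg⟩ := step 0 f B hf hB
    have hg0 : g = 0 := rank_zero_iff_forall_zero.mp (levelOne_neg_weight_rank_zero (by simp)) g
    refine ⟨Polynomial.C c0, by simp, ?_, fun τ ↦ ?_⟩
    · rw [nr_C]; simpa using hc0
    · rw [hfg τ, hg0]
      simp
  | succ M ih =>
    intro f B hf hB
    have hB0 : 0 ≤ B := by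
      have h1 := hB ⟨(t : ℂ) * I, by simpa using ht⟩ (by simp [UpperHalfPlane.im])
      exact (norm_nonneg _).trans h1
    obtain ⟨c0, g, hg, hc0, hfg⟩ := step (M + 1) f B hf hB
    have hB' : ∀ τ : ℍ, τ.im = t → ‖g τ‖ ≤ B * C ^ (M + 1) := by
      intro τ hτ
      have h1 := hΔ τ hτ
      have h2 := ha τ hτ
      have h3 : discriminant τ * g τ = f τ - c0 * E₄ τ ^ (3 * (M + 1)) := by
        rw [hfg τ]; ring
      have h4 : ‖discriminant τ‖ * ‖g τ‖ ≤ B + B * a ^ (3 * (M + 1)) := by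
        rw [← norm_mul, h3]
        refine (norm_sub_le _ _).trans ?_
        rw [norm_mul, norm_pow, Complex.norm_intCast]
        have := hB τ hτ
        gcongr
      have ha3 : 1 ≤ a ^ (3 * (M + 1)) := one_le_pow₀ ha1
      have h5 : δ * ‖g τ‖ ≤ 2 * B * a ^ (3 * (M + 1)) := by
        calc δ * ‖g τ‖ ≤ ‖discriminant τ‖ * ‖g τ‖ := by gcongr
          _ ≤ _ := h4
          _ ≤ _ := by nlinarith
      have h6 : ‖g τ‖ ≤ B * (2 * a ^ 3 / δ) * (a ^ 3) ^ M := by
        have e : B * (2 * a ^ 3 / δ) * (a ^ 3) ^ M = 2 * B * a ^ (3 * (M + 1)) / δ := by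
          rw [pow_mul]; ring
        rw [e, le_div_iff₀ hδ]
        linarith
      refine h6.trans ?_
      rw [pow_succ C M, mul_assoc, mul_comm (C ^ M)]
      gcongr
    obtain ⟨P, hP1, hP2, hP3⟩ := ih (ModularForm.mcast (by push_cast; ring) g) _
      (by simpa using hg) (fun τ hτ ↦ hB' τ hτ)
    refine ⟨Polynomial.C c0 * Polynomial.X ^ (M + 1) + P, ?_, ?_, fun τ ↦ ?_⟩
    · refine (Polynomial.natDegree_add_le _ _).trans (max_le ?_ (by omega))
      exact Polynomial.natDegree_C_mul_X_pow_le _ _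
    · have h1 : nr (Polynomial.C c0 * Polynomial.X ^ (M + 1)) ≤ B := by
        refine (nr_mul_le _ _).trans ?_
        rw [nr_C, nr_X_pow, mul_one]
        exact hc0
      refine (nr_add_le _ _).trans ?_
      have h2 : nr P ≤ B * C ^ (2 * M ^ 2 + M + 1) := by
        refine hP2.trans (le_of_eq ?_)
        rw [mul_assoc, ← pow_add]
        congr 2
        ring
      have h3 : (1 : ℝ) ≤ C ^ (2 * M ^ 2 + M + 1) := one_le_pow₀ hC1
      calc nr (Polynomial.C c0 * Polynomial.X ^ (M + 1)) + nr P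
          ≤ B * C ^ (2 * M ^ 2 + M + 1) + B * C ^ (2 * M ^ 2 + M + 1) := by
            have : B ≤ B * C ^ (2 * M ^ 2 + M + 1) := le_mul_of_one_le_right hB0 h3
            linarith
        _ = B * (2 * C ^ (2 * M ^ 2 + M + 1)) := by ring
        _ ≤ B * (C * C ^ (2 * M ^ 2 + M + 1)) := by gcongr
        _ = B * C ^ (2 * M ^ 2 + M + 2) := by ring
        _ ≤ _ := by
          gcongr
          nlinarith
    · have h1 := hP3 τ
      have h2 : g τ = (Polynomial.aeval (jf τ)) P * discriminant τ ^ M := h1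
      rw [hfg τ, h2]
      rw [map_add, map_mul, Polynomial.aeval_C, map_pow, Polynomial.aeval_X,
        algebraMap_int_eq, eq_intCast]
      have h3 : E₄ τ ^ (3 * (M + 1)) = jf τ ^ (M + 1) * discriminant τ ^ (M + 1) := by
        rw [← mul_pow, jf_mul, ← pow_mul]
      rw [h3]
      ring

end H32.T3
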