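import Pool.Agent.H32.T3.A2

/-!
# Arithmetic of the values at CM points
-/

open UpperHalfPlane hiding I
open Complex EisensteinSeries ModularForm MatrixGroups
open scoped Real

namespace H32.T3

open Polynomial Finset

lemma card_SN_le {N : ℕ} (hN : 0 < N) : (SN N).card ≤ N ^ 2 := by
  have h := card_SN hN
  have h1 : Real.log N ≤ N - 1 := Real.log_le_sub_one_of_pos (by exact_mod_cast hN)
  have h2 : ((SN N).card : ℝ) ≤ (N : ℝ) ^ 2 := by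
    refine h.trans ?_
    rw [pow_two]
    gcongr
    linarith
  exact_mod_cast h2

lemma one_le_card_SN {N : ℕ} (hN : 0 < N) : 1 ≤ (SN N).card := by
  rw [Nat.one_le_iff_ne_zero, card_ne_zero]
  exact ⟨(1, 0, N), by rw [mem_SN hN]; simp [hN]⟩

theorem rel_all : ∃ K : ℝ, 1 ≤ K ∧ ∀ N : ℕ, 0 < N → ∃ rD rT : ℕ → ℤ[X],
    rD (SN N).card = C (((SN N).card).factorial : ℤ) ∧
    rT (SN N).card = C (((SN N).card).factorial : ℤ) ∧
    (∀ i, (rD i).natDegree ≤ 2 * (SN N).card) ∧ (∀ i, (rT i).natDegree ≤ 2 * (SN N).card) ∧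
    (∀ i, nr (rD i) ≤ Real.exp (K * N ^ 26)) ∧ (∀ i, nr (rT i) ≤ Real.exp (K * N ^ 26)) ∧
    (∀ (τ : ℍ) (u : ℂ), ∑ i ∈ range ((SN N).card + 1), aeval (jf τ) (rD i) * u ^ i =
        (((SN N).card).factorial : ℂ) *
          ∏ s ∈ SN N, (u - xD N (toM s) τ / discriminant τ ^ 2)) ∧
    (∀ (τ : ℍ) (u : ℂ), ∑ i ∈ range ((SN N).card + 1), aeval (jf τ) (rT i) * u ^ i =
        (((SN N).card).factorial : ℂ) *
          ∏ s ∈ SN N, (u - xT N (toM s) τ / discriminant τ ^ 1)) := by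
  obtain ⟨Y, hY1, hY⟩ := near_inf
  obtain ⟨a, ha1, hb, hb'⟩ := line_bounds hY1
  set δ : ℝ := Real.exp (-2 * π * Y) / 2 with hδ
  have hδ0 : 0 < δ := by positivity
  have hΔ : ∀ τ : ℍ, τ.im = Y → δ ≤ ‖discriminant τ‖ := by
    intro τ hτ
    have := (hY τ hτ.ge).1
    rw [norm_qq, hτ] at this
    exact this
  set C0 : ℝ := max 2 (max (2 * a ^ 3 / δ) (a ^ 3)) with hC0
  have h2 : 2 ≤ C0 := le_max_left _ _
  have h3 : 2 * a ^ 3 / δ ≤ C0 := (le_max_left _ _).trans (le_max_right _ _)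
  have h4 : a ^ 3 ≤ C0 := (le_max_right _ _).trans (le_max_right _ _)
  have ha0 : 0 < a := by linarith
  refine ⟨32 * a ^ 6 * C0, ?_, fun N hN ↦ ?_⟩
  · have : 1 ≤ a ^ 6 := one_le_pow₀ ha1
    nlinarith
  have hN1 : (1 : ℝ) ≤ N := by exact_mod_cast hN
  set L : ℝ := 2 * a ^ 6 * N ^ 18 with hL
  have hL1 : 1 ≤ L := by
    have h5 : 1 ≤ a ^ 6 := one_le_pow₀ ha1
    have h6 : (1 : ℝ) ≤ (N : ℝ) ^ 18 := one_le_pow₀ hN1
    rw [hL]
    nlinarith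
  have hY0 : 0 < Y := by linarith
  have hxD : ∀ s ∈ SN N, ∀ τ : ℍ, τ.im = Y → ‖xD N (toM s) τ‖ ≤ L := by
    intro s hs τ hτ
    obtain ⟨-, k2, k3⟩ := hb N hN s hs τ hτ
    obtain ⟨-, l2, l3⟩ := hb' τ hτ
    rw [xD]
    refine (norm_sub_le _ _).trans ?_
    rw [norm_mul, norm_mul, norm_pow, norm_pow, norm_pow, norm_pow]
    calc _ ≤ (a * N ^ 6) ^ 3 * a ^ 2 + (a * N ^ 6) ^ 2 * a ^ 3 := by gcongr
      _ = a ^ 5 * N ^ 18 + a ^ 5 * N ^ 12 := by ring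
      _ ≤ a ^ 6 * N ^ 18 + a ^ 6 * N ^ 18 := by
        have e1 : a ^ 5 ≤ a ^ 6 := pow_le_pow_right₀ ha1 (by norm_num)
        have e2 : (N : ℝ) ^ 12 ≤ (N : ℝ) ^ 18 := pow_le_pow_right₀ hN1 (by norm_num)
        gcongr
      _ = L := by rw [hL]; ring
  have hxT : ∀ s ∈ SN N, ∀ τ : ℍ, τ.im = Y → ‖xT N (toM s) τ‖ ≤ L := by
    intro s hs τ hτ
    obtain ⟨k1, -, -⟩ := hb N hN s hs τ hτ
    obtain ⟨l1, l2, l3⟩ := hb' τ hτ
    rw [xT, norm_mul, norm_mul]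
    calc _ ≤ (a * N ^ 6 + N * a) * (a * a) := by
          gcongr
          refine (norm_sub_le _ _).trans ?_
          rw [norm_mul, Complex.norm_natCast]
          gcongr
      _ = a ^ 3 * N ^ 6 + a ^ 3 * N := by ring
      _ ≤ a ^ 6 * N ^ 18 + a ^ 6 * N ^ 18 := by
        have e1 : a ^ 3 ≤ a ^ 6 := pow_le_pow_right₀ ha1 (by norm_num)
        have e2 : (N : ℝ) ^ 6 ≤ (N : ℝ) ^ 18 := pow_le_pow_right₀ hN1 (by norm_num)
        have e3 : (N : ℝ) ≤ (N : ℝ) ^ 18 := le_self_pow₀ hN1 (by norm_num)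
        gcongr
      _ = L := by rw [hL]; ring
  obtain ⟨rD, d1, d2, d3, d4⟩ := rel_of hN (xD N) 2 le_rfl (IntQ_xD hN) (WInv_xD hN) hY0 hδ0 hΔ ha1
    (fun τ hτ ↦ (hb' τ hτ).2.1) h2 h3 h4 hL1 hxD
  obtain ⟨rT, e1, e2, e3, e4⟩ := rel_of hN (xT N) 1 (by norm_num) (IntQ_xT hN)
    (fun k ↦ by rw [one_mul]; exact WInv_xT hN k) hY0 hδ0 hΔ ha1
    (fun τ hτ ↦ (hb' τ hτ).2.1) h2 h3 h4 hL1 hxT
  have hM : ((SN N).card : ℝ) ≤ (N : ℝ) ^ 2 := by exact_mod_cast card_SN_le hN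
  have hbound : 16 * ((SN N).card : ℝ) ^ 3 * ((SN N).card * L * C0) ≤ 32 * a ^ 6 * C0 * N ^ 26 := by
    have hL0 : 0 ≤ L := by linarith
    have hC00 : 0 ≤ C0 := by linarith
    calc 16 * ((SN N).card : ℝ) ^ 3 * ((SN N).card * L * C0)
        ≤ 16 * ((N : ℝ) ^ 2) ^ 3 * ((N : ℝ) ^ 2 * L * C0) := by gcongr
      _ = _ := by rw [hL]; ring
  exact ⟨rD, rT, d1, e1, d2, e2, fun i ↦ (d3 i).trans (Real.exp_le_exp.mpr hbound),
    fun i ↦ (e3 i).trans (Real.exp_le_exp.mpr hbound), d4, e4⟩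

lemma xD_eq {N : ℕ} (hN : 0 < N) {s : ℕ × ℕ × ℕ} (hs : s ∈ SN N) (τ : ℍ) :
    xD N (toM s) τ = 1728 * (s.1 : ℂ) ^ 12 * (discriminant (tact s τ) * E₆ τ ^ 2 -
      E₆ (tact s τ) ^ 2 * discriminant τ) := by
  rw [xD, HA_toM _ _ hN hs, HA_toM _ _ hN hs, discriminant_eq_E₄_cube_sub_E₆_sq,
    discriminant_eq_E₄_cube_sub_E₆_sq]
  ring

lemma aux_ratio {q' q D' D E E' : ℝ} (hq' : 0 ≤ q') (hq : 0 ≤ q) (q1 : q' / 2 ≤ D')
    (q2 : D' ≤ 2 * q') (p1 : q / 2 ≤ D) (p2 : D ≤ 2 * q) (p3 : 1 / 2 ≤ E) (p4 : E ≤ 2)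
    (q3 : 1 / 2 ≤ E') (q4 : E' ≤ 2) (h : D' * E ^ 2 = E' ^ 2 * D) :
    q' ≤ 64 * q ∧ q ≤ 64 * q' := by
  have hE : 0 ≤ E := by linarith
  have hE' : 0 ≤ E' := by linarith
  have p3' : (1 / 2 : ℝ) ^ 2 ≤ E ^ 2 := by gcongr
  have p4' : E ^ 2 ≤ 2 ^ 2 := by gcongr
  have q3' : (1 / 2 : ℝ) ^ 2 ≤ E' ^ 2 := by gcongr
  have q4' : E' ^ 2 ≤ 2 ^ 2 := by gcongr
  have hD : 0 ≤ D := by linarith
  have hD' : 0 ≤ D' := by linarith
  have e1 : q' / 2 * (1 / 2) ^ 2 ≤ D' * E ^ 2 := by gcongr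
  have e2 : E' ^ 2 * D ≤ 2 ^ 2 * (2 * q) := by gcongr
  have e3 : D' * E ^ 2 ≤ 2 * q' * 2 ^ 2 := by gcongr
  have e4 : (1 / 2) ^ 2 * (q / 2) ≤ E' ^ 2 * D := by gcongr
  constructor <;> linarith

lemma aux_fin {Y : ℝ} (hY : 1 ≤ Y) {a d : ℕ} (ha : 0 < a) (hd : 0 < d) (hne : a ≠ d)
    (k1 : (a : ℝ) * d * Y < (a : ℝ) ^ 2 * Y + 1) (k2 : (a : ℝ) ^ 2 * Y < (a : ℝ) * d * Y + 1) :
    False := by
  have ha1 : (1 : ℝ) ≤ a := by exact_mod_cast ha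
  have hd1 : (1 : ℝ) ≤ d := by exact_mod_cast hd
  rcases lt_or_gt_of_ne hne with hlt | hlt
  · have h5 : (a : ℝ) + 1 ≤ d := by exact_mod_cast hlt
    have h6 : (1 : ℝ) ≤ a * (d - a) := one_le_mul_of_one_le_of_one_le ha1 (by linarith)
    have h7 : (1 : ℝ) ≤ a * (d - a) * Y := one_le_mul_of_one_le_of_one_le h6 hY
    linarith [show (a : ℝ) * (d - a) * Y = (a : ℝ) * d * Y - (a : ℝ) ^ 2 * Y by ring]
  · have h5 : (d : ℝ) + 1 ≤ a := by exact_mod_cast hlt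
    have h6 : (1 : ℝ) ≤ a * (a - d) := one_le_mul_of_one_le_of_one_le ha1 (by linarith)
    have h7 : (1 : ℝ) ≤ a * (a - d) * Y := one_le_mul_of_one_le_of_one_le h6 hY
    linarith [show (a : ℝ) * (a - d) * Y = (a : ℝ) ^ 2 * Y - (a : ℝ) * d * Y by ring]

/-- If `N` is not a square then the first family does not vanish identically. -/
theorem exists_xD_ne {N : ℕ} (hN : 0 < N) (hsq : ∀ m : ℕ, m * m ≠ N) :
    ∃ τ : ℍ, ∀ s ∈ SN N, xD N (toM s) τ ≠ 0 := by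
  obtain ⟨Y, hY1, hY⟩ := near_inf
  have hN1 : (1 : ℝ) ≤ N := by exact_mod_cast hN
  have hNY : 0 < N * Y := by positivity
  refine ⟨⟨((N * Y : ℝ) : ℂ) * I, by simpa using hNY⟩, fun s hs h ↦ ?_⟩
  set τ : ℍ := ⟨((N * Y : ℝ) : ℂ) * I, by simpa using hNY⟩ with hτ
  have him : τ.im = N * Y := by simp [hτ, UpperHalfPlane.im]
  obtain ⟨ha, hd⟩ := SN_pos hN hs
  have had := ((mem_SN hN).mp hs).1
  have ha1 : (1 : ℝ) ≤ s.1 := by exact_mod_cast ha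
  have hd1 : (1 : ℝ) ≤ s.2.2 := by exact_mod_cast hd
  have hNad : (N : ℝ) = s.1 * s.2.2 := by exact_mod_cast had.symm
  have him2 : (tact s τ).im = s.1 ^ 2 * Y := by
    rw [im_tact ha hd, him, hNad]
    field_simp
  have hne : s.1 ≠ s.2.2 := fun h' ↦ hsq s.1 (by rw [← had, ← h'])
  rw [xD_eq hN hs] at h
  have hs12 : (1728 : ℂ) * (s.1 : ℂ) ^ 12 ≠ 0 := by
    have : (s.1 : ℂ) ≠ 0 := by exact_mod_cast ha.ne'
    exact mul_ne_zero (by norm_num) (pow_ne_zero _ this)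
  have h1 : discriminant (tact s τ) * E₆ τ ^ 2 = E₆ (tact s τ) ^ 2 * discriminant τ := by
    rcases mul_eq_zero.mp h with h' | h'
    · exact absurd h' hs12
    · linear_combination h'
  have hY0 : 0 ≤ Y := by linarith
  have hy1 : Y ≤ τ.im := by rw [him]; exact le_mul_of_one_le_left hY0 hN1
  have hy2 : Y ≤ (tact s τ).im := by
    rw [him2]; exact le_mul_of_one_le_left hY0 (one_le_pow₀ ha1)
  obtain ⟨p1, p2, p3, p4⟩ := hY τ hy1
  obtain ⟨q1, q2, q3, q4⟩ := hY _ hy2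
  have h2 := congrArg norm h1
  rw [norm_mul, norm_mul, norm_pow, norm_pow] at h2
  have hqτ : 0 ≤ ‖qq τ‖ := norm_nonneg _
  have hqs : 0 ≤ ‖qq (tact s τ)‖ := norm_nonneg _
  obtain ⟨h3, h4⟩ := aux_ratio hqs hqτ q1 q2 p1 p2 p3 p4 q3 q4 h2
  rw [norm_qq, norm_qq, him, him2] at h3 h4
  have h64 : (64 : ℝ) < Real.exp (2 * π * 1) := by
    have e1 : (6 : ℝ) ≤ 2 * π * 1 := by linarith [Real.pi_gt_three]
    have e2 : Real.exp 6 ≤ Real.exp (2 * π * 1) := Real.exp_le_exp.mpr e1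
    have e3 : Real.exp 6 = Real.exp 1 ^ 6 := by
      rw [← Real.exp_nat_mul]; norm_num
    have e4 := Real.exp_one_gt_d9
    have e5 : (2.7 : ℝ) ^ 6 ≤ Real.exp 1 ^ 6 := by gcongr; linarith
    have e6 : (64 : ℝ) < 2.7 ^ 6 := by norm_num
    linarith
  have key : ∀ x y : ℝ, Real.exp (-2 * π * x) ≤ 64 * Real.exp (-2 * π * y) → y < x + 1 := by
    intro x y hxy
    by_contra hcon
    push Not at hcon
    have e1 : Real.exp (-2 * π * x) = Real.exp (2 * π * (y - x)) * Real.exp (-2 * π * y) := by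
      rw [← Real.exp_add]; congr 1; ring
    rw [e1] at hxy
    have e2 := le_of_mul_le_mul_right hxy (Real.exp_pos _)
    have e3 : Real.exp (2 * π * 1) ≤ Real.exp (2 * π * (y - x)) := by
      apply Real.exp_le_exp.mpr
      have := Real.pi_pos
      gcongr
      linarith
    linarith
  have k1 := key _ _ h3
  have k2 := key _ _ h4
  -- `N * Y - s.1 ^ 2 * Y = s.1 * (s.2.2 - s.1) * Y`
  rw [hNad] at k1 k2
  exact aux_fin hY1 ha hd hne k1 k2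

/-- Evaluation at CM points. -/
lemma cm_eval {a b c e : ℤ} {N : ℕ} (hN : 0 < N) (hNe : (N : ℤ) = e ^ 2 - b * e + a * c) (τ : ℍ)
    (h : (a : ℂ) * τ ^ 2 + b * τ + c = 0) : ∃ s ∈ SN N,
      xD N (toM s) τ = 0 ∧ xT N (toM s) τ =
        ((e - b - a * τ) ^ 2 - N) * (E2s τ * (E₄ τ * E₆ τ)) := by
  set g : Matrix (Fin 2) (Fin 2) ℤ := !![e - b, -c; a, e] with hg
  have hdet : g.det = N := by
    rw [hg, Matrix.det_fin_two_of, hNe]; ring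
  have hN' : (0 : ℤ) < N := by exact_mod_cast hN
  have hpos : 0 < g.det := hdet ▸ hN'
  have hNc : (N : ℂ) = (e - b - a * τ) * (a * τ + e) := by
    have : ((N : ℤ) : ℂ) = ((e ^ 2 - b * e + a * c : ℤ) : ℂ) := by rw [hNe]
    push_cast at this
    rw [this]
    linear_combination (a : ℂ) * h
  have hden : denom (toG g) τ = a * τ + e := by
    rw [denom, toG_val hpos]
    simp [hg]
  have hden0 : (a : ℂ) * τ + e ≠ 0 := by rw [← hden]; exact denom_ne_zero _ _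
  have hfix : toG g • τ = τ := by
    have h1 : 0 < (toG g).det.val := by
      rw [Matrix.GeneralLinearGroup.val_det_apply, det_toG hpos]; exact_mod_cast hpos
    ext
    rw [coe_smul_of_det_pos h1, hden, num, toG_val hpos, div_eq_iff hden0]
    simp [hg]
    linear_combination (-1 : ℂ) * h
  have hHA : ∀ (F : ℍ → ℂ) (k : ℕ), HA F k N g τ = (e - b - a * τ) ^ k * F τ := by
    intro F k
    unfold HA
    rw [hfix, hden]
    congr 2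
    rw [div_eq_iff hden0, hNc]
  obtain ⟨s, hs, γ, hγ⟩ := exists_rep hN g hdet
  obtain ⟨ha', hd'⟩ := SN_pos hN hs
  have hposM := det_toM_pos ha' hd'
  have hHA2 : ∀ (F : ℍ → ℂ) (k : ℕ), WInv F k → HA F k N (toM s) τ = (e - b - a * τ) ^ k * F τ := by
    intro F k hF
    rw [← hHA F k, hγ, HA_left hF hposM]
  refine ⟨s, hs, ?_, ?_⟩
  · rw [xD, hHA2 _ _ WInv_E4, hHA2 _ _ WInv_E6]
    ring
  · rw [xT, hHA2 _ _ WInv_E2s]
    ring

end H32.T3
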