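import Pool.Agent.H32.T3.C3

/-!
# Ratios of weight two quantities at commensurable points
-/

open UpperHalfPlane hiding I
open Complex EisensteinSeries ModularForm MatrixGroups
open scoped Real

namespace H32.T3

open Height Height.AdmissibleAbsValues Finset NumberField

/-- The third family. -/
noncomputable def xP (N : ℕ) (A : Matrix (Fin 2) (Fin 2) ℤ) (τ : ℍ) : ℂ :=
  HA (fun τ ↦ E₄ τ) 4 N A τ * E₄ τ ^ 2

/-- The fourth family. -/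
noncomputable def xQ (N : ℕ) (A : Matrix (Fin 2) (Fin 2) ℤ) (τ : ℍ) : ℂ :=
  HA (fun τ ↦ E₆ τ) 6 N A τ * E₆ τ

lemma WInv_xP {N : ℕ} (hN : 0 < N) (k : ℕ) :
    WInv (fun τ ↦ ∑ s ∈ SN N, xP N (toM s) τ ^ k) (12 * k) := by
  have hN' : (0 : ℤ) < N := by exact_mod_cast hN
  refine sum_WInv hN _ (fun A τ ↦ xP N A τ ^ k) (fun A hA γ τ ↦ ?_) (fun A hA γ τ ↦ ?_)
  · have hA' : 0 < A.det := hA ▸ hN'
    simp only [xP, HA_left WInv_E4 hA']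
  · have hA' : 0 < A.det := hA ▸ hN'
    have h4 := WInv_E4 γ τ
    simp only at h4
    simp only [xP, HA_right hA']
    rw [h4]
    have e : denom (γ : GL (Fin 2) ℝ) τ ^ 4 * HA (fun τ ↦ E₄ τ) 4 N (A * γ.1) τ *
        (denom (γ : GL (Fin 2) ℝ) τ ^ 4 * E₄ τ) ^ 2 =
        denom (γ : GL (Fin 2) ℝ) τ ^ 12 *
        (HA (fun τ ↦ E₄ τ) 4 N (A * γ.1) τ * E₄ τ ^ 2) := by ring
    rw [e, mul_pow, ← pow_mul]

lemma WInv_xQ {N : ℕ} (hN : 0 < N) (k : ℕ) :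
    WInv (fun τ ↦ ∑ s ∈ SN N, xQ N (toM s) τ ^ k) (12 * k) := by
  have hN' : (0 : ℤ) < N := by exact_mod_cast hN
  refine sum_WInv hN _ (fun A τ ↦ xQ N A τ ^ k) (fun A hA γ τ ↦ ?_) (fun A hA γ τ ↦ ?_)
  · have hA' : 0 < A.det := hA ▸ hN'
    simp only [xQ, HA_left WInv_E6 hA']
  · have hA' : 0 < A.det := hA ▸ hN'
    have h6 := WInv_E6 γ τ
    simp only at h6
    simp only [xQ, HA_right hA']
    rw [h6]
    have e : denom (γ : GL (Fin 2) ℝ) τ ^ 6 * HA (fun τ ↦ E₆ τ) 6 N (A * γ.1) τ *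
        (denom (γ : GL (Fin 2) ℝ) τ ^ 6 * E₆ τ) =
        denom (γ : GL (Fin 2) ℝ) τ ^ 12 *
        (HA (fun τ ↦ E₆ τ) 6 N (A * γ.1) τ * E₆ τ) := by ring
    rw [e, mul_pow, ← pow_mul]

lemma IntQ_xP {N : ℕ} (hN : 0 < N) (k : ℕ) :
    IntQ (fun τ ↦ ∑ s ∈ SN N, xP N (toM s) τ ^ k) := by
  have e1 : (fun τ ↦ ∑ s ∈ SN N, xP N (toM s) τ ^ k) = fun τ ↦
      (fun τ ↦ E₄ τ) τ ^ (2 * k) * ∑ s ∈ SN N, GG 0 k 0 N (toM s) τ := by
    ext τ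
    rw [mul_sum]
    refine sum_congr rfl fun s _ ↦ ?_
    unfold xP GG
    rw [mul_pow, ← pow_mul, pow_zero, pow_zero, one_mul, mul_one, mul_comm]
  rw [e1]
  exact IntQ.mul (IntQ_E4.pow _) (IntQ_sum _ _ _ hN)

lemma IntQ_xQ {N : ℕ} (hN : 0 < N) (k : ℕ) :
    IntQ (fun τ ↦ ∑ s ∈ SN N, xQ N (toM s) τ ^ k) := by
  have e1 : (fun τ ↦ ∑ s ∈ SN N, xQ N (toM s) τ ^ k) = fun τ ↦
      (fun τ ↦ E₆ τ) τ ^ k * ∑ s ∈ SN N, GG 0 0 k N (toM s) τ := by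
    ext τ
    rw [mul_sum]
    refine sum_congr rfl fun s _ ↦ ?_
    unfold xQ GG
    rw [mul_pow, pow_zero, pow_zero, one_mul, one_mul, mul_comm]
  rw [e1]
  exact IntQ.mul (IntQ_E6.pow _) (IntQ_sum _ _ _ hN)

open Polynomial in
theorem rel_PQ : ∃ K : ℝ, 1 ≤ K ∧ ∀ N : ℕ, 0 < N → ∃ rP rQ : ℕ → ℤ[X],
    rP (SN N).card = C (((SN N).card).factorial : ℤ) ∧
    rQ (SN N).card = C (((SN N).card).factorial : ℤ) ∧
    (∀ i, (rP i).natDegree ≤ 2 * (SN N).card) ∧ (∀ i, (rQ i).natDegree ≤ 2 * (SN N).card) ∧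
    (∀ i, nr (rP i) ≤ Real.exp (K * N ^ 26)) ∧ (∀ i, nr (rQ i) ≤ Real.exp (K * N ^ 26)) ∧
    (∀ (τ : ℍ) (u : ℂ), ∑ i ∈ range ((SN N).card + 1), aeval (jf τ) (rP i) * u ^ i =
        (((SN N).card).factorial : ℂ) *
          ∏ s ∈ SN N, (u - xP N (toM s) τ / discriminant τ ^ 1)) ∧
    (∀ (τ : ℍ) (u : ℂ), ∑ i ∈ range ((SN N).card + 1), aeval (jf τ) (rQ i) * u ^ i =
        (((SN N).card).factorial : ℂ) *
          ∏ s ∈ SN N, (u - xQ N (toM s) τ / discriminant τ ^ 1)) := by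
  obtain ⟨Y, hY1, hY⟩ := near_inf
  obtain ⟨a, ha1, hb, hb'⟩ := line_bounds hY1
  set δ : ℝ := Real.exp (-2 * π * Y) / 2 with hδ
  have hδ0 : 0 < δ := by positivity
  have hΔ : ∀ τ : ℍ, τ.im = Y → δ ≤ ‖discriminant τ‖ := by
    intro τ hτ
    have := (hY τ hτ.ge).1
    rw [norm_qq, hτ] at this
    exact this
  set C0 : ℝ := max 2 (max (2 * a ^ 3 / δ) (a ^ 3)) with hC0
  have h2 : 2 ≤ C0 := le_max_left _ _
  have h3 : 2 * a ^ 3 / δ ≤ C0 := (le_max_left _ _).trans (le_max_right _ _)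
  have h4 : a ^ 3 ≤ C0 := (le_max_right _ _).trans (le_max_right _ _)
  have ha0 : 0 < a := by linarith
  refine ⟨32 * a ^ 6 * C0, ?_, fun N hN ↦ ?_⟩
  · have : 1 ≤ a ^ 6 := one_le_pow₀ ha1
    nlinarith
  have hN1 : (1 : ℝ) ≤ N := by exact_mod_cast hN
  set L : ℝ := 2 * a ^ 6 * N ^ 18 with hL
  have hL1 : 1 ≤ L := by
    have h5 : 1 ≤ a ^ 6 := one_le_pow₀ ha1
    have h6 : (1 : ℝ) ≤ (N : ℝ) ^ 18 := one_le_pow₀ hN1
    rw [hL]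
    nlinarith
  have hY0 : 0 < Y := by linarith
  have e2 : (N : ℝ) ^ 6 ≤ (N : ℝ) ^ 18 := pow_le_pow_right₀ hN1 (by norm_num)
  have hL2 : a ^ 6 * N ^ 18 ≤ L := by
    rw [hL]
    have : 0 ≤ a ^ 6 * (N : ℝ) ^ 18 := by positivity
    linarith
  have hxP : ∀ s ∈ SN N, ∀ τ : ℍ, τ.im = Y → ‖xP N (toM s) τ‖ ≤ L := by
    intro s hs τ hτ
    obtain ⟨-, k2, -⟩ := hb N hN s hs τ hτ
    obtain ⟨-, l2, -⟩ := hb' τ hτ
    rw [xP, norm_mul, norm_pow]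
    calc _ ≤ (a * N ^ 6) * a ^ 2 := by gcongr
      _ = a ^ 3 * N ^ 6 := by ring
      _ ≤ a ^ 6 * N ^ 18 := by
        have e1 : a ^ 3 ≤ a ^ 6 := pow_le_pow_right₀ ha1 (by norm_num)
        gcongr
      _ ≤ L := hL2
  have hxQ : ∀ s ∈ SN N, ∀ τ : ℍ, τ.im = Y → ‖xQ N (toM s) τ‖ ≤ L := by
    intro s hs τ hτ
    obtain ⟨-, -, k3⟩ := hb N hN s hs τ hτ
    obtain ⟨-, -, l3⟩ := hb' τ hτ
    rw [xQ, norm_mul]
    calc _ ≤ (a * N ^ 6) * a := by gcongr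
      _ = a ^ 2 * N ^ 6 := by ring
      _ ≤ a ^ 6 * N ^ 18 := by
        have e1 : a ^ 2 ≤ a ^ 6 := pow_le_pow_right₀ ha1 (by norm_num)
        gcongr
      _ ≤ L := hL2
  obtain ⟨rP, d1, d2, d3, d4⟩ := rel_of hN (xP N) 1 (by norm_num) (IntQ_xP hN)
    (fun k ↦ by rw [one_mul]; exact WInv_xP hN k) hY0 hδ0 hΔ ha1
    (fun τ hτ ↦ (hb' τ hτ).2.1) h2 h3 h4 hL1 hxP
  obtain ⟨rQ, e1, e2, e3, e4⟩ := rel_of hN (xQ N) 1 (by norm_num) (IntQ_xQ hN)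
    (fun k ↦ by rw [one_mul]; exact WInv_xQ hN k) hY0 hδ0 hΔ ha1
    (fun τ hτ ↦ (hb' τ hτ).2.1) h2 h3 h4 hL1 hxQ
  have hM : ((SN N).card : ℝ) ≤ (N : ℝ) ^ 2 := by exact_mod_cast card_SN_le hN
  have hbound : 16 * ((SN N).card : ℝ) ^ 3 * ((SN N).card * L * C0) ≤ 32 * a ^ 6 * C0 * N ^ 26 := by
    have hL0 : 0 ≤ L := by linarith
    have hC00 : 0 ≤ C0 := by linarith
    calc 16 * ((SN N).card : ℝ) ^ 3 * ((SN N).card * L * C0)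
        ≤ 16 * ((N : ℝ) ^ 2) ^ 3 * ((N : ℝ) ^ 2 * L * C0) := by gcongr
      _ = _ := by rw [hL]; ring
  exact ⟨rP, rQ, d1, e1, d2, e2, fun i ↦ (d3 i).trans (Real.exp_le_exp.mpr hbound),
    fun i ↦ (e3 i).trans (Real.exp_le_exp.mpr hbound), d4, e4⟩

/-- Evaluation at commensurable points. -/
lemma ratio_eval {p q r : ℤ} {N : ℕ} (hp : 0 < p) (hr : 0 < r) (hN : (N : ℤ) = p * r) (τ τ' : ℍ)
    (h : (τ' : ℂ) = (p * τ + q) / r) : ∃ s ∈ SN N,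
      xP N (toM s) τ = (p : ℂ) ^ 4 * E₄ τ' * E₄ τ ^ 2 ∧
      xQ N (toM s) τ = (p : ℂ) ^ 6 * E₆ τ' * E₆ τ := by
  have hN0 : 0 < N := by
    have : (0 : ℤ) < N := by rw [hN]; positivity
    exact_mod_cast this
  set g : Matrix (Fin 2) (Fin 2) ℤ := !![p, q; 0, r] with hg
  have hdet : g.det = N := by
    rw [hg, Matrix.det_fin_two_of, hN]; ring
  have hN' : (0 : ℤ) < N := by exact_mod_cast hN0
  have hpos : 0 < g.det := hdet ▸ hN'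
  have hr0 : (r : ℂ) ≠ 0 := by exact_mod_cast hr.ne'
  have hden : denom (toG g) τ = r := by
    rw [denom, toG_val hpos]
    simp [hg]
  have hfix : toG g • τ = τ' := by
    have h1 : 0 < (toG g).det.val := by
      rw [Matrix.GeneralLinearGroup.val_det_apply, det_toG hpos]; exact_mod_cast hpos
    ext
    rw [coe_smul_of_det_pos h1, hden, num, toG_val hpos, h]
    simp [hg]
  have hNc : (N : ℂ) = p * r := by
    have : ((N : ℤ) : ℂ) = ((p * r : ℤ) : ℂ) := by rw [hN]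
    push_cast at this
    exact this
  have hHA : ∀ (F : ℍ → ℂ) (k : ℕ), HA F k N g τ = (p : ℂ) ^ k * F τ' := by
    intro F k
    unfold HA
    rw [hfix, hden, hNc, mul_div_assoc, div_self hr0, mul_one]
  obtain ⟨s, hs, γ, hγ⟩ := exists_rep hN0 g hdet
  obtain ⟨ha', hd'⟩ := SN_pos hN0 hs
  have hposM := det_toM_pos ha' hd'
  have hHA2 : ∀ (F : ℍ → ℂ) (k : ℕ), WInv F k → HA F k N (toM s) τ = (p : ℂ) ^ k * F τ' := by
    intro F k hF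
    rw [← hHA F k, hγ, HA_left hF hposM]
  refine ⟨s, hs, ?_, ?_⟩
  · rw [xP, hHA2 _ _ WInv_E4]
  · rw [xQ, hHA2 _ _ WInv_E6]

end H32.T3
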