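import Pool.Agent.H32.T3.C4
import Pool.Agent.H32.Algebra2

/-!
# Independence in an ultrapower
-/

open UpperHalfPlane hiding I
open Complex EisensteinSeries ModularForm MatrixGroups Manifold
open scoped Real Topology

namespace H32.T3

open Filter

/-- An ultrapower of `ℂ`. -/
def Ult : Type := Germ ((hyperfilter ℕ : Ultrafilter ℕ) : Filter ℕ) ℂ

noncomputable instance : Field Ult :=
  inferInstanceAs (Field (Germ ((hyperfilter ℕ : Ultrafilter ℕ) : Filter ℕ) ℂ))

/-- The class of a sequence. -/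
noncomputable def mkU : (ℕ → ℂ) →+* Ult :=
  Germ.coeRingHom ((hyperfilter ℕ : Ultrafilter ℕ) : Filter ℕ)

noncomputable instance : Algebra ℂ Ult := (mkU.comp (Pi.constRingHom ℕ ℂ)).toAlgebra

lemma algebraMap_Ult (c : ℂ) : algebraMap ℂ Ult c = mkU (fun _ ↦ c) := rfl

lemma mkU_eq_zero {s : ℕ → ℂ} : mkU s = 0 ↔
    ∀ᶠ n in ((hyperfilter ℕ : Ultrafilter ℕ) : Filter ℕ), s n = 0 := by
  change ((s : ℕ → ℂ) : Germ ((hyperfilter ℕ : Ultrafilter ℕ) : Filter ℕ) ℂ) =
    ((0 : ℕ → ℂ) : Germ ((hyperfilter ℕ : Ultrafilter ℕ) : Filter ℕ) ℂ) ↔ _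
  rw [Germ.coe_eq]
  rfl

lemma mkU_zero_of_ev {s : ℕ → ℂ} (h : ∀ᶠ n in atTop, s n = 0) : mkU s = 0 :=
  mkU_eq_zero.mpr (h.filter_mono (by
    rw [← Nat.cofinite_eq_atTop]; exact hyperfilter_le_cofinite))

lemma freq_of_mkU_zero {s : ℕ → ℂ} (h : mkU s = 0) : ∃ᶠ n in atTop, s n = 0 := by
  have h1 := (mkU_eq_zero.mp h).frequently
  refine h1.filter_mono ?_
  rw [← Nat.cofinite_eq_atTop]
  exact hyperfilter_le_cofinite

lemma aeval_mkU {m : ℕ} (v : Fin m → ℕ → ℂ) (P : MvPolynomial (Fin m) ℂ) :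
    MvPolynomial.aeval (fun i ↦ mkU (v i)) P = mkU (fun n ↦ MvPolynomial.aeval (fun i ↦ v i n) P) := by
  induction P using MvPolynomial.induction_on with
  | C c =>
    simp only [MvPolynomial.aeval_C]
    rfl
  | add p q hp hq =>
    simp only [map_add, hp, hq]
    rw [← map_add]
    rfl
  | mul_X p i hp =>
    simp only [map_mul, MvPolynomial.aeval_X, hp]
    rw [← map_mul]
    rfl

lemma aeval_mkUZ {m : ℕ} (v : Fin m → ℕ → ℂ) (P : MvPolynomial (Fin m) ℤ) :
    MvPolynomial.aeval (fun i ↦ mkU (v i)) P = mkU (fun n ↦ MvPolynomial.aeval (fun i ↦ v i n) P) := by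
  induction P using MvPolynomial.induction_on with
  | C c =>
    simp only [MvPolynomial.aeval_C]
    rw [algebraMap_int_eq, algebraMap_int_eq, eq_intCast, eq_intCast, ← map_intCast mkU]
    rfl
  | add p q hp hq =>
    simp only [map_add, hp, hq]
    rw [← map_add]
    rfl
  | mul_X p i hp =>
    simp only [map_mul, MvPolynomial.aeval_X, hp]
    rw [← map_mul]
    rfl

lemma extract_indep' {R A : Type} [Field R] [Field A] [Algebra R A] {ι : Type} [Finite ι]
    (S : ι → A) {B : Set A}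
    (hB : AlgebraicIndependent R (fun b : B ↦ (b : A))) (hBS : B ⊆ Set.range S) {N : ℕ}
    (hN : (N : ℕ∞) ≤ B.encard) :
    ∃ f : Fin N → ι, AlgebraicIndependent R (fun k ↦ S (f k)) := by
  classical
  have hBfin : B.Finite := (Set.finite_range S).subset hBS
  have hfin : Fintype B := hBfin.fintype
  have h6 : Fintype.card (Fin N) ≤ Fintype.card B := by
    rw [Fintype.card_fin, ← Nat.card_eq_fintype_card]
    change N ≤ B.ncard
    rw [hBfin.encard_eq_coe_toFinset_card] at hN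
    rw [Set.ncard_eq_toFinset_card B hBfin]
    exact_mod_cast hN
  obtain ⟨g⟩ := Function.Embedding.nonempty_of_card_le h6
  choose f hf using fun k ↦ hBS (g k).2
  refine ⟨f, ?_⟩
  have h7 := hB.comp g g.injective
  convert h7 using 1
  ext k
  exact hf k

/-- If `w, e2, e4, e6` are independent then three of `w, x, J, φ` are. -/
lemma three_of_four {R A : Type} [Field R] [Field A] [Algebra R A] {w x J φ ψ e2 e4 e6 : A}
    (hX : AlgebraicIndependent R ![w, e2, e4, e6]) {p q : R} (hp : p ≠ 0) (hq : q ≠ 0)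
    (h4 : e4 ≠ 0) (h6 : e6 ≠ 0) (h12 : (1728 : R) ≠ 0) (hA : (ψ - φ) * (w - x) * algebraMap R A p * e6 =
      algebraMap R A q * e4) (hB : J * (e4 ^ 3 - e6 ^ 2) = algebraMap R A 1728 * e4 ^ 3)
    (hC : ψ * e6 = e2 * e4) :
    ∃ f : Fin 3 → Fin 4, AlgebraicIndependent R (fun k ↦ ![w, x, J, φ] (f k)) := by
  set M := AlgebraicIndependent.matroid R A with hM
  set S : Fin 4 → A := ![w, x, J, φ] with hS
  have hind : M.Indep (Set.range ![w, e2, e4, e6]) := by
    rw [hM, AlgebraicIndependent.matroid_indep_iff]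
    exact hX.to_subtype_range
  have hcard : (Set.range ![w, e2, e4, e6]).encard = 4 := by
    rw [← Set.image_univ, hX.injective.encard_image, Set.encard_univ]
    simp
  set D : Subalgebra R A := Algebra.adjoin R (insert ψ (Set.range S)) with hD
  have hgen : ∀ v ∈ insert ψ (Set.range S), IsAlgebraic D v := by
    intro v hv
    exact isAlgebraic_algebraMap (⟨v, Algebra.subset_adjoin hv⟩ : D)
  have aw : IsAlgebraic D w := hgen _ (Set.mem_insert_of_mem _ ⟨0, rfl⟩)
  have ax : IsAlgebraic D x := hgen _ (Set.mem_insert_of_mem _ ⟨1, rfl⟩)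
  have aJ : IsAlgebraic D J := hgen _ (Set.mem_insert_of_mem _ ⟨2, rfl⟩)
  have aφ : IsAlgebraic D φ := hgen _ (Set.mem_insert_of_mem _ ⟨3, rfl⟩)
  have aψ : IsAlgebraic D ψ := hgen _ (Set.mem_insert _ _)
  have aR : ∀ r : R, IsAlgebraic D (algebraMap R A r) := fun r ↦ by
    rw [IsScalarTower.algebraMap_apply R D A]
    exact isAlgebraic_algebraMap _
  have hp' : algebraMap R A p ≠ 0 := (map_ne_zero _).mpr hp
  have hq' : algebraMap R A q ≠ 0 := (map_ne_zero _).mpr hq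
  have h12' : algebraMap R A 1728 ≠ 0 := (map_ne_zero _).mpr h12
  set ρ := e4 / e6 with hρ
  have hρ0 : ρ ≠ 0 := div_ne_zero h4 h6
  have aρ : IsAlgebraic D ρ := by
    have e : ρ = (ψ - φ) * (w - x) * algebraMap R A p * (algebraMap R A q)⁻¹ := by
      rw [hρ, div_eq_iff h6, ← mul_right_inj' hq', ← hA]
      field_simp
    rw [e]
    exact (((aψ.sub aφ).mul (aw.sub ax)).mul (aR p)).mul (aR q).inv
  have hJ0 : J - algebraMap R A 1728 ≠ 0 := by
    intro h0
    have e : J = algebraMap R A 1728 := sub_eq_zero.mp h0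
    rw [e, mul_right_inj' h12'] at hB
    have : e6 ^ 2 = 0 := by linear_combination -hB
    exact pow_ne_zero 2 h6 this
  have a4 : IsAlgebraic D e4 := by
    have e : e4 = J * (J - algebraMap R A 1728)⁻¹ * ρ⁻¹ ^ 2 := by
      rw [hρ]
      field_simp
      linear_combination hB
    rw [e]
    exact (aJ.mul (aJ.sub (aR 1728)).inv).mul (aρ.inv.pow 2)
  have a6 : IsAlgebraic D e6 := by
    have e : e6 = e4 * ρ⁻¹ := by
      rw [hρ]; field_simp
    rw [e]
    exact a4.mul aρ.inv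
  have a2 : IsAlgebraic D e2 := by
    have e : e2 = ψ * ρ⁻¹ := by
      rw [hρ]
      field_simp
      linear_combination -hC
    rw [e]
    exact aψ.mul aρ.inv
  have hsub : Set.range ![w, e2, e4, e6] ⊆ M.closure (insert ψ (Set.range S)) := by
    rw [hM, AlgebraicIndependent.matroid_closure_eq]
    rintro _ ⟨i, rfl⟩
    fin_cases i
    · exact aw
    · exact a2
    · exact a4
    · exact a6
  obtain ⟨B, hB'⟩ := M.exists_isBasis (Set.range S)
  have h1 : (4 : ℕ∞) ≤ M.eRk (insert ψ (Set.range S)) := by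
    rw [← M.eRk_closure_eq, ← hcard]
    exact hind.encard_le_eRk_of_subset hsub
  have h2 : M.eRk (insert ψ (Set.range S)) ≤ B.encard + 1 := by
    rw [← hB'.eRk_eq_encard]
    exact M.eRk_insert_le_add_one _ _
  have h3 : ((3 : ℕ) : ℕ∞) ≤ B.encard := by
    have h5 : (3 : ℕ∞) + 1 ≤ B.encard + 1 := by
      have : (3 : ℕ∞) + 1 = 4 := by norm_num
      rw [this]; exact h1.trans h2
    exact (ENat.add_le_add_iff_right (by simp)).mp h5
  refine extract_indep' S (B := B) ?_ hB'.subset h3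
  have := hB'.indep
  rw [hM, AlgebraicIndependent.matroid_indep_iff] at this
  exact this

/-- Three of `z, conj z, j, φ` are algebraically independent. -/
theorem three_indep : ∃ A : ℕ, ∀ (κ : ℕ), A < κ → ∀ (z : ℂ) (_ : Apx κ z), 0 < z.im →
    ∃ f : Fin 3 → Fin 4, AlgebraicIndependent ℤ (fun k ↦ V4 z (f k)) := by
  obtain ⟨A, hA⟩ := transfer'
  obtain ⟨A', hA'⟩ := e46_ne
  refine ⟨A + A', fun κ hκ z S hz ↦ ?_⟩
  obtain ⟨h4, h6⟩ := hA' κ (by omega) z S hz
  have hT := S.tendsto_ne (by omega)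
  have ev4 : ∀ᶠ n in atTop, e4 (S.t n) ≠ 0 := hT.eventually (e4_ev hz)
  have ev6 : ∀ᶠ n in atTop, e6 (S.t n) ≠ 0 := hT.eventually (e6_ev hz)
  have hpi : (π : ℂ) ≠ 0 := by exact_mod_cast Real.pi_ne_zero
  -- independence
  have hX : AlgebraicIndependent ℂ (![mkU (fun n ↦ (S.t n : ℂ)), mkU (fun n ↦ e2 (S.t n)),
      mkU (fun n ↦ e4 (S.t n)), mkU (fun n ↦ e6 (S.t n))] : Fin 4 → Ult) := by
    rw [algebraicIndependent_iff]
    intro P hP
    have e1 : (![mkU (fun n ↦ (S.t n : ℂ)), mkU (fun n ↦ e2 (S.t n)),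
      mkU (fun n ↦ e4 (S.t n)), mkU (fun n ↦ e6 (S.t n))] : Fin 4 → Ult) =
      fun i ↦ mkU ((![fun n ↦ (S.t n : ℂ), fun n ↦ e2 (S.t n), fun n ↦ e4 (S.t n),
        fun n ↦ e6 (S.t n)] : Fin 4 → ℕ → ℂ) i) := by
      ext i
      fin_cases i <;> rfl
    rw [e1, aeval_mkU] at hP
    have hfr := freq_of_mkU_zero hP
    have hana : AnalyticOnNhd ℂ (fun w ↦ MvPolynomial.aeval (![w, E2 (ofComplex w),
        E₄ (ofComplex w), E₆ (ofComplex w)] : Fin 4 → ℂ) P) upperHalfPlaneSet := by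
      intro w hw
      refine AnalyticAt.aeval_mvPolynomial (fun i ↦ ?_) _
      fin_cases i
      · exact analyticAt_id
      · exact analytic_E2 w hw
      · exact analytic_E4 w hw
      · exact analytic_E6 w hw
    have hfr2 : ∃ᶠ w in 𝓝[≠] z, MvPolynomial.aeval (![w, E2 (ofComplex w),
        E₄ (ofComplex w), E₆ (ofComplex w)] : Fin 4 → ℂ) P = 0 := by
      refine hT.frequently (hfr.mono fun n hn ↦ ?_)
      rw [← hn]
      congr 1
      congr 1
      ext i
      fin_cases i <;> rfl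
    have h0 := hana.eqOn_zero_of_preconnected_of_frequently_eq_zero preconnected_H hz hfr2
    apply indep_H
    intro τ
    have := h0 τ.im_pos
    simpa [ofComplex_apply] using this
  have hne4 : mkU (fun n ↦ e4 (S.t n)) ≠ 0 := by
    intro h0
    obtain ⟨n, h1, h2⟩ := ((freq_of_mkU_zero h0).and_eventually ev4).exists
    exact h2 h1
  have hne6 : mkU (fun n ↦ e6 (S.t n)) ≠ 0 := by
    intro h0
    obtain ⟨n, h1, h2⟩ := ((freq_of_mkU_zero h0).and_eventually ev6).exists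
    exact h2 h1
  have hAA : (mkU (fun n ↦ ps (S.t n)) - mkU (fun n ↦ ph (S.t n))) *
      (mkU (fun n ↦ (S.t n : ℂ)) - mkU (fun n ↦ (starRingEnd ℂ) (S.t n : ℂ))) *
      algebraMap ℂ Ult π * mkU (fun n ↦ e6 (S.t n)) =
      algebraMap ℂ Ult (6 * I) * mkU (fun n ↦ e4 (S.t n)) := by
    rw [algebraMap_Ult, algebraMap_Ult, ← map_sub, ← map_sub, ← map_mul, ← map_mul, ← map_mul,
      ← map_mul, ← sub_eq_zero, ← map_sub]
    refine mkU_zero_of_ev (ev6.mono fun n hn ↦ ?_)
    simp only [Pi.sub_apply, Pi.mul_apply]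
    have hy : ((S.t n : ℂ).im : ℂ) ≠ 0 := by
      have := (S.t n).im_pos
      rw [UpperHalfPlane.coe_im]
      exact_mod_cast this.ne'
    have hw : (S.t n : ℂ) - (starRingEnd ℂ) (S.t n : ℂ) = 2 * I * ((S.t n : ℂ).im : ℂ) := by
      rw [Complex.sub_conj]; push_cast; ring
    rw [hw, ps, ph]
    field_simp
    ring
  have hBB : mkU (fun n ↦ jc (S.t n)) * (mkU (fun n ↦ e4 (S.t n)) ^ 3 -
      mkU (fun n ↦ e6 (S.t n)) ^ 2) = algebraMap ℂ Ult 1728 * mkU (fun n ↦ e4 (S.t n)) ^ 3 := by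
    rw [algebraMap_Ult, ← map_pow, ← map_pow, ← map_sub, ← map_mul, ← map_mul, ← sub_eq_zero,
      ← map_sub]
    refine mkU_zero_of_ev (Eventually.of_forall fun n ↦ ?_)
    simp only [Pi.sub_apply, Pi.mul_apply, Pi.pow_apply]
    rw [jc, div_mul_cancel₀ _ disc_ne, sub_self]
  have hCC : mkU (fun n ↦ ps (S.t n)) * mkU (fun n ↦ e6 (S.t n)) =
      mkU (fun n ↦ e2 (S.t n)) * mkU (fun n ↦ e4 (S.t n)) := by
    rw [← map_mul, ← map_mul, ← sub_eq_zero, ← map_sub]
    refine mkU_zero_of_ev (ev6.mono fun n hn ↦ ?_)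
    simp only [Pi.sub_apply, Pi.mul_apply]
    rw [ps, div_mul_cancel₀ _ hn, sub_self]
  obtain ⟨f, hf⟩ := three_of_four (x := mkU (fun n ↦ (starRingEnd ℂ) (S.t n : ℂ)))
    hX (p := (π : ℂ)) (q := 6 * I) hpi (by simp) hne4 hne6 (by norm_num) hAA hBB hCC
  refine ⟨f, ?_⟩
  rw [algebraicIndependent_iff]
  intro P hP
  have h1 : MvPolynomial.aeval (V4 z) (MvPolynomial.rename f P) = 0 := by
    rw [MvPolynomial.aeval_rename]
    exact hP
  have h2 := hA κ (by omega) z S hz _ h1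
  have e1 : (fun k ↦ (![mkU (fun n ↦ (S.t n : ℂ)), mkU (fun n ↦ (starRingEnd ℂ) (S.t n : ℂ)),
    mkU (fun n ↦ jc (S.t n)), mkU (fun n ↦ ph (S.t n))] : Fin 4 → Ult) (f k)) =
    fun k ↦ mkU (fun n ↦ V4 (S.t n) (f k)) := by
    ext k
    generalize f k = i
    fin_cases i <;> rfl
  rw [e1] at hf
  have h3 : MvPolynomial.aeval (fun k ↦ mkU (fun n ↦ V4 (S.t n) (f k))) P = 0 := by
    rw [aeval_mkUZ]
    refine mkU_zero_of_ev (h2.mono fun n hn ↦ ?_)
    rw [MvPolynomial.aeval_rename] at hn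
    exact hn
  have h4 : MvPolynomial.aeval (fun k ↦ mkU (fun n ↦ V4 (S.t n) (f k)))
      (MvPolynomial.map (Int.castRingHom ℂ) P) = 0 := by
    rw [← h3, ← algebraMap_int_eq, MvPolynomial.aeval_map_algebraMap]
  have h5 := (algebraicIndependent_iff.mp hf) _ h4
  exact (MvPolynomial.map_injective _ (RingHom.injective_int _)) (by rw [h5, map_zero])

end H32.T3
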