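import Pool.Agent.H32.T3.A5

/-!
# Heights of ratios of weight two quantities at commensurable CM points
-/

open UpperHalfPlane hiding I
open Complex EisensteinSeries ModularForm MatrixGroups
open scoped Real

namespace H32.T3

open Height Height.AdmissibleAbsValues Finset NumberField

/-- The logarithmic derivative of `j`, up to sign. -/
noncomputable def Wf (w : ℂ) : ℂ := 2 * π * I * e6 w / e4 w

lemma cm_uv {d w : ℕ} {u : ℤ} {v : ℕ} {s τ : ℂ} (hw : 1 ≤ w) (hs : s ^ 2 = -(d : ℂ))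
    (hτ : τ = (u + v * s) / w) :
    (((w : ℤ) ^ 2 : ℤ) : ℂ) * τ ^ 2 + ((-2 * u * w : ℤ) : ℂ) * τ +
      ((u ^ 2 + (v : ℤ) ^ 2 * d : ℤ) : ℂ) = 0 := by
  have hw0 : (w : ℂ) ≠ 0 := by
    have : w ≠ 0 := by omega
    exact_mod_cast this
  have h1 : (w : ℂ) * τ = u + v * s := by rw [hτ]; field_simp
  push_cast
  linear_combination (w * τ - u + v * s) * h1 + (v : ℂ) ^ 2 * hs

lemma cm_uv_bounds {H d w : ℕ} {u : ℤ} {v : ℕ} (hH : 2 ≤ H) (hd : d ≤ H) (hw1 : 1 ≤ w)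
    (hw : w ≤ H) (hu : |u| ≤ H) (hv : v ≤ H) :
    0 < (w : ℤ) ^ 2 ∧ |(w : ℤ) ^ 2| ≤ (H ^ 4 : ℕ) ∧ |-2 * u * (w : ℤ)| ≤ (H ^ 4 : ℕ) ∧
      |u ^ 2 + (v : ℤ) ^ 2 * d| ≤ (H ^ 4 : ℕ) := by
  have hHz : (2 : ℤ) ≤ H := by exact_mod_cast hH
  have hHz1 : (1 : ℤ) ≤ H := by linarith
  have hwz : (w : ℤ) ≤ H := by exact_mod_cast hw
  have hvz : (v : ℤ) ≤ H := by exact_mod_cast hv
  have hdz : (d : ℤ) ≤ H := by exact_mod_cast hd
  have hw0 : (0 : ℤ) < w := by exact_mod_cast hw1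
  have h24 : (H : ℤ) ^ 2 ≤ (H : ℤ) ^ 4 := pow_le_pow_right₀ hHz1 (by norm_num)
  have h2 : 2 * (H : ℤ) ^ 2 ≤ (H : ℤ) ^ 4 := by
    have : (H : ℤ) ^ 4 = (H : ℤ) ^ 2 * (H : ℤ) ^ 2 := by ring
    rw [this]
    have h3 : (2 : ℤ) ≤ (H : ℤ) ^ 2 := by
      calc (2 : ℤ) ≤ H := hHz
        _ ≤ (H : ℤ) ^ 2 := le_self_pow₀ hHz1 (by norm_num)
    gcongr
  have h3 : (H : ℤ) ^ 2 + (H : ℤ) ^ 3 ≤ (H : ℤ) ^ 4 := by
    have e1 : (H : ℤ) ^ 2 ≤ (H : ℤ) ^ 3 := pow_le_pow_right₀ hHz1 (by norm_num)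
    have e2 : 2 * (H : ℤ) ^ 3 ≤ (H : ℤ) ^ 4 := by
      have : (H : ℤ) ^ 4 = (H : ℤ) * (H : ℤ) ^ 3 := by ring
      rw [this]
      gcongr
    linarith
  refine ⟨by positivity, ?_, ?_, ?_⟩
  · rw [abs_of_nonneg (by positivity)]
    push_cast
    calc (w : ℤ) ^ 2 ≤ (H : ℤ) ^ 2 := by gcongr
      _ ≤ _ := h24
  · rw [abs_mul, abs_mul, abs_neg, abs_two, Nat.abs_cast]
    push_cast
    calc 2 * |u| * (w : ℤ) ≤ 2 * H * H := by gcongr
      _ = 2 * (H : ℤ) ^ 2 := by ring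
      _ ≤ _ := h2
  · rw [abs_of_nonneg (by positivity)]
    push_cast
    have h4 : u ^ 2 ≤ (H : ℤ) ^ 2 := sq_le_sq' (by linarith [neg_abs_le u]) (by linarith [le_abs_self u])
    calc u ^ 2 + (v : ℤ) ^ 2 * d ≤ (H : ℤ) ^ 2 + (H : ℤ) ^ 2 * H := by gcongr
      _ = (H : ℤ) ^ 2 + (H : ℤ) ^ 3 := by ring
      _ ≤ _ := h3

/-- Ratios of weight two quantities at commensurable CM points. -/
theorem ratio_heights : ∃ A : ℕ, ∀ (H d w : ℕ) (u0 u : ℤ) (v0 v : ℕ) (s : ℂ) (τ0 τ : ℍ), 2 ≤ H →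
    d ≤ H → 1 ≤ w → w ≤ H → |u0| ≤ H → |u| ≤ H → 1 ≤ v0 → v0 ≤ H → 1 ≤ v → v ≤ H →
    s ^ 2 = -(d : ℂ) → (τ0 : ℂ) = (u0 + v0 * s) / w → (τ : ℂ) = (u + v * s) / w →
    E₄ τ0 ≠ 0 → E₆ τ0 ≠ 0 → E₄ τ ≠ 0 → E₆ τ ≠ 0 →
    ∃ K : IntermediateField ℚ ℂ, FiniteDimensional ℚ K ∧ Module.finrank ℚ K ≤ H ^ A ∧
      ∀ (L : Type) [Field L] [NumberField L] (σ : L →+* ℂ), (∀ x ∈ K, ∃ y, σ y = x) →
        ∃ β : L, σ β = Wf τ / Wf τ0 ∧ HB ((H : ℝ) ^ A) β := by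
  obtain ⟨A, hA⟩ := cm_heights
  obtain ⟨KK, hKK1, hKK⟩ := rel_PQ
  set k0 : ℕ := ⌈KK⌉₊ with hk0
  have hKk : KK ≤ 2 ^ k0 := by
    have h1 : KK ≤ (k0 : ℝ) := Nat.le_ceil KK
    have h2 : (k0 : ℝ) ≤ 2 ^ k0 := by exact_mod_cast (Nat.lt_two_pow_self (n := k0)).le
    exact h1.trans h2
  refine ⟨k0 + 4 * A + 120, fun H d w u0 u v0 v s τ0 τ hH hd hw1 hw hu0 hu hv01 hv0 hv1 hv hs
    hτ0 hτ h40 h60 h4 h6 ↦ ?_⟩
  have hH1 : 1 ≤ H := by omega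
  obtain ⟨c1, c2, c3, c4⟩ := cm_uv_bounds hH hd hw1 hw hu0 hv0
  have hH4 : 2 ≤ H ^ 4 := hH.trans (Nat.le_self_pow (by norm_num) H)
  obtain ⟨K0, hK0, hK0A, hL0⟩ := hA (H ^ 4) _ _ _ τ0 hH4 c1 c2 c3 c4 (cm_uv hw1 hs hτ0) h60
  -- the matrix
  set p : ℤ := v * w with hp
  set q : ℤ := u * v0 - v * u0 with hq
  set r : ℤ := v0 * w with hr
  set N : ℕ := (v * w) * (v0 * w) with hN
  have hp0 : 0 < p := by rw [hp]; positivity
  have hr0 : 0 < r := by rw [hr]; positivity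
  have hNpr : (N : ℤ) = p * r := by rw [hN, hp, hr]; push_cast; ring
  have hN0 : 0 < N := by rw [hN]; positivity
  have hw0 : (w : ℂ) ≠ 0 := by
    have : w ≠ 0 := by omega
    exact_mod_cast this
  have hv0' : (v0 : ℂ) ≠ 0 := by
    have : v0 ≠ 0 := by omega
    exact_mod_cast this
  have hττ : (τ : ℂ) = (p * τ0 + q) / r := by
    rw [hτ, hτ0, hp, hq, hr]
    push_cast
    field_simp
    ring
  obtain ⟨ss, hss, hsP, hsQ⟩ := ratio_eval hp0 hr0 hNpr τ0 τ hττ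
  obtain ⟨rP, rQ, m1, m2, dP, dQ, nP, nQ, eP, eQ⟩ := hKK N hN0
  set M := (SN N).card with hM
  have hpow : ∀ {i j : ℕ}, i ≤ j → H ^ i ≤ H ^ j := fun hij ↦ Nat.pow_le_pow_right hH1 hij
  have hN4 : N ≤ H ^ 4 := by
    calc N ≤ (H * H) * (H * H) := by rw [hN]; gcongr
      _ = H ^ 4 := by ring
  have hM8 : M ≤ H ^ 8 := by
    calc M ≤ N ^ 2 := card_SN_le hN0
      _ ≤ (H ^ 4) ^ 2 := Nat.pow_le_pow_left hN4 2
      _ = H ^ 8 := by ring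
  have h2M : 2 * M ≤ H ^ 9 := by
    calc 2 * M ≤ H * H ^ 8 := Nat.mul_le_mul hH hM8
      _ = H ^ 9 := by ring
  set S : ℝ := (H : ℝ) ^ (k0 + 104) with hS
  have hHr : (2 : ℝ) ≤ H := by exact_mod_cast hH
  have hHr1 : (1 : ℝ) ≤ H := by linarith
  have hexp : Real.exp (KK * (N : ℝ) ^ 26) ≤ Real.exp S := by
    apply Real.exp_le_exp.mpr
    have h1 : (N : ℝ) ≤ (H : ℝ) ^ 4 := by exact_mod_cast hN4
    calc KK * (N : ℝ) ^ 26 ≤ 2 ^ k0 * ((H : ℝ) ^ 4) ^ 26 := by gcongr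
      _ ≤ (H : ℝ) ^ k0 * ((H : ℝ) ^ 4) ^ 26 := by gcongr
      _ = _ := by rw [hS, ← pow_mul, ← pow_add]
  set P : ℂ := (p : ℂ) ^ 4 * E₄ τ * E₄ τ0 ^ 2 / discriminant τ0 with hP
  set Q : ℂ := (p : ℂ) ^ 6 * E₆ τ * E₆ τ0 / discriminant τ0 with hQ
  have hrelP : ∑ i ∈ range (M + 1), Polynomial.aeval (jf τ0) (rP i) * P ^ i = 0 := by
    rw [eP, prod_eq_zero hss, mul_zero]
    rw [hsP, pow_one, sub_self]
  have hrelQ : ∑ i ∈ range (M + 1), Polynomial.aeval (jf τ0) (rQ i) * Q ^ i = 0 := by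
    rw [eQ, prod_eq_zero hss, mul_zero]
    rw [hsQ, pow_one, sub_self]
  have hfac : ((M.factorial : ℤ)) ≠ 0 := by exact_mod_cast Nat.factorial_ne_zero _
  -- one more root
  have stepr : ∀ (K : IntermediateField ℚ ℂ) (_ : FiniteDimensional ℚ K) (_ : jf τ0 ∈ K)
      (r : ℕ → Polynomial ℤ) (_ : r M = Polynomial.C (M.factorial : ℤ)) (x : ℂ)
      (_ : ∑ i ∈ range (M + 1), Polynomial.aeval (jf τ0) (r i) * x ^ i = 0),
      ∃ K' : IntermediateField ℚ ℂ, K ≤ K' ∧ x ∈ K' ∧ FiniteDimensional ℚ K' ∧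
        Module.finrank ℚ K' ≤ Module.finrank ℚ K * M := by
    intro K hK hj r hr x hx
    set f : Polynomial K := ∑ i ∈ range (M + 1),
      Polynomial.C (Polynomial.aeval (⟨jf τ0, hj⟩ : K) (r i)) * Polynomial.X ^ i with hf
    have hfd : f.natDegree ≤ M := by
      refine Polynomial.natDegree_sum_le_of_forall_le _ _ fun i hi ↦ ?_
      exact (Polynomial.natDegree_C_mul_X_pow_le _ _).trans (Nat.lt_succ_iff.mp (mem_range.mp hi))
    have hcoe : ∀ p : Polynomial ℤ, ((Polynomial.aeval (⟨jf τ0, hj⟩ : K) p : K) : ℂ) =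
        Polynomial.aeval (jf τ0) p := by
      intro p
      have := Polynomial.aeval_algebraMap_apply ℂ (⟨jf τ0, hj⟩ : K) p
      exact this.symm
    have hf0 : f ≠ 0 := by
      intro h0
      have h1 := congrArg (fun p ↦ p.coeff M) h0
      simp only [hf, Polynomial.finsetSum_coeff, Polynomial.coeff_C_mul, Polynomial.coeff_X_pow,
        Polynomial.coeff_zero] at h1
      rw [sum_eq_single M] at h1
      · rw [if_pos rfl, mul_one, hr, Polynomial.aeval_C, algebraMap_int_eq, eq_intCast] at h1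
        exact hfac (by exact_mod_cast h1)
      · intro i _ hi
        rw [if_neg (Ne.symm hi), mul_zero]
      · intro hM
        exact absurd (mem_range.mpr (Nat.lt_succ_self M)) hM
    obtain ⟨K', a1, a2, a3, a4⟩ := one_step K x f hf0 (by
      rw [hf, map_sum, ← hx]
      refine sum_congr rfl fun i _ ↦ ?_
      rw [map_mul, Polynomial.aeval_C, map_pow, Polynomial.aeval_X]
      congr 1
      exact hcoe _)
    exact ⟨K', a1, a2, a3, a4.trans (Nat.mul_le_mul_left _ hfd)⟩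
  have hNF : NumberField K0 := { to_charZero := inferInstance, to_finiteDimensional := hK0 }
  have hjK : jf τ0 ∈ K0 := by
    obtain ⟨t, tb, J, φ, h1, h2, h3, h4, -, -, -, -⟩ := hL0 K0 (algebraMap K0 ℂ)
      (fun x hx ↦ ⟨⟨x, hx⟩, rfl⟩)
    rw [← h3]
    exact J.2
  obtain ⟨K1, hK1, hPK, hf1, hd1⟩ := stepr K0 hK0 hjK rP m1 P hrelP
  obtain ⟨K2, hK2, hQK, hf2, hd2⟩ := stepr K1 hf1 (hK1 hjK) rQ m2 Q hrelQ
  refine ⟨K2, hf2, ?_, fun L _ _ σ hσ ↦ ?_⟩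
  · calc Module.finrank ℚ K2 ≤ ((H ^ 4) ^ A * H ^ 8) * H ^ 8 := by
          refine hd2.trans (Nat.mul_le_mul ?_ hM8)
          exact hd1.trans (Nat.mul_le_mul hK0A hM8)
      _ = H ^ (4 * A + 16) := by ring
      _ ≤ _ := hpow (by omega)
  obtain ⟨t, tb, J, φ, -, -, hJ, -, -, -, bJ, -⟩ := hL0 L σ (fun x hx ↦ hσ x (hK2 (hK1 hx)))
  obtain ⟨yP, hyP⟩ := hσ P (hK2 hPK)
  obtain ⟨yQ, hyQ⟩ := hσ Q hQK
  have hinj : Function.Injective σ := σ.injective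
  set R : ℝ := (H : ℝ) ^ (k0 + 4 * A + 104) with hR
  have hT : (((H ^ 4 : ℕ) : ℝ)) ^ A ≤ R := by
    rw [hR]
    push_cast
    rw [← pow_mul]
    exact pow_le_pow_right₀ hHr1 (by omega)
  have hrp : ∀ {i j : ℕ}, i ≤ j → (H : ℝ) ^ i ≤ (H : ℝ) ^ j := fun hij ↦
    pow_le_pow_right₀ hHr1 hij
  have hSR : S ≤ R := hrp (by omega)
  have hMR : (M : ℝ) ≤ R := by
    have : (M : ℝ) ≤ (H : ℝ) ^ 8 := by exact_mod_cast hM8
    exact this.trans (hrp (by omega))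
  have hDT : ((2 * M : ℕ) : ℝ) * (((H ^ 4 : ℕ) : ℝ)) ^ A ≤ R := by
    have h1 : ((2 * M : ℕ) : ℝ) ≤ (H : ℝ) ^ 9 := by exact_mod_cast h2M
    calc ((2 * M : ℕ) : ℝ) * (((H ^ 4 : ℕ) : ℝ)) ^ A ≤ (H : ℝ) ^ 9 * (((H ^ 4 : ℕ) : ℝ)) ^ A := by
          gcongr
      _ = (H : ℝ) ^ (4 * A + 9) := by push_cast; ring
      _ ≤ R := hrp (by omega)
  have rootb : ∀ (r : ℕ → Polynomial ℤ) (_ : r M = Polynomial.C (M.factorial : ℤ))
      (_ : ∀ i, (r i).natDegree ≤ 2 * M) (_ : ∀ i, nr (r i) ≤ Real.exp (KK * (N : ℝ) ^ 26))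
      (x : ℂ) (_ : ∑ i ∈ range (M + 1), Polynomial.aeval (jf τ0) (r i) * x ^ i = 0)
      (y : L) (_ : σ y = x), HB (3 * R) y := by
    intro r hr hrd hrn x hx y hy
    have h := HB.root (ι := Fin 1) (x := fun _ ↦ J) (fun _ ↦ bJ) (n := M) (fun j ↦ mv (r j))
      (D := 2 * M) (fun j ↦ (deg_mv _).trans (hrd j)) (B := Real.exp S)
      (Real.one_le_exp (by positivity))
      (fun j ↦ (nrm_mv _).trans ((hrn j).trans hexp)) y ?_ ?_
    · refine h.mono ?_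
      rw [Real.log_exp]
      simp only [Fintype.card_fin, Nat.cast_one, one_mul]
      linarith
    · rw [aeval_mv, hr, Polynomial.aeval_C, algebraMap_int_eq, eq_intCast, Int.cast_ne_zero]
      exact hfac
    · apply hinj
      rw [map_zero, map_sum, ← hx]
      refine sum_congr rfl fun i _ ↦ ?_
      rw [aeval_mv, map_mul, map_pow, hy]
      congr 1
      rw [Polynomial.aeval_eq_sum_range, Polynomial.aeval_eq_sum_range, map_sum]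
      refine sum_congr rfl fun k _ ↦ ?_
      rw [zsmul_eq_mul, zsmul_eq_mul, map_mul, map_pow, hJ, map_intCast]
  have bP := rootb rP m1 dP nP P hrelP yP hyP
  have bQ := rootb rQ m2 dQ nQ Q hrelQ yQ hyQ
  have hp2 : HB R ((p ^ 2 : ℤ) : L) := (HB.int (p ^ 2)).mono (by
    have h1 : (p : ℝ) ≤ (H : ℝ) ^ 2 := by
      rw [hp]; push_cast
      have e1 : (v : ℝ) ≤ H := by exact_mod_cast hv
      have e2 : (w : ℝ) ≤ H := by exact_mod_cast hw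
      calc (v : ℝ) * w ≤ H * H := by gcongr
        _ = _ := by ring
    have hp0' : (0 : ℝ) ≤ p := by exact_mod_cast hp0.le
    push_cast
    rw [abs_of_nonneg (by positivity)]
    calc (p : ℝ) ^ 2 ≤ ((H : ℝ) ^ 2) ^ 2 := by gcongr
      _ = (H : ℝ) ^ 4 := by ring
      _ ≤ R := hrp (by omega))
  have h1728 : HB 1728 ((1728 : ℤ) : L) := (HB.int 1728).mono (by norm_num)
  have hβ := ((bQ.div bP).div hp2).mul (bJ.div (bJ.sub h1728))
  refine ⟨_, ?_, hβ.mono ?_⟩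
  · rw [map_mul, map_div₀, map_div₀, map_div₀, map_sub, hyP, hyQ, hJ, map_intCast, map_intCast]
    have hΔ := discriminant_ne_zero τ0
    have hj := jf_sub τ0
    have hj2 := jf_mul τ0
    have hJ1728 : jf τ0 - 1728 ≠ 0 := by
      intro h0
      rw [h0, zero_mul] at hj
      exact pow_ne_zero 2 h60 hj.symm
    have hh : jf τ0 / (jf τ0 - ((1728 : ℤ) : ℂ)) = E₄ τ0 ^ 3 / E₆ τ0 ^ 2 := by
      push_cast
      rw [← hj2, ← hj]
      field_simp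
    rw [hh, hP, hQ, Wf, Wf, e4, e6, e4, e6, ofComplex_apply, ofComplex_apply]
    have hpi : (π : ℂ) ≠ 0 := by exact_mod_cast Real.pi_ne_zero
    have hpc : (p : ℂ) ≠ 0 := by exact_mod_cast hp0.ne'
    have hI := Complex.I_ne_zero
    push_cast
    field_simp
  · have hR1 : 1 ≤ R := one_le_pow₀ hHr1
    have h1 : (2000 : ℝ) ≤ (H : ℝ) ^ 11 := by
      calc (2000 : ℝ) ≤ 2 ^ 11 := by norm_num
        _ ≤ _ := by gcongr
    calc _ ≤ 2000 * R := by linarith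
      _ ≤ (H : ℝ) ^ 11 * R := by gcongr
      _ = (H : ℝ) ^ (k0 + 4 * A + 115) := by rw [hR]; ring
      _ ≤ _ := hrp (by omega)

end H32.T3
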