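import Pool.Agent.H32.T3.A0

/-!
# Newton's identities for families whose power sums are integer polynomials in `j`
-/

open UpperHalfPlane hiding I
open Complex EisensteinSeries ModularForm MatrixGroups
open scoped Real

namespace H32.T3

open Polynomial Finset

/-- `F` is an integer polynomial in `j` of degree at most `d` and norm at most `B`. -/
def JP (d : ℕ) (B : ℝ) (F : ℍ → ℂ) : Prop :=
  ∃ P : ℤ[X], P.natDegree ≤ d ∧ nr P ≤ B ∧ ∀ τ, F τ = aeval (jf τ) P

lemma JP.nonneg {d : ℕ} {B : ℝ} {F : ℍ → ℂ} (h : JP d B F) : 0 ≤ B := by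
  obtain ⟨P, -, h2, -⟩ := h
  exact (nr_nonneg P).trans h2

lemma JP.mono {d d' : ℕ} {B B' : ℝ} {F : ℍ → ℂ} (h : JP d B F) (hd : d ≤ d') (hB : B ≤ B') :
    JP d' B' F := by
  obtain ⟨P, h1, h2, h3⟩ := h
  exact ⟨P, h1.trans hd, h2.trans hB, h3⟩

lemma JP.mul {d d' : ℕ} {B B' : ℝ} {F G : ℍ → ℂ} (hF : JP d B F) (hG : JP d' B' G) :
    JP (d + d') (B * B') (fun τ ↦ F τ * G τ) := by
  have hB := hF.nonneg
  obtain ⟨P, h1, h2, h3⟩ := hF
  obtain ⟨Q, k1, k2, k3⟩ := hG
  refine ⟨P * Q, natDegree_mul_le_of_le h1 k1, (nr_mul_le _ _).trans ?_, fun τ ↦ ?_⟩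
  · have := nr_nonneg Q
    gcongr
  · simp only [map_mul, h3, k3]

lemma JP.const (c : ℤ) : JP 0 |(c : ℝ)| (fun _ ↦ (c : ℂ)) :=
  ⟨C c, by simp, by rw [nr_C], fun τ ↦ by simp⟩

lemma JP.const_mul {d : ℕ} {B : ℝ} {F : ℍ → ℂ} (hF : JP d B F) (c : ℤ) :
    JP d (|(c : ℝ)| * B) (fun τ ↦ c * F τ) := by
  have := (JP.const c).mul hF
  rwa [zero_add] at this

lemma JP.sum {α : Type*} (s : Finset α) {d : ℕ} {B : α → ℝ} {F : α → ℍ → ℂ}
    (h : ∀ i ∈ s, JP d (B i) (F i)) : JP d (∑ i ∈ s, B i) (fun τ ↦ ∑ i ∈ s, F i τ) := by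
  classical
  induction s using Finset.induction_on with
  | empty => exact ⟨0, by simp, by simp [nr_zero], by simp⟩
  | insert i t hi ih =>
    obtain ⟨P, h1, h2, h3⟩ := h i (mem_insert_self _ _)
    obtain ⟨Q, k1, k2, k3⟩ := ih fun j hj ↦ h j (mem_insert_of_mem hj)
    refine ⟨P + Q, (natDegree_add_le _ _).trans (max_le h1 k1), ?_, fun τ ↦ ?_⟩
    · rw [sum_insert hi]
      exact (nr_add_le _ _).trans (add_le_add h2 k2)
    · have e := k3 τ
      simp only at e ⊢
      rw [sum_insert hi, map_add, h3, e]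

variable {S : Type} [Fintype S]

/-- elementary symmetric functions of the values of a family. -/
noncomputable def es (x : S → ℍ → ℂ) (k : ℕ) (τ : ℍ) : ℂ :=
  MvPolynomial.aeval (fun s ↦ x s τ) (MvPolynomial.esymm S ℤ k)

lemma es_zero (x : S → ℍ → ℂ) (τ : ℍ) : es x 0 τ = 1 := by
  simp [es, MvPolynomial.esymm_zero]

lemma es_newton (x : S → ℍ → ℂ) (k : ℕ) (τ : ℍ) : (k : ℂ) * es x k τ =
    (-1) ^ (k + 1) * ∑ a ∈ (Finset.HasAntidiagonal.antidiagonal k).filter (fun a ↦ a.1 < k),
      (-1) ^ a.1 * es x a.1 τ * ∑ s, x s τ ^ a.2 := by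
  have h := congrArg (MvPolynomial.aeval (fun s ↦ x s τ)) (MvPolynomial.mul_esymm_eq_sum S ℤ k)
  simp only [map_mul, map_natCast, map_pow, map_neg, map_one, map_sum, MvPolynomial.psum,
    MvPolynomial.aeval_X] at h
  exact h

lemma newton_JP (x : S → ℍ → ℂ) (c : ℕ) {B : ℝ} (hB : 1 ≤ B)
    (hp : ∀ k, 1 ≤ k → k ≤ Fintype.card S → JP (c * k) B (fun τ ↦ ∑ s, x s τ ^ k)) :
    ∀ k ≤ Fintype.card S, JP (c * k) ((((Fintype.card S).factorial : ℝ) * B) ^ k)
      (fun τ ↦ (k.factorial : ℂ) * es x k τ) := by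
  set M := Fintype.card S with hM
  have hMB : 1 ≤ (M.factorial : ℝ) * B := by
    have : (1 : ℝ) ≤ M.factorial := by exact_mod_cast Nat.one_le_iff_ne_zero.mpr M.factorial_ne_zero
    exact one_le_mul_of_one_le_of_one_le this hB
  intro k
  induction k using Nat.strong_induction_on with | _ k ih =>
  intro hk
  rcases Nat.eq_zero_or_pos k with rfl | hk0
  · refine ⟨1, by simp, ?_, fun τ ↦ ?_⟩
    · rw [nr_one]; simp
    · simp [es_zero]
  -- the terms
  set A := (Finset.HasAntidiagonal.antidiagonal k).filter (fun a ↦ a.1 < k) with hA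
  have hmem : ∀ a ∈ A, a.1 + a.2 = k ∧ a.1 < k := fun a ha ↦ by
    rw [hA, mem_filter, Finset.HasAntidiagonal.mem_antidiagonal] at ha
    exact ha
  set C' : ℕ × ℕ → ℤ := fun a ↦ (-1) ^ (k + 1) * (-1) ^ a.1 *
    (((k - 1).factorial / a.1.factorial : ℕ) : ℤ) with hC'
  have hterm : ∀ a ∈ A, JP (c * k) ((k - 1).factorial * (((M.factorial : ℝ) * B) ^ (k - 1) * B))
      (fun τ ↦ (C' a : ℂ) * (((a.1.factorial : ℂ) * es x a.1 τ) * ∑ s, x s τ ^ a.2)) := by
    intro a ha
    obtain ⟨h1, h2⟩ := hmem a ha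
    have h3 := ih a.1 h2 (by omega)
    have h4 := hp a.2 (by omega) (by omega)
    refine ((h3.mul h4).const_mul (C' a)).mono (le_of_eq ?_) ?_
    · rw [← mul_add, h1]
    · have h5 : |((C' a : ℤ) : ℝ)| ≤ (k - 1).factorial := by
        rw [hC']
        simp only [Int.cast_mul, Int.cast_pow, Int.cast_neg, Int.cast_one, Int.cast_natCast]
        rw [abs_mul, abs_mul, abs_pow, abs_pow, abs_neg, abs_one, one_pow, one_pow, one_mul,
          one_mul, Nat.abs_cast]
        exact_mod_cast Nat.div_le_self _ _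
      have h6 : ((M.factorial : ℝ) * B) ^ a.1 ≤ ((M.factorial : ℝ) * B) ^ (k - 1) :=
        pow_le_pow_right₀ hMB (by omega)
      have h7 : (0 : ℝ) ≤ ((M.factorial : ℝ) * B) ^ a.1 := by positivity
      have h8 : 0 ≤ B := by linarith
      gcongr
  have hsum := JP.sum A hterm
  have heq : (fun τ ↦ (k.factorial : ℂ) * es x k τ) = fun τ ↦ ∑ a ∈ A,
      (C' a : ℂ) * (((a.1.factorial : ℂ) * es x a.1 τ) * ∑ s, x s τ ^ a.2) := by
    ext τ
    have h1 : (k.factorial : ℂ) = ((k - 1).factorial : ℂ) * k := by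
      rw [← Nat.mul_factorial_pred hk0.ne']
      push_cast; ring
    rw [h1, mul_assoc, es_newton, mul_sum, mul_sum]
    refine sum_congr rfl fun a ha ↦ ?_
    obtain ⟨h2, h3⟩ := hmem a ha
    have h4 : (((k - 1).factorial / a.1.factorial : ℕ) : ℂ) * a.1.factorial =
        ((k - 1).factorial : ℂ) := by
      rw [← Nat.cast_mul, Nat.div_mul_cancel (Nat.factorial_dvd_factorial (by omega))]
    rw [hC']
    simp only [Int.cast_mul, Int.cast_pow, Int.cast_neg, Int.cast_one, Int.cast_natCast]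
    rw [← h4]
    ring
  rw [heq]
  refine hsum.mono le_rfl ?_
  rw [sum_const, nsmul_eq_mul]
  have hcard : (A.card : ℝ) ≤ k := by
    have h1 : A.card ≤ k := by
      have h2 : A.image Prod.fst ⊆ range k := by
        intro i hi
        obtain ⟨a, ha, rfl⟩ := mem_image.mp hi
        exact mem_range.mpr (hmem a ha).2
      have h3 : (A.image Prod.fst).card = A.card := by
        refine card_image_of_injOn fun a ha b hb hab ↦ ?_
        have h4 := hmem a ha
        have h5 := hmem b hb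
        ext
        · exact hab
        · have : a.1 = b.1 := hab
          omega
      rw [← h3]
      simpa using card_le_card h2
    exact_mod_cast h1
  have hpow : (0 : ℝ) ≤ ((M.factorial : ℝ) * B) ^ (k - 1) := by positivity
  have hB0 : 0 ≤ B := by linarith
  calc (A.card : ℝ) * ((k - 1).factorial * (((M.factorial : ℝ) * B) ^ (k - 1) * B))
      ≤ k * ((k - 1).factorial * (((M.factorial : ℝ) * B) ^ (k - 1) * B)) := by gcongr
    _ = (k.factorial : ℝ) * B * ((M.factorial : ℝ) * B) ^ (k - 1) := by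
      rw [← Nat.mul_factorial_pred hk0.ne']
      push_cast
      ring
    _ ≤ (M.factorial : ℝ) * B * ((M.factorial : ℝ) * B) ^ (k - 1) := by
      have : (k.factorial : ℝ) ≤ M.factorial := by exact_mod_cast Nat.factorial_le hk
      gcongr
    _ = ((M.factorial : ℝ) * B) ^ k := by
      rw [← pow_succ']
      congr 1
      omega

/-- the polynomial relation satisfied by the members of the family. -/
theorem exists_rel (x : S → ℍ → ℂ) (c : ℕ) {B : ℝ} (hB : 1 ≤ B)
    (hp : ∀ k, 1 ≤ k → k ≤ Fintype.card S → JP (c * k) B (fun τ ↦ ∑ s, x s τ ^ k)) :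
    ∃ r : ℕ → ℤ[X], r (Fintype.card S) = C ((Fintype.card S).factorial : ℤ) ∧
      (∀ i, (r i).natDegree ≤ c * Fintype.card S) ∧
      (∀ i, nr (r i) ≤ (((Fintype.card S).factorial : ℝ) * B) ^ (Fintype.card S + 1)) ∧
      ∀ (τ : ℍ) (u : ℂ), ∑ i ∈ range (Fintype.card S + 1), aeval (jf τ) (r i) * u ^ i =
        ((Fintype.card S).factorial : ℂ) * ∏ s, (u - x s τ) := by
  have hN := newton_JP x c hB hp
  set M := Fintype.card S with hM
  choose! E hE1 hE2 hE3 using hN
  have hMB : 1 ≤ (M.factorial : ℝ) * B := by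
    have : (1 : ℝ) ≤ M.factorial := by exact_mod_cast Nat.one_le_iff_ne_zero.mpr M.factorial_ne_zero
    exact one_le_mul_of_one_le_of_one_le this hB
  -- coefficient `i` is `(-1)^(M-i) M!/(M-i)! E_{M-i}`
  set r : ℕ → ℤ[X] := fun i ↦ if i = M then C (M.factorial : ℤ) else
    if i < M then C ((-1) ^ (M - i) * ((M.factorial / (M - i).factorial : ℕ) : ℤ)) * E (M - i)
    else 0 with hr
  refine ⟨r, by simp [hr], fun i ↦ ?_, fun i ↦ ?_, fun τ u ↦ ?_⟩
  · rw [hr]
    simp only
    split_ifs with h1 h2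
    · simp
    · refine (natDegree_C_mul_le _ _).trans ((hE1 (M - i) (by omega)).trans ?_)
      gcongr
      omega
    · simp
  · rw [hr]
    simp only
    have hpow : (1 : ℝ) ≤ ((M.factorial : ℝ) * B) ^ (M + 1) := one_le_pow₀ hMB
    split_ifs with h1 h2
    · rw [nr_C, pow_succ]
      have h3 : (1 : ℝ) ≤ ((M.factorial : ℝ) * B) ^ M := one_le_pow₀ hMB
      rw [Int.cast_natCast, Nat.abs_cast]
      have h4 : (M.factorial : ℝ) ≤ M.factorial * B := le_mul_of_one_le_right (by positivity) hB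
      exact h4.trans (le_mul_of_one_le_left (by linarith) h3)
    · refine (nr_mul_le _ _).trans ?_
      rw [nr_C]
      have h3 : |(((-1) ^ (M - i) * ((M.factorial / (M - i).factorial : ℕ) : ℤ) : ℤ) : ℝ)| ≤
          M.factorial * B := by
        simp only [Int.cast_mul, Int.cast_pow, Int.cast_neg, Int.cast_one, Int.cast_natCast]
        rw [abs_mul, abs_pow, abs_neg, abs_one, one_pow, one_mul, Nat.abs_cast]
        have h4 : ((M.factorial / (M - i).factorial : ℕ) : ℝ) ≤ M.factorial := by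
          exact_mod_cast Nat.div_le_self _ _
        exact h4.trans (le_mul_of_one_le_right (by positivity) hB)
      have h4 := hE2 (M - i) (by omega)
      have h5 : ((M.factorial : ℝ) * B) ^ (M - i) ≤ ((M.factorial : ℝ) * B) ^ M :=
        pow_le_pow_right₀ hMB (by omega)
      calc _ ≤ (M.factorial * B) * ((M.factorial : ℝ) * B) ^ M := by
            have := nr_nonneg (E (M - i))
            have h6 := h4.trans h5
            gcongr
        _ = _ := by rw [pow_succ]; ring
    · rw [nr_zero]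
      linarith
  · -- Vieta
    have hV := congrArg (Polynomial.map (MvPolynomial.aeval (fun s ↦ -x s τ) :
      MvPolynomial S ℤ →ₐ[ℤ] ℂ).toRingHom) (MvPolynomial.prod_C_add_X_eq_sum_esymm ℤ S)
    have hV2 := congrArg (Polynomial.eval u) hV
    rw [Polynomial.map_prod, Polynomial.eval_prod, Polynomial.map_sum,
      Polynomial.eval_finsetSum] at hV2
    simp only [Polynomial.map_add, Polynomial.map_mul, Polynomial.map_pow, Polynomial.map_X,
      Polynomial.map_C, eval_add, eval_mul, eval_pow, eval_X, eval_C, AlgHom.toRingHom_eq_coe,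
      RingHom.coe_coe, MvPolynomial.aeval_X] at hV2
    have hes : ∀ j, MvPolynomial.aeval (fun s ↦ -x s τ) (MvPolynomial.esymm S ℤ j) =
        (-1) ^ j * es x j τ := by
      intro j
      rw [es, MvPolynomial.esymm, map_sum, map_sum, mul_sum]
      refine sum_congr rfl fun t ht ↦ ?_
      rw [map_prod, map_prod]
      simp only [MvPolynomial.aeval_X]
      rw [prod_neg, (mem_powersetCard.mp ht).2]
    have hprod : ∏ s, (u - x s τ) = ∑ j ∈ range (M + 1), (-1) ^ j * es x j τ * u ^ (M - j) := by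
      calc ∏ s, (u - x s τ) = ∏ s, (u + -x s τ) := by simp only [sub_eq_add_neg]
        _ = _ := by
          rw [hV2]
          refine sum_congr rfl fun j _ ↦ ?_
          rw [hes]
    rw [hprod, mul_sum, ← sum_range_reflect]
    refine sum_congr rfl fun j hj ↦ ?_
    have hj' : j ≤ M := Nat.lt_succ_iff.mp (mem_range.mp hj)
    have e1 : M + 1 - 1 - j = M - j := by omega
    rw [e1]
    rcases Nat.eq_zero_or_pos j with rfl | hj0
    · simp [hr, es_zero]
    · have h1 : M - j ≠ M := by omega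
      have h2 : M - j < M := by omega
      have h3 : M - (M - j) = j := by omega
      rw [hr]
      simp only [if_neg h1, if_pos h2]
      rw [h3, map_mul, aeval_C, ← hE3 j hj' τ]
      have h4 : ((M.factorial / j.factorial : ℕ) : ℂ) * j.factorial = (M.factorial : ℂ) := by
        rw [← Nat.cast_mul, Nat.div_mul_cancel (Nat.factorial_dvd_factorial hj')]
      rw [algebraMap_int_eq, eq_intCast]
      simp only [Int.cast_mul, Int.cast_pow, Int.cast_neg, Int.cast_one, Int.cast_natCast]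
      rw [← h4]
      ring

end H32.T3
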