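import Pool.Agent.H32.T3.A1
import Pool.Agent.H32.Bounds

/-!
# The two families attached to integer matrices of determinant `N`
-/

open UpperHalfPlane hiding I
open Complex EisensteinSeries ModularForm MatrixGroups
open scoped Real

namespace H32.T3

open Polynomial Finset

/-- Sup bounds on a horizontal line. -/
lemma line_bounds {Y : ℝ} (hY : 1 ≤ Y) : ∃ C : ℝ, 1 ≤ C ∧ (∀ N : ℕ, 0 < N → ∀ s ∈ SN N,
    ∀ τ : ℍ, τ.im = Y → ‖HA E2s 2 N (toM s) τ‖ ≤ C * N ^ 6 ∧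
      ‖HA (fun τ ↦ E₄ τ) 4 N (toM s) τ‖ ≤ C * N ^ 6 ∧
      ‖HA (fun τ ↦ E₆ τ) 6 N (toM s) τ‖ ≤ C * N ^ 6) ∧
    ∀ τ : ℍ, τ.im = Y → ‖E2s τ‖ ≤ C ∧ ‖E₄ τ‖ ≤ C ∧ ‖E₆ τ‖ ≤ C := by
  obtain ⟨C2, h2⟩ := E2s_bound
  obtain ⟨C4, h4⟩ := ModularFormClass.exists_bound (by norm_num : (0 : ℤ) ≤ 4) E₄
  obtain ⟨C6, h6⟩ := ModularFormClass.exists_bound (by norm_num : (0 : ℤ) ≤ 6) E₆
  have hc2 := abs_nonneg C2
  have hc4 := abs_nonneg C4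
  have hc6 := abs_nonneg C6
  have hY0 : 0 < Y := by linarith
  have hmain : ∀ N : ℕ, 0 < N → ∀ s ∈ SN N,
    ∀ τ : ℍ, τ.im = Y → ‖HA E2s 2 N (toM s) τ‖ ≤ |C2| * N ^ 6 ∧
      ‖HA (fun τ ↦ E₄ τ) 4 N (toM s) τ‖ ≤ |C4| * N ^ 6 ∧
      ‖HA (fun τ ↦ E₆ τ) 6 N (toM s) τ‖ ≤ |C6| * N ^ 6 := by
    intro N hN s hs τ hτ
    obtain ⟨ha, hd⟩ := SN_pos hN hs
    have h1 := ((mem_SN hN).mp hs).1
    have him : (tact s τ).im = s.1 * Y / s.2.2 := by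
      rw [im_tact ha hd, hτ]
    have ha1 : (1 : ℝ) ≤ s.1 := by exact_mod_cast ha
    have hd1 : (1 : ℝ) ≤ s.2.2 := by exact_mod_cast hd
    have haN : (s.1 : ℝ) ≤ N := by exact_mod_cast Nat.le_of_dvd hN ⟨_, h1.symm⟩
    have hdN : (s.2.2 : ℝ) ≤ N := by
      exact_mod_cast Nat.le_of_dvd hN ⟨s.1, by rw [mul_comm]; exact h1.symm⟩
    have hN1 : (1 : ℝ) ≤ N := by exact_mod_cast hN
    have key : ∀ (k : ℕ) (x C : ℝ), k ≤ 6 → x ≤ C * max 1 (1 / (s.1 * Y / s.2.2 : ℝ) ^ k) →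
        (s.1 : ℝ) ^ k * x ≤ |C| * N ^ 6 := by
      intro k x C hk hx
      have h3 : x ≤ |C| * max 1 (1 / ((s.1 : ℝ) / s.2.2) ^ k) := by
        refine hx.trans ?_
        have h5 : (0 : ℝ) < (s.1 : ℝ) / s.2.2 := by positivity
        have h6 : ((s.1 : ℝ) / s.2.2) ≤ s.1 * Y / s.2.2 := by
          rw [mul_div_right_comm]
          exact le_mul_of_one_le_right h5.le hY
        have h4 : max 1 (1 / (s.1 * Y / s.2.2 : ℝ) ^ k) ≤ max 1 (1 / ((s.1 : ℝ) / s.2.2) ^ k) := by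
          gcongr
        calc C * max 1 (1 / (s.1 * Y / s.2.2 : ℝ) ^ k)
            ≤ |C| * max 1 (1 / (s.1 * Y / s.2.2 : ℝ) ^ k) := by
              gcongr
              exact le_abs_self _
          _ ≤ _ := by gcongr
      have := aux_bound hk ha1 hd1 haN hdN h3
      rwa [abs_abs] at this
    rw [HA_toM _ _ hN hs, HA_toM _ _ hN hs, HA_toM _ _ hN hs]
    simp only [norm_mul, norm_pow, Complex.norm_natCast]
    refine ⟨?_, ?_, ?_⟩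
    · have e := h2 (tact s τ)
      rw [him] at e
      exact key 2 _ _ (by norm_num) e
    · have e := h4 (tact s τ)
      rw [him] at e
      exact key 4 _ _ (by norm_num) (by exact_mod_cast e)
    · have e := h6 (tact s τ)
      rw [him] at e
      exact key 6 _ _ (by norm_num) (by exact_mod_cast e)
  refine ⟨1 + |C2| + |C4| + |C6|, by linarith, fun N hN s hs τ hτ ↦ ?_, fun τ hτ ↦ ?_⟩
  · obtain ⟨k1, k2, k3⟩ := hmain N hN s hs τ hτ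
    have hN6 : (0 : ℝ) ≤ (N : ℝ) ^ 6 := by positivity
    refine ⟨k1.trans ?_, k2.trans ?_, k3.trans ?_⟩
    · gcongr; linarith
    · gcongr; linarith
    · gcongr; linarith
  · have hmem : (1, 0, 1) ∈ SN 1 := by rw [mem_SN one_pos]; simp
    have e := hmain 1 one_pos _ hmem τ hτ
    have ht : tact (1, 0, 1) τ = τ := by
      ext
      rw [coe_tact (by norm_num) (by norm_num)]
      simp
    rw [HA_toM _ _ one_pos hmem, HA_toM _ _ one_pos hmem, HA_toM _ _ one_pos hmem, ht] at e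
    simp only [Nat.cast_one, one_pow, one_mul, mul_one] at e
    obtain ⟨k1, k2, k3⟩ := e
    refine ⟨by linarith, by linarith, by linarith⟩

lemma IntQ_to_JP {t : ℝ} (ht : 0 < t) {δ a : ℝ} (hδ : 0 < δ)
    (hΔ : ∀ τ : ℍ, τ.im = t → δ ≤ ‖discriminant τ‖) (ha1 : 1 ≤ a)
    (ha : ∀ τ : ℍ, τ.im = t → ‖E₄ τ‖ ≤ a) {C : ℝ} (hC : 2 ≤ C) (hC' : 2 * a ^ 3 / δ ≤ C)
    (hC'' : a ^ 3 ≤ C) {M : ℕ} {F : ℍ → ℂ} {B : ℝ} (h1 : IntQ F) (h2 : WInv F (12 * M))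
    (h3 : ∀ τ : ℍ, τ.im = t → ‖F τ‖ ≤ B) :
    JP M (B * C ^ (2 * M ^ 2)) (fun τ ↦ F τ / discriminant τ ^ M) := by
  obtain ⟨f, hf⟩ := exists_modForm h1 h2
  have hf' : IntQ (fun τ ↦ f τ) := by
    have : (fun τ ↦ f τ) = F := funext hf
    rw [this]; exact h1
  obtain ⟨P, hP1, hP2, hP3⟩ := exists_polyJ ht hδ hΔ ha1 ha hC hC' hC'' M f B
    (intPS_of_intQ f hf') (fun τ hτ ↦ by rw [hf]; exact h3 τ hτ)
  refine ⟨P, hP1, hP2, fun τ ↦ ?_⟩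
  have hd : discriminant τ ^ M ≠ 0 := pow_ne_zero _ (discriminant_ne_zero τ)
  simp only
  rw [div_eq_iff hd, ← hP3 τ, hf]

/-- The first family. -/
noncomputable def xD (N : ℕ) (A : Matrix (Fin 2) (Fin 2) ℤ) (τ : ℍ) : ℂ :=
  HA (fun τ ↦ E₄ τ) 4 N A τ ^ 3 * E₆ τ ^ 2 - HA (fun τ ↦ E₆ τ) 6 N A τ ^ 2 * E₄ τ ^ 3

/-- The second family. -/
noncomputable def xT (N : ℕ) (A : Matrix (Fin 2) (Fin 2) ℤ) (τ : ℍ) : ℂ :=
  (HA E2s 2 N A τ - N * E2s τ) * (E₄ τ * E₆ τ)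

lemma WInv_xD {N : ℕ} (hN : 0 < N) (k : ℕ) :
    WInv (fun τ ↦ ∑ s ∈ SN N, xD N (toM s) τ ^ k) (12 * (2 * k)) := by
  have hN' : (0 : ℤ) < N := by exact_mod_cast hN
  refine sum_WInv hN _ (fun A τ ↦ xD N A τ ^ k) (fun A hA γ τ ↦ ?_) (fun A hA γ τ ↦ ?_)
  · have hA' : 0 < A.det := hA ▸ hN'
    simp only [xD, HA_left WInv_E4 hA', HA_left WInv_E6 hA']
  · have hA' : 0 < A.det := hA ▸ hN'
    have h4 := WInv_E4 γ τ
    have h6 := WInv_E6 γ τ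
    simp only at h4 h6
    simp only [xD, HA_right hA']
    rw [h4, h6]
    have e : (denom (γ : GL (Fin 2) ℝ) τ ^ 4 * HA (fun τ ↦ E₄ τ) 4 N (A * γ.1) τ) ^ 3 *
        (denom (γ : GL (Fin 2) ℝ) τ ^ 6 * E₆ τ) ^ 2 -
        (denom (γ : GL (Fin 2) ℝ) τ ^ 6 * HA (fun τ ↦ E₆ τ) 6 N (A * γ.1) τ) ^ 2 *
        (denom (γ : GL (Fin 2) ℝ) τ ^ 4 * E₄ τ) ^ 3 = denom (γ : GL (Fin 2) ℝ) τ ^ 24 *
        (HA (fun τ ↦ E₄ τ) 4 N (A * γ.1) τ ^ 3 * E₆ τ ^ 2 -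
          HA (fun τ ↦ E₆ τ) 6 N (A * γ.1) τ ^ 2 * E₄ τ ^ 3) := by ring
    rw [e, mul_pow, ← pow_mul]
    congr 2
    ring

lemma WInv_xT {N : ℕ} (hN : 0 < N) (k : ℕ) :
    WInv (fun τ ↦ ∑ s ∈ SN N, xT N (toM s) τ ^ k) (12 * k) := by
  have hN' : (0 : ℤ) < N := by exact_mod_cast hN
  refine sum_WInv hN _ (fun A τ ↦ xT N A τ ^ k) (fun A hA γ τ ↦ ?_) (fun A hA γ τ ↦ ?_)
  · have hA' : 0 < A.det := hA ▸ hN'
    simp only [xT, HA_left WInv_E2s hA']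
  · have hA' : 0 < A.det := hA ▸ hN'
    have h4 := WInv_E4 γ τ
    have h6 := WInv_E6 γ τ
    have h2 := WInv_E2s γ τ
    simp only at h4 h6
    simp only [xT, HA_right hA']
    rw [h4, h6, h2]
    have e : (denom (γ : GL (Fin 2) ℝ) τ ^ 2 * HA E2s 2 N (A * γ.1) τ -
        N * (denom (γ : GL (Fin 2) ℝ) τ ^ 2 * E2s τ)) *
        (denom (γ : GL (Fin 2) ℝ) τ ^ 4 * E₄ τ * (denom (γ : GL (Fin 2) ℝ) τ ^ 6 * E₆ τ)) =
        denom (γ : GL (Fin 2) ℝ) τ ^ 12 *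
        ((HA E2s 2 N (A * γ.1) τ - N * E2s τ) * (E₄ τ * E₆ τ)) := by ring
    rw [e, mul_pow, ← pow_mul]

lemma IntQ_xD {N : ℕ} (hN : 0 < N) (k : ℕ) :
    IntQ (fun τ ↦ ∑ s ∈ SN N, xD N (toM s) τ ^ k) := by
  have e1 : (fun τ ↦ ∑ s ∈ SN N, xD N (toM s) τ ^ k) = fun τ ↦
      ∑ m ∈ range (k + 1), ((((-1) ^ (k - m) * (k.choose m : ℤ) : ℤ)) : ℂ) *
        (((fun τ ↦ E₆ τ) τ ^ (2 * m) * (fun τ ↦ E₄ τ) τ ^ (3 * (k - m))) *
        ∑ s ∈ SN N, GG 0 (3 * m) (2 * (k - m)) N (toM s) τ) := by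
    ext τ
    simp_rw [mul_sum]
    rw [sum_comm]
    refine sum_congr rfl fun s _ ↦ ?_
    rw [xD, sub_eq_add_neg, add_pow]
    refine sum_congr rfl fun m _ ↦ ?_
    unfold GG
    rw [pow_zero, one_mul, neg_pow (HA (fun τ ↦ E₆ τ) 6 N (toM s) τ ^ 2 * E₄ τ ^ 3), mul_pow,
      mul_pow, ← pow_mul, ← pow_mul, ← pow_mul, ← pow_mul]
    push_cast
    ring
  rw [e1]
  refine IntQ.sum fun m _ ↦ IntQ.mul (IntQ.const _) (IntQ.mul ?_ (IntQ_sum _ _ _ hN))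
  exact (IntQ_E6.pow _).mul (IntQ_E4.pow _)

lemma IntQ_xT {N : ℕ} (hN : 0 < N) (k : ℕ) :
    IntQ (fun τ ↦ ∑ s ∈ SN N, xT N (toM s) τ ^ k) := by
  have e1 : (fun τ ↦ ∑ s ∈ SN N, xT N (toM s) τ ^ k) = fun τ ↦
      ((fun τ ↦ E₄ τ) τ * (fun τ ↦ E₆ τ) τ) ^ k * ∑ s ∈ SN N, GG k 0 0 N (toM s) τ := by
    ext τ
    rw [mul_sum]
    refine sum_congr rfl fun s _ ↦ ?_
    unfold xT GG
    rw [mul_pow]
    ring
  rw [e1]
  exact IntQ.mul ((IntQ_E4.mul IntQ_E6).pow _) (IntQ_sum _ _ _ hN)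

lemma rel_of {N : ℕ} (hN : 0 < N) (x : Matrix (Fin 2) (Fin 2) ℤ → ℍ → ℂ) (c : ℕ) (hc : c ≤ 2)
    (h1 : ∀ k, IntQ (fun τ ↦ ∑ s ∈ SN N, x (toM s) τ ^ k))
    (h2 : ∀ k, WInv (fun τ ↦ ∑ s ∈ SN N, x (toM s) τ ^ k) (12 * (c * k)))
    {t : ℝ} (ht : 0 < t) {δ a : ℝ} (hδ : 0 < δ)
    (hΔ : ∀ τ : ℍ, τ.im = t → δ ≤ ‖discriminant τ‖) (ha1 : 1 ≤ a)
    (ha : ∀ τ : ℍ, τ.im = t → ‖E₄ τ‖ ≤ a) {C0 : ℝ} (hC : 2 ≤ C0) (hC' : 2 * a ^ 3 / δ ≤ C0)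
    (hC'' : a ^ 3 ≤ C0) {L : ℝ} (hL : 1 ≤ L)
    (h3 : ∀ s ∈ SN N, ∀ τ : ℍ, τ.im = t → ‖x (toM s) τ‖ ≤ L) :
    ∃ r : ℕ → ℤ[X], r (SN N).card = C (((SN N).card).factorial : ℤ) ∧
      (∀ i, (r i).natDegree ≤ 2 * (SN N).card) ∧
      (∀ i, nr (r i) ≤ Real.exp (16 * (SN N).card ^ 3 * ((SN N).card * L * C0))) ∧
      ∀ (τ : ℍ) (u : ℂ), ∑ i ∈ range ((SN N).card + 1), aeval (jf τ) (r i) * u ^ i =
        (((SN N).card).factorial : ℂ) * ∏ s ∈ SN N, (u - x (toM s) τ / discriminant τ ^ c) := by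
  set M := (SN N).card with hM
  have hM1 : 1 ≤ M := by
    rw [hM, Nat.one_le_iff_ne_zero, card_ne_zero]
    exact ⟨(1, 0, N), by rw [mem_SN hN]; simp [hN]⟩
  have hM1' : (1 : ℝ) ≤ M := by exact_mod_cast hM1
  have hC1 : 1 ≤ C0 := by linarith
  set B : ℝ := M * L ^ M * C0 ^ (8 * M ^ 2) with hB
  have hB1 : 1 ≤ B := one_le_mul_of_one_le_of_one_le
    (one_le_mul_of_one_le_of_one_le hM1' (one_le_pow₀ hL)) (one_le_pow₀ hC1)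
  have hcard : Fintype.card {s // s ∈ SN N} = M := Fintype.card_coe _
  have hp : ∀ k, 1 ≤ k → k ≤ Fintype.card {s // s ∈ SN N} → JP (c * k) B
      (fun τ ↦ ∑ s : {s // s ∈ SN N}, (fun s τ ↦ x (toM s.1) τ / discriminant τ ^ c) s τ ^ k) := by
    intro k hk1 hk
    rw [hcard] at hk
    have h4 : ∀ τ : ℍ, τ.im = t → ‖∑ s ∈ SN N, x (toM s) τ ^ k‖ ≤ M * L ^ M := by
      intro τ hτ
      refine (norm_sum_le _ _).trans ?_
      calc ∑ s ∈ SN N, ‖x (toM s) τ ^ k‖ ≤ ∑ _s ∈ SN N, L ^ M := by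
            refine sum_le_sum fun s hs ↦ ?_
            rw [norm_pow]
            calc ‖x (toM s) τ‖ ^ k ≤ L ^ k := by
                  have := h3 s hs τ hτ
                  gcongr
              _ ≤ L ^ M := pow_le_pow_right₀ hL hk
        _ = M * L ^ M := by rw [sum_const, nsmul_eq_mul]
    have h5 := IntQ_to_JP ht hδ hΔ ha1 ha hC hC' hC'' (h1 k) (h2 k) h4
    have heq : (fun τ ↦ ∑ s : {s // s ∈ SN N},
        (fun s τ ↦ x (toM s.1) τ / discriminant τ ^ c) s τ ^ k) =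
        fun τ ↦ (∑ s ∈ SN N, x (toM s) τ ^ k) / discriminant τ ^ (c * k) := by
      ext τ
      rw [← sum_coe_sort (SN N) (fun s ↦ x (toM s) τ ^ k), sum_div]
      refine sum_congr rfl fun s _ ↦ ?_
      simp only
      rw [div_pow, ← pow_mul]
    rw [heq]
    refine h5.mono le_rfl ?_
    rw [hB]
    have e1 : 2 * (c * k) ^ 2 ≤ 8 * M ^ 2 := by
      have : c * k ≤ 2 * M := Nat.mul_le_mul hc hk
      calc 2 * (c * k) ^ 2 ≤ 2 * (2 * M) ^ 2 := by gcongr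
        _ = 8 * M ^ 2 := by ring
    have e2 : C0 ^ (2 * (c * k) ^ 2) ≤ C0 ^ (8 * M ^ 2) := pow_le_pow_right₀ hC1 e1
    gcongr
  obtain ⟨r, hr1, hr2, hr3, hr4⟩ := exists_rel
    (fun (s : {s // s ∈ SN N}) τ ↦ x (toM s.1) τ / discriminant τ ^ c) c hB1 hp
  rw [hcard] at hr1 hr2 hr3 hr4
  refine ⟨r, hr1, fun i ↦ (hr2 i).trans (Nat.mul_le_mul_right _ hc), fun i ↦ (hr3 i).trans ?_,
    fun τ u ↦ ?_⟩
  · have h4 : (M.factorial : ℝ) ≤ (M : ℝ) ^ M := by exact_mod_cast Nat.factorial_le_pow M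
    have h5 : (M.factorial : ℝ) * B ≤ (M * L * C0) ^ (8 * M ^ 2) := by
      calc (M.factorial : ℝ) * B ≤ (M : ℝ) ^ M * (M * L ^ M * C0 ^ (8 * M ^ 2)) := by
            rw [hB]; gcongr
        _ = (M : ℝ) ^ (M + 1) * L ^ M * C0 ^ (8 * M ^ 2) := by ring
        _ ≤ (M : ℝ) ^ (8 * M ^ 2) * L ^ (8 * M ^ 2) * C0 ^ (8 * M ^ 2) := by
            have e1 : M + 1 ≤ 8 * M ^ 2 := by nlinarith
            have e2 : (M : ℝ) ^ (M + 1) ≤ (M : ℝ) ^ (8 * M ^ 2) := pow_le_pow_right₀ hM1' e1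
            have e3 : L ^ M ≤ L ^ (8 * M ^ 2) := pow_le_pow_right₀ hL (by omega)
            gcongr
        _ = _ := by rw [mul_pow, mul_pow]
    have h6 : (1 : ℝ) ≤ M * L * C0 :=
      one_le_mul_of_one_le_of_one_le (one_le_mul_of_one_le_of_one_le hM1' hL) hC1
    calc ((M.factorial : ℝ) * B) ^ (M + 1) ≤ ((M * L * C0) ^ (8 * M ^ 2)) ^ (M + 1) := by
          gcongr
      _ = (M * L * C0) ^ (8 * M ^ 2 * (M + 1)) := by rw [← pow_mul]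
      _ ≤ (M * L * C0) ^ (16 * M ^ 3) := by
          refine pow_le_pow_right₀ h6 ?_
          have : M + 1 ≤ 2 * M := by omega
          calc 8 * M ^ 2 * (M + 1) ≤ 8 * M ^ 2 * (2 * M) := by gcongr
            _ = 16 * M ^ 3 := by ring
      _ ≤ Real.exp (M * L * C0) ^ (16 * M ^ 3) := by
          have := Real.add_one_le_exp (M * L * C0)
          gcongr
          linarith
      _ = _ := by
          rw [← Real.exp_nat_mul]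
          congr 1
          push_cast
          ring
  · rw [hr4, ← prod_coe_sort (SN N) (fun s ↦ u - x (toM s) τ / discriminant τ ^ c)]

end H32.T3
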