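import Pool.Agent.H32.T3.A3

/-!
# Arithmetic of the values at CM points, II
-/

open UpperHalfPlane hiding I
open Complex EisensteinSeries ModularForm MatrixGroups
open scoped Real

namespace H32.T3

open Polynomial Finset

lemma disc_pos {a b c : ℤ} (ha : 0 < a) (τ : ℍ) (h : (a : ℂ) * τ ^ 2 + b * τ + c = 0) :
    0 < 4 * a * c - b ^ 2 := by
  have hy := τ.im_pos
  have ha' : (0 : ℝ) < a := by exact_mod_cast ha
  have hre := congrArg Complex.re h
  have him := congrArg Complex.im h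
  simp only [pow_two, Complex.add_re, Complex.mul_re, Complex.intCast_re, Complex.intCast_im,
    Complex.add_im, Complex.mul_im, zero_mul, sub_zero, add_zero, Complex.zero_re,
    Complex.zero_im, UpperHalfPlane.coe_re, UpperHalfPlane.coe_im] at hre him
  set x := τ.re
  set y := τ.im
  have h1 : 2 * a * x + b = 0 := by
    have : y * (2 * a * x + b) = 0 := by linear_combination him
    rcases mul_eq_zero.mp this with h' | h'
    · exact absurd h' hy.ne'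
    · exact h'
  have h2 : (4 * a * c - b ^ 2 : ℝ) = 4 * a ^ 2 * y ^ 2 := by
    linear_combination (4 * a : ℝ) * hre + (-2 * a * x - b) * h1
  have h3 : (0 : ℝ) < 4 * a * c - b ^ 2 := by rw [h2]; positivity
  exact_mod_cast h3

lemma not_square {D b e : ℤ} {N m : ℕ} (hD : 0 < D) (he : e = D + |b| + 1)
    (hN : 4 * (N : ℤ) = (2 * e - b) ^ 2 + D) : m * m ≠ N := by
  intro hm
  have hb := le_abs_self b
  have hb0 := abs_nonneg b
  set v : ℤ := 2 * e - b with hv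
  have hv1 : D < v := by rw [hv, he]; linarith
  set u : ℤ := 2 * m with hu
  have hu0 : 0 ≤ u := by positivity
  have h1 : u * u = v * v + D := by
    have : ((m * m : ℕ) : ℤ) = N := by exact_mod_cast hm
    push_cast at this
    rw [hu]
    linear_combination 4 * this + hN
  have h2 : v < u := by
    by_contra hcon
    push Not at hcon
    have := mul_le_mul hcon hcon hu0 (by linarith)
    linarith
  have h3 : (v + 1) * (v + 1) ≤ u * u := mul_le_mul h2 h2 (by linarith) hu0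
  linarith

theorem cm_arith : ∃ A : ℕ, ∀ (H : ℕ) (a b c : ℤ) (τ : ℍ), 2 ≤ H → 0 < a → |a| ≤ H → |b| ≤ H →
    |c| ≤ H → (a : ℂ) * τ ^ 2 + b * τ + c = 0 →
    (∃ P : ℤ[X], P ≠ 0 ∧ P.natDegree ≤ H ^ A ∧ nr P ≤ Real.exp ((H : ℝ) ^ A) ∧
      aeval (jf τ) P = 0) ∧
    ∃ (e : ℤ) (N M : ℕ) (r : ℕ → ℤ[X]) (m : ℤ), |e| ≤ H ^ A ∧ N ≤ H ^ A ∧ M ≤ H ^ A ∧ m ≠ 0 ∧
      r M = C m ∧ (∀ i, (r i).natDegree ≤ H ^ A) ∧ (∀ i, nr (r i) ≤ Real.exp ((H : ℝ) ^ A)) ∧
      ((e : ℂ) - b - a * τ) ^ 2 ≠ N ∧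
      ∑ i ∈ range (M + 1), aeval (jf τ) (r i) *
        ((((e : ℂ) - b - a * τ) ^ 2 - N) * (E2s τ * (E₄ τ * E₆ τ)) / discriminant τ) ^ i = 0 := by
  obtain ⟨K, hK1, hK⟩ := rel_all
  set k0 : ℕ := ⌈K⌉₊ with hk0
  have hKk : K ≤ 2 ^ k0 := by
    have h1 : K ≤ (k0 : ℝ) := Nat.le_ceil K
    have h2 : (k0 : ℝ) ≤ 2 ^ k0 := by exact_mod_cast (Nat.lt_two_pow_self (n := k0)).le
    exact h1.trans h2
  refine ⟨k0 + 260, fun H a b c τ hH ha haH hbH hcH hτ ↦ ?_⟩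
  have hD := disc_pos ha τ hτ
  set D : ℤ := 4 * a * c - b ^ 2 with hDdef
  set e : ℤ := D + |b| + 1 with he
  have hH1 : 1 ≤ H := by omega
  have hHr : (2 : ℝ) ≤ H := by exact_mod_cast hH
  have hHr1 : (1 : ℝ) ≤ H := by linarith
  have hHz : (2 : ℤ) ≤ H := by exact_mod_cast hH
  have hHz1 : (1 : ℤ) ≤ H := by linarith
  have hb0 := abs_nonneg b
  have he0 : 0 < e := by linarith
  have hNpos : 0 < e ^ 2 - b * e + a * c := by
    have h1 : 0 < 4 * (e ^ 2 - b * e + a * c) := by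
      have : 4 * (e ^ 2 - b * e + a * c) = (2 * e - b) ^ 2 + D := by rw [hDdef]; ring
      rw [this]; positivity
    linarith
  obtain ⟨N, hN⟩ := Int.eq_ofNat_of_zero_le hNpos.le
  have hN0 : 0 < N := by
    have : (0 : ℤ) < N := by rw [← hN]; exact hNpos
    exact_mod_cast this
  have hsq : ∀ m : ℕ, m * m ≠ N := fun m ↦ not_square hD he (by rw [← hN, hDdef]; ring)
  -- bounds
  have hac : a * c ≤ (H : ℤ) ^ 2 := by
    calc a * c ≤ |a * c| := le_abs_self _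
      _ = |a| * |c| := abs_mul _ _
      _ ≤ (H : ℤ) * H := mul_le_mul haH hcH (abs_nonneg _) (by positivity)
      _ = _ := by ring
  have heH : e ≤ 6 * (H : ℤ) ^ 2 := by
    have h1 : D ≤ 4 * (H : ℤ) ^ 2 := by
      have : 0 ≤ b ^ 2 := sq_nonneg b
      rw [hDdef]; linarith
    have h2 : (H : ℤ) ≤ (H : ℤ) ^ 2 := le_self_pow₀ hHz1 (by norm_num)
    have h3 : (1 : ℤ) ≤ (H : ℤ) ^ 2 := one_le_pow₀ hHz1
    linarith
  have hNH : (N : ℤ) ≤ 43 * (H : ℤ) ^ 4 := by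
    rw [← hN]
    have h1 : e ^ 2 ≤ (6 * (H : ℤ) ^ 2) ^ 2 := by gcongr
    have h2 : -(b * e) ≤ (H : ℤ) * (6 * (H : ℤ) ^ 2) := by
      calc -(b * e) ≤ |b * e| := neg_le_abs _
        _ = |b| * e := by rw [abs_mul, abs_of_pos he0]
        _ ≤ _ := mul_le_mul hbH heH he0.le (by positivity)
    have h3 : (H : ℤ) * (6 * (H : ℤ) ^ 2) ≤ 6 * (H : ℤ) ^ 4 := by
      have : (H : ℤ) ^ 3 ≤ (H : ℤ) ^ 4 := pow_le_pow_right₀ hHz1 (by norm_num)
      linarith [show (H : ℤ) * (6 * (H : ℤ) ^ 2) = 6 * (H : ℤ) ^ 3 by ring]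
    have h4 : (H : ℤ) ^ 2 ≤ (H : ℤ) ^ 4 := pow_le_pow_right₀ hHz1 (by norm_num)
    have h5 : (6 * (H : ℤ) ^ 2) ^ 2 = 36 * (H : ℤ) ^ 4 := by ring
    linarith
  have hpow : ∀ {i j : ℕ}, i ≤ j → H ^ i ≤ H ^ j := fun hij ↦ Nat.pow_le_pow_right hH1 hij
  have hN10 : N ≤ H ^ 10 := by
    have h1 : N ≤ 43 * H ^ 4 := by exact_mod_cast hNH
    have h2 : 43 ≤ H ^ 6 := by
      calc 43 ≤ 2 ^ 6 := by norm_num
        _ ≤ H ^ 6 := Nat.pow_le_pow_left hH 6
    calc N ≤ 43 * H ^ 4 := h1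
      _ ≤ H ^ 6 * H ^ 4 := Nat.mul_le_mul_right _ h2
      _ = H ^ 10 := by ring
  have he5 : e ≤ (H : ℤ) ^ 5 := by
    have h2 : (6 : ℤ) ≤ (H : ℤ) ^ 3 := by
      calc (6 : ℤ) ≤ 2 ^ 3 := by norm_num
        _ ≤ (H : ℤ) ^ 3 := by gcongr
    calc e ≤ 6 * (H : ℤ) ^ 2 := heH
      _ ≤ (H : ℤ) ^ 3 * (H : ℤ) ^ 2 := by gcongr
      _ = _ := by ring
  have hM : (SN N).card ≤ H ^ 20 := by
    calc (SN N).card ≤ N ^ 2 := card_SN_le hN0
      _ ≤ (H ^ 10) ^ 2 := Nat.pow_le_pow_left hN10 2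
      _ = H ^ 20 := by ring
  have h2M : 2 * (SN N).card ≤ H ^ (k0 + 260) := by
    calc 2 * (SN N).card ≤ H * H ^ 20 := Nat.mul_le_mul hH hM
      _ = H ^ 21 := by ring
      _ ≤ _ := hpow (by omega)
  have hexp : Real.exp (K * (N : ℝ) ^ 26) ≤ Real.exp ((H : ℝ) ^ (k0 + 260)) := by
    apply Real.exp_le_exp.mpr
    have h1 : (N : ℝ) ≤ (H : ℝ) ^ 10 := by exact_mod_cast hN10
    calc K * (N : ℝ) ^ 26 ≤ 2 ^ k0 * ((H : ℝ) ^ 10) ^ 26 := by gcongr
      _ ≤ (H : ℝ) ^ k0 * ((H : ℝ) ^ 10) ^ 26 := by gcongr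
      _ = _ := by rw [← pow_mul, ← pow_add]
  obtain ⟨rD, rT, d1, t1, d2, t2, d3, t3, d4, t4⟩ := hK N hN0
  obtain ⟨s, hs, hsD, hsT⟩ := cm_eval hN0 hN.symm τ hτ
  have hfac : (((SN N).card).factorial : ℂ) ≠ 0 := by
    exact_mod_cast Nat.factorial_ne_zero _
  have hD0 : ∀ τ : ℍ, aeval (jf τ) (rD 0) = (((SN N).card).factorial : ℂ) *
      ∏ s ∈ SN N, (0 - xD N (toM s) τ / discriminant τ ^ 2) := by
    intro τ
    have h1 := d4 τ 0
    rw [sum_range_succ', sum_eq_zero, zero_add, pow_zero, mul_one] at h1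
    · exact h1
    · intro i _
      rw [zero_pow (Nat.succ_ne_zero i), mul_zero]
  constructor
  · refine ⟨rD 0, ?_, (d2 0).trans h2M, (d3 0).trans hexp, ?_⟩
    · intro h0
      obtain ⟨τ', hτ'⟩ := exists_xD_ne hN0 hsq
      have h1 := hD0 τ'
      rw [h0, map_zero] at h1
      have h2 : ∏ s ∈ SN N, (0 - xD N (toM s) τ' / discriminant τ' ^ 2) ≠ 0 := by
        refine prod_ne_zero_iff.mpr fun s hs ↦ ?_
        rw [zero_sub, neg_ne_zero]
        exact div_ne_zero (hτ' s hs) (pow_ne_zero _ (discriminant_ne_zero _))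
      exact mul_ne_zero hfac h2 h1.symm
    · rw [hD0, prod_eq_zero hs, mul_zero]
      rw [hsD]; simp
  · refine ⟨e, N, (SN N).card, rT, ((SN N).card).factorial, ?_, ?_, ?_, ?_, t1,
      fun i ↦ (t2 i).trans h2M, fun i ↦ (t3 i).trans hexp, ?_, ?_⟩
    · rw [abs_of_pos he0]
      exact he5.trans (by exact_mod_cast hpow (by omega))
    · exact hN10.trans (hpow (by omega))
    · exact hM.trans (hpow (by omega))
    · exact_mod_cast Nat.factorial_ne_zero _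
    · intro hw
      have hNc : (N : ℂ) = (e - b - a * τ) * (a * τ + e) := by
        have : ((N : ℤ) : ℂ) = ((e ^ 2 - b * e + a * c : ℤ) : ℂ) := by rw [hN]
        push_cast at this
        rw [this]
        linear_combination (a : ℂ) * hτ
      have hNc0 : (N : ℂ) ≠ 0 := by exact_mod_cast hN0.ne'
      have hw0 : (e : ℂ) - b - a * τ ≠ 0 := fun h0 ↦ by
        rw [h0, zero_mul] at hNc
        exact hNc0 hNc
      rw [hNc, pow_two] at hw
      have h1 := mul_left_cancel₀ hw0 hw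
      have h2 := congrArg Complex.im h1
      have ha' : (0 : ℝ) < a := by exact_mod_cast ha
      have hy := τ.im_pos
      simp only [Complex.sub_im, Complex.add_im, Complex.mul_im, Complex.intCast_re,
        Complex.intCast_im, zero_mul, add_zero, UpperHalfPlane.coe_im] at h2
      have h3 : 0 < (a : ℝ) * τ.im := mul_pos ha' hy
      linarith
    · have h1 := t4 τ ((((e : ℂ) - b - a * τ) ^ 2 - N) * (E2s τ * (E₄ τ * E₆ τ)) / discriminant τ)
      rw [h1, prod_eq_zero hs, mul_zero]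
      rw [hsT, pow_one, sub_self]

end H32.T3
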