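import Pool.Agent.H32.T3.A4
import Pool.Agent.H32.T3.Ht

/-!
# Number fields generated by values at CM points
-/

namespace H32.T3

open Height Height.AdmissibleAbsValues Finset NumberField

section one_step

open Polynomial

/-- Adjoining a root. -/
lemma one_step (K : IntermediateField ℚ ℂ) [FiniteDimensional ℚ K] (x : ℂ) (f : K[X])
    (hf : f ≠ 0) (hx : aeval x f = 0) : ∃ K' : IntermediateField ℚ ℂ, K ≤ K' ∧ x ∈ K' ∧
      FiniteDimensional ℚ K' ∧ Module.finrank ℚ K' ≤ Module.finrank ℚ K * f.natDegree := by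
  have hxa : IsAlgebraic K x := ⟨f, hf, hx⟩
  have hxi : IsIntegral K x := hxa.isIntegral
  set E := IntermediateField.adjoin K {x} with hE
  have : FiniteDimensional K E := IntermediateField.adjoin.finiteDimensional hxi
  have : FiniteDimensional ℚ E := FiniteDimensional.trans ℚ K E
  refine ⟨E.restrictScalars ℚ, ?_, ?_, ?_, ?_⟩
  · intro y hy
    exact E.algebraMap_mem ⟨y, hy⟩
  · exact IntermediateField.mem_adjoin_simple_self K x
  · exact ‹FiniteDimensional ℚ E›
  · have h1 : Module.finrank ℚ E = Module.finrank ℚ K * Module.finrank K E :=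
      (Module.finrank_mul_finrank ℚ K E).symm
    have h2 : Module.finrank K E = (minpoly K x).natDegree :=
      IntermediateField.adjoin.finrank hxi
    have h3 : (minpoly K x).natDegree ≤ f.natDegree :=
      natDegree_le_of_dvd (minpoly.dvd K x hx) hf
    change Module.finrank ℚ E ≤ _
    rw [h1, h2]
    exact Nat.mul_le_mul_left _ h3

end one_step

/-- Height budget. -/
def HB {L : Type} [Field L] [NumberField L] (T : ℝ) (x : L) : Prop :=
  logHeight₁ x ≤ T * totalWeight L

section HB

variable {L : Type} [Field L] [NumberField L]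

lemma HB.mono {T T' : ℝ} {x : L} (h : HB T x) (hT : T ≤ T') : HB T' x := by
  refine (show logHeight₁ x ≤ T * totalWeight L from h).trans ?_
  gcongr

lemma HB.mul {T T' : ℝ} {x y : L} (hx : HB T x) (hy : HB T' y) : HB (T + T') (x * y) := by
  unfold HB at *
  have := logHeight₁_mul_le x y
  linarith

lemma HB.inv {T : ℝ} {x : L} (hx : HB T x) : HB T x⁻¹ := by
  unfold HB at *
  rwa [logHeight₁_inv]

lemma HB.div {T T' : ℝ} {x y : L} (hx : HB T x) (hy : HB T' y) : HB (T + T') (x / y) := by
  rw [div_eq_mul_inv]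
  exact hx.mul hy.inv

lemma HB.add {T T' : ℝ} {x y : L} (hx : HB T x) (hy : HB T' y) : HB (T + T' + 1) (x + y) := by
  unfold HB at *
  have h1 := logHeight₁_add_le x y
  have h2 : Real.log 2 ≤ 1 := by
    have := Real.log_two_lt_d9
    linarith
  have h3 : (0 : ℝ) ≤ totalWeight L := by positivity
  have h4 : (totalWeight L : ℝ) * Real.log 2 ≤ totalWeight L * 1 := by gcongr
  linarith

lemma HB.sub {T T' : ℝ} {x y : L} (hx : HB T x) (hy : HB T' y) : HB (T + T' + 1) (x - y) := by
  unfold HB at *
  have h1 := logHeight₁_sub_le x y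
  have h2 : Real.log 2 ≤ 1 := by
    have := Real.log_two_lt_d9
    linarith
  have h3 : (0 : ℝ) ≤ totalWeight L := by positivity
  have h4 : (totalWeight L : ℝ) * Real.log 2 ≤ totalWeight L * 1 := by gcongr
  linarith

lemma HB.aeval {ι : Type} [Fintype ι] {x : ι → L} {T : ℝ} (hx : ∀ i, HB T (x i))
    (P : MvPolynomial ι ℤ) {D : ℕ} (hD : P.totalDegree ≤ D) {B : ℝ} (hB : 1 ≤ B)
    (hP : nrm P ≤ B) :
    HB (Real.log B + Fintype.card ι * D * T) (MvPolynomial.aeval x P) := by
  have h := mulHeight₁_aeval_le x P (d := fun _ ↦ D) (fun m hm i ↦ by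
    refine le_trans ?_ ((MvPolynomial.le_totalDegree hm).trans hD)
    rw [Finsupp.sum]
    by_cases h : i ∈ m.support
    · exact single_le_sum (f := fun i ↦ m i) (fun _ _ ↦ Nat.zero_le _) h
    · rw [Finsupp.notMem_support_iff.mp h]; exact Nat.zero_le _) hB hP
  have h1 : ∏ i, mulHeight₁ (x i) ^ D ≤ Real.exp (Fintype.card ι * D * T * totalWeight L) := by
    calc ∏ i, mulHeight₁ (x i) ^ D ≤ ∏ _i : ι, Real.exp (T * totalWeight L) ^ D := by
          refine prod_le_prod (fun i _ ↦ by positivity) fun i _ ↦ ?_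
          have h2 := hx i
          unfold HB at h2
          rw [logHeight₁_eq_log_mulHeight₁, Real.log_le_iff_le_exp (mulHeight₁_pos _)] at h2
          gcongr
      _ = _ := by
          rw [prod_const, ← pow_mul, ← Real.exp_nat_mul, card_univ]
          congr 1
          push_cast
          ring
  unfold HB
  rw [logHeight₁_eq_log_mulHeight₁, Real.log_le_iff_le_exp (mulHeight₁_pos _)]
  refine h.trans ?_
  have hB0 : 0 < B := by linarith
  calc B ^ totalWeight L * ∏ i, mulHeight₁ (x i) ^ D
      ≤ B ^ totalWeight L * Real.exp (Fintype.card ι * D * T * totalWeight L) := by gcongr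
    _ = Real.exp (Real.log B) ^ totalWeight L *
        Real.exp (Fintype.card ι * D * T * totalWeight L) := by rw [Real.exp_log hB0]
    _ = _ := by
        rw [← Real.exp_nat_mul, ← Real.exp_add]
        congr 1
        ring

/-- Roots of polynomials whose coefficients are values of integer polynomials. -/
lemma HB.root {ι : Type} [Fintype ι] {x : ι → L} {T : ℝ} (hx : ∀ i, HB T (x i))
    {n : ℕ} (P : ℕ → MvPolynomial ι ℤ) {D : ℕ} (hD : ∀ j, (P j).totalDegree ≤ D) {B : ℝ}
    (hB : 1 ≤ B) (hP : ∀ j, nrm (P j) ≤ B) (ξ : L)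
    (hb : MvPolynomial.aeval x (P n) ≠ 0)
    (h : ∑ j ∈ range (n + 1), MvPolynomial.aeval x (P j) * ξ ^ j = 0) :
    HB (n + Real.log B + Fintype.card ι * D * T) ξ := by
  set b : Fin (n + 1) → L := fun j ↦ MvPolynomial.aeval x (P j) with hbdef
  have h0 := mulHeight₁_root_le b ξ (by simpa [hbdef] using hb)
    (by rw [← h, ← Fin.sum_univ_eq_sum_range (fun j ↦ MvPolynomial.aeval x (P j) * ξ ^ j)])
  have h00 := mulHeight_aeval_le x (fun j : Fin (n + 1) ↦ P j) (d := fun _ ↦ D) (fun j m hm i ↦ by
    refine le_trans ?_ ((MvPolynomial.le_totalDegree hm).trans (hD j))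
    rw [Finsupp.sum]
    by_cases h : i ∈ m.support
    · exact single_le_sum (f := fun i ↦ m i) (fun _ _ ↦ Nat.zero_le _) h
    · rw [Finsupp.notMem_support_iff.mp h]; exact Nat.zero_le _) hB (fun j ↦ hP j)
  have h1 : ∏ i, mulHeight₁ (x i) ^ D ≤ Real.exp (Fintype.card ι * D * T * totalWeight L) := by
    calc ∏ i, mulHeight₁ (x i) ^ D ≤ ∏ _i : ι, Real.exp (T * totalWeight L) ^ D := by
          refine prod_le_prod (fun i _ ↦ by positivity) fun i _ ↦ ?_
          have h2 := hx i
          unfold HB at h2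
          rw [logHeight₁_eq_log_mulHeight₁, Real.log_le_iff_le_exp (mulHeight₁_pos _)] at h2
          gcongr
      _ = _ := by
          rw [prod_const, ← pow_mul, ← Real.exp_nat_mul, card_univ]
          congr 1
          push_cast
          ring
  unfold HB
  rw [logHeight₁_eq_log_mulHeight₁, Real.log_le_iff_le_exp (mulHeight₁_pos _)]
  have hB0 : 0 < B := by linarith
  have hn : (n : ℝ) ≤ Real.exp n := by
    have := Real.add_one_le_exp (n : ℝ)
    linarith
  calc mulHeight₁ ξ ≤ (n : ℝ) ^ totalWeight L * mulHeight b := h0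
    _ ≤ Real.exp n ^ totalWeight L * (B ^ totalWeight L *
        Real.exp (Fintype.card ι * D * T * totalWeight L)) := by
          have := h00.trans (show _ ≤ B ^ totalWeight L *
            Real.exp (Fintype.card ι * D * T * totalWeight L) by gcongr)
          gcongr
    _ = Real.exp n ^ totalWeight L * (Real.exp (Real.log B) ^ totalWeight L *
        Real.exp (Fintype.card ι * D * T * totalWeight L)) := by rw [Real.exp_log hB0]
    _ = _ := by
        rw [← Real.exp_nat_mul, ← Real.exp_nat_mul, ← Real.exp_add, ← Real.exp_add]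
        congr 1
        ring

lemma HB.int (c : ℤ) : HB (|(c : ℝ)|) (c : L) := by
  have h := HB.aeval (ι := Fin 0) (x := fun _ ↦ (0 : L)) (T := 0) (fun i ↦ i.elim0)
    (MvPolynomial.C c) (D := 0) (by rw [MvPolynomial.totalDegree_C])
    (B := max 1 |(c : ℝ)|) (le_max_left _ _) (by rw [nrm_C]; exact le_max_right _ _)
  rw [MvPolynomial.aeval_C, algebraMap_int_eq, eq_intCast, mul_zero, add_zero] at h
  refine h.mono ?_
  have h1 : 0 < max 1 |(c : ℝ)| := by positivity
  rcases le_or_gt 1 |(c : ℝ)| with h2 | h2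
  · rw [max_eq_right h2]
    have := Real.log_le_sub_one_of_pos (show 0 < |(c : ℝ)| by linarith)
    linarith
  · rw [max_eq_left h2.le, Real.log_one]
    exact abs_nonneg _

/-- Integer polynomials in one variable as multivariate polynomials. -/
noncomputable def mv (P : Polynomial ℤ) : MvPolynomial (Fin 1) ℤ :=
  ∑ i ∈ range (P.natDegree + 1), MvPolynomial.C (P.coeff i) * MvPolynomial.X 0 ^ i

lemma aeval_mv (P : Polynomial ℤ) {R : Type*} [CommRing R] (x : Fin 1 → R) :
    MvPolynomial.aeval x (mv P) = Polynomial.aeval (x 0) P := by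
  rw [mv, map_sum, Polynomial.aeval_eq_sum_range]
  refine sum_congr rfl fun i _ ↦ ?_
  rw [map_mul, MvPolynomial.aeval_C, map_pow, MvPolynomial.aeval_X, algebraMap_int_eq,
    eq_intCast, zsmul_eq_mul]

lemma deg_mv (P : Polynomial ℤ) : (mv P).totalDegree ≤ P.natDegree := by
  refine MvPolynomial.totalDegree_finsetSum_le fun i hi ↦ ?_
  refine (MvPolynomial.totalDegree_mul _ _).trans ?_
  rw [MvPolynomial.totalDegree_C, zero_add]
  refine (MvPolynomial.totalDegree_pow _ _).trans ?_
  rw [MvPolynomial.totalDegree_X, mul_one]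
  exact Nat.lt_succ_iff.mp (mem_range.mp hi)

lemma nrm_mv (P : Polynomial ℤ) : nrm (mv P) ≤ nr P := by
  refine (nrm_sum_le _ _).trans ?_
  rw [nr_eq (S := range (P.natDegree + 1)) (fun i hi ↦ by
    rw [mem_range]
    exact Nat.lt_succ_of_le (Polynomial.le_natDegree_of_mem_supp i hi))]
  refine sum_le_sum fun i _ ↦ (nrm_mul_le _ _).trans ?_
  rw [nrm_C]
  have h1 := nrm_pow_le (MvPolynomial.X 0 : MvPolynomial (Fin 1) ℤ) i
  rw [nrm_X, one_pow] at h1
  exact (mul_le_mul_of_nonneg_left h1 (abs_nonneg _)).trans (mul_one _).le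

end HB

end H32.T3
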