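import Pool.Agent.H32.T3.C1

/-!
# Heights of the values at CM points
-/

open UpperHalfPlane hiding I
open Complex EisensteinSeries ModularForm MatrixGroups
open scoped Real

namespace H32.T3

open Height Height.AdmissibleAbsValues Finset NumberField

lemma one_step_int (K : IntermediateField ℚ ℂ) [FiniteDimensional ℚ K] (x : ℂ)
    (f : Polynomial ℤ) (hf : f ≠ 0) (hx : Polynomial.aeval x f = 0) :
    ∃ K' : IntermediateField ℚ ℂ, K ≤ K' ∧ x ∈ K' ∧
      FiniteDimensional ℚ K' ∧ Module.finrank ℚ K' ≤ Module.finrank ℚ K * f.natDegree := by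
  have hinj : Function.Injective (Int.castRingHom K) := RingHom.injective_int _
  obtain ⟨K', h1, h2, h3, h4⟩ := one_step K x (f.map (Int.castRingHom K))
    ((Polynomial.map_ne_zero_iff hinj).mpr hf) (by
      have h := Polynomial.aeval_map_algebraMap K x f
      rw [algebraMap_int_eq] at h
      rw [h]
      exact hx)
  refine ⟨K', h1, h2, h3, h4.trans ?_⟩
  rw [Polynomial.natDegree_map_eq_of_injective hinj]

/-- Values at CM points: field of definition and heights. -/
theorem cm_heights : ∃ A : ℕ, ∀ (H : ℕ) (a b c : ℤ) (τ : ℍ), 2 ≤ H → 0 < a → |a| ≤ H → |b| ≤ H →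
    |c| ≤ H → (a : ℂ) * τ ^ 2 + b * τ + c = 0 → E₆ τ ≠ 0 →
    ∃ K : IntermediateField ℚ ℂ, FiniteDimensional ℚ K ∧ Module.finrank ℚ K ≤ H ^ A ∧
      ∀ (L : Type) [Field L] [NumberField L] (σ : L →+* ℂ), (∀ x ∈ K, ∃ y, σ y = x) →
        ∃ t tb J φ : L, σ t = τ ∧ σ tb = (starRingEnd ℂ) τ ∧ σ J = jf τ ∧
          σ φ = E2s τ * E₄ τ / E₆ τ ∧ HB ((H : ℝ) ^ A) t ∧ HB ((H : ℝ) ^ A) tb ∧
          HB ((H : ℝ) ^ A) J ∧ HB ((H : ℝ) ^ A) φ := by
  obtain ⟨A, hA⟩ := cm_arith
  refine ⟨2 * (A + 1) + 11, fun H a b c τ hH ha haH hbH hcH hτ h6 ↦ ?_⟩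
  obtain ⟨⟨P, hP0, hPd, hPn, hPj⟩, e, N, M, r, m, heA, hNA, hMA, hm, hrM, hrd, hrn, hwN, hrel⟩ :=
    hA H a b c τ hH ha haH hbH hcH hτ
  set B : ℕ := H ^ (A + 1) with hB
  have hH1 : 1 ≤ H := by omega
  have hAB : H ^ A ≤ B := Nat.pow_le_pow_right hH1 (by omega)
  have hHB : H ≤ B := by
    calc H = H ^ 1 := (pow_one H).symm
      _ ≤ _ := Nat.pow_le_pow_right hH1 (by omega)
  set S : ℝ := (B : ℝ) with hS
  have hSB : (H : ℝ) ^ A ≤ S := by rw [hS]; exact_mod_cast hAB
  have hSH : (H : ℝ) ≤ S := by rw [hS]; exact_mod_cast hHB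
  have hS1 : 1 ≤ S := by
    have : (1 : ℝ) ≤ H := by exact_mod_cast hH1
    linarith
  set u : ℂ := (((e : ℂ) - b - a * τ) ^ 2 - N) * (E2s τ * (E₄ τ * E₆ τ)) / discriminant τ with hu
  -- the quadratic polynomial
  set Q : Polynomial ℤ := Polynomial.C a * Polynomial.X ^ 2 + Polynomial.C b * Polynomial.X +
    Polynomial.C c with hQ
  have hQd : Q.natDegree = 2 := Polynomial.natDegree_quadratic ha.ne'
  have hQ0 : Q ≠ 0 := by
    intro h0
    rw [h0, Polynomial.natDegree_zero] at hQd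
    omega
  obtain ⟨K1, hK1, ht1, hf1, hd1⟩ := one_step_int ⊥ (τ : ℂ) Q hQ0 (by
    rw [hQ]
    simp only [map_add, map_mul, Polynomial.aeval_C, map_pow, Polynomial.aeval_X,
      algebraMap_int_eq, eq_intCast]
    simpa using hτ)
  obtain ⟨K2, hK2, hj2, hf2, hd2⟩ := one_step_int K1 (jf τ) P hP0 hPj
  set f : Polynomial K2 := ∑ i ∈ range (M + 1),
    Polynomial.C (Polynomial.aeval (⟨jf τ, hj2⟩ : K2) (r i)) * Polynomial.X ^ i with hf
  have hfd : f.natDegree ≤ M := by
    refine Polynomial.natDegree_sum_le_of_forall_le _ _ fun i hi ↦ ?_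
    exact (Polynomial.natDegree_C_mul_X_pow_le _ _).trans (Nat.lt_succ_iff.mp (mem_range.mp hi))
  have hcoe : ∀ p : Polynomial ℤ, ((Polynomial.aeval (⟨jf τ, hj2⟩ : K2) p : K2) : ℂ) =
      Polynomial.aeval (jf τ) p := by
    intro p
    have := Polynomial.aeval_algebraMap_apply ℂ (⟨jf τ, hj2⟩ : K2) p
    exact this.symm
  have hf0 : f ≠ 0 := by
    intro h0
    have h1 := congrArg (fun p ↦ p.coeff M) h0
    simp only [hf, Polynomial.finsetSum_coeff, Polynomial.coeff_C_mul, Polynomial.coeff_X_pow,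
      Polynomial.coeff_zero] at h1
    rw [sum_eq_single M] at h1
    · rw [if_pos rfl, mul_one, hrM, Polynomial.aeval_C] at h1
      simp at h1
      exact hm h1
    · intro i _ hi
      rw [if_neg (Ne.symm hi), mul_zero]
    · intro hM
      exact absurd (mem_range.mpr (Nat.lt_succ_self M)) hM
  obtain ⟨K3, hK3, hu3, hf3, hd3⟩ := one_step K2 u f hf0 (by
    rw [hf, map_sum, ← hrel]
    refine sum_congr rfl fun i _ ↦ ?_
    rw [map_mul, Polynomial.aeval_C, map_pow, Polynomial.aeval_X]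
    congr 1
    exact hcoe _)
  refine ⟨K3, hf3, ?_, fun L _ _ σ hσ ↦ ?_⟩
  · have h1 : Module.finrank ℚ K1 ≤ 2 := by
      refine hd1.trans ?_
      rw [hQd, IntermediateField.finrank_bot]
    calc Module.finrank ℚ K3 ≤ Module.finrank ℚ K2 * M := hd3.trans (Nat.mul_le_mul_left _ hfd)
      _ ≤ (2 * B) * B := by
          refine Nat.mul_le_mul ?_ (hMA.trans hAB)
          exact hd2.trans (Nat.mul_le_mul h1 (hPd.trans hAB))
      _ ≤ (H * B) * B := by gcongr
      _ = H ^ (2 * (A + 1) + 1) := by rw [hB]; ring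
      _ ≤ _ := Nat.pow_le_pow_right hH1 (by omega)
  -- heights
  have hinj : Function.Injective σ := σ.injective
  obtain ⟨t, ht⟩ := hσ (τ : ℂ) (hK3 (hK2 ht1))
  obtain ⟨J, hJ⟩ := hσ (jf τ) (hK3 hj2)
  obtain ⟨v, hv⟩ := hσ u hu3
  have hxa : ∀ (i : Fin 0), HB (0 : ℝ) ((fun _ ↦ 0 : Fin 0 → L) i) := fun i ↦ i.elim0
  have ht' : HB (2 + S) t := by
    set q : ℕ → ℤ := fun j ↦ if j = 0 then c else if j = 1 then b else if j = 2 then a else 0
      with hq
    have h := HB.root (n := 2) hxa (fun j ↦ MvPolynomial.C (q j)) (D := 0)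
      (fun j ↦ by rw [MvPolynomial.totalDegree_C]) (B := H) (by exact_mod_cast hH1) (fun j ↦ by
        rw [nrm_C]
        have h0 : (0 : ℝ) ≤ H := by positivity
        have e1 : |(a : ℝ)| ≤ H := by exact_mod_cast haH
        have e2 : |(b : ℝ)| ≤ H := by exact_mod_cast hbH
        have e3 : |(c : ℝ)| ≤ H := by exact_mod_cast hcH
        simp only [hq]
        split_ifs
        · exact e3
        · exact e2
        · exact e1
        · simpa using h0) t ?_ ?_
    · refine h.mono ?_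
      have h1 : Real.log H ≤ H - 1 := Real.log_le_sub_one_of_pos (by positivity)
      simp only [mul_zero, add_zero, Nat.cast_ofNat]
      linarith
    · rw [MvPolynomial.aeval_C, algebraMap_int_eq, eq_intCast, Int.cast_ne_zero]
      simp only [hq]
      norm_num
      exact ha.ne'
    · apply hinj
      rw [map_zero, map_sum, ← hτ]
      simp only [sum_range_succ, sum_range_zero, MvPolynomial.aeval_C, hq, map_mul, map_pow, ht,
        algebraMap_int_eq, eq_intCast, map_intCast]
      norm_num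
      ring
  have hJ' : HB (2 * S) J := by
    have h := HB.root (n := P.natDegree) hxa (fun j ↦ MvPolynomial.C (P.coeff j)) (D := 0)
      (fun j ↦ by rw [MvPolynomial.totalDegree_C]) (B := Real.exp S)
      (Real.one_le_exp (by linarith)) (fun j ↦ by
        rw [nrm_C]
        exact (coeff_le_nr P j).trans (hPn.trans (Real.exp_le_exp.mpr hSB))) J ?_ ?_
    · refine h.mono ?_
      rw [Real.log_exp]
      have h1 : (P.natDegree : ℝ) ≤ S := by
        rw [hS]; exact_mod_cast hPd.trans hAB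
      simp only [mul_zero, add_zero]
      linarith
    · rw [MvPolynomial.aeval_C, algebraMap_int_eq, eq_intCast, Int.cast_ne_zero]
      exact Polynomial.leadingCoeff_ne_zero.mpr hP0
    · apply hinj
      rw [map_zero, map_sum, ← hPj, Polynomial.aeval_eq_sum_range]
      refine sum_congr rfl fun i _ ↦ ?_
      rw [MvPolynomial.aeval_C, algebraMap_int_eq, eq_intCast, map_mul, map_pow, hJ, map_intCast,
        zsmul_eq_mul]
  have hv' : HB (2 * S + 2 * S ^ 2) v := by
    have h := HB.root (ι := Fin 1) (x := fun _ ↦ J) (fun _ ↦ hJ') (n := M) (fun j ↦ mv (r j))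
      (D := B) (fun j ↦ (deg_mv _).trans ((hrd j).trans hAB)) (B := Real.exp S)
      (Real.one_le_exp (by linarith))
      (fun j ↦ (nrm_mv _).trans ((hrn j).trans (Real.exp_le_exp.mpr hSB))) v ?_ ?_
    · refine h.mono ?_
      rw [Real.log_exp]
      have h1 : (M : ℝ) ≤ S := by
        rw [hS]; exact_mod_cast hMA.trans hAB
      simp only [Fintype.card_fin, Nat.cast_one, one_mul]
      have e1 : (B : ℝ) * (2 * S) = 2 * S ^ 2 := by rw [← hS]; ring
      rw [e1]
      linarith
    · rw [aeval_mv, hrM, Polynomial.aeval_C, algebraMap_int_eq, eq_intCast, Int.cast_ne_zero]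
      exact hm
    · apply hinj
      rw [map_zero, map_sum, ← hrel]
      refine sum_congr rfl fun i _ ↦ ?_
      rw [aeval_mv, map_mul, map_pow, hv]
      congr 1
      rw [Polynomial.aeval_eq_sum_range, Polynomial.aeval_eq_sum_range, map_sum]
      refine sum_congr rfl fun k _ ↦ ?_
      rw [zsmul_eq_mul, zsmul_eq_mul, map_mul, map_pow, hJ, map_intCast]
  -- the other quantities
  have hint : ∀ (n : ℤ), |n| ≤ B → HB S (n : L) := fun n hn ↦ (HB.int n).mono (by
    rw [hS]; exact_mod_cast hn)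
  have hBz : ∀ n : ℤ, |n| ≤ H → |n| ≤ B := fun n hn ↦ hn.trans (by exact_mod_cast hHB)
  have hbL := hint b (hBz b hbH)
  have haL := hint a (hBz a haH)
  have hbL' := hint (-b) (by rw [abs_neg]; exact hBz b hbH)
  have heL := hint e (heA.trans (by exact_mod_cast hAB))
  have hNL := hint (N : ℤ) (by
    rw [Nat.abs_cast]
    exact_mod_cast hNA.trans hAB)
  have h1728 : HB 1728 ((1728 : ℤ) : L) := (HB.int 1728).mono (by norm_num)
  have hw := ((heL.sub hbL).sub (haL.mul ht'))
  have hden := ((hw.mul hw).sub hNL).mul (hJ'.sub h1728)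
  have hφ := hv'.div hden
  have htb := (hbL'.div haL).sub ht'
  have ha0 : (a : ℂ) ≠ 0 := by exact_mod_cast ha.ne'
  have hΔ := discriminant_ne_zero τ
  have hfinal : 2000 * S ^ 2 ≤ (H : ℝ) ^ (2 * (A + 1) + 11) := by
    have h1 : (2000 : ℝ) ≤ (H : ℝ) ^ 11 := by
      have : (2 : ℝ) ≤ H := by exact_mod_cast hH
      calc (2000 : ℝ) ≤ 2 ^ 11 := by norm_num
        _ ≤ _ := by gcongr
    rw [hS, hB]
    push_cast
    calc 2000 * ((H : ℝ) ^ (A + 1)) ^ 2 ≤ (H : ℝ) ^ 11 * ((H : ℝ) ^ (A + 1)) ^ 2 := by gcongr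
      _ = _ := by ring
  have hSS : S ≤ S ^ 2 := le_self_pow₀ hS1 (by norm_num)
  have hS1' : 1 ≤ S ^ 2 := one_le_pow₀ hS1
  refine ⟨t, ((-b : ℤ) : L) / (a : L) - t, J,
    v / (((((e : L) - b) - a * t) * (((e : L) - b) - a * t) - ((N : ℤ) : L)) *
      (J - ((1728 : ℤ) : L))), ht, ?_, hJ, ?_, ht'.mono ?_, htb.mono ?_, hJ'.mono ?_, hφ.mono ?_⟩
  · -- conjugate
    rw [map_sub, map_div₀, ht, map_intCast, map_intCast]
    have hd := disc_pos ha τ hτ
    have hy := τ.im_pos
    have ha' : (0 : ℝ) < a := by exact_mod_cast ha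
    have him := congrArg Complex.im hτ
    simp only [pow_two, Complex.add_re, Complex.mul_re, Complex.intCast_re, Complex.intCast_im,
      Complex.add_im, Complex.mul_im, zero_mul, sub_zero, add_zero, Complex.zero_re,
      Complex.zero_im, UpperHalfPlane.coe_re, UpperHalfPlane.coe_im] at him
    have h1 : 2 * (a : ℝ) * τ.re + b = 0 := by
      have : τ.im * (2 * a * τ.re + b) = 0 := by linear_combination him
      rcases mul_eq_zero.mp this with h' | h'
      · exact absurd h' hy.ne'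
      · exact h'
    have h2 : (a : ℂ) * ((τ : ℂ) + (starRingEnd ℂ) τ) = -b := by
      rw [Complex.add_conj]
      have : ((2 * (a : ℝ) * τ.re + b : ℝ) : ℂ) = 0 := by rw [h1]; simp
      push_cast at this
      rw [UpperHalfPlane.coe_re]
      push_cast
      linear_combination this
    push_cast
    rw [sub_eq_iff_eq_add, div_eq_iff ha0]
    linear_combination -h2
  · -- phi
    rw [map_div₀, map_mul, map_sub, map_sub, map_mul, map_sub, map_sub, map_mul, hv, ht, hJ,
      map_intCast, map_intCast, map_intCast, map_intCast, map_intCast]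
    push_cast
    have h1 : jf τ - 1728 ≠ 0 := by
      intro h0
      have := jf_sub τ
      rw [h0, zero_mul] at this
      exact pow_ne_zero 2 h6 this.symm
    have h2 : ((e : ℂ) - b - a * τ) * ((e : ℂ) - b - a * τ) - N ≠ 0 := by
      rw [← pow_two]
      exact sub_ne_zero.mpr hwN
    have h3 := jf_sub τ
    rw [hu, div_eq_div_iff (mul_ne_zero h2 h1) h6, div_mul_eq_mul_div, div_eq_iff hΔ]
    linear_combination (-(((e : ℂ) - b - a * τ) ^ 2 - N) * E2s τ * E₄ τ) * h3
  · linarith
  · linarith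
  · linarith
  · linarith

end H32.T3
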