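import Pool.Agent.H32.T3.Der

/-!
# Siegel's lemma (archimedean box principle + Liouville inequality)
-/

namespace H32.T3

open MvPolynomial Finset Height NumberField

lemma norm_le_mulHeight₁ {K : Type*} [Field K] [NumberField K] (σ : K →+* ℂ) (y : K) :
    ‖σ y‖ ≤ mulHeight₁ y := by
  rcases eq_or_ne y 0 with rfl | hy
  · rw [map_zero, norm_zero]
    exact (zero_le_one).trans (one_le_mulHeight₁ _)
  have h := liouville σ (inv_ne_zero hy)
  rw [mulHeight₁_inv, map_inv₀, norm_inv] at h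
  have h0 : 0 < ‖σ y‖ := norm_pos_iff.mpr ((map_ne_zero σ).mpr hy)
  exact (inv_le_inv₀ (by linarith [one_le_mulHeight₁ y]) h0).mp h

/-- Box principle. -/
theorem pigeon {I J : Type*} [Fintype I] [Fintype J] (c : J → I → ℂ) {U ε : ℝ}
    (hc : ∀ j i, ‖c j i‖ ≤ U) (hε : 0 < ε) (B K : ℕ)
    (hK : Fintype.card I * B * U / ε ≤ K)
    (hcard : (2 * K + 1) ^ (2 * Fintype.card J) < (B + 1) ^ Fintype.card I) :
    ∃ p : I → ℤ, p ≠ 0 ∧ (∀ i, |p i| ≤ B) ∧ ∀ j, ‖∑ i, (p i : ℂ) * c j i‖ ≤ 2 * ε := by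
  classical
  set ell : (I → Fin (B + 1)) → J → ℂ := fun x j ↦ ∑ i, ((x i : ℕ) : ℂ) * c j i with hell
  have hb : ∀ x j, ‖ell x j‖ / ε ≤ K := by
    intro x j
    refine le_trans ?_ hK
    gcongr
    refine (norm_sum_le _ _).trans ?_
    calc ∑ i, ‖((x i : ℕ) : ℂ) * c j i‖ ≤ ∑ _i : I, (B : ℝ) * U := by
          refine sum_le_sum fun i _ ↦ ?_
          rw [norm_mul, Complex.norm_natCast]
          have h1 : ((x i : ℕ) : ℝ) ≤ B := by exact_mod_cast Nat.lt_succ_iff.mp (x i).2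
          have h2 := hc j i
          gcongr
      _ = _ := by simp [mul_assoc]
  have hfl : ∀ y : ℝ, |y| ≤ K → ⌊y⌋ ∈ Icc (-(K : ℤ)) K := by
    intro y hy
    rw [abs_le] at hy
    rw [mem_Icc]
    refine ⟨?_, ?_⟩
    · rw [Int.le_floor]; push_cast; exact hy.1
    · have : (⌊y⌋ : ℝ) ≤ K := (Int.floor_le y).trans hy.2
      exact_mod_cast this
  have hre : ∀ x j, |(ell x j).re / ε| ≤ K := fun x j ↦ by
    rw [abs_div, abs_of_pos hε]
    exact (div_le_div_of_nonneg_right (Complex.abs_re_le_norm _) hε.le).trans (hb x j)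
  have him : ∀ x j, |(ell x j).im / ε| ≤ K := fun x j ↦ by
    rw [abs_div, abs_of_pos hε]
    exact (div_le_div_of_nonneg_right (Complex.abs_im_le_norm _) hε.le).trans (hb x j)
  set f : (I → Fin (B + 1)) → (J → (Icc (-(K : ℤ)) K) × (Icc (-(K : ℤ)) K)) := fun x j ↦
    (⟨⌊(ell x j).re / ε⌋, hfl _ (hre x j)⟩, ⟨⌊(ell x j).im / ε⌋, hfl _ (him x j)⟩) with hf
  have hcd : Fintype.card (J → (Icc (-(K : ℤ)) K) × (Icc (-(K : ℤ)) K)) <
      Fintype.card (I → Fin (B + 1)) := by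
    rw [Fintype.card_fun, Fintype.card_fun, Fintype.card_prod, Fintype.card_coe, Int.card_Icc,
      Fintype.card_fin]
    have e : (K + 1 - -(K : ℤ)).toNat = 2 * K + 1 := by omega
    rw [e, ← pow_two, ← pow_mul]
    exact hcard
  obtain ⟨x, y, hxy, hfxy⟩ := Fintype.exists_ne_map_eq_of_card_lt f hcd
  have hfloor : ∀ a b : ℝ, ⌊a / ε⌋ = ⌊b / ε⌋ → |a - b| ≤ ε := by
    intro a b hab
    have h1 := Int.abs_sub_lt_one_of_floor_eq_floor hab
    rw [← sub_div, abs_div, abs_of_pos hε, div_lt_one hε] at h1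
    exact h1.le
  refine ⟨fun i ↦ (x i : ℤ) - (y i : ℤ), ?_, ?_, ?_⟩
  · intro h
    apply hxy
    ext i
    have := congrFun h i
    simp only [Pi.zero_apply] at this
    omega
  · intro i
    have h1 := (x i).2
    have h2 := (y i).2
    change |((x i : ℕ) : ℤ) - ((y i : ℕ) : ℤ)| ≤ B
    rw [abs_le]
    constructor <;> omega
  · intro j
    have e : ∑ i, (((x i : ℤ) - (y i : ℤ) : ℤ) : ℂ) * c j i = ell x j - ell y j := by
      rw [hell]
      simp only
      rw [← sum_sub_distrib]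
      refine sum_congr rfl fun i _ ↦ ?_
      push_cast
      ring
    rw [e]
    have h1 := congrFun hfxy j
    rw [hf] at h1
    simp only [Prod.mk.injEq, Subtype.mk.injEq] at h1
    have h2 := hfloor _ _ h1.1
    have h3 := hfloor _ _ h1.2
    have h4 := Complex.norm_le_abs_re_add_abs_im (ell x j - ell y j)
    rw [Complex.sub_re, Complex.sub_im] at h4
    linarith

/-- The auxiliary polynomial and its derivatives. -/
noncomputable def PP {L : ℕ} (p : Fin L × Fin L → ℤ) (t : ℕ) : MvPolynomial (Fin 5) ℤ :=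
  ∑ i, C (p i) * W (i.1 : ℕ) (i.2 : ℕ) t

lemma DD_C_mul (c : ℤ) (P : MvPolynomial (Fin 5) ℤ) : DD (C c * P) = C c * DD P := by
  rw [Derivation.leibniz]
  have : DD (C c) = 0 := by
    rw [← algebraMap_eq]
    exact DD.map_algebraMap c
  rw [this, smul_zero, add_zero, smul_eq_mul]

lemma PP_succ {L : ℕ} (p : Fin L × Fin L → ℤ) (t : ℕ) : PP p (t + 1) = DD (PP p t) := by
  rw [PP, PP, map_sum]
  refine sum_congr rfl fun i _ ↦ ?_
  rw [DD_C_mul, W_succ]

lemma PP_zero {L : ℕ} (p : Fin L × Fin L → ℤ) :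
    PP p 0 = ∑ i, C (p i) * (X 0 ^ (i.1 : ℕ) * X 2 ^ (i.2 : ℕ)) := rfl

lemma deg_PP {L : ℕ} (p : Fin L × Fin L → ℤ) (t : ℕ) : (PP p t).totalDegree ≤ 2 * L + t := by
  refine totalDegree_finsetSum_le fun i _ ↦ (totalDegree_mul _ _).trans ?_
  rw [totalDegree_C, zero_add]
  have := deg_W (i.1 : ℕ) (i.2 : ℕ) t
  have h1 := i.1.2
  have h2 := i.2.2
  omega

lemma nrm_W' {L : ℕ} (i : Fin L × Fin L) (t : ℕ) :
    nrm (W (i.1 : ℕ) (i.2 : ℕ) t) ≤ (7 * (2 * L + t : ℝ)) ^ t := by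
  refine (nrm_W _ _ _).trans ?_
  have h1 : ((i.1 : ℕ) : ℝ) ≤ L := by exact_mod_cast i.1.2.le
  have h2 : ((i.2 : ℕ) : ℝ) ≤ L := by exact_mod_cast i.2.2.le
  gcongr
  linarith

lemma nrm_PP {L : ℕ} {p : Fin L × Fin L → ℤ} {B : ℝ} (hB : ∀ i, |(p i : ℝ)| ≤ B) (t : ℕ) :
    nrm (PP p t) ≤ L ^ 2 * B * (7 * (2 * L + t : ℝ)) ^ t := by
  refine (nrm_sum_le _ _).trans ?_
  calc ∑ i, nrm (C (p i) * W (i.1 : ℕ) (i.2 : ℕ) t)
      ≤ ∑ _i : Fin L × Fin L, B * (7 * (2 * L + t : ℝ)) ^ t := by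
        refine sum_le_sum fun i _ ↦ (nrm_mul_le _ _).trans ?_
        rw [nrm_C]
        have h1 := hB i
        have h2 := nrm_W' i t
        have h3 := nrm_nonneg (W (i.1 : ℕ) (i.2 : ℕ) t)
        have h4 : 0 ≤ B := (abs_nonneg _).trans h1
        gcongr
    _ = _ := by
      simp only [sum_const, card_univ, Fintype.card_prod, Fintype.card_fin, nsmul_eq_mul]
      push_cast
      ring

section

variable {K : Type*} [Field K] [NumberField K]

lemma height_value {x : Fin 5 → K} {Λ : ℕ} (hΛ : totalWeight K ≤ Λ)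
    (hx : ∀ i, mulHeight₁ (x i) ≤ Real.exp Λ) {P : MvPolynomial (Fin 5) ℤ} {n : ℕ} {B : ℝ}
    (hB : 1 ≤ B) (hP : nrm P ≤ B) (hn : P.totalDegree ≤ n) :
    mulHeight₁ (aeval x P) ≤ B ^ Λ * Real.exp (5 * Λ * n) := by
  have h := mulHeight₁_aeval_le x P (d := fun _ ↦ n) ?_ hB hP
  · refine h.trans ?_
    have h1 : ∏ i, mulHeight₁ (x i) ^ n ≤ ∏ _i : Fin 5, Real.exp Λ ^ n := by
      refine prod_le_prod (fun i _ ↦ by positivity) fun i _ ↦ ?_
      have := hx i
      gcongr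
    have h2 : ∏ _i : Fin 5, Real.exp Λ ^ n = Real.exp (5 * Λ * n) := by
      simp only [prod_const, card_univ, Fintype.card_fin]
      rw [← pow_mul, ← Real.exp_nat_mul]
      congr 1
      push_cast
      ring
    rw [← h2]
    have h3 : B ^ totalWeight K ≤ B ^ Λ := pow_le_pow_right₀ hB hΛ
    gcongr
  · intro m hm i
    have h1 := le_totalDegree hm
    have h2 : m i ≤ m.sum fun _ e ↦ e := by
      rw [Finsupp.sum_fintype _ _ (by simp)]
      exact single_le_sum (f := fun i ↦ m i) (fun _ _ ↦ Nat.zero_le _) (mem_univ i)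
    omega

/-- Construction of the auxiliary polynomial. -/
theorem exists_aux (σ : K →+* ℂ) {x : Fin 5 → K} {Λ L T B : ℕ} (hΛ1 : 1 ≤ Λ)
    (hΛ : totalWeight K ≤ Λ) (hx : ∀ i, mulHeight₁ (x i) ≤ Real.exp Λ) (hL : 1 ≤ L) (hT : 1 ≤ T)
    (hLT : 12 * Λ * T ≤ L ^ 2)
    (hB : Real.log (L ^ 2 * (7 * (2 * L + T : ℝ)) ^ T) + 3 * (2 * L + T) + 1 ≤ Real.log B) :
    ∃ p : Fin L × Fin L → ℤ, p ≠ 0 ∧ (∀ i, |p i| ≤ B) ∧ ∀ t < T, aeval x (PP p t) = 0 := by
  have hLr : (1 : ℝ) ≤ L := by exact_mod_cast hL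
  have hTr : (1 : ℝ) ≤ T := by exact_mod_cast hT
  have hΛr : (1 : ℝ) ≤ Λ := by exact_mod_cast hΛ1
  set U0 : ℝ := (7 * (2 * L + T : ℝ)) ^ T with hU0
  have hU01 : 1 ≤ U0 := one_le_pow₀ (by linarith)
  have hlogpos : 0 ≤ Real.log (L ^ 2 * U0) := Real.log_nonneg (by nlinarith)
  have hlogB : 0 < Real.log B := by linarith
  have hB1 : (1 : ℝ) < B := by
    by_contra hcon
    push Not at hcon
    have := Real.log_nonpos (Nat.cast_nonneg B) hcon
    linarith
  set n : ℝ := 2 * L + T with hn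
  have hn1 : 1 ≤ n := by rw [hn]; linarith
  set U : ℝ := U0 ^ Λ * Real.exp (5 * Λ * n) with hU
  have hU1 : 1 ≤ U := by
    rw [hU]
    refine one_le_mul_of_one_le_of_one_le (one_le_pow₀ hU01) (Real.one_le_exp (by positivity))
  set H : ℝ := (L ^ 2 * B * U0) ^ Λ * Real.exp (5 * Λ * n) with hH
  have hLBU : 1 ≤ L ^ 2 * B * U0 := by
    have : (1 : ℝ) ≤ L ^ 2 := one_le_pow₀ hLr
    exact one_le_mul_of_one_le_of_one_le (one_le_mul_of_one_le_of_one_le this hB1.le) hU01
  have hH1 : 1 ≤ H := by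
    rw [hH]
    refine one_le_mul_of_one_le_of_one_le (one_le_pow₀ hLBU) (Real.one_le_exp (by positivity))
  set ε : ℝ := (4 * H)⁻¹ with hε
  have hε0 : 0 < ε := by rw [hε]; positivity
  set Q : ℝ := (L ^ 2 : ℝ) * B * U / ε with hQ
  have hQ' : Q = L ^ 2 * B * U * (4 * H) := by rw [hQ, hε, div_inv_eq_mul]
  have hQ1 : 1 ≤ Q := by
    rw [hQ']
    have h1 : (1 : ℝ) ≤ L ^ 2 * B := one_le_mul_of_one_le_of_one_le (one_le_pow₀ hLr) hB1.le
    refine one_le_mul_of_one_le_of_one_le (one_le_mul_of_one_le_of_one_le h1 hU1) (by linarith)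
  -- the values of the derivatives
  have hW : ∀ (i : Fin L × Fin L) (t : ℕ), t < T →
      ‖σ (aeval x (W (i.1 : ℕ) (i.2 : ℕ) t))‖ ≤ U := by
    intro i t ht
    refine (norm_le_mulHeight₁ _ _).trans ?_
    have h1 := height_value hΛ hx (P := W (i.1 : ℕ) (i.2 : ℕ) t) (n := 2 * L + T) hU01 ?_ ?_
    · refine h1.trans ?_
      rw [hU, hn]; push_cast; exact le_rfl
    · refine (nrm_W' i t).trans ?_
      have ht' : (t : ℝ) ≤ T := by exact_mod_cast ht.le
      calc (7 * (2 * L + t : ℝ)) ^ t ≤ (7 * (2 * L + T : ℝ)) ^ t := by gcongr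
        _ ≤ (7 * (2 * L + T : ℝ)) ^ T := pow_le_pow_right₀ (by linarith) ht.le
    · have := deg_W (i.1 : ℕ) (i.2 : ℕ) t
      have h1 := i.1.2
      have h2 := i.2.2
      omega
  have hKQ : (Fintype.card (Fin L × Fin L) : ℝ) * B * U / ε ≤ (⌈Q⌉₊ : ℕ) := by
    refine le_trans (le_of_eq ?_) (Nat.le_ceil Q)
    rw [hQ]
    simp only [Fintype.card_prod, Fintype.card_fin]
    push_cast
    ring
  have hcardQ : (2 * ⌈Q⌉₊ + 1) ^ (2 * Fintype.card (Fin T)) <
      (B + 1) ^ Fintype.card (Fin L × Fin L) := by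
    -- the cardinality inequality
    simp only [Fintype.card_prod, Fintype.card_fin]
    have h5 : ((2 * ⌈Q⌉₊ + 1 : ℕ) : ℝ) ≤ 5 * Q := by
      have := Nat.ceil_lt_add_one (a := Q) (by linarith)
      push_cast
      linarith
    have hlog : 2 * (T : ℝ) * Real.log (5 * Q) < (L : ℝ) ^ 2 * Real.log (B + 1) := by
      have e1 : Real.log (5 * Q) = Real.log 20 + Real.log (L ^ 2 * U0) + Real.log B - Real.log U0 +
          (Λ * Real.log U0 + 5 * Λ * n) +
          (Λ * (Real.log (L ^ 2 * U0) + Real.log B) + 5 * Λ * n) := by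
        have h20 : Real.log 20 = Real.log 5 + Real.log 4 := by
          rw [← Real.log_mul (by norm_num) (by norm_num)]; norm_num
        have hLpos : (L : ℝ) ^ 2 ≠ 0 := by positivity
        have hBpos : (B : ℝ) ≠ 0 := by positivity
        have hUpos : U ≠ 0 := by positivity
        have hHpos : H ≠ 0 := by positivity
        have hU0pos : U0 ≠ 0 := by positivity
        have l1 : Real.log (5 * Q) = Real.log 5 + Real.log Q :=
          Real.log_mul (by norm_num) (by positivity)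
        have lQ : Real.log Q = Real.log (L ^ 2) + Real.log B + Real.log U +
            (Real.log 4 + Real.log H) := by
          rw [hQ', Real.log_mul (by positivity) (by positivity),
            Real.log_mul (by positivity) hUpos, Real.log_mul hLpos hBpos,
            Real.log_mul (by norm_num) hHpos]
        have lU : Real.log U = Λ * Real.log U0 + 5 * Λ * n := by
          rw [hU, Real.log_mul (by positivity) (by positivity), Real.log_exp, Real.log_pow]
        have lH : Real.log H = Λ * (Real.log (L ^ 2) + Real.log B + Real.log U0) + 5 * Λ * n := by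
          rw [hH, Real.log_mul (by positivity) (by positivity), Real.log_exp,
            Real.log_pow (L ^ 2 * B * U0 : ℝ) Λ,
            Real.log_mul (by positivity) hU0pos, Real.log_mul hLpos hBpos]
        have lLU : Real.log (L ^ 2 * U0) = Real.log (L ^ 2) + Real.log U0 :=
          Real.log_mul hLpos hU0pos
        rw [l1, lQ, lU, lH, lLU, h20]
        ring
      have h20 : Real.log 20 ≤ 3 := by
        rw [show (20 : ℝ) = Real.exp (Real.log 20) by rw [Real.exp_log]; norm_num, Real.log_exp]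
        rw [Real.log_le_iff_le_exp (by norm_num)]
        have h1 := Real.exp_one_gt_d9
        have h2 : Real.exp 3 = Real.exp 1 ^ 3 := by rw [← Real.exp_nat_mul]; norm_num
        rw [h2]
        calc (20 : ℝ) ≤ 2.7182818283 ^ 3 := by norm_num
          _ ≤ _ := by gcongr
      have hlU0 : 0 ≤ Real.log U0 := Real.log_nonneg hU01
      have hlL : Real.log U0 ≤ Real.log (L ^ 2 * U0) := by
        apply Real.log_le_log (by positivity)
        nlinarith [one_le_pow₀ (n := 2) hLr]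
      set a := Real.log (L ^ 2 * U0) with ha
      set b := Real.log (B : ℝ) with hb
      have h6 : Real.log (5 * Q) ≤ Λ * (3 + 2 * b + 3 * a + 10 * n) := by
        rw [e1]
        have h7 : Real.log 20 + a + b - Real.log U0 ≤ Λ * (3 + a + b) := by
          nlinarith
        have h8 : Λ * Real.log U0 ≤ Λ * a := by gcongr
        nlinarith
      have h9 : b ≤ Real.log (B + 1) := Real.log_le_log (by linarith) (by linarith)
      have hLT' : 12 * (Λ : ℝ) * T ≤ L ^ 2 := by exact_mod_cast hLT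
      have h10 : 3 + 2 * b + 3 * a + 10 * n < 6 * b := by nlinarith
      calc 2 * (T : ℝ) * Real.log (5 * Q) ≤ 2 * T * (Λ * (3 + 2 * b + 3 * a + 10 * n)) := by gcongr
        _ < 2 * T * (Λ * (6 * b)) := by gcongr
        _ = 12 * Λ * T * b := by ring
        _ ≤ L ^ 2 * b := by gcongr
        _ ≤ _ := by gcongr
    have h7 : ((2 * ⌈Q⌉₊ + 1 : ℕ) : ℝ) ^ (2 * T) < ((B + 1 : ℕ) : ℝ) ^ (L * L) := by
      calc ((2 * ⌈Q⌉₊ + 1 : ℕ) : ℝ) ^ (2 * T) ≤ (5 * Q) ^ (2 * T) := by gcongr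
        _ = Real.exp (2 * T * Real.log (5 * Q)) := by
          rw [show (2 * T * Real.log (5 * Q) : ℝ) = ((2 * T : ℕ) : ℝ) * Real.log (5 * Q) by
            push_cast; ring, Real.exp_nat_mul, Real.exp_log (by positivity)]
        _ < Real.exp (L ^ 2 * Real.log (B + 1)) := Real.exp_lt_exp.mpr hlog
        _ = _ := by
          rw [show (L ^ 2 * Real.log (B + 1) : ℝ) = ((L * L : ℕ) : ℝ) * Real.log (B + 1) by
            push_cast; ring, Real.exp_nat_mul, Real.exp_log (by positivity)]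
          push_cast
          rfl
    exact_mod_cast h7
  obtain ⟨p, hp0, hpB, hp⟩ := pigeon (I := Fin L × Fin L) (J := Fin T)
    (fun j i ↦ σ (aeval x (W (i.1 : ℕ) (i.2 : ℕ) (j : ℕ)))) (U := U) (ε := ε)
    (fun j i ↦ hW i j j.2) hε0 B ⌈Q⌉₊ hKQ hcardQ
  refine ⟨p, hp0, hpB, fun t ht ↦ ?_⟩
  by_contra hne
  have h1 := liouville σ hne
  have hpB' : ∀ i, |(p i : ℝ)| ≤ B := fun i ↦ by
    have := hpB i
    exact_mod_cast this
  have h2 : mulHeight₁ (aeval x (PP p t)) ≤ H := by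
    have h3 := height_value hΛ hx (P := PP p t) (n := 2 * L + T) hLBU ?_ ?_
    · refine h3.trans ?_
      rw [hH, hn]; push_cast; exact le_rfl
    · refine (nrm_PP hpB' t).trans ?_
      have ht' : (t : ℝ) ≤ T := by exact_mod_cast ht.le
      gcongr
      calc (7 * (2 * L + t : ℝ)) ^ t ≤ (7 * (2 * L + T : ℝ)) ^ t := by gcongr
        _ ≤ (7 * (2 * L + T : ℝ)) ^ T := pow_le_pow_right₀ (by linarith) ht.le
    · have := deg_PP p t
      omega
  have h3 : ‖σ (aeval x (PP p t))‖ ≤ 2 * ε := by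
    have e : σ (aeval x (PP p t)) =
        ∑ i, (p i : ℂ) * σ (aeval x (W (i.1 : ℕ) (i.2 : ℕ) t)) := by
      rw [PP, map_sum, map_sum]
      refine sum_congr rfl fun i _ ↦ ?_
      rw [map_mul, map_mul]
      congr 1
      rw [algHom_C]
      simp
    rw [e]
    exact hp ⟨t, ht⟩
  have h4 : 2 * ε = H⁻¹ / 2 := by
    rw [hε, mul_inv]; ring
  have h5 : H⁻¹ ≤ (mulHeight₁ (aeval x (PP p t)))⁻¹ := by
    apply inv_anti₀ _ h2
    linarith [one_le_mulHeight₁ (aeval x (PP p t))]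
  have h6 : 0 < H⁻¹ := by positivity
  linarith

end

end H32.T3
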