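import Pool.Agent.H32.T3.C2
import Pool.Agent.H32.T3.Siegel
import Pool.Agent.H32.JDeriv
import Pool.Agent.H32.Indep2

/-!
# Transfer of relations to CM approximations
-/

open UpperHalfPlane hiding I
open Complex EisensteinSeries ModularForm MatrixGroups Manifold
open scoped Real Topology

namespace H32.T3

open Height Height.AdmissibleAbsValues Finset NumberField Filter Asymptotics

/-- The `j`-function on `ℂ`. -/
noncomputable def jc (w : ℂ) : ℂ := 1728 * e4 w ^ 3 / (e4 w ^ 3 - e6 w ^ 2)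

/-- `E₂* E₄ / E₆`. -/
noncomputable def ph (w : ℂ) : ℂ := (e2 w - 3 / (π * w.im)) * e4 w / e6 w

/-- `E₂ E₄ / E₆`. -/
noncomputable def ps (w : ℂ) : ℂ := e2 w * e4 w / e6 w

/-- The four functions. -/
noncomputable def V4 (w : ℂ) : Fin 4 → ℂ := ![w, (starRingEnd ℂ) w, jc w, ph w]

lemma jc_coe (τ : ℍ) : jc τ = jf τ := by
  have h := discriminant_eq_E₄_cube_sub_E₆_sq τ
  have h0 := discriminant_ne_zero τ
  have h1 : E₄ τ ^ 3 - E₆ τ ^ 2 ≠ 0 := by
    intro h2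
    rw [h2, zero_div] at h
    exact h0 h
  rw [jc, jf, e4, e6, ofComplex_apply, h]
  field_simp

lemma ph_coe (τ : ℍ) : ph τ = E2s τ * E₄ τ / E₆ τ := by
  rw [ph, e2, e4, e6, ofComplex_apply, E2s, UpperHalfPlane.coe_im]

/-- Good approximations of `z` by CM points. -/
structure Apx (κ : ℕ) (z : ℂ) where
  /-- heights -/
  H : ℕ → ℕ
  /-- coefficients -/
  a : ℕ → ℤ
  /-- coefficients -/
  b : ℕ → ℤ
  /-- coefficients -/
  c : ℕ → ℤ
  /-- the points -/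
  t : ℕ → ℍ
  hH : ∀ n, n + 2 ≤ H n
  ha : ∀ n, 0 < a n
  haH : ∀ n, |a n| ≤ H n
  hbH : ∀ n, |b n| ≤ H n
  hcH : ∀ n, |c n| ≤ H n
  ht : ∀ n, (a n : ℂ) * (t n : ℂ) ^ 2 + b n * (t n : ℂ) + c n = 0
  hlt : ∀ n, ‖z - t n‖ < Real.exp (-(H n : ℝ) ^ κ)
  hne : ∀ n, (t n : ℂ) ≠ z

lemma Apx.tendsto {κ : ℕ} (hκ : 1 ≤ κ) {z : ℂ} (S : Apx κ z) :
    Tendsto (fun n ↦ (S.t n : ℂ)) atTop (𝓝 z) := by
  rw [tendsto_iff_norm_sub_tendsto_zero]
  have h1 : Tendsto (fun n : ℕ ↦ Real.exp (-(n : ℝ))) atTop (𝓝 0) :=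
    Real.tendsto_exp_neg_atTop_nhds_zero.comp tendsto_natCast_atTop_atTop
  refine squeeze_zero (fun _ ↦ norm_nonneg _) (fun n ↦ ?_) h1
  rw [norm_sub_rev]
  refine (S.hlt n).le.trans (Real.exp_le_exp.mpr (neg_le_neg ?_))
  have h2 : (n : ℝ) ≤ S.H n := by exact_mod_cast (Nat.le_of_lt (by have := S.hH n; omega))
  have h3 : (1 : ℝ) ≤ S.H n := by exact_mod_cast (by have := S.hH n; omega : 1 ≤ S.H n)
  exact h2.trans (le_self_pow₀ h3 (by omega))

lemma Apx.tendsto_ne {κ : ℕ} (hκ : 1 ≤ κ) {z : ℂ} (S : Apx κ z) :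
    Tendsto (fun n ↦ (S.t n : ℂ)) atTop (𝓝[≠] z) :=
  tendsto_nhdsWithin_iff.mpr ⟨S.tendsto hκ, Eventually.of_forall S.hne⟩

/-- Liouville inequality at CM points. -/
theorem liouville4 : ∃ A : ℕ, ∀ G : MvPolynomial (Fin 4) ℤ, ∃ C : ℝ, 0 ≤ C ∧
    ∀ (H : ℕ) (a b c : ℤ) (τ : ℍ), 2 ≤ H → 0 < a → |a| ≤ H → |b| ≤ H →
    |c| ≤ H → (a : ℂ) * τ ^ 2 + b * τ + c = 0 → E₆ τ ≠ 0 →
    MvPolynomial.aeval (V4 τ) G = 0 ∨
      Real.exp (-(C * (H : ℝ) ^ A)) ≤ ‖MvPolynomial.aeval (V4 τ) G‖ := by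
  obtain ⟨A, hA⟩ := cm_heights
  refine ⟨2 * A, fun G ↦ ⟨Real.log (max 1 (nrm G)) + 4 * G.totalDegree, ?_, ?_⟩⟩
  · have := Real.log_nonneg (le_max_left 1 (nrm G))
    positivity
  intro H a b c τ hH ha haH hbH hcH hτ h6
  obtain ⟨K, hK, hKA, hL⟩ := hA H a b c τ hH ha haH hbH hcH hτ h6
  have hNF : NumberField K := { to_charZero := inferInstance, to_finiteDimensional := hK }
  obtain ⟨t, tb, J, φ, h1, h2, h3, h4, b1, b2, b3, b4⟩ := hL K (algebraMap K ℂ)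
    (fun x hx ↦ ⟨⟨x, hx⟩, rfl⟩)
  set v : Fin 4 → K := ![t, tb, J, φ] with hv
  have hvb : ∀ i, HB ((H : ℝ) ^ A) (v i) := by
    intro i
    fin_cases i
    · exact b1
    · exact b2
    · exact b3
    · exact b4
  have hval : algebraMap K ℂ (MvPolynomial.aeval v G) = MvPolynomial.aeval (V4 τ) G := by
    have h5 := MvPolynomial.comp_aeval_apply v (algebraMap K ℂ).toIntAlgHom G
    have h6 : (fun i ↦ (algebraMap K ℂ).toIntAlgHom (v i)) = V4 τ := by
      ext i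
      fin_cases i
      · exact h1
      · exact h2
      · exact h3.trans (jc_coe τ).symm
      · exact h4.trans (ph_coe τ).symm
    rw [h6] at h5
    exact h5
  by_cases h0 : MvPolynomial.aeval (V4 τ) G = 0
  · exact Or.inl h0
  right
  have hy : MvPolynomial.aeval v G ≠ 0 := by
    intro h5
    rw [h5, map_zero] at hval
    exact h0 hval.symm
  have h5 := liouville (algebraMap K ℂ) hy
  rw [hval] at h5
  refine le_trans ?_ h5
  have h6 := HB.aeval hvb G le_rfl (le_max_left 1 (nrm G)) (le_max_right _ _)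
  unfold HB at h6
  have hH1 : (1 : ℝ) ≤ (H : ℝ) ^ A := by
    apply one_le_pow₀
    have : (2 : ℝ) ≤ H := by exact_mod_cast hH
    linarith
  have hd : (totalWeight K : ℝ) ≤ (H : ℝ) ^ A := by
    rw [totalWeight_eq_finrank]
    exact_mod_cast hKA
  have hlog := Real.log_nonneg (le_max_left 1 (nrm G))
  have h7 : logHeight₁ (MvPolynomial.aeval v G) ≤
      (Real.log (max 1 (nrm G)) + 4 * G.totalDegree) * (H : ℝ) ^ (2 * A) := by
    refine h6.trans ?_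
    rw [Fintype.card_fin]
    push_cast
    have h8 : (H : ℝ) ^ (2 * A) = (H : ℝ) ^ A * (H : ℝ) ^ A := by ring
    rw [h8, ← mul_assoc]
    have h9 : Real.log (max 1 (nrm G)) + 4 * G.totalDegree * (H : ℝ) ^ A ≤
        (Real.log (max 1 (nrm G)) + 4 * G.totalDegree) * (H : ℝ) ^ A := by
      rw [add_mul]
      have := le_mul_of_one_le_right hlog hH1
      linarith
    gcongr
  rw [Real.exp_neg]
  apply inv_anti₀ (mulHeight₁_pos _)
  rw [logHeight₁_eq_log_mulHeight₁, Real.log_le_iff_le_exp (mulHeight₁_pos _)] at h7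
  exact h7

lemma num_contra {C C' : ℝ} (A κ : ℕ) (hκ : A < κ) (hC' : 0 < C') :
    ∃ H0 : ℝ, ∀ H : ℝ, H0 ≤ H → C' * Real.exp (-H ^ κ) < Real.exp (-(C * H ^ A)) := by
  refine ⟨max 1 (C + |Real.log C'| + 1), fun H hH ↦ ?_⟩
  have h1 : 1 ≤ H := (le_max_left _ _).trans hH
  have h2 : C + |Real.log C'| + 1 ≤ H := (le_max_right _ _).trans hH
  have h3 : H ^ (A + 1) ≤ H ^ κ := pow_le_pow_right₀ h1 hκ
  have h4 : 1 ≤ H ^ A := one_le_pow₀ h1
  have h5 : Real.log C' - H ^ κ < -(C * H ^ A) := by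
    have h6 : Real.log C' < (H - C) * H ^ A := by
      calc Real.log C' ≤ |Real.log C'| := le_abs_self _
        _ < (|Real.log C'| + 1) * 1 := by linarith
        _ ≤ (H - C) * H ^ A := by
          have h8 := abs_nonneg (Real.log C')
          have h9 : |Real.log C'| + 1 ≤ H - C := by linarith
          have h10 : 0 ≤ H - C := by linarith
          gcongr
    have h7 : (H - C) * H ^ A = H ^ (A + 1) - C * H ^ A := by ring
    linarith
  calc C' * Real.exp (-H ^ κ) = Real.exp (Real.log C' - H ^ κ) := by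
        rw [sub_eq_add_neg, Real.exp_add, Real.exp_log hC']
    _ < _ := Real.exp_lt_exp.mpr h5

/-- Relations at `z` transfer to the CM points. -/
theorem transfer : ∃ A : ℕ, ∀ (κ : ℕ), A < κ → ∀ (z : ℂ) (S : Apx κ z)
    (G : MvPolynomial (Fin 4) ℤ),
    (fun w ↦ MvPolynomial.aeval (V4 w) G) =O[𝓝 z] (fun w ↦ w - z) →
    ∀ᶠ n in atTop, e6 (S.t n) = 0 ∨ MvPolynomial.aeval (V4 (S.t n)) G = 0 := by
  obtain ⟨A, hA⟩ := liouville4
  refine ⟨A, fun κ hκ z S G hG ↦ ?_⟩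
  obtain ⟨C, hC0, hC⟩ := hA G
  obtain ⟨C', hC'0, hC'⟩ := hG.exists_pos
  rw [IsBigOWith] at hC'
  obtain ⟨H0, hH0⟩ := num_contra (C := C) A κ hκ hC'0
  have h1 := (S.tendsto (by omega)).eventually hC'
  have h2 : ∀ᶠ n : ℕ in atTop, H0 ≤ (n : ℝ) := tendsto_natCast_atTop_atTop.eventually_ge_atTop H0
  filter_upwards [h1, h2] with n h3 h4
  by_cases h6 : e6 (S.t n) = 0
  · exact Or.inl h6
  right
  have h6' : E₆ (S.t n) ≠ 0 := by
    rwa [e6, ofComplex_apply] at h6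
  rcases hC (S.H n) (S.a n) (S.b n) (S.c n) (S.t n) (by have := S.hH n; omega) (S.ha n) (S.haH n)
    (S.hbH n) (S.hcH n) (S.ht n) h6' with h5 | h5
  · exact h5
  exfalso
  have h7 : H0 ≤ (S.H n : ℝ) := by
    refine h4.trans ?_
    exact_mod_cast (by have := S.hH n; omega : n ≤ S.H n)
  have h8 := hH0 _ h7
  have h9 := S.hlt n
  rw [norm_sub_rev] at h9
  have h10 : ‖MvPolynomial.aeval (V4 (S.t n)) G‖ ≤ C' * Real.exp (-(S.H n : ℝ) ^ κ) :=
    h3.trans (by gcongr)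
  linarith

end H32.T3
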