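import Pool.Agent.H32.T3.C3

/-!
# Nonvanishing of `E₄`, `E₆` and transfer of all relations
-/

open UpperHalfPlane hiding I
open Complex EisensteinSeries ModularForm MatrixGroups Manifold
open scoped Real Topology

namespace H32.T3

open Finset Filter Asymptotics

lemma e6_ev {z : ℂ} (hz : 0 < z.im) : ∀ᶠ w in 𝓝[≠] z, e6 w ≠ 0 := by
  rcases (analytic_E6 z hz).eventually_eq_zero_or_eventually_ne_zero with h | h
  · exfalso
    apply E6_not_zero
    exact analytic_E6.eqOn_zero_of_preconnected_of_eventuallyEq_zero preconnected_H hz h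
  · exact h

lemma e4_ev {z : ℂ} (hz : 0 < z.im) : ∀ᶠ w in 𝓝[≠] z, e4 w ≠ 0 := by
  rcases (analytic_E4 z hz).eventually_eq_zero_or_eventually_ne_zero with h | h
  · exfalso
    have h0 := analytic_E4.eqOn_zero_of_preconnected_of_eventuallyEq_zero preconnected_H hz h
    have h1 : ∀ τ : ℍ, E₄ τ = 0 := fun τ ↦ by
      have := h0 τ.im_pos
      simpa [ofComplex_apply] using this
    apply E_ne_zero (k := 4) (by norm_num) ⟨2, rfl⟩
    ext τ
    exact h1 τ
  · exact h

lemma hasDeriv_jc {w : ℂ} (hw : 0 < w.im) : HasDerivAt jc (J1 w) w := hasDeriv_J hw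

lemma jc_eq_1728 {w : ℂ} : jc w = 1728 ↔ e6 w = 0 := by
  have hd := disc_ne (w := w)
  rw [jc, div_eq_iff hd]
  constructor
  · intro h
    have : e6 w ^ 2 = 0 := by linear_combination (1 / 1728 : ℂ) * h
    exact pow_eq_zero_iff (two_ne_zero) |>.mp this
  · intro h
    rw [h]; ring

lemma jc_eq_zero {w : ℂ} : jc w = 0 ↔ e4 w = 0 := by
  have hd := disc_ne (w := w)
  rw [jc, div_eq_zero_iff, or_iff_left hd]
  constructor
  · intro h
    have : e4 w ^ 3 = 0 := by linear_combination (1 / 1728 : ℂ) * h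
    exact pow_eq_zero_iff (three_ne_zero) |>.mp this
  · intro h
    rw [h]; ring

theorem e46_ne : ∃ A : ℕ, ∀ (κ : ℕ), A < κ → ∀ (z : ℂ) (_ : Apx κ z), 0 < z.im →
    e4 z ≠ 0 ∧ e6 z ≠ 0 := by
  obtain ⟨A, hA⟩ := transfer
  refine ⟨A, fun κ hκ z S hz ↦ ?_⟩
  have hb := (hasDeriv_jc hz).differentiableAt.isBigO_sub
  have hT := S.tendsto_ne (by omega)
  constructor
  · intro h0
    have h1 := hA κ hκ z S (MvPolynomial.X 2) (by
      have e : jc z = 0 := jc_eq_zero.mpr h0
      rw [e] at hb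
      simpa [V4] using hb)
    have h2 := hT.eventually (e6_ev hz)
    have h3 := hT.eventually (e4_ev hz)
    obtain ⟨n, h4, h5, h6⟩ := (h1.and (h2.and h3)).exists
    rcases h4 with h4 | h4
    · exact h5 h4
    · rw [MvPolynomial.aeval_X] at h4
      exact h6 (jc_eq_zero.mp h4)
  · intro h0
    have h1 := hA κ hκ z S (MvPolynomial.X 2 - MvPolynomial.C 1728) (by
      have e : jc z = 1728 := jc_eq_1728.mpr h0
      rw [e] at hb
      refine hb.congr_left fun w ↦ ?_
      rw [map_sub, MvPolynomial.aeval_X, MvPolynomial.aeval_C]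
      simp [V4])
    have h2 := hT.eventually (e6_ev hz)
    obtain ⟨n, h4, h5⟩ := (h1.and h2).exists
    rcases h4 with h4 | h4
    · exact h5 h4
    · rw [map_sub, MvPolynomial.aeval_X, MvPolynomial.aeval_C] at h4
      have h6 : jc (S.t n) - 1728 = 0 := by simpa [V4] using h4
      exact h5 (jc_eq_1728.mp (sub_eq_zero.mp h6))

lemma diff_V4 {z : ℂ} (hz : 0 < z.im) (h6 : e6 z ≠ 0) (i : Fin 4) :
    DifferentiableAt ℝ (fun w ↦ V4 w i) z := by
  have d4 : DifferentiableAt ℝ e4 z := (hasDeriv_e4 hz).differentiableAt.restrictScalars ℝ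
  have d6 : DifferentiableAt ℝ e6 z := (hasDeriv_e6 hz).differentiableAt.restrictScalars ℝ
  have d2 : DifferentiableAt ℝ e2 z := (analytic_E2 z hz).differentiableAt.restrictScalars ℝ
  have dj : DifferentiableAt ℝ jc z := (hasDeriv_jc hz).differentiableAt.restrictScalars ℝ
  fin_cases i
  · exact differentiableAt_id
  · exact Complex.conjCLE.differentiableAt
  · exact dj
  · have him : DifferentiableAt ℝ (fun w : ℂ ↦ ((w.im : ℝ) : ℂ)) z :=
      (Complex.ofRealCLM.differentiableAt).comp z Complex.imCLM.differentiableAt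
    have hpi : (π : ℂ) ≠ 0 := by exact_mod_cast Real.pi_ne_zero
    have hy : (π : ℂ) * ((z.im : ℝ) : ℂ) ≠ 0 := mul_ne_zero hpi (by exact_mod_cast hz.ne')
    have h0 : DifferentiableAt ℝ (fun w : ℂ ↦ ((π : ℂ) * ((w.im : ℝ) : ℂ))⁻¹) z :=
      ((differentiableAt_const _).mul him).inv hy
    have h1 : DifferentiableAt ℝ (fun w : ℂ ↦ (3 : ℂ) * (π * ((w.im : ℝ) : ℂ))⁻¹) z :=
      (differentiableAt_const _).mul h0
    have h2 := ((d2.sub h1).mul d4).mul (d6.inv h6)
    exact h2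

lemma diff_aeval {z : ℂ} (hz : 0 < z.im) (h6 : e6 z ≠ 0) (G : MvPolynomial (Fin 4) ℤ) :
    DifferentiableAt ℝ (fun w ↦ MvPolynomial.aeval (V4 w) G) z := by
  induction G using MvPolynomial.induction_on with
  | C c =>
    simp only [MvPolynomial.aeval_C]
    exact differentiableAt_const _
  | add p q hp hq =>
    simp only [map_add]
    exact hp.add hq
  | mul_X p i hp =>
    simp only [map_mul, MvPolynomial.aeval_X]
    exact hp.mul (diff_V4 hz h6 i)

lemma rel_bigO {z : ℂ} (hz : 0 < z.im) (h6 : e6 z ≠ 0) (G : MvPolynomial (Fin 4) ℤ)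
    (h : MvPolynomial.aeval (V4 z) G = 0) :
    (fun w ↦ MvPolynomial.aeval (V4 w) G) =O[𝓝 z] (fun w ↦ w - z) := by
  have h1 := (diff_aeval hz h6 G).isBigO_sub
  rw [h] at h1
  simpa using h1

/-- All relations at `z` hold at the CM points. -/
theorem transfer' : ∃ A : ℕ, ∀ (κ : ℕ), A < κ → ∀ (z : ℂ) (S : Apx κ z), 0 < z.im →
    ∀ (G : MvPolynomial (Fin 4) ℤ), MvPolynomial.aeval (V4 z) G = 0 →
    ∀ᶠ n in atTop, MvPolynomial.aeval (V4 (S.t n)) G = 0 := by
  obtain ⟨A, hA⟩ := transfer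
  obtain ⟨A', hA'⟩ := e46_ne
  refine ⟨A + A', fun κ hκ z S hz G hG ↦ ?_⟩
  have h6 := (hA' κ (by omega) z S hz).2
  have h1 := hA κ (by omega) z S G (rel_bigO hz h6 G hG)
  have h2 := (S.tendsto_ne (by omega)).eventually (e6_ev hz)
  filter_upwards [h1, h2] with n h3 h4
  exact h3.resolve_left h4

end H32.T3
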