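import Pool.Agent.H32.T3.C4

/-!
# Algebraic points attached to roots of specialised relations
-/

open UpperHalfPlane hiding I
open Complex EisensteinSeries ModularForm MatrixGroups Manifold
open scoped Real Topology

namespace H32.T3

open Height Height.AdmissibleAbsValues Finset NumberField Filter

lemma exists_near_root (f : Polynomial ℂ) (hf : f.natDegree ≠ 0) (x : ℂ) :
    ∃ ρ, f.eval ρ = 0 ∧ ‖x - ρ‖ ^ f.natDegree * ‖f.leadingCoeff‖ ≤ ‖f.eval x‖ := by
  classical
  have hsp : f.Splits := IsAlgClosed.splits f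
  have hcard : f.roots.card = f.natDegree := hsp.natDegree_eq_card_roots.symm
  have hf0 : f ≠ 0 := fun h ↦ hf (by rw [h, Polynomial.natDegree_zero])
  have hne : f.roots.toFinset.Nonempty := by
    rw [Multiset.toFinset_nonempty]
    intro h0
    rw [h0, Multiset.card_zero] at hcard
    exact hf hcard.symm
  obtain ⟨ρ, hρ, hmin⟩ := exists_min_image f.roots.toFinset (fun ρ ↦ ‖x - ρ‖) hne
  rw [Multiset.mem_toFinset] at hρ
  refine ⟨ρ, (Polynomial.mem_roots'.mp hρ).2, ?_⟩
  rw [hsp.eval_eq_prod_roots x, norm_mul, mul_comm]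
  gcongr
  have h1 : ‖(f.roots.map (fun a ↦ x - a)).prod‖ = (f.roots.map (fun a ↦ ‖x - a‖)).prod := by
    have := map_multiset_prod (normHom : ℂ →*₀ ℝ) (f.roots.map (fun a ↦ x - a))
    rw [Multiset.map_map] at this
    exact this
  have h2 : ‖x - ρ‖ ^ f.natDegree = (f.roots.map (fun _ ↦ ‖x - ρ‖)).prod := by
    rw [Multiset.map_const', Multiset.prod_replicate, hcard]
  rw [h1, h2]
  exact Multiset.prod_map_le_prod_map₀ _ _ (fun _ _ ↦ norm_nonneg _) fun a ha ↦
    hmin a (Multiset.mem_toFinset.mpr ha)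

/-- The number field attached to a root. -/
theorem point_bound : ∃ A : ℕ, ∀ (G : ℕ → MvPolynomial (Fin 4) ℤ) (n : ℕ), ∃ C1 : ℕ,
    ∀ (H : ℕ) (a b c : ℤ) (τ : ℍ), 2 ≤ H → 0 < a → |a| ≤ H → |b| ≤ H →
    |c| ≤ H → (a : ℂ) * τ ^ 2 + b * τ + c = 0 → E₆ τ ≠ 0 →
    MvPolynomial.aeval (V4 τ) (G n) ≠ 0 → ∀ e ρ : ℂ,
    4 * e ^ 3 - 2 * (27 / 2 * (E₄ τ ^ 3 / E₆ τ ^ 2)) * e -
        2 * (27 / 2 * (E₄ τ ^ 3 / E₆ τ ^ 2)) = 0 →
    ∑ i ∈ range (n + 1), MvPolynomial.aeval (V4 τ) (G i) * ρ ^ i = 0 →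
    ∃ (L : Type) (_ : Field L) (_ : NumberField L) (s : L →+* ℂ) (x0 x3 x4 : L),
      s x0 = e ∧ s x3 = 27 / 2 * (E₄ τ ^ 3 / E₆ τ ^ 2) ∧ s x4 = 3 / 2 * ρ ∧
      totalWeight L ≤ C1 * H ^ (2 * A) ∧
      mulHeight₁ x0 ≤ Real.exp ((C1 * H ^ (2 * A) : ℕ) : ℝ) ∧
      mulHeight₁ x3 ≤ Real.exp ((C1 * H ^ (2 * A) : ℕ) : ℝ) ∧
      mulHeight₁ x4 ≤ Real.exp ((C1 * H ^ (2 * A) : ℕ) : ℝ) := by
  obtain ⟨A, hA⟩ := cm_heights
  refine ⟨A, fun G n ↦ ?_⟩
  set D : ℕ := ∑ i ∈ range (n + 1), (G i).totalDegree with hD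
  set B : ℝ := 1 + ∑ i ∈ range (n + 1), nrm (G i) with hB
  have hBs : 0 ≤ ∑ i ∈ range (n + 1), nrm (G i) := sum_nonneg fun i _ ↦ nrm_nonneg _
  have hB1 : 1 ≤ B := by rw [hB]; linarith
  have hlB : 0 ≤ Real.log B := Real.log_nonneg hB1
  -- the budget
  set Q : ℝ := 2000 + n + Real.log B + 4 * D with hQ
  set C1 : ℕ := ⌈Q⌉₊ * (3 * n + 1) with hC1
  refine ⟨C1, fun H a b c τ hH ha haH hbH hcH hτ h6 hGn e ρ he hρ ↦ ?_⟩
  obtain ⟨K, hK, hKA, hL⟩ := hA H a b c τ hH ha haH hbH hcH hτ h6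
  have hH2 : (2 : ℝ) ≤ H := by exact_mod_cast hH
  have hT1 : (1 : ℝ) ≤ (H : ℝ) ^ A := one_le_pow₀ (by linarith)
  set T : ℝ := (H : ℝ) ^ A with hT
  have hΔ := discriminant_ne_zero τ
  have hJ1728 : jf τ - 1728 ≠ 0 := by
    intro h0
    have := jf_sub τ
    rw [h0, zero_mul] at this
    exact pow_ne_zero 2 h6 this.symm
  have hh : 27 / 2 * (E₄ τ ^ 3 / E₆ τ ^ 2) = 27 / 2 * (jf τ / (jf τ - 1728)) := by
    congr 1
    rw [← jf_mul, ← jf_sub]
    field_simp
  set h := 27 / 2 * (E₄ τ ^ 3 / E₆ τ ^ 2) with hhdef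
  -- first step: adjoin `ρ`
  have hNF : NumberField K := { to_charZero := inferInstance, to_finiteDimensional := hK }
  obtain ⟨t, tb, J, φ, h1, h2, h3, h4, -, -, -, -⟩ := hL K (algebraMap K ℂ)
    (fun x hx ↦ ⟨⟨x, hx⟩, rfl⟩)
  set v : Fin 4 → K := ![t, tb, J, φ] with hv
  have hval : ∀ P : MvPolynomial (Fin 4) ℤ,
      algebraMap K ℂ (MvPolynomial.aeval v P) = MvPolynomial.aeval (V4 τ) P := by
    intro P
    have h5 := MvPolynomial.comp_aeval_apply v (algebraMap K ℂ).toIntAlgHom P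
    have h6 : (fun i ↦ (algebraMap K ℂ).toIntAlgHom (v i)) = V4 τ := by
      ext i
      fin_cases i
      · exact h1
      · exact h2
      · exact h3.trans (jc_coe τ).symm
      · exact h4.trans (ph_coe τ).symm
    rw [h6] at h5
    exact h5
  set f : Polynomial K := ∑ i ∈ range (n + 1),
    Polynomial.C (MvPolynomial.aeval v (G i)) * Polynomial.X ^ i with hf
  have hfd : f.natDegree ≤ n := by
    refine Polynomial.natDegree_sum_le_of_forall_le _ _ fun i hi ↦ ?_
    exact (Polynomial.natDegree_C_mul_X_pow_le _ _).trans (Nat.lt_succ_iff.mp (mem_range.mp hi))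
  have hf0 : f ≠ 0 := by
    intro h0
    have h1 := congrArg (fun p ↦ p.coeff n) h0
    simp only [hf, Polynomial.finsetSum_coeff, Polynomial.coeff_C_mul, Polynomial.coeff_X_pow,
      Polynomial.coeff_zero] at h1
    rw [sum_eq_single n] at h1
    · rw [if_pos rfl, mul_one] at h1
      apply hGn
      rw [← hval, h1, map_zero]
    · intro i _ hi
      rw [if_neg (Ne.symm hi), mul_zero]
    · intro hM
      exact absurd (mem_range.mpr (Nat.lt_succ_self n)) hM
  obtain ⟨K1, hK1, hρ1, hf1, hd1⟩ := one_step K ρ f hf0 (by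
    rw [hf, map_sum, ← hρ]
    refine sum_congr rfl fun i _ ↦ ?_
    rw [map_mul, Polynomial.aeval_C, map_pow, Polynomial.aeval_X, hval])
  -- second step: adjoin `e`
  have hhK : h ∈ K1 := by
    rw [hh]
    have hJK : jf τ ∈ K1 := by
      apply hK1
      rw [← h3]
      exact J.2
    have h27 : (27 / 2 : ℂ) ∈ K1 := by
      have : (27 / 2 : ℂ) = algebraMap ℚ ℂ (27 / 2) := by simp
      rw [this]
      exact K1.algebraMap_mem _
    have h17 : (1728 : ℂ) ∈ K1 := by
      have : (1728 : ℂ) = algebraMap ℚ ℂ 1728 := by simp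
      rw [this]
      exact K1.algebraMap_mem _
    exact K1.mul_mem h27 (K1.div_mem hJK (K1.sub_mem hJK h17))
  set g : Polynomial K1 := Polynomial.C 4 * Polynomial.X ^ 3 -
    Polynomial.C (2 * ⟨h, hhK⟩) * Polynomial.X - Polynomial.C (2 * ⟨h, hhK⟩) with hg
  have hgd : g.natDegree ≤ 3 := by
    rw [hg]
    compute_degree
  have hg0 : g ≠ 0 := by
    intro h0
    have h1 := congrArg (fun p ↦ p.coeff 3) h0
    simp only [hg, Polynomial.coeff_sub, Polynomial.coeff_C_mul, Polynomial.coeff_X_pow,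
      Polynomial.coeff_X, Polynomial.coeff_C, Polynomial.coeff_zero] at h1
    norm_num at h1
  obtain ⟨K2, hK2, he2, hf2, hd2⟩ := one_step K1 e g hg0 (by
    rw [hg, map_sub, map_sub, map_mul, map_mul, map_pow, Polynomial.aeval_X, Polynomial.aeval_C,
      Polynomial.aeval_C, ← he]
    have e1 : algebraMap K1 ℂ (2 * ⟨h, hhK⟩) = 2 * h := rfl
    rw [e1]
    rfl)
  have hNF2 : NumberField K2 := { to_charZero := inferInstance, to_finiteDimensional := hf2 }
  obtain ⟨t', tb', J', φ', h1', h2', h3', h4', b1, b2, b3, b4⟩ := hL K2 (algebraMap K2 ℂ)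
    (fun x hx ↦ ⟨⟨x, hK2 (hK1 hx)⟩, rfl⟩)
  set v' : Fin 4 → K2 := ![t', tb', J', φ'] with hv'
  have hvb : ∀ i, HB T (v' i) := by
    intro i
    fin_cases i
    · exact b1
    · exact b2
    · exact b3
    · exact b4
  have hval' : ∀ P : MvPolynomial (Fin 4) ℤ,
      algebraMap K2 ℂ (MvPolynomial.aeval v' P) = MvPolynomial.aeval (V4 τ) P := by
    intro P
    have h5 := MvPolynomial.comp_aeval_apply v' (algebraMap K2 ℂ).toIntAlgHom P
    have h6 : (fun i ↦ (algebraMap K2 ℂ).toIntAlgHom (v' i)) = V4 τ := by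
      ext i
      fin_cases i
      · exact h1'
      · exact h2'
      · exact h3'.trans (jc_coe τ).symm
      · exact h4'.trans (ph_coe τ).symm
    rw [h6] at h5
    exact h5
  set r : K2 := ⟨ρ, hK2 hρ1⟩ with hr
  set ee : K2 := ⟨e, he2⟩ with hee
  set x3 : K2 := ((27 : ℤ) : K2) / ((2 : ℤ) : K2) * (J' / (J' - ((1728 : ℤ) : K2))) with hx3
  have hx3v : algebraMap K2 ℂ x3 = h := by
    rw [hx3, hh, map_mul, map_div₀, map_div₀, map_sub, h3', map_intCast, map_intCast, map_intCast]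
    push_cast
    rfl
  -- heights
  have hx3b : HB (2 * T + 1758) x3 :=
    (((HB.int 27).div (HB.int 2)).mul (b3.div (b3.sub (HB.int 1728)))).mono (by
      norm_num
      linarith)
  have hrb : HB (n + Real.log B + 4 * D * T) r := by
    have hroot := HB.root hvb (n := n) (fun j ↦ if j ≤ n then G j else 0) (D := D)
      (fun j ↦ by
        split_ifs with hj
        · exact single_le_sum (f := fun i ↦ (G i).totalDegree) (fun _ _ ↦ Nat.zero_le _)
            (mem_range.mpr (Nat.lt_succ_of_le hj))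
        · simp) (B := B) hB1 (fun j ↦ by
        split_ifs with hj
        · have := single_le_sum (f := fun i ↦ nrm (G i)) (fun _ _ ↦ nrm_nonneg _)
            (mem_range.mpr (Nat.lt_succ_of_le hj))
          rw [hB]
          linarith
        · rw [nrm_zero]; linarith) r ?_ ?_
    · refine hroot.mono ?_
      rw [Fintype.card_fin]
      push_cast
      linarith
    · rw [if_pos le_rfl]
      intro h0
      apply hGn
      rw [← hval', h0, map_zero]
    · apply (algebraMap K2 ℂ).injective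
      rw [map_zero, map_sum, ← hρ]
      refine sum_congr rfl fun i hi ↦ ?_
      rw [if_pos (Nat.lt_succ_iff.mp (mem_range.mp hi)), map_mul, map_pow, hval']
      rfl
  have hx4b : HB (3 + 2 + (n + Real.log B + 4 * D * T)) (((3 : ℤ) : K2) / ((2 : ℤ) : K2) * r) :=
    (((HB.int 3).div (HB.int 2)).mul hrb).mono (by norm_num)
  have heb : HB (2 * T + 1765) ee := by
    have hroot := HB.root (ι := Fin 1) (x := fun _ ↦ x3) (fun _ ↦ hx3b) (n := 3)
      (fun j ↦ if j = 0 then MvPolynomial.C (-2) * MvPolynomial.X 0 else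
        if j = 1 then MvPolynomial.C (-2) * MvPolynomial.X 0 else
        if j = 3 then MvPolynomial.C 4 else 0) (D := 1)
      (fun j ↦ by
        have e1 : (MvPolynomial.C (-2) * MvPolynomial.X 0 :
            MvPolynomial (Fin 1) ℤ).totalDegree ≤ 1 := by
          refine (MvPolynomial.totalDegree_mul _ _).trans ?_
          rw [MvPolynomial.totalDegree_C, MvPolynomial.totalDegree_X]
        split_ifs
        · exact e1
        · exact e1
        · rw [MvPolynomial.totalDegree_C]; norm_num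
        · simp) (B := 4) (by norm_num) (fun j ↦ by
        have e1 : nrm (MvPolynomial.C (-2) * MvPolynomial.X 0 : MvPolynomial (Fin 1) ℤ) ≤ 4 := by
          refine (nrm_mul_le _ _).trans ?_
          rw [nrm_C, nrm_X]
          norm_num
        split_ifs
        · exact e1
        · exact e1
        · rw [nrm_C]; norm_num
        · rw [nrm_zero]; norm_num) ee ?_ ?_
    · refine hroot.mono ?_
      have h4 : Real.log 4 ≤ 4 - 1 := Real.log_le_sub_one_of_pos (by norm_num)
      simp only [Fintype.card_fin, Nat.cast_one, one_mul, Nat.cast_ofNat]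
      linarith
    · rw [if_neg (by norm_num), if_neg (by norm_num), if_pos rfl, MvPolynomial.aeval_C]
      simp
    · clear_value x3
      have hrel : 4 * ee ^ 3 - 2 * x3 * ee - 2 * x3 = 0 := by
        apply (algebraMap K2 ℂ).injective
        have e1 : algebraMap K2 ℂ ee = e := rfl
        simp only [map_zero, map_sub, map_mul, map_pow, hx3v, map_ofNat, e1]
        exact he
      simp only [sum_range_succ, sum_range_zero]
      norm_num [MvPolynomial.aeval_C, MvPolynomial.aeval_X]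
      linear_combination hrel
  have hd : Module.finrank ℚ K2 ≤ H ^ A * (3 * n + 1) := by
    calc Module.finrank ℚ K2 ≤ Module.finrank ℚ K1 * 3 := hd2.trans (Nat.mul_le_mul_left _ hgd)
      _ ≤ (Module.finrank ℚ K * n) * 3 :=
        Nat.mul_le_mul_right _ (hd1.trans (Nat.mul_le_mul_left _ hfd))
      _ ≤ (H ^ A * n) * 3 := by gcongr
      _ = H ^ A * (3 * n) := by ring
      _ ≤ H ^ A * (3 * n + 1) := by gcongr; omega
  have hQ0 : 0 ≤ Q := by
    rw [hQ]
    positivity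
  have hQceil : Q ≤ (⌈Q⌉₊ : ℝ) := Nat.le_ceil Q
  have hC1' : (C1 : ℝ) * T ^ 2 = ⌈Q⌉₊ * T * (T * (3 * n + 1)) := by
    rw [hC1]; push_cast; ring
  have hd' : (totalWeight K2 : ℝ) ≤ T * (3 * n + 1) := by
    rw [totalWeight_eq_finrank, hT]
    exact_mod_cast hd
  have hfin : ∀ (S : ℝ) (x : K2), 0 ≤ S → HB S x → S ≤ Q * T →
      mulHeight₁ x ≤ Real.exp ((C1 * H ^ (2 * A) : ℕ) : ℝ) := by
    intro S x hS hx hSQ
    unfold HB at hx
    rw [← Real.log_le_iff_le_exp (mulHeight₁_pos _), ← logHeight₁_eq_log_mulHeight₁]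
    have e1 : ((C1 * H ^ (2 * A) : ℕ) : ℝ) = C1 * T ^ 2 := by
      rw [hT]; push_cast; ring
    rw [e1, hC1']
    calc logHeight₁ x ≤ S * totalWeight K2 := hx
      _ ≤ (⌈Q⌉₊ * T) * (T * (3 * n + 1)) := by
        have : S ≤ ⌈Q⌉₊ * T := hSQ.trans (by gcongr)
        gcongr
  have hDT : (4 * D : ℝ) * T ≤ 4 * D * T := le_rfl
  have hQT : Q * T = 2000 * T + n * T + Real.log B * T + 4 * D * T := by rw [hQ]; ring
  have hnT : (n : ℝ) ≤ n * T := le_mul_of_one_le_right (by positivity) hT1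
  have hlT : Real.log B ≤ Real.log B * T := le_mul_of_one_le_right hlB hT1
  have hDT0 : (0 : ℝ) ≤ 4 * D * T := by positivity
  have hnT0 : (0 : ℝ) ≤ n * T := by positivity
  have hlT0 : (0 : ℝ) ≤ Real.log B * T := by positivity
  refine ⟨K2, inferInstance, hNF2, algebraMap K2 ℂ, ee, x3, ((3 : ℤ) : K2) / ((2 : ℤ) : K2) * r,
    rfl, hx3v, ?_, ?_, hfin _ _ (by positivity) heb ?_, hfin _ _ (by positivity) hx3b ?_,
    hfin _ _ (by positivity) hx4b ?_⟩
  · rw [map_mul, map_div₀, map_intCast, map_intCast]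
    push_cast
    rfl
  · rw [totalWeight_eq_finrank]
    refine hd.trans ?_
    have h5 : 1 ≤ ⌈Q⌉₊ := by
      rw [Nat.one_le_ceil_iff, hQ]
      positivity
    have h6 : 1 ≤ H ^ A := Nat.one_le_pow _ _ (by omega)
    calc H ^ A * (3 * n + 1) = 1 * (1 * (H ^ A * (3 * n + 1))) := by ring
      _ ≤ ⌈Q⌉₊ * (H ^ A * (H ^ A * (3 * n + 1))) := by gcongr
      _ = C1 * H ^ (2 * A) := by rw [hC1]; ring
  · rw [hQT]; linarith
  · rw [hQT]; linarith
  · rw [hQT]; linarith

end H32.T3
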