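import Pool.Agent.H32.T3.Measure

/-!
# The transcendence measure for the quasi-period quotient, uniform near a point
-/

namespace H32.T3

open UpperHalfPlane hiding I
open Complex EisensteinSeries ModularForm Filter Topology Finset Height NumberField

lemma continuous_E4 : Continuous (fun τ : ℍ ↦ (E₄ τ : ℂ)) := E₄.holo'.continuous
lemma continuous_E6 : Continuous (fun τ : ℍ ↦ (E₆ τ : ℂ)) := E₆.holo'.continuous
lemma continuous_E2 : Continuous (fun τ : ℍ ↦ E2 τ) := E2_mdifferentiable.continuous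

lemma G2_eq (τ : ℍ) : G2 τ = (Real.pi : ℂ) ^ 2 / 3 * E2 τ := by
  have hpi : (Real.pi : ℂ) ≠ 0 := by exact_mod_cast Real.pi_ne_zero
  have : E2 τ = (1 / (2 * riemannZeta 2)) * G2 τ := rfl
  rw [this, riemannZeta_two]
  field_simp
  ring

lemma continuous_G2 : Continuous (fun τ : ℍ ↦ G2 τ) := by
  have : (fun τ : ℍ ↦ G2 τ) = fun τ ↦ (Real.pi : ℂ) ^ 2 / 3 * E2 τ := funext G2_eq
  rw [this]
  exact continuous_const.mul continuous_E2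

/-- Uniform analytic data near `z`. -/
theorem exists_data (z : ℍ) (h4 : E₄ z ≠ 0) (h6 : E₆ z ≠ 0) :
    ∃ r C σ : ℝ, r < 1 ∧ 0 < r ∧ 1 ≤ C ∧ 0 < σ ∧ ∀ᶠ τ : ℍ in 𝓝 z, ∃ lam e : ℂ,
      EllData r C σ (pp τ) lam (G2 τ) (27 / 2 * (E₄ τ ^ 3 / E₆ τ ^ 2))
        (3 / 2 * (E2 τ * E₄ τ / E₆ τ)) e ∧
      4 * e ^ 3 - 2 * (27 / 2 * (E₄ τ ^ 3 / E₆ τ ^ 2)) * e -
        2 * (27 / 2 * (E₄ τ ^ 3 / E₆ τ ^ 2)) = 0 := by
  have hy := z.im_pos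
  have hpi := Real.pi_pos
  set r : ℝ := Real.exp (-(Real.pi * (z.im / 2))) with hr
  set c : ℝ := Real.pi * (2 * z.im) + 1 with hc
  have hr1 : r < 1 := Real.exp_lt_one_iff.mpr (by
    have : 0 < Real.pi * (z.im / 2) := by positivity
    linarith)
  have hr0 : 0 < r := Real.exp_pos _
  have hc1 : 1 ≤ c := by
    have : 0 < Real.pi * (2 * z.im) := by positivity
    linarith
  -- the square of `lam`
  set Q : ℍ → ℂ := fun τ ↦ (LL τ).g₃ / (LL τ).g₂ with hQ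
  have hpiC : (Real.pi : ℂ) ≠ 0 := by exact_mod_cast Real.pi_ne_zero
  have hQe : ∀ τ : ℍ, Q τ = (8 * (Real.pi : ℂ) ^ 6 / 27 * E₆ τ) / (4 * (Real.pi : ℂ) ^ 4 / 3 * E₄ τ) := by
    intro τ
    rw [hQ]
    simp only
    rw [g2_eq, g3_eq]
  have hden : (4 * (Real.pi : ℂ) ^ 4 / 3 * E₄ z) ≠ 0 :=
    mul_ne_zero (div_ne_zero (mul_ne_zero (by norm_num) (pow_ne_zero _ hpiC)) (by norm_num)) h4
  have hnum : (8 * (Real.pi : ℂ) ^ 6 / 27 * E₆ z) ≠ 0 :=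
    mul_ne_zero (div_ne_zero (mul_ne_zero (by norm_num) (pow_ne_zero _ hpiC)) (by norm_num)) h6
  have hQz : Q z ≠ 0 := by rw [hQe]; exact div_ne_zero hnum hden
  have hQc : ContinuousAt Q z := by
    have : Q = fun τ ↦ (8 * (Real.pi : ℂ) ^ 6 / 27 * E₆ τ) / (4 * (Real.pi : ℂ) ^ 4 / 3 * E₄ τ) :=
      funext hQe
    rw [this]
    exact ((continuous_const.mul continuous_E6).continuousAt).div
      ((continuous_const.mul continuous_E4).continuousAt) hden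
  -- the bound `B0`
  set B0 : ℝ := 1 + 2 * ‖Q z‖ + 2 * ‖Q z‖⁻¹ + (‖G2 z‖ + 1) with hB0
  have hQn : 0 < ‖Q z‖ := norm_pos_iff.mpr hQz
  have hQi : 0 < ‖Q z‖⁻¹ := by positivity
  have hB01 : 1 ≤ B0 := by
    have := norm_nonneg (G2 z)
    linarith
  obtain ⟨C1, hC1, hgr⟩ := growth hr1 hr0.le hc1 hB01
  obtain ⟨C2, hC2, hne⟩ := near_one hr1 hr0.le
  obtain ⟨C3, hC3, hpo⟩ := near_pole hr1 hr0.le hc1 hB01
  set C : ℝ := C1 + C2⁻¹ + C3 + B0 + c with hC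
  have hC2i : 0 < C2⁻¹ := by positivity
  refine ⟨r, C, z.im / 4, hr1, hr0, by linarith, by positivity, ?_⟩
  have ev1 : ∀ᶠ τ : ℍ in 𝓝 z, z.im / 2 < τ.im :=
    UpperHalfPlane.continuous_im.continuousAt.eventually_const_lt (by linarith)
  have ev2 : ∀ᶠ τ : ℍ in 𝓝 z, τ.im < 2 * z.im :=
    UpperHalfPlane.continuous_im.continuousAt.eventually_lt_const (by linarith)
  have ev3 : ∀ᶠ τ : ℍ in 𝓝 z, ‖Q τ‖ < 2 * ‖Q z‖ :=
    hQc.norm.eventually_lt_const (by linarith)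
  have ev4 : ∀ᶠ τ : ℍ in 𝓝 z, ‖Q z‖ / 2 < ‖Q τ‖ :=
    hQc.norm.eventually_const_lt (by linarith)
  have ev5 : ∀ᶠ τ : ℍ in 𝓝 z, ‖G2 τ‖ < ‖G2 z‖ + 1 :=
    continuous_G2.norm.continuousAt.eventually_lt_const (by linarith)
  have ev6 : ∀ᶠ τ : ℍ in 𝓝 z, (E₄ τ : ℂ) ≠ 0 := continuous_E4.continuousAt.eventually_ne h4
  have ev7 : ∀ᶠ τ : ℍ in 𝓝 z, (E₆ τ : ℂ) ≠ 0 := continuous_E6.continuousAt.eventually_ne h6
  filter_upwards [ev1, ev2, ev3, ev4, ev5, ev6, ev7] with τ t1 t2 t3 t4 t5 t6 t7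
  obtain ⟨lam, hlam⟩ : ∃ lam : ℂ, lam ^ 2 = Q τ := ⟨(Q τ) ^ (1 / 2 : ℂ), by
    rw [← Complex.cpow_nat_mul]; norm_num⟩
  obtain ⟨X, X1, Y, hsys, hX1, hY, hX⟩ := system t6 t7 hlam
  have hQτ : 0 < ‖Q τ‖ := by linarith
  have hlam0 : lam ≠ 0 := by
    rintro rfl
    rw [zero_pow (by norm_num)] at hlam
    rw [← hlam, norm_zero] at hQτ
    exact lt_irrefl _ hQτ
  have hln : ‖lam‖ ^ 2 = ‖Q τ‖ := by rw [← norm_pow, hlam]
  have hlpos : 0 < ‖lam‖ := norm_pos_iff.mpr hlam0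
  have hlamB : ‖lam‖ ≤ B0 := by
    by_contra hcon
    push Not at hcon
    have h1 : B0 ≤ ‖lam‖ ^ 2 := by nlinarith
    have h2 := norm_nonneg (G2 z)
    rw [hln] at h1
    linarith
  have hlamB' : ‖lam⁻¹‖ ≤ B0 := by
    rw [norm_inv]
    by_contra hcon
    push Not at hcon
    have h0 : 0 < ‖lam‖⁻¹ := by positivity
    have h1 : B0 ≤ (‖lam‖⁻¹) ^ 2 := by nlinarith
    have h2 := norm_nonneg (G2 z)
    rw [inv_pow, hln] at h1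
    have h3 : ‖Q τ‖⁻¹ ≤ 2 * ‖Q z‖⁻¹ := by
      have : ‖Q τ‖⁻¹ ≤ (‖Q z‖ / 2)⁻¹ := inv_anti₀ (by positivity) t4.le
      rw [inv_div, div_eq_mul_inv] at this
      exact this
    linarith
  have hGB : ‖G2 τ‖ ≤ B0 := by linarith
  have hpr : ‖pp τ‖ ≤ r := by
    rw [norm_pp, hr]
    apply Real.exp_le_exp.mpr
    have : Real.pi * (z.im / 2) ≤ Real.pi * τ.im := by gcongr
    linarith
  have hpc : Real.exp (-c) ≤ ‖pp τ‖ := by
    rw [norm_pp]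
    apply Real.exp_le_exp.mpr
    have : Real.pi * τ.im ≤ Real.pi * (2 * z.im) := by gcongr
    linarith
  refine ⟨lam, X 0, ⟨pp_ne τ, hpr, ?_, ?_, ?_, ?_, hlam0, by linarith, by linarith,
    X, X1, Y, ?_, hX1, hY, rfl⟩, hX⟩
  · refine le_trans ?_ hpc
    apply Real.exp_le_exp.mpr
    linarith
  · intro M w hw
    obtain ⟨g1, g2, g3⟩ := hgr (pp τ) lam (G2 τ) hpr hpc hlamB' hGB M w hw
    have hle : Real.exp (C1 * (M + 1) ^ 2) ≤ Real.exp (C * (M + 1) ^ 2) := by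
      apply Real.exp_le_exp.mpr
      gcongr
      linarith
    exact ⟨g1.trans hle, g2.trans hle, g3.trans hle⟩
  · intro w hw
    refine le_trans ?_ (hne (pp τ) w hpr hw)
    apply inv_le_of_inv_le₀ hC2
    linarith
  · intro B hB
    obtain ⟨w, w1, w2, w3, w4⟩ := hpo (pp τ) lam (G2 τ) hpr hpc hlam0 hlamB' hlamB hGB B hB
    refine ⟨w, w1, w2, le_trans ?_ w3, w4⟩
    apply inv_anti₀ (by positivity)
    gcongr
    linarith
  · intro s hs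
    exact hsys s (by linarith)

/-- The transcendence measure. -/
theorem measure_tau (z : ℍ) (h4 : E₄ z ≠ 0) (h6 : E₆ z ≠ 0) :
    ∃ Λ0 : ℕ, ∀ᶠ τ : ℍ in 𝓝 z, ∃ e : ℂ,
      4 * e ^ 3 - 2 * (27 / 2 * (E₄ τ ^ 3 / E₆ τ ^ 2)) * e -
        2 * (27 / 2 * (E₄ τ ^ 3 / E₆ τ ^ 2)) = 0 ∧
      ∀ (K : Type) [Field K] [NumberField K] (s : K →+* ℂ) (x0 x3 x4 : K) (Λ : ℕ), Λ0 ≤ Λ →
        totalWeight K ≤ Λ → mulHeight₁ x0 ≤ Real.exp Λ → mulHeight₁ x3 ≤ Real.exp Λ →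
        mulHeight₁ x4 ≤ Real.exp Λ → s x0 = e → s x3 = 27 / 2 * (E₄ τ ^ 3 / E₆ τ ^ 2) →
        Real.exp (-(Λ : ℝ) ^ 22) ≤ ‖3 / 2 * (E2 τ * E₄ τ / E₆ τ) - s x4‖ := by
  obtain ⟨r, C, σ, hr, hr0, hC, hσ, hev⟩ := exists_data z h4 h6
  obtain ⟨Λ0, hm⟩ := measure hr hr0 hC hσ
  refine ⟨Λ0, ?_⟩
  filter_upwards [hev] with τ hτ
  obtain ⟨lam, e, hD, he⟩ := hτ
  refine ⟨e, he, ?_⟩
  intro K _ _ s x0 x3 x4 Λ hΛ hw h0 h3 h4 hs0 hs3
  have := hm _ _ _ _ _ _ hD K s ![x0, 0, 0, x3, x4] Λ hΛ hw (fun i ↦ ?_) hs0 rfl rfl hs3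
  · exact this
  · have h1 : mulHeight₁ (0 : K) ≤ Real.exp Λ := by
      rw [mulHeight₁_zero]
      exact Real.one_le_exp (Nat.cast_nonneg _)
    fin_cases i
    · exact h0
    · exact h1
    · exact h1
    · exact h3
    · exact h4

end H32.T3
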