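import Pool.Agent.H32.T3.C5
import Pool.Agent.H32.T3.C6
import Pool.Agent.H32.T3.Measure2

/-!
# Transcendence of `E₂ E₄ / E₆` over the other quantities
-/

open UpperHalfPlane hiding I
open Complex EisensteinSeries ModularForm MatrixGroups Manifold
open scoped Real Topology

namespace H32.T3

open Height Height.AdmissibleAbsValues Finset NumberField Filter Asymptotics

lemma diff_ps {z : ℂ} (hz : 0 < z.im) (h6 : e6 z ≠ 0) : DifferentiableAt ℝ ps z := by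
  have d4 : DifferentiableAt ℝ e4 z := (hasDeriv_e4 hz).differentiableAt.restrictScalars ℝ
  have d6 : DifferentiableAt ℝ e6 z := (hasDeriv_e6 hz).differentiableAt.restrictScalars ℝ
  have d2 : DifferentiableAt ℝ e2 z := (analytic_E2 z hz).differentiableAt.restrictScalars ℝ
  exact (d2.mul d4).mul (d6.inv h6)

theorem psi_transc : ∃ A : ℕ, ∀ (κ : ℕ), A < κ → ∀ (z : ℂ) (_ : Apx κ z), 0 < z.im →
    ¬ IsAlgebraic (Algebra.adjoin ℤ (Set.range (V4 z))) (ps z) := by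
  obtain ⟨A, hA⟩ := point_bound
  obtain ⟨A', hA'⟩ := e46_ne
  refine ⟨44 * A + A', fun κ hκ z S hz halg ↦ ?_⟩
  obtain ⟨h4, h6⟩ := hA' κ (by omega) z S hz
  obtain ⟨p, hp0, hp⟩ := halg
  have hcoef : ∀ i, ∃ G : MvPolynomial (Fin 4) ℤ,
      MvPolynomial.aeval (V4 z) G = ((p.coeff i : Algebra.adjoin ℤ (Set.range (V4 z))) : ℂ) := by
    intro i
    have h1 : ((p.coeff i : Algebra.adjoin ℤ (Set.range (V4 z))) : ℂ) ∈
        (MvPolynomial.aeval (V4 z) : MvPolynomial (Fin 4) ℤ →ₐ[ℤ] ℂ).range := by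
      rw [← Algebra.adjoin_range_eq_range_aeval]
      exact (p.coeff i).2
    exact h1
  choose G hG using hcoef
  set n := p.natDegree with hn
  have hGn : MvPolynomial.aeval (V4 z) (G n) ≠ 0 := by
    rw [hG]
    intro h0
    have h1 : p.coeff n = 0 := by
      apply Subtype.ext
      rw [h0]; rfl
    exact hp0 (Polynomial.leadingCoeff_eq_zero.mp h1)
  have hsum : ∑ i ∈ range (n + 1), MvPolynomial.aeval (V4 z) (G i) * ps z ^ i = 0 := by
    rw [← hp, Polynomial.aeval_eq_sum_range]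
    refine sum_congr rfl fun i _ ↦ ?_
    rw [hG]
    rfl
  have hn0 : n ≠ 0 := by
    intro h0
    rw [h0] at hsum hGn
    rw [zero_add, sum_range_one, pow_zero, mul_one] at hsum
    exact hGn hsum
  -- the function
  set F : ℂ → ℂ := fun w ↦ ∑ i ∈ range (n + 1), MvPolynomial.aeval (V4 w) (G i) * ps w ^ i with hF
  have hFd : DifferentiableAt ℝ F z := by
    rw [hF]
    refine DifferentiableAt.fun_sum fun i _ ↦ ?_
    exact (diff_aeval hz h6 (G i)).mul ((diff_ps hz h6).pow i)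
  have hFO : F =O[𝓝 z] (fun w ↦ w - z) := by
    have h1 := hFd.isBigO_sub
    have h2 : F z = 0 := hsum
    rw [h2] at h1
    simpa using h1
  obtain ⟨C', hC'0, hC'⟩ := hFO.exists_pos
  rw [IsBigOWith] at hC'
  have hgc : ∀ᶠ w in 𝓝 z, ‖MvPolynomial.aeval (V4 z) (G n)‖ / 2 <
      ‖MvPolynomial.aeval (V4 w) (G n)‖ := by
    have h1 := ((diff_aeval hz h6 (G n)).continuousAt.norm)
    refine h1.eventually_const_lt ?_
    have : 0 < ‖MvPolynomial.aeval (V4 z) (G n)‖ := norm_pos_iff.mpr hGn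
    linarith
  set cc : ℝ := ‖MvPolynomial.aeval (V4 z) (G n)‖ / 2 with hcc
  have hcc0 : 0 < cc := by
    have : 0 < ‖MvPolynomial.aeval (V4 z) (G n)‖ := norm_pos_iff.mpr hGn
    positivity
  obtain ⟨C1, hC1⟩ := hA G n
  have h4' : E₄ (⟨z, hz⟩ : ℍ) ≠ 0 := by
    have : ofComplex z = ⟨z, hz⟩ := ofComplex_apply_of_im_pos hz
    rw [e4, this] at h4
    exact h4
  have h6' : E₆ (⟨z, hz⟩ : ℍ) ≠ 0 := by
    have : ofComplex z = ⟨z, hz⟩ := ofComplex_apply_of_im_pos hz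
    rw [e6, this] at h6
    exact h6
  obtain ⟨Λ0, hΛ⟩ := measure_tau ⟨z, hz⟩ h4' h6'
  have hTH : Tendsto S.t atTop (𝓝 (⟨z, hz⟩ : ℍ)) := by
    rw [UpperHalfPlane.isEmbedding_coe.tendsto_nhds_iff]
    exact S.tendsto (by omega)
  have hT := S.tendsto (by omega)
  have hTn := S.tendsto_ne (by omega)
  obtain ⟨H0, hH0⟩ := num_contra (C := n * ((C1 + Λ0 : ℕ) : ℝ) ^ 22)
    (C' := C' / ((2 / 3) ^ n * cc)) (44 * A) κ (by omega) (by positivity)
  have hlarge : ∀ᶠ k : ℕ in atTop, H0 ≤ (k : ℝ) :=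
    tendsto_natCast_atTop_atTop.eventually_ge_atTop H0
  obtain ⟨k, q1, q2, q3, q4, q5⟩ := ((hT.eventually hC').and ((hT.eventually hgc).and
    ((hTH.eventually hΛ).and ((hTn.eventually (e6_ev hz)).and hlarge)))).exists
  obtain ⟨e, he, hmeas⟩ := q3
  set τ := S.t k with hτ
  have q4' : E₆ τ ≠ 0 := by
    rwa [e6, ofComplex_apply] at q4
  have hGk : MvPolynomial.aeval (V4 τ) (G n) ≠ 0 := by
    intro h0
    rw [h0, norm_zero] at q2
    linarith
  -- the root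
  set f : Polynomial ℂ := ∑ i ∈ range (n + 1),
    Polynomial.C (MvPolynomial.aeval (V4 τ) (G i)) * Polynomial.X ^ i with hf
  have hfc : f.coeff n = MvPolynomial.aeval (V4 τ) (G n) := by
    simp only [hf, Polynomial.finsetSum_coeff, Polynomial.coeff_C_mul, Polynomial.coeff_X_pow]
    rw [sum_eq_single n]
    · rw [if_pos rfl, mul_one]
    · intro i _ hi
      rw [if_neg (Ne.symm hi), mul_zero]
    · intro hM
      exact absurd (mem_range.mpr (Nat.lt_succ_self n)) hM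
  have hfd : f.natDegree ≤ n := by
    refine Polynomial.natDegree_sum_le_of_forall_le _ _ fun i hi ↦ ?_
    exact (Polynomial.natDegree_C_mul_X_pow_le _ _).trans (Nat.lt_succ_iff.mp (mem_range.mp hi))
  have hfd' : f.natDegree = n :=
    le_antisymm hfd (Polynomial.le_natDegree_of_ne_zero (by rw [hfc]; exact hGk))
  have hfev : ∀ y, f.eval y = ∑ i ∈ range (n + 1), MvPolynomial.aeval (V4 τ) (G i) * y ^ i := by
    intro y
    rw [hf, Polynomial.eval_finsetSum]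
    refine sum_congr rfl fun i _ ↦ ?_
    rw [Polynomial.eval_mul, Polynomial.eval_C, Polynomial.eval_pow, Polynomial.eval_X]
  obtain ⟨ρ, hρ, hρ2⟩ := exists_near_root f (by rw [hfd']; exact hn0) (ps τ)
  rw [hfd', Polynomial.leadingCoeff, hfd', hfc, hfev] at hρ2
  rw [hfev] at hρ
  obtain ⟨L, iF, iN, s, x0, x3, x4, s0, s3, s4, b0, b1, b2, b3⟩ :=
    hC1 (S.H k) (S.a k) (S.b k) (S.c k) τ (by have := S.hH k; omega) (S.ha k) (S.haH k)
      (S.hbH k) (S.hcH k) (S.ht k) q4' hGk e ρ he hρ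
  set Λ : ℕ := (C1 + Λ0) * S.H k ^ (2 * A) with hΛdef
  have hH1 : 1 ≤ S.H k := by have := S.hH k; omega
  have hHp : 1 ≤ S.H k ^ (2 * A) := Nat.one_le_pow _ _ hH1
  have hle : C1 * S.H k ^ (2 * A) ≤ Λ := by
    rw [hΛdef]; gcongr; omega
  have hle' : Real.exp ((C1 * S.H k ^ (2 * A) : ℕ) : ℝ) ≤ Real.exp (Λ : ℝ) := by
    apply Real.exp_le_exp.mpr
    exact_mod_cast hle
  have hΛ0 : Λ0 ≤ Λ := by
    rw [hΛdef]
    calc Λ0 ≤ (C1 + Λ0) * 1 := by omega
      _ ≤ _ := Nat.mul_le_mul_left _ hHp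
  have hm := hmeas L s x0 x3 x4 Λ hΛ0 (b0.trans hle) (b1.trans hle') (b2.trans hle')
    (b3.trans hle') s0 s3
  rw [s4] at hm
  have hpsτ : E2 τ * E₄ τ / E₆ τ = ps τ := by
    rw [ps, e2, e4, e6, ofComplex_apply]
  rw [hpsτ, ← mul_sub, norm_mul] at hm
  have h32 : ‖(3 / 2 : ℂ)‖ = 3 / 2 := by norm_num
  rw [h32] at hm
  have hm2 : 2 / 3 * Real.exp (-(Λ : ℝ) ^ 22) ≤ ‖ps τ - ρ‖ := by linarith
  have hm3 : (2 / 3) ^ n * Real.exp (-(Λ : ℝ) ^ 22) ^ n * cc ≤ C' * Real.exp (-(S.H k : ℝ) ^ κ) := by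
    calc (2 / 3) ^ n * Real.exp (-(Λ : ℝ) ^ 22) ^ n * cc
        = (2 / 3 * Real.exp (-(Λ : ℝ) ^ 22)) ^ n * cc := by rw [mul_pow]
      _ ≤ ‖ps τ - ρ‖ ^ n * ‖MvPolynomial.aeval (V4 τ) (G n)‖ := by gcongr
      _ ≤ ‖F τ‖ := hρ2
      _ ≤ C' * ‖(τ : ℂ) - z‖ := q1
      _ ≤ C' * Real.exp (-(S.H k : ℝ) ^ κ) := by
        have := S.hlt k
        rw [norm_sub_rev] at this
        gcongr
  have hm4 := hH0 (S.H k) (q5.trans (by
    have := S.hH k
    exact_mod_cast (by omega : k ≤ S.H k)))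
  have e1 : Real.exp (-(Λ : ℝ) ^ 22) ^ n =
      Real.exp (-(n * ((C1 + Λ0 : ℕ) : ℝ) ^ 22 * (S.H k : ℝ) ^ (44 * A))) := by
    rw [← Real.exp_nat_mul]
    congr 1
    rw [hΛdef]
    push_cast
    ring
  rw [← e1] at hm4
  rw [div_mul_eq_mul_div, div_lt_iff₀ (by positivity)] at hm4
  linarith

end H32.T3
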