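import Pool.Agent.H32.T3.Schwarz
import Pool.Agent.H32.T3.Wp3
import Pool.Agent.H32.T3.Siegel

/-!
# Small values of the auxiliary function
-/

namespace H32.T3

open Complex Filter Topology Finset

/-- Uniform analytic data. -/
structure EllData (r C σ : ℝ) (p lam G h κ e : ℂ) : Prop where
  p0 : p ≠ 0
  hp : ‖p‖ ≤ r
  hpC : Real.exp (-C) ≤ ‖p‖
  growth : ∀ (M : ℕ), ∀ w ∈ Ann p M, ‖th p w‖ ≤ Real.exp (C * (M + 1) ^ 2) ∧
    ‖P1 lam p w‖ ≤ Real.exp (C * (M + 1) ^ 2) ∧ ‖P2 lam G p w‖ ≤ Real.exp (C * (M + 1) ^ 2)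
  near : ∀ w : ℂ, ‖w - 1‖ ≤ (1 - r) / 2 → C⁻¹ ≤ ‖th p w‖
  pole : ∀ B : ℝ, 1 ≤ B → ∃ w : ℂ, ‖p‖ ^ 2 ≤ ‖w‖ ∧ ‖w‖ ≤ 1 ∧
    (C * B)⁻¹ ≤ ‖th p w‖ ∧ B * ‖th p w‖ ^ 2 ≤ ‖P2 lam G p w‖
  lam0 : lam ≠ 0
  lamC : ‖lam‖ ≤ C
  lamC' : ‖lam⁻¹‖ ≤ C
  sys : ∃ X X1 Y : ℂ → ℂ, (∀ s : ℂ, |s.im| < σ →
      P2 lam G p (ee s) = th p (ee s) ^ 2 * X s ∧ P1 lam p (ee s) = th p (ee s) * Y s ∧
      HasDerivAt X (lam * X1 s) s ∧ HasDerivAt X1 (lam * (6 * X s ^ 2 - h)) s ∧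
      HasDerivAt Y (lam * (-X s - κ)) s) ∧ X1 0 = 0 ∧ Y 0 = 0 ∧ X 0 = e

/-- The auxiliary function, with the poles removed. -/
noncomputable def FF (lam G p : ℂ) {L : ℕ} (a : Fin L × Fin L → ℤ) (w : ℂ) : ℂ :=
  ∑ i, (a i : ℂ) * (P2 lam G p w ^ (i.1 : ℕ) * P1 lam p w ^ (i.2 : ℕ) *
    th p w ^ (3 * L - 2 * i.1 - i.2))

lemma diff_FF {p : ℂ} (hp : ‖p‖ < 1) (lam G : ℂ) {L : ℕ} (a : Fin L × Fin L → ℤ) :
    DifferentiableOn ℂ (FF lam G p a) {0}ᶜ := by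
  have h0 := diff_th hp
  have h1 := diff_P1 hp lam
  have h2 := diff_P2 hp lam G
  unfold FF
  fun_prop

/-- The main value. -/
noncomputable def SS {L : ℕ} (a : Fin L × Fin L → ℤ) (X Y : ℂ) : ℂ :=
  ∑ i, (a i : ℂ) * (X ^ (i.1 : ℕ) * Y ^ (i.2 : ℕ))

lemma FF_eq {lam G p : ℂ} {L : ℕ} (a : Fin L × Fin L → ℤ) {w X Y : ℂ}
    (h2 : P2 lam G p w = th p w ^ 2 * X) (h1 : P1 lam p w = th p w * Y) :
    FF lam G p a w = th p w ^ (3 * L) * SS a X Y := by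
  rw [FF, SS, mul_sum]
  refine sum_congr rfl fun i _ ↦ ?_
  rw [h2, h1]
  have hi1 := i.1.2
  have hi2 := i.2.2
  have e : th p w ^ (3 * L) = (th p w ^ 2) ^ (i.1 : ℕ) * th p w ^ (i.2 : ℕ) *
      th p w ^ (3 * L - 2 * i.1 - i.2) := by
    rw [← pow_mul, ← pow_add, ← pow_add]
    congr 1
    omega
  rw [e, mul_pow, mul_pow]
  ring

lemma FF_le {lam G p : ℂ} {L : ℕ} {a : Fin L × Fin L → ℤ} {B : ℝ} (ha : ∀ i, |(a i : ℝ)| ≤ B)
    {w : ℂ} {E : ℝ} (hE : 1 ≤ E) (h0 : ‖th p w‖ ≤ E) (h1 : ‖P1 lam p w‖ ≤ E)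
    (h2 : ‖P2 lam G p w‖ ≤ E) : ‖FF lam G p a w‖ ≤ L ^ 2 * B * E ^ (3 * L) := by
  refine (norm_sum_le _ _).trans ?_
  calc ∑ i, ‖(a i : ℂ) * (P2 lam G p w ^ (i.1 : ℕ) * P1 lam p w ^ (i.2 : ℕ) *
        th p w ^ (3 * L - 2 * i.1 - i.2))‖
      ≤ ∑ _i : Fin L × Fin L, B * E ^ (3 * L) := by
        refine sum_le_sum fun i _ ↦ ?_
        have hB : 0 ≤ B := (abs_nonneg _).trans (ha i)
        rw [norm_mul, norm_mul, norm_mul, norm_pow, norm_pow, norm_pow, Complex.norm_intCast]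
        have h3 := ha i
        have h4 : ‖P2 lam G p w‖ ^ (i.1 : ℕ) * ‖P1 lam p w‖ ^ (i.2 : ℕ) *
            ‖th p w‖ ^ (3 * L - 2 * i.1 - i.2) ≤ E ^ (3 * L) := by
          calc _ ≤ E ^ (i.1 : ℕ) * E ^ (i.2 : ℕ) * E ^ (3 * L - 2 * i.1 - i.2) := by gcongr
            _ = E ^ ((i.1 : ℕ) + i.2 + (3 * L - 2 * i.1 - i.2)) := by rw [pow_add, pow_add]
            _ ≤ _ := by
              apply pow_le_pow_right₀ hE
              have hi1 := i.1.2
              have hi2 := i.2.2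
              omega
        gcongr
    _ = _ := by
      simp only [sum_const, card_univ, Fintype.card_prod, Fintype.card_fin, nsmul_eq_mul]
      push_cast
      ring

lemma pow_sub_pow_le {Y Y' : ℂ} {V : ℝ} (hV : 1 ≤ V) (h : ‖Y‖ ≤ V) (h' : ‖Y'‖ ≤ V) (b : ℕ) :
    ‖Y ^ b - Y' ^ b‖ ≤ b * V ^ b * ‖Y - Y'‖ := by
  induction b with
  | zero => simp
  | succ b ih =>
    have e : Y ^ (b + 1) - Y' ^ (b + 1) = (Y ^ b - Y' ^ b) * Y + Y' ^ b * (Y - Y') := by ring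
    rw [e]
    refine (norm_add_le _ _).trans ?_
    rw [norm_mul, norm_mul, norm_pow]
    have hd := norm_nonneg (Y - Y')
    calc ‖Y ^ b - Y' ^ b‖ * ‖Y‖ + ‖Y'‖ ^ b * ‖Y - Y'‖
        ≤ (b * V ^ b * ‖Y - Y'‖) * V + V ^ b * ‖Y - Y'‖ := by gcongr
      _ ≤ (b * V ^ b * ‖Y - Y'‖) * V + V ^ (b + 1) * ‖Y - Y'‖ := by
        gcongr
        exact Nat.le_succ b
      _ = _ := by push_cast; ring

lemma SS_sub_le {L : ℕ} {a : Fin L × Fin L → ℤ} {B : ℝ} (ha : ∀ i, |(a i : ℝ)| ≤ B)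
    {X Y Y' : ℂ} {V : ℝ} (hV : 1 ≤ V) (hX : ‖X‖ ≤ V) (h : ‖Y‖ ≤ V) (h' : ‖Y'‖ ≤ V) :
    ‖SS a X Y - SS a X Y'‖ ≤ L ^ 3 * B * V ^ (2 * L) * ‖Y - Y'‖ := by
  rw [SS, SS, ← sum_sub_distrib]
  refine (norm_sum_le _ _).trans ?_
  calc ∑ i, ‖(a i : ℂ) * (X ^ (i.1 : ℕ) * Y ^ (i.2 : ℕ)) -
        (a i : ℂ) * (X ^ (i.1 : ℕ) * Y' ^ (i.2 : ℕ))‖
      ≤ ∑ _i : Fin L × Fin L, B * (V ^ L * (L * V ^ L * ‖Y - Y'‖)) := by
        refine sum_le_sum fun i _ ↦ ?_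
        have hB : 0 ≤ B := (abs_nonneg _).trans (ha i)
        rw [← mul_sub, ← mul_sub, norm_mul, norm_mul, norm_pow, Complex.norm_intCast]
        have h3 := ha i
        have h4 := pow_sub_pow_le hV h h' (i.2 : ℕ)
        have hd := norm_nonneg (Y - Y')
        have h5 : ‖X‖ ^ (i.1 : ℕ) ≤ V ^ L := by
          calc ‖X‖ ^ (i.1 : ℕ) ≤ V ^ (i.1 : ℕ) := by gcongr
            _ ≤ V ^ L := pow_le_pow_right₀ hV i.1.2.le
        have h6 : ‖Y ^ (i.2 : ℕ) - Y' ^ (i.2 : ℕ)‖ ≤ L * V ^ L * ‖Y - Y'‖ := by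
          refine h4.trans ?_
          have h7 : ((i.2 : ℕ) : ℝ) ≤ L := by exact_mod_cast i.2.2.le
          have h8 : V ^ (i.2 : ℕ) ≤ V ^ L := pow_le_pow_right₀ hV i.2.2.le
          gcongr
        gcongr
    _ = _ := by
      simp only [sum_const, card_univ, Fintype.card_prod, Fintype.card_fin, nsmul_eq_mul]
      push_cast
      ring

/-- The perturbed local functions. -/
noncomputable def fl (X X1 Y : ℂ → ℂ) (lam κ h k' : ℂ) : Fin 5 → ℂ → ℂ :=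
  ![X, X1, fun s ↦ Y s + (κ - k') * lam * s, fun _ ↦ h, fun _ ↦ k']

open MvPolynomial in
lemma hasDerivAt_fl {X X1 Y : ℂ → ℂ} {lam κ h k' s : ℂ}
    (h1 : HasDerivAt X (lam * X1 s) s) (h2 : HasDerivAt X1 (lam * (6 * X s ^ 2 - h)) s)
    (h3 : HasDerivAt Y (lam * (-X s - κ)) s) (i : Fin 5) :
    HasDerivAt (fl X X1 Y lam κ h k' i)
      (lam * aeval (fun j ↦ fl X X1 Y lam κ h k' j s) (dv i)) s := by
  fin_cases i
  · change HasDerivAt X (lam * aeval (fun j ↦ fl X X1 Y lam κ h k' j s)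
      (MvPolynomial.X 1 : MvPolynomial (Fin 5) ℤ)) s
    rw [aeval_X]
    exact h1
  · change HasDerivAt X1 (lam * aeval (fun j ↦ fl X X1 Y lam κ h k' j s)
      (C 6 * MvPolynomial.X 0 ^ 2 - MvPolynomial.X 3 : MvPolynomial (Fin 5) ℤ)) s
    refine h2.congr_deriv ?_
    rw [map_sub, map_mul, map_pow, aeval_X, aeval_X, algHom_C]
    simp [fl]
  · change HasDerivAt (fun s ↦ Y s + (κ - k') * lam * s)
      (lam * aeval (fun j ↦ fl X X1 Y lam κ h k' j s)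
      (-MvPolynomial.X 0 - MvPolynomial.X 4 : MvPolynomial (Fin 5) ℤ)) s
    have h4 := h3.add ((hasDerivAt_id s).const_mul ((κ - k') * lam))
    refine h4.congr_deriv ?_
    rw [map_sub, map_neg, aeval_X, aeval_X]
    simp [fl]
    ring
  · change HasDerivAt (fun _ ↦ h) (lam * aeval (fun j ↦ fl X X1 Y lam κ h k' j s)
      (0 : MvPolynomial (Fin 5) ℤ)) s
    rw [map_zero, mul_zero]
    exact hasDerivAt_const _ _
  · change HasDerivAt (fun _ ↦ k') (lam * aeval (fun j ↦ fl X X1 Y lam κ h k' j s)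
      (0 : MvPolynomial (Fin 5) ℤ)) s
    rw [map_zero, mul_zero]
    exact hasDerivAt_const _ _

open MvPolynomial in
lemma aeval_PP_zero {L : ℕ} (a : Fin L × Fin L → ℤ) (v : Fin 5 → ℂ) :
    aeval v (PP a 0) = SS a (v 0) (v 2) := by
  rw [PP_zero, map_sum, SS]
  refine sum_congr rfl fun i _ ↦ ?_
  rw [map_mul, map_mul, map_pow, map_pow, aeval_X, aeval_X, algHom_C]
  simp

/-- The chart at `w = 1`. -/
noncomputable def sl (w : ℂ) : ℂ := Complex.log w / (2 * Real.pi * I)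

lemma ee_sl {w : ℂ} (hw : w ≠ 0) : ee (sl w) = w := by
  have hpi : (2 * (Real.pi : ℂ) * I) ≠ 0 := Complex.two_pi_I_ne_zero
  rw [ee, sl, mul_div_cancel₀ _ hpi, Complex.exp_log hw]

lemma norm_sl {w : ℂ} (hw : ‖w - 1‖ ≤ 1 / 2) : ‖sl w‖ ≤ ‖w - 1‖ / 2 := by
  have h1 := Complex.norm_log_one_add_half_le_self hw
  rw [add_sub_cancel] at h1
  rw [sl, norm_div]
  have h2 : ‖(2 * (Real.pi : ℂ) * I)‖ = 2 * Real.pi := by
    rw [norm_mul, norm_mul, Complex.norm_I, Complex.norm_real, Real.norm_of_nonneg Real.pi_pos.le]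
    norm_num
  rw [h2, div_le_iff₀ (by positivity)]
  have h3 := Real.pi_gt_three
  have h4 := norm_nonneg (w - 1)
  nlinarith

lemma analyticAt_sl {w : ℂ} (hw : ‖w - 1‖ ≤ 1 / 2) : AnalyticAt ℂ sl w := by
  have h1 : w ∈ Complex.slitPlane := by
    have := Complex.mem_slitPlane_of_norm_lt_one (z := w - 1) (by linarith)
    rwa [add_sub_cancel] at this
  have := analyticAt_clog h1
  unfold sl
  have h2 : (2 * (Real.pi : ℂ) * I) ≠ 0 := Complex.two_pi_I_ne_zero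
  exact this.div analyticAt_const h2

lemma sl_one : sl 1 = 0 := by simp [sl]

open MvPolynomial in
/-- The key analytic estimate. -/
theorem core_small {r C σ : ℝ} {p lam G h κ e : ℂ} (hr : r < 1) (hr0 : 0 ≤ r) (hC : 1 ≤ C)
    (hσ : 0 < σ) (D : EllData r C σ p lam G h κ e) {L : ℕ} {a : Fin L × Fin L → ℤ} {B : ℝ}
    (ha : ∀ i, |(a i : ℝ)| ≤ B) (hB0 : 0 ≤ B) {k' : ℂ} (hk : ‖κ - k'‖ ≤ C⁻¹) {T N : ℕ}
    (hT : 1 ≤ T) (hN1 : 1 ≤ N) (hN : ‖p‖ ^ (4 * N) ≤ 1 / 2)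
    (hvan : ∀ t < T, aeval ![e, 0, 0, h, k'] (PP a t) = 0)
    {r1 V S η ε : ℝ} (hr1 : r1 = min ((1 - r) / 2) σ) (hV : V = 2 * (Real.exp (4 * C) * C ^ 2))
    (hS : S = ‖κ - k'‖ * (L ^ 3 * B * V ^ (2 * L) * C * Real.exp (4 * C) ^ (3 * L)))
    (hη : η = T * ((4 / r1) * (‖p‖ ^ (4 * N))⁻¹) ^ T * S)
    (hε : ε = η + (L ^ 2 * B * Real.exp (C * (2 * N + 1) ^ 2) ^ (3 * L) + η) *
      (4 * ‖p‖ ^ N) ^ T) :
    (∀ w ∈ Ann p N, ‖FF lam G p a w‖ ≤ ε) ∧
    ‖lam‖ ^ T * ‖aeval ![e, 0, 0, h, k'] (PP a T)‖ ≤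
      T.factorial * (C ^ (3 * L) * ε + S) / (r1 / 16) ^ T := by
  obtain ⟨hp0, hpr, -, hgrow, hnear, -, hlam0, hlamC, -, X, X1, Y, hsys, hX10, hY0, hX0⟩ := D
  have hp1 : ‖p‖ < 1 := hpr.trans_lt hr
  have hpn : 0 < ‖p‖ := norm_pos_iff.mpr hp0
  have hC0 : 0 < C := by linarith
  have hr1pos : 0 < r1 := by rw [hr1]; exact lt_min (by linarith) hσ
  have hr1a : r1 ≤ (1 - r) / 2 := by rw [hr1]; exact min_le_left _ _
  have hr1b : r1 ≤ σ := by rw [hr1]; exact min_le_right _ _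
  have hr1c : r1 ≤ 1 / 2 := by linarith
  have hexp4 : 1 ≤ Real.exp (4 * C) := Real.one_le_exp (by linarith)
  have hCC : 1 ≤ C ^ 2 := one_le_pow₀ hC
  have hV2 : 1 ≤ V / 2 := by
    rw [hV]
    have := one_le_mul_of_one_le_of_one_le hexp4 hCC
    linarith
  have hV1 : 1 ≤ V := by linarith
  set δ := ‖κ - k'‖ with hδ
  have hδ0 : 0 ≤ δ := norm_nonneg _
  have hδC : δ * C ≤ 1 := by
    calc δ * C ≤ C⁻¹ * C := by gcongr
      _ = 1 := inv_mul_cancel₀ hC0.ne'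
  have hS0 : 0 ≤ S := by rw [hS]; positivity
  have hη0 : 0 ≤ η := by rw [hη]; positivity
  -- the functions
  set f := fl X X1 Y lam κ h k' with hf
  set Φ : ℕ → ℂ → ℂ := fun t s ↦ aeval (fun j ↦ f j s) (PP a t) with hΦ
  set U : Set ℂ := {s | |s.im| < σ} with hU
  have hUo : IsOpen U := isOpen_lt (by fun_prop) continuous_const
  have h0U : (0 : ℂ) ∈ U := by
    change |(0 : ℂ).im| < σ
    simpa using hσ
  have hder : ∀ t, ∀ s ∈ U, HasDerivAt (Φ t) (lam * Φ (t + 1) s) s := by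
    intro t s hs
    obtain ⟨-, -, h1, h2, h3⟩ := hsys s hs
    have := hasDerivAt_aeval (f := fl X X1 Y lam κ h k')
      (fun i ↦ hasDerivAt_fl (k' := k') h1 h2 h3 i) (PP a t)
    rw [hΦ]
    simp only
    rw [PP_succ]
    exact this
  have hf0 : (fun j ↦ f j 0) = ![e, 0, 0, h, k'] := by
    ext j
    fin_cases j
    · change X 0 = e
      exact hX0
    · change X1 0 = 0
      exact hX10
    · change Y 0 + (κ - k') * lam * 0 = 0
      rw [hY0]; ring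
    · rfl
    · rfl
  have hΦ0 : ∀ t, Φ t 0 = aeval ![e, 0, 0, h, k'] (PP a t) := by
    intro t
    rw [hΦ]
    simp only
    rw [hf0]
  have hΦS : ∀ s, Φ 0 s = SS a (X s) (Y s + (κ - k') * lam * s) := by
    intro s
    rw [hΦ]
    simp only
    rw [aeval_PP_zero]
    rfl
  -- local geometry
  have hball : ∀ w : ℂ, ‖w - 1‖ ≤ r1 → w ∈ Ann p 1 := by
    intro w hw
    have h1 := norm_sub_norm_le 1 w
    rw [norm_one, norm_sub_rev] at h1
    have h2 := norm_sub_norm_le w 1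
    rw [norm_one] at h2
    refine ⟨?_, ?_⟩
    · rw [mul_one]
      have h3 : ‖p‖ ^ 2 ≤ ‖p‖ := by nlinarith
      linarith
    · rw [mul_one]
      have h3 : ‖p‖ ^ 2 ≤ r ^ 2 := by gcongr
      have h4 : ‖w‖ ≤ (3 - r) / 2 := by linarith
      have h5 : 0 ≤ (3 - r) / 2 := by linarith
      calc ‖w‖ * ‖p‖ ^ 2 ≤ (3 - r) / 2 * r ^ 2 := by gcongr
        _ ≤ 1 := by nlinarith [mul_nonneg hr0 (by linarith : (0:ℝ) ≤ 1 - r)]
  have hXY : ∀ s ∈ U, ‖ee s - 1‖ ≤ r1 → ‖X s‖ ≤ V / 2 ∧ ‖Y s‖ ≤ V / 2 := by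
    intro s hs hes
    obtain ⟨h2, h1, -, -, -⟩ := hsys s hs
    have hg := hgrow 1 _ (hball _ hes)
    have hlow := hnear _ (hes.trans hr1a)
    have hth : 0 < ‖th p (ee s)‖ := lt_of_lt_of_le (by positivity) hlow
    have hinv : ‖th p (ee s)‖⁻¹ ≤ C := inv_le_of_inv_le₀ hC0 hlow
    have e4 : C * (((1 : ℕ) : ℝ) + 1) ^ 2 = 4 * C := by norm_num; ring
    rw [e4] at hg
    have hV' : V / 2 = Real.exp (4 * C) * C ^ 2 := by rw [hV]; ring
    refine ⟨?_, ?_⟩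
    · have e : ‖X s‖ = ‖P2 lam G p (ee s)‖ * (‖th p (ee s)‖⁻¹) ^ 2 := by
        rw [h2, norm_mul, norm_pow]
        field_simp
      rw [e, hV']
      gcongr
      exact hg.2.2
    · have e : ‖Y s‖ = ‖P1 lam p (ee s)‖ * ‖th p (ee s)‖⁻¹ := by
        rw [h1, norm_mul]
        field_simp
      rw [e, hV']
      have : C ≤ C ^ 2 := le_self_pow₀ hC (by norm_num)
      calc ‖P1 lam p (ee s)‖ * ‖th p (ee s)‖⁻¹ ≤ Real.exp (4 * C) * C := by
            gcongr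
            exact hg.2.1
        _ ≤ _ := by gcongr
  have hdiff : ∀ s ∈ U, ‖ee s - 1‖ ≤ r1 → ‖s‖ ≤ 1 →
      ‖SS a (X s) (Y s) - Φ 0 s‖ ≤ L ^ 3 * B * V ^ (2 * L) * (δ * C) := by
    intro s hs hes hs1
    obtain ⟨hX, hY⟩ := hXY s hs hes
    rw [hΦS]
    have hpert : ‖(κ - k') * lam * s‖ ≤ δ * C := by
      rw [norm_mul, norm_mul]
      calc ‖κ - k'‖ * ‖lam‖ * ‖s‖ ≤ δ * C * 1 := by gcongr
        _ = δ * C := mul_one _
    have hY' : ‖Y s + (κ - k') * lam * s‖ ≤ V := by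
      refine (norm_add_le _ _).trans ?_
      linarith
    have := SS_sub_le ha hV1 (hX.trans (by linarith)) (hY.trans (by linarith)) hY'
    refine this.trans ?_
    have e : Y s - (Y s + (κ - k') * lam * s) = -((κ - k') * lam * s) := by ring
    rw [e, norm_neg]
    gcongr
  -- the error function near `1`
  have hslU : ∀ w : ℂ, ‖w - 1‖ ≤ r1 → sl w ∈ U ∧ ee (sl w) = w ∧ ‖sl w‖ ≤ 1 := by
    intro w hw
    have h1 := norm_sl (hw.trans hr1c)
    have hw0 := Ann_ne_zero hp0 (hball w hw)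
    refine ⟨?_, ee_sl hw0, by linarith⟩
    change |(sl w).im| < σ
    have := Complex.abs_im_le_norm (sl w)
    linarith
  set Er : ℂ → ℂ := fun w ↦ FF lam G p a w - th p w ^ (3 * L) * Φ 0 (sl w) with hEr
  have hErd : DifferentiableOn ℂ Er (Metric.ball 1 r1) := by
    intro w hw
    rw [Metric.mem_ball, dist_eq_norm] at hw
    obtain ⟨h1, -, -⟩ := hslU w hw.le
    have hw0 := Ann_ne_zero hp0 (hball w hw.le)
    have d1 : DifferentiableAt ℂ (FF lam G p a) w :=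
      (diff_FF hp1 lam G a w hw0).differentiableAt (isOpen_U.mem_nhds hw0)
    have d2 : DifferentiableAt ℂ (th p) w :=
      (diff_th hp1 w hw0).differentiableAt (isOpen_U.mem_nhds hw0)
    have d3 : DifferentiableAt ℂ (fun w ↦ Φ 0 (sl w)) w :=
      ((hder 0 _ h1).differentiableAt).comp w (analyticAt_sl (hw.le.trans hr1c)).differentiableAt
    exact (d1.fun_sub ((d2.fun_pow _).fun_mul d3)).differentiableWithinAt
  have hErS : ∀ w ∈ Metric.ball (1 : ℂ) r1, ‖Er w‖ ≤ S := by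
    intro w hw
    rw [Metric.mem_ball, dist_eq_norm] at hw
    obtain ⟨h1, h2, h3⟩ := hslU w hw.le
    have hg := (hgrow 1 _ (hball _ hw.le)).1
    have e4 : C * (((1 : ℕ) : ℝ) + 1) ^ 2 = 4 * C := by norm_num; ring
    rw [e4] at hg
    obtain ⟨s2, s1, -, -, -⟩ := hsys (sl w) h1
    have e1 : FF lam G p a w = th p w ^ (3 * L) * SS a (X (sl w)) (Y (sl w)) := by
      rw [h2] at s1 s2
      exact FF_eq a s2 s1
    have e2 : Er w = th p w ^ (3 * L) * (SS a (X (sl w)) (Y (sl w)) - Φ 0 (sl w)) := by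
      rw [hEr]
      simp only
      rw [e1]; ring
    rw [e2, norm_mul, norm_pow, hS]
    have h5 := hdiff (sl w) h1 (by rw [h2]; exact hw.le) h3
    calc ‖th p w‖ ^ (3 * L) * ‖SS a (X (sl w)) (Y (sl w)) - Φ 0 (sl w)‖
        ≤ Real.exp (4 * C) ^ (3 * L) * (L ^ 3 * B * V ^ (2 * L) * (δ * C)) := by gcongr
      _ = _ := by ring
  obtain ⟨ac, g2, hg2d, hg2, hac, -⟩ := taylor_div hr1pos hErd hErS T
  -- the order of the exact function
  obtain ⟨g0, hg0, hg0e⟩ := order_of_system hUo h0U hder (T := T) (fun t ht ↦ by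
    rw [hΦ0]; exact hvan t ht)
  set ks : ℂ → ℂ := dslope sl 1 with hks
  have hksd : AnalyticAt ℂ ks 1 := by
    have h1 : DifferentiableOn ℂ sl (Metric.ball 1 (1 / 2)) := by
      intro w hw
      rw [Metric.mem_ball, dist_eq_norm] at hw
      exact (analyticAt_sl hw.le).differentiableAt.differentiableWithinAt
    have h2 := (Complex.differentiableOn_dslope
      (Metric.ball_mem_nhds (1 : ℂ) (by norm_num : (0 : ℝ) < 1 / 2))).mpr h1
    exact h2.analyticAt (Metric.ball_mem_nhds _ (by norm_num))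
  have hksl : ∀ w, sl w = (w - 1) * ks w := by
    intro w
    have := sub_smul_dslope sl 1 w
    rw [smul_eq_mul, sl_one, sub_zero] at this
    exact this.symm
  have hsl1 : AnalyticAt ℂ sl 1 := analyticAt_sl (by simp)
  have hth1 : AnalyticAt ℂ (th p) 1 :=
    (diff_th hp1).analyticAt (isOpen_U.mem_nhds (by simp))
  set g1 : ℂ → ℂ := fun w ↦ th p w ^ (3 * L) * (ks w ^ T * g0 (sl w)) with hg1
  have hg1a : AnalyticAt ℂ g1 1 := by
    have h1 : AnalyticAt ℂ (fun w ↦ g0 (sl w)) 1 := by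
      have : AnalyticAt ℂ g0 (sl 1) := by rw [sl_one]; exact hg0
      exact this.comp hsl1
    exact (hth1.fun_pow _).fun_mul ((hksd.fun_pow _).fun_mul h1)
  have hg2a : AnalyticAt ℂ g2 1 := hg2d.analyticAt (Metric.ball_mem_nhds _ hr1pos)
  set pol : ℂ → ℂ := fun w ↦ ∑ t ∈ range T, ac t * (w - 1) ^ t with hpol
  have hloc : ∀ᶠ w in 𝓝 (1 : ℂ), FF lam G p a w - pol w = (w - 1) ^ T * (g1 w + g2 w) := by
    have h1 : ∀ᶠ w in 𝓝 (1 : ℂ), Φ 0 (sl w) = (sl w) ^ T * g0 (sl w) := by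
      have h2 : Tendsto sl (𝓝 1) (𝓝 0) := by
        have := hsl1.continuousAt.tendsto
        rwa [sl_one] at this
      exact h2.eventually hg0e
    filter_upwards [h1] with w hw
    have h3 := hg2 w
    rw [hEr] at h3
    simp only at h3
    rw [hg1, hpol]
    simp only
    rw [hw, hksl w, mul_pow] at h3
    rw [← hksl w] at h3
    linear_combination h3
  have hpold : DifferentiableOn ℂ pol {0}ᶜ := by
    rw [hpol]
    fun_prop
  -- bounds on the big annulus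
  have hEbig : ∀ w ∈ Ann p (2 * N), ‖FF lam G p a w‖ ≤
      L ^ 2 * B * Real.exp (C * (2 * N + 1) ^ 2) ^ (3 * L) := by
    intro w hw
    have h1 := hgrow (2 * N) w hw
    push_cast at h1
    exact FF_le ha (Real.one_le_exp (by positivity)) h1.1 h1.2.1 h1.2.2
  set P := (‖p‖ ^ (4 * N))⁻¹ with hP
  have hPpos : 0 < ‖p‖ ^ (4 * N) := by positivity
  have hP1 : 1 ≤ P := by
    rw [hP]
    exact (one_le_inv₀ hPpos).mpr (by linarith)
  have hbase : 1 ≤ 4 / r1 * P := by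
    have : 1 ≤ 4 / r1 := by rw [le_div_iff₀ hr1pos]; linarith
    exact one_le_mul_of_one_le_of_one_le this hP1
  have hηbig : ∀ w ∈ Ann p (2 * N), ‖pol w‖ ≤ η := by
    intro w hw
    have hw1 : ‖w - 1‖ ≤ 2 * P := by
      have h1 := norm_sub_le w 1
      rw [norm_one] at h1
      have h2 : ‖w‖ ≤ P := by
        rw [hP, ← one_div]
        rw [le_div_iff₀ hPpos]
        have := hw.2
        rwa [show 2 * (2 * N) = 4 * N by ring] at this
      linarith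
    rw [hpol]
    simp only
    refine (norm_sum_le _ _).trans ?_
    rw [hη]
    calc ∑ t ∈ range T, ‖ac t * (w - 1) ^ t‖ ≤ ∑ _t ∈ range T, (4 / r1 * P) ^ T * S := by
          refine sum_le_sum fun t ht ↦ ?_
          have ht' := mem_range.mp ht
          rw [norm_mul, norm_pow]
          calc ‖ac t‖ * ‖w - 1‖ ^ t ≤ ((2 / r1) ^ t * S) * (2 * P) ^ t := by
                gcongr
                exact hac t ht'
            _ = (4 / r1 * P) ^ t * S := by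
                rw [show (4 / r1 * P : ℝ) = (2 / r1) * (2 * P) by ring, mul_pow (2 / r1)]
                ring
            _ ≤ _ := by
                gcongr
      _ = _ := by simp; ring
  have hfirst : ∀ w ∈ Ann p N, ‖FF lam G p a w‖ ≤ ε := by
    intro w hw
    rw [hε]
    exact schwarz_ann hp0 hp1 hT hN (diff_FF hp1 lam G a) hpold (hg1a.add hg2a)
      hloc hEbig hηbig hw
  refine ⟨hfirst, ?_⟩
  have hε0 : 0 ≤ ε := (norm_nonneg _).trans (hfirst 1 ⟨by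
    rw [norm_one]; exact pow_le_one₀ (norm_nonneg _) hp1.le, by
    rw [norm_one, one_mul]; exact pow_le_one₀ (norm_nonneg _) hp1.le⟩)
  -- Cauchy
  have hρ : 0 < r1 / 16 := by positivity
  have hsph : ∀ s : ℂ, ‖s‖ ≤ r1 / 16 → s ∈ U ∧ ‖ee s - 1‖ ≤ r1 := by
    intro s hs
    refine ⟨?_, ?_⟩
    · change |s.im| < σ
      have := Complex.abs_im_le_norm s
      linarith
    · have h1 : ‖2 * (Real.pi : ℂ) * I * s‖ = 2 * Real.pi * ‖s‖ := by
        rw [norm_mul, norm_mul, norm_mul, Complex.norm_I, Complex.norm_real,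
          Real.norm_of_nonneg Real.pi_pos.le]
        norm_num
      have hpi := Real.pi_lt_four
      have hpi0 := Real.pi_pos
      have h0 := norm_nonneg s
      have h2 : 2 * Real.pi * ‖s‖ ≤ 8 * ‖s‖ := by nlinarith
      have h3 := Complex.norm_exp_sub_one_le (x := 2 * (Real.pi : ℂ) * I * s) (by
        rw [h1]; linarith)
      rw [h1] at h3
      rw [ee]
      linarith
  have hbd : ∀ s : ℂ, ‖s‖ ≤ r1 / 16 → ‖Φ 0 s‖ ≤ C ^ (3 * L) * ε + S := by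
    intro s hs
    obtain ⟨h1, h2⟩ := hsph s hs
    obtain ⟨s2, s1, -, -, -⟩ := hsys s h1
    have e1 := FF_eq a s2 s1
    have h3 := hfirst (ee s) (Ann_mono hp1.le hN1 (hball _ h2))
    have hlow := hnear _ (h2.trans hr1a)
    have hth : 0 < ‖th p (ee s)‖ := lt_of_lt_of_le (by positivity) hlow
    have hinv : ‖th p (ee s)‖⁻¹ ≤ C := inv_le_of_inv_le₀ hC0 hlow
    have h4 : ‖SS a (X s) (Y s)‖ ≤ C ^ (3 * L) * ε := by
      have e2 : ‖SS a (X s) (Y s)‖ = (‖th p (ee s)‖⁻¹) ^ (3 * L) * ‖FF lam G p a (ee s)‖ := by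
        rw [e1, norm_mul, norm_pow, ← mul_assoc, ← mul_pow, inv_mul_cancel₀ hth.ne', one_pow,
          one_mul]
      rw [e2]
      gcongr
    have h5 := hdiff s h1 h2 (by linarith)
    have h6 : (L : ℝ) ^ 3 * B * V ^ (2 * L) * (δ * C) ≤ S := by
      rw [hS]
      have h7 : 1 ≤ Real.exp (4 * C) ^ (3 * L) := one_le_pow₀ hexp4
      have h8 : 0 ≤ (L : ℝ) ^ 3 * B * V ^ (2 * L) * (δ * C) := by positivity
      calc (L : ℝ) ^ 3 * B * V ^ (2 * L) * (δ * C)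
          ≤ (L : ℝ) ^ 3 * B * V ^ (2 * L) * (δ * C) * Real.exp (4 * C) ^ (3 * L) :=
            le_mul_of_one_le_right h8 h7
        _ = _ := by ring
    have h7 : ‖Φ 0 s‖ ≤ ‖SS a (X s) (Y s)‖ + ‖SS a (X s) (Y s) - Φ 0 s‖ := by
      have := norm_sub_le (SS a (X s) (Y s)) (SS a (X s) (Y s) - Φ 0 s)
      rwa [sub_sub_cancel] at this
    linarith
  have hdc : DiffContOnCl ℂ (Φ 0) (Metric.ball 0 (r1 / 16)) := by
    apply DifferentiableOn.diffContOnCl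
    intro s hs
    have h1 := Metric.closure_ball_subset_closedBall hs
    rw [mem_closedBall_zero_iff] at h1
    exact (hder 0 s (hsph s h1).1).differentiableAt.differentiableWithinAt
  have hcau := Complex.norm_iteratedDeriv_le_of_forall_mem_sphere_norm_le T hρ hdc (fun s hs ↦ by
    rw [mem_sphere_zero_iff_norm] at hs
    exact hbd s hs.le)
  rw [iter_deriv hUo hder T 0 h0U, hΦ0, norm_mul, norm_pow] at hcau
  exact hcau

end H32.T3
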