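import Pool.Agent.H32.T3.CoreA

/-!
# The zero estimate, by finite differences in the quasi-period direction
-/

namespace H32.T3

open Complex Filter Topology Finset
open scoped fwdDiff

/-- A nonzero integer polynomial is large at large points. -/
lemma one_le_eval {P : Polynomial ℤ} (hP : P ≠ 0) {B : ℝ} (hB : ∀ i, |(P.coeff i : ℝ)| ≤ B)
    {x : ℂ} (hx : B + 1 ≤ ‖x‖) : 1 ≤ ‖Polynomial.aeval x P‖ := by
  set n := P.natDegree with hn
  have h1 : Polynomial.aeval x P = ∑ i ∈ range n, (P.coeff i : ℂ) * x ^ i +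
      (P.leadingCoeff : ℂ) * x ^ n := by
    rw [Polynomial.aeval_eq_sum_range, sum_range_succ]
    simp [hn]
  have hl : (1 : ℝ) ≤ ‖(P.leadingCoeff : ℂ)‖ := by
    rw [Complex.norm_intCast]
    have := Int.one_le_abs (Polynomial.leadingCoeff_ne_zero.mpr hP)
    exact_mod_cast this
  have hB0 : 0 ≤ B := (abs_nonneg _).trans (hB 0)
  have h2 : ‖∑ i ∈ range n, (P.coeff i : ℂ) * x ^ i‖ ≤ ‖x‖ ^ n - 1 := by
    refine (norm_sum_le _ _).trans ?_
    calc ∑ i ∈ range n, ‖(P.coeff i : ℂ) * x ^ i‖ ≤ ∑ i ∈ range n, (‖x‖ - 1) * ‖x‖ ^ i := by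
          refine sum_le_sum fun i _ ↦ ?_
          rw [norm_mul, norm_pow, Complex.norm_intCast]
          have := hB i
          gcongr
          linarith
      _ = (∑ i ∈ range n, ‖x‖ ^ i) * (‖x‖ - 1) := by rw [← mul_sum, mul_comm]
      _ = ‖x‖ ^ n - 1 := geom_sum_mul _ _
  have h3 : ‖x‖ ^ n ≤ ‖(P.leadingCoeff : ℂ) * x ^ n‖ := by
    rw [norm_mul, norm_pow]
    have : 0 ≤ ‖x‖ ^ n := by positivity
    nlinarith
  rw [h1]
  have h4 := norm_sub_norm_le ((P.leadingCoeff : ℂ) * x ^ n)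
    (-∑ i ∈ range n, (P.coeff i : ℂ) * x ^ i)
  rw [norm_neg, sub_neg_eq_add, add_comm ((P.leadingCoeff : ℂ) * x ^ n)] at h4
  linarith

/-- Finite differences of a polynomial. -/
lemma fwd_bound {R : Polynomial ℂ} (hR : 1 ≤ ‖R.leadingCoeff‖) {L : ℕ} (hRL : R.natDegree ≤ L)
    {c Y : ℂ} (hc : c ≠ 0) {C M : ℝ} (hC : 1 ≤ 2 * C) (hcC : C⁻¹ ≤ ‖c‖)
    (hM : ∀ k : ℕ, k ≤ R.natDegree → ‖R.eval (Y - k * c)‖ ≤ M) : 1 ≤ (2 * C) ^ L * M := by
  set n := R.natDegree with hn
  set q : Polynomial ℂ := Polynomial.C (-c) * Polynomial.X + Polynomial.C Y with hq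
  have hqd : q.natDegree = 1 := Polynomial.natDegree_linear (neg_ne_zero.mpr hc)
  have hql : q.leadingCoeff = -c := Polynomial.leadingCoeff_linear (neg_ne_zero.mpr hc)
  have hQd : (R.comp q).natDegree = n := by
    rw [Polynomial.natDegree_comp, hqd, mul_one]
  have hQl : (R.comp q).leadingCoeff = R.leadingCoeff * (-c) ^ n := by
    rw [Polynomial.leadingCoeff_comp (by rw [hqd]; norm_num), hql]
  have h1 := (R.comp q).fwdDiff_iter_degree_eq_factorial
  rw [hQd, hQl] at h1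
  have h2 := congrFun h1 0
  rw [fwdDiff_iter_eq_sum_shift] at h2
  have hC0 : 0 < C := by linarith
  have hM0 : 0 ≤ M := (norm_nonneg _).trans (hM 0 (Nat.zero_le _))
  have h3 : ‖∑ k ∈ range (n + 1), ((-1 : ℤ) ^ (n - k) * (n.choose k : ℤ)) •
      (R.comp q).eval (0 + k • (1 : ℂ))‖ ≤ 2 ^ n * M := by
    refine (norm_sum_le _ _).trans ?_
    calc ∑ k ∈ range (n + 1), ‖((-1 : ℤ) ^ (n - k) * (n.choose k : ℤ)) •
          (R.comp q).eval (0 + k • (1 : ℂ))‖ ≤ ∑ k ∈ range (n + 1), (n.choose k : ℝ) * M := by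
          refine sum_le_sum fun k hk ↦ ?_
          have hk' : k ≤ n := by have := mem_range.mp hk; omega
          rw [zsmul_eq_mul, norm_mul]
          have e1 : ‖(((-1 : ℤ) ^ (n - k) * (n.choose k : ℤ) : ℤ) : ℂ)‖ = n.choose k := by
            push_cast
            rw [norm_mul, norm_pow, norm_neg, norm_one, one_pow, one_mul, Complex.norm_natCast]
          rw [e1]
          have e2 : (R.comp q).eval (0 + k • (1 : ℂ)) = R.eval (Y - k * c) := by
            rw [Polynomial.eval_comp]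
            congr 1
            simp [hq]
            ring
          rw [e2]
          gcongr
          exact hM k hk'
      _ = 2 ^ n * M := by
          rw [← sum_mul, ← Nat.cast_sum, Nat.sum_range_choose]
          push_cast
          rfl
  rw [h2] at h3
  have h4 : ‖c‖ ^ n ≤ 2 ^ n * M := by
    refine le_trans ?_ h3
    simp only [Pi.smul_apply, smul_eq_mul, Pi.natCast_apply]
    rw [norm_mul, norm_mul, norm_pow, norm_neg, Complex.norm_natCast]
    have h5 : (1 : ℝ) ≤ n.factorial := by exact_mod_cast n.factorial_pos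
    have h6 : 0 ≤ ‖c‖ ^ n := by positivity
    calc ‖c‖ ^ n = 1 * ‖c‖ ^ n * 1 := by ring
      _ ≤ _ := by gcongr
  have h5 : (C⁻¹) ^ n ≤ 2 ^ n * M := le_trans (by gcongr) h4
  have h6 : 1 ≤ (2 * C) ^ n * M := by
    have : C ^ n * (C⁻¹) ^ n = 1 := by rw [← mul_pow, mul_inv_cancel₀ hC0.ne', one_pow]
    calc (1 : ℝ) = C ^ n * (C⁻¹) ^ n := this.symm
      _ ≤ C ^ n * (2 ^ n * M) := by gcongr
      _ = _ := by rw [mul_pow]; ring
  refine h6.trans ?_
  gcongr

/-- The zero estimate. -/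
theorem zero_est {r C σ : ℝ} {p lam G h κ e : ℂ} (hr : r < 1) (hC : 1 ≤ C)
    (D : EllData r C σ p lam G h κ e) {L : ℕ} {a : Fin L × Fin L → ℤ} {B : ℝ}
    (ha : ∀ i, |(a i : ℝ)| ≤ B) (hB0 : 0 ≤ B) (ha0 : a ≠ 0) {ε : ℝ}
    (hε : ∀ w ∈ Ann p L, ‖FF lam G p a w‖ ≤ ε) :
    1 ≤ (2 * C) ^ L * ((C * (B + 1)) ^ (3 * L) * ε) := by
  obtain ⟨hp0, hpr, -, -, -, hpole, hlam0, hlamC, -, -⟩ := D
  have hp1 : ‖p‖ < 1 := hpr.trans_lt hr
  have hpn : 0 < ‖p‖ := norm_pos_iff.mpr hp0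
  have hC0 : 0 < C := by linarith
  obtain ⟨w, hw1, hw2, hw3, hw4⟩ := hpole (B + 1) (by linarith)
  have hCB : 0 < C * (B + 1) := by positivity
  have hwn : 0 < ‖w‖ := lt_of_lt_of_le (by positivity) hw1
  have hw0 : w ≠ 0 := norm_pos_iff.mp hwn
  have hth0 : 0 < ‖th p w‖ := lt_of_lt_of_le (by positivity) hw3
  set c : ℂ := 2 * Real.pi * I / lam with hc
  have hc0 : c ≠ 0 := div_ne_zero Complex.two_pi_I_ne_zero hlam0
  have hcn : C⁻¹ ≤ ‖c‖ := by
    rw [hc, norm_div, norm_mul, norm_mul, Complex.norm_I, Complex.norm_real,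
      Real.norm_of_nonneg Real.pi_pos.le]
    have h1 := Real.pi_gt_three
    have h2 : 0 < ‖lam‖ := norm_pos_iff.mpr hlam0
    rw [le_div_iff₀ h2]
    have h3 : C⁻¹ * ‖lam‖ ≤ 1 := by
      calc C⁻¹ * ‖lam‖ ≤ C⁻¹ * C := by gcongr
        _ = 1 := inv_mul_cancel₀ hC0.ne'
    have h4 : ‖(2 : ℂ)‖ = 2 := by norm_num
    rw [h4]
    linarith
  set X0 : ℂ := P2 lam G p w / th p w ^ 2 with hX0
  set Y0 : ℂ := P1 lam p w / th p w with hY0
  have hthne : th p w ≠ 0 := norm_pos_iff.mp hth0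
  have hX0n : B + 1 ≤ ‖X0‖ := by
    rw [hX0, norm_div, norm_pow, le_div_iff₀ (by positivity)]
    exact hw4
  -- the translates
  have key : ∀ l : ℕ, p ^ (2 * l) * w ≠ 0 ∧ ‖th p w‖ ≤ ‖th p (p ^ (2 * l) * w)‖ ∧
      P2 lam G p (p ^ (2 * l) * w) = th p (p ^ (2 * l) * w) ^ 2 * X0 ∧
      P1 lam p (p ^ (2 * l) * w) = th p (p ^ (2 * l) * w) * (Y0 - l * c) := by
    intro l
    induction l with
    | zero =>
      simp only [mul_zero, pow_zero, one_mul, Nat.cast_zero, zero_mul, sub_zero]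
      refine ⟨hw0, le_rfl, ?_, ?_⟩
      · rw [hX0]; field_simp
      · rw [hY0]; field_simp
    | succ l ih =>
      obtain ⟨i1, i2, i3, i4⟩ := ih
      set v := p ^ (2 * l) * w with hv
      have e : p ^ (2 * (l + 1)) * w = p ^ 2 * v := by rw [hv]; ring
      rw [e]
      have hpv : p * v ≠ 0 := mul_ne_zero hp0 i1
      refine ⟨mul_ne_zero (pow_ne_zero _ hp0) i1, ?_, ?_, ?_⟩
      · rw [th_q hp1 hp0 i1, norm_mul, norm_neg, norm_inv]
        have h1 : ‖p * v‖ ≤ 1 := by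
          rw [norm_mul, hv, norm_mul, norm_pow]
          have h2 : ‖p‖ ^ (2 * l) ≤ 1 := pow_le_one₀ (norm_nonneg _) hp1.le
          calc ‖p‖ * (‖p‖ ^ (2 * l) * ‖w‖) ≤ 1 * (1 * 1) := by gcongr
            _ = 1 := by norm_num
        have h2 : 1 ≤ ‖p * v‖⁻¹ := (one_le_inv₀ (norm_pos_iff.mpr hpv)).mpr h1
        calc ‖th p w‖ ≤ 1 * ‖th p v‖ := by rw [one_mul]; exact i2
          _ ≤ _ := by gcongr
      · rw [P2_q hp1 hp0 lam G i1, th_q hp1 hp0 i1, i3]
        ring
      · rw [P1_q hp1 hp0 lam i1, th_q hp1 hp0 i1, i4]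
        push_cast
        ring
  -- the polynomial in the second variable
  set Pb : ℕ → Polynomial ℤ := fun b ↦ ∑ i : Fin L × Fin L,
    if (i.2 : ℕ) = b then Polynomial.C (a i) * Polynomial.X ^ (i.1 : ℕ) else 0 with hPb
  set R : Polynomial ℂ := ∑ i : Fin L × Fin L,
    Polynomial.C ((a i : ℂ) * X0 ^ (i.1 : ℕ)) * Polynomial.X ^ (i.2 : ℕ) with hR
  have hReval : ∀ y : ℂ, R.eval y = SS a X0 y := by
    intro y
    rw [hR, SS, Polynomial.eval_finsetSum]
    refine sum_congr rfl fun i _ ↦ ?_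
    simp only [Polynomial.eval_mul, Polynomial.eval_C, Polynomial.eval_pow, Polynomial.eval_X]
    ring
  have hRcoeff : ∀ b, R.coeff b = Polynomial.aeval X0 (Pb b) := by
    intro b
    rw [hR, hPb, Polynomial.finsetSum_coeff]
    simp only
    rw [map_sum]
    refine sum_congr rfl fun i _ ↦ ?_
    rw [Polynomial.coeff_C_mul, Polynomial.coeff_X_pow]
    split_ifs with h1 h2 h2
    · simp
    · exact absurd h1.symm h2
    · exact absurd h2.symm h1
    · simp
  have hPbcoeff : ∀ b j, |((Pb b).coeff j : ℝ)| ≤ B := by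
    intro b j
    by_cases hj : j < L ∧ b < L
    · have h1 : (Pb b).coeff j = a (⟨j, hj.1⟩, ⟨b, hj.2⟩) := by
        rw [hPb, Polynomial.finsetSum_coeff]
        rw [Finset.sum_eq_single (⟨j, hj.1⟩, ⟨b, hj.2⟩)]
        · simp
        · intro i _ hi
          split_ifs with h2
          · rw [Polynomial.coeff_C_mul, Polynomial.coeff_X_pow, if_neg, mul_zero]
            rintro rfl
            apply hi
            ext
            · rfl
            · exact h2
          · simp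
        · simp
      rw [h1]
      exact ha _
    · have h1 : (Pb b).coeff j = 0 := by
        rw [hPb, Polynomial.finsetSum_coeff]
        refine Finset.sum_eq_zero fun i _ ↦ ?_
        split_ifs with h2
        · rw [Polynomial.coeff_C_mul, Polynomial.coeff_X_pow, if_neg, mul_zero]
          rintro rfl
          exact hj ⟨i.1.2, h2 ▸ i.2.2⟩
        · simp
      rw [h1]
      simpa using hB0
  have hRne : R ≠ 0 := by
    obtain ⟨i, hi⟩ := Function.ne_iff.mp ha0
    intro h0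
    have h1 : Polynomial.aeval X0 (Pb i.2) = 0 := by
      rw [← hRcoeff, h0, Polynomial.coeff_zero]
    have h2 : Pb i.2 ≠ 0 := by
      intro h3
      have h4 : (Pb i.2).coeff i.1 = a i := by
        rw [hPb, Polynomial.finsetSum_coeff]
        rw [Finset.sum_eq_single i]
        · simp
        · intro k _ hk
          split_ifs with h2
          · rw [Polynomial.coeff_C_mul, Polynomial.coeff_X_pow, if_neg, mul_zero]
            intro h5
            apply hk
            ext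
            · exact h5.symm
            · exact h2
          · simp
        · simp
      rw [h3, Polynomial.coeff_zero] at h4
      exact hi h4.symm
    have h3 := one_le_eval h2 (hPbcoeff i.2) hX0n
    rw [h1, norm_zero] at h3
    linarith
  have hRlead : 1 ≤ ‖R.leadingCoeff‖ := by
    have h1 : R.leadingCoeff = Polynomial.aeval X0 (Pb R.natDegree) := hRcoeff _
    rw [h1]
    refine one_le_eval ?_ (hPbcoeff _) hX0n
    intro h2
    rw [h2, map_zero] at h1
    exact hRne (Polynomial.leadingCoeff_eq_zero.mp h1)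
  have hRdeg : R.natDegree + 1 ≤ L := by
    have h3 : ∀ m, L ≤ m → R.coeff m = 0 := by
      intro m hm
      rw [hR, Polynomial.finsetSum_coeff]
      refine Finset.sum_eq_zero fun i _ ↦ ?_
      rw [Polynomial.coeff_C_mul, Polynomial.coeff_X_pow, if_neg, mul_zero]
      intro h2
      have := i.2.2
      omega
    have h1 : R.coeff R.natDegree ≠ 0 := Polynomial.leadingCoeff_ne_zero.mpr hRne
    by_contra hcon
    exact h1 (h3 _ (by omega))
  refine fwd_bound hRlead (by omega : R.natDegree ≤ L) (c := c) (Y := Y0) hc0 (by linarith) hcn ?_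
  intro k hk
  obtain ⟨k1, k2, k3, k4⟩ := key k
  rw [hReval]
  have hFF := FF_eq a k3 k4
  have hmem : p ^ (2 * k) * w ∈ Ann p L := by
    refine ⟨?_, ?_⟩
    · rw [norm_mul, norm_pow]
      calc ‖p‖ ^ (2 * L) ≤ ‖p‖ ^ (2 * k + 2) :=
            pow_le_pow_of_le_one hpn.le hp1.le (by omega)
        _ = ‖p‖ ^ (2 * k) * ‖p‖ ^ 2 := by rw [pow_add]
        _ ≤ _ := by gcongr
    · rw [norm_mul, norm_pow]
      have h2 : ‖p‖ ^ (2 * k) ≤ 1 := pow_le_one₀ (norm_nonneg _) hp1.le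
      have h3 : ‖p‖ ^ (2 * L) ≤ 1 := pow_le_one₀ (norm_nonneg _) hp1.le
      calc ‖p‖ ^ (2 * k) * ‖w‖ * ‖p‖ ^ (2 * L) ≤ 1 * 1 * 1 := by gcongr
        _ = 1 := by norm_num
  have h1 := hε _ hmem
  have hthk : 0 < ‖th p (p ^ (2 * k) * w)‖ := hth0.trans_le k2
  have h2 : ‖th p (p ^ (2 * k) * w)‖⁻¹ ≤ C * (B + 1) :=
    inv_le_of_inv_le₀ hCB (hw3.trans k2)
  have e2 : ‖SS a X0 (Y0 - k * c)‖ = (‖th p (p ^ (2 * k) * w)‖⁻¹) ^ (3 * L) *
      ‖FF lam G p a (p ^ (2 * k) * w)‖ := by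
    rw [hFF, norm_mul, norm_pow, ← mul_assoc, ← mul_pow, inv_mul_cancel₀ hthk.ne', one_pow,
      one_mul]
  rw [e2]
  gcongr

end H32.T3
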