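import Pool.Agent.H32.T3.A6
import Pool.Agent.H32.T3.C6

/-!
# Number fields attached to tuples of CM points in a common field
-/

open UpperHalfPlane hiding I
open Complex EisensteinSeries ModularForm MatrixGroups Manifold
open scoped Real Topology

namespace H32.T3

open Height Height.AdmissibleAbsValues Finset NumberField Filter

/-- The last function: `2πi E₆ / E₄` for the indices with representative `a`, otherwise the quotient
of this function by its value at the representative. -/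
noncomputable def wv {n : ℕ} (r : Fin n → Fin n) (a : Fin n) (w : Fin n → ℂ) (i : Fin n) : ℂ :=
  if r i = a then Wf (w i) else Wf (w i) / Wf (w (r i))

/-- The functions: `w`, its conjugate, `j`, `E₂* E₄ / E₆`, and `wv`. -/
noncomputable def V5 {n : ℕ} (r : Fin n → Fin n) (a : Fin n) (w : Fin n → ℂ)
    (x : Fin n × Fin 5) : ℂ :=
  ![w x.1, (starRingEnd ℂ) (w x.1), jc (w x.1), ph (w x.1), wv r a w x.1] x.2

/-- The normalised functions. -/
noncomputable def Y5 {n : ℕ} (r : Fin n → Fin n) (w : Fin n → ℂ)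
    (x : Fin n × Fin 5) : ℂ :=
  ![w x.1, (starRingEnd ℂ) (w x.1), jc (w x.1), ph (w x.1), Wf (w x.1) / Wf (w (r x.1))] x.2

/-- Tuples of CM points; those with the same representative lie in a common imaginary quadratic
field. -/
def Tup (n H : ℕ) (r : Fin n → Fin n) (t : Fin n → ℍ) : Prop :=
  2 ≤ H ∧ ∃ (d w : Fin n → ℕ) (u : Fin n → ℤ) (v : Fin n → ℕ) (s : Fin n → ℂ),
    (∀ i, d i ≤ H ∧ 1 ≤ w i ∧ w i ≤ H ∧ |u i| ≤ H ∧ 1 ≤ v i ∧ v i ≤ H ∧
      s i ^ 2 = -(d i : ℂ) ∧ (t i : ℂ) = (u i + v i * s i) / w i) ∧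
    ∀ i, d (r i) = d i ∧ s (r i) = s i

lemma finrank_fsup {ι : Type} (s : Finset ι) (F : ι → IntermediateField ℚ ℂ)
    (hF : ∀ i ∈ s, FiniteDimensional ℚ (F i)) : FiniteDimensional ℚ (s.sup F : IntermediateField ℚ ℂ) ∧
      Module.finrank ℚ (s.sup F : IntermediateField ℚ ℂ) ≤ ∏ i ∈ s, Module.finrank ℚ (F i) := by
  classical
  induction s using Finset.induction_on with
  | empty =>
    rw [sup_empty, prod_empty]
    exact ⟨inferInstance, by rw [IntermediateField.finrank_bot]⟩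
  | insert i t hi ih =>
    obtain ⟨h1, h2⟩ := ih fun j hj ↦ hF j (mem_insert_of_mem hj)
    have h3 := hF i (mem_insert_self _ _)
    rw [sup_insert, prod_insert hi]
    refine ⟨IntermediateField.finiteDimensional_sup _ _, ?_⟩
    exact (IntermediateField.finrank_sup_le _ _).trans (Nat.mul_le_mul_left _ h2)

theorem field_n (n : ℕ) : ∃ A : ℕ, ∀ (r : Fin n → Fin n)
    (H : ℕ) (t : Fin n → ℍ), Tup n H r t →
    (∀ i, E₄ (t i) ≠ 0 ∧ E₆ (t i) ≠ 0) →
    ∃ K : IntermediateField ℚ ℂ, FiniteDimensional ℚ K ∧ Module.finrank ℚ K ≤ H ^ A ∧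
      ∀ (L : Type) [Field L] [NumberField L] (σ : L →+* ℂ), (∀ x ∈ K, ∃ y, σ y = x) →
        ∃ y : Fin n × Fin 5 → L, (∀ x, σ (y x) = Y5 r (fun i ↦ (t i : ℂ)) x) ∧
          ∀ x, HB ((H : ℝ) ^ A) (y x) := by
  obtain ⟨A, hA⟩ := cm_heights
  obtain ⟨A', hA'⟩ := ratio_heights
  refine ⟨(4 * A + 2 * A') * (n + 1), fun r H t hT hne ↦ ?_⟩
  obtain ⟨hH, d, w, u, v, s, huv, hcom⟩ := hT
  have hH1 : 1 ≤ H := by omega
  have hH4 : 2 ≤ H ^ 4 := hH.trans (Nat.le_self_pow (by norm_num) H)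
  have hH2 : 2 ≤ H ^ 2 := hH.trans (Nat.le_self_pow (by norm_num) H)
  have h1 : ∀ i, ∃ K : IntermediateField ℚ ℂ, FiniteDimensional ℚ K ∧
      Module.finrank ℚ K ≤ (H ^ 4) ^ A ∧
      ∀ (L : Type) [Field L] [NumberField L] (σ : L →+* ℂ), (∀ x ∈ K, ∃ y, σ y = x) →
        ∃ t' tb J φ : L, σ t' = t i ∧ σ tb = (starRingEnd ℂ) (t i) ∧ σ J = jf (t i) ∧
          σ φ = E2s (t i) * E₄ (t i) / E₆ (t i) ∧ HB (((H ^ 4 : ℕ) : ℝ) ^ A) t' ∧
          HB (((H ^ 4 : ℕ) : ℝ) ^ A) tb ∧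
          HB (((H ^ 4 : ℕ) : ℝ) ^ A) J ∧ HB (((H ^ 4 : ℕ) : ℝ) ^ A) φ := by
    intro i
    obtain ⟨hd, hw1, hw, hu, hv1, hv, hs, ht⟩ := huv i
    obtain ⟨c1, c2, c3, c4⟩ := cm_uv_bounds hH hd hw1 hw hu hv
    exact hA (H ^ 4) _ _ _ (t i) hH4 c1 c2 c3 c4 (cm_uv hw1 hs ht) (hne i).2
  have hHr1 : (1 : ℝ) ≤ H := by exact_mod_cast hH1
  have h2 : ∀ i, ∃ K : IntermediateField ℚ ℂ, FiniteDimensional ℚ K ∧
      Module.finrank ℚ K ≤ (H ^ 2) ^ A' ∧
      ∀ (L : Type) [Field L] [NumberField L] (σ : L →+* ℂ), (∀ x ∈ K, ∃ y, σ y = x) →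
        ∃ β : L, σ β = Wf (t i) / Wf (t (r i)) ∧
          HB (((H ^ 2 : ℕ) : ℝ) ^ A') β := by
    intro i
    obtain ⟨hd, hw1, hw, hu, hv1, hv, hs, ht⟩ := huv i
    obtain ⟨hd0, hw01, hw0, hu0, hv01, hv0, hs0, ht0⟩ := huv (r i)
    obtain ⟨hda, hsa⟩ := hcom i
    have hwi : (w i : ℂ) ≠ 0 := by
      have : w i ≠ 0 := by omega
      exact_mod_cast this
    have hwa : (w (r i) : ℂ) ≠ 0 := by
      have : w (r i) ≠ 0 := by omega
      exact_mod_cast this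
    have hdH : d i ≤ H ^ 2 := hd.trans (Nat.le_self_pow (by norm_num) H)
    have hww : w i * w (r i) ≤ H ^ 2 := by rw [pow_two]; exact Nat.mul_le_mul hw hw0
    have hww1 : 1 ≤ w i * w (r i) := Nat.one_le_iff_ne_zero.mpr (by positivity)
    have hua : |u (r i) * (w i : ℤ)| ≤ ((H ^ 2 : ℕ) : ℤ) := by
      rw [abs_mul, Nat.abs_cast]
      have : (w i : ℤ) ≤ H := by exact_mod_cast hw
      push_cast
      rw [pow_two]
      exact mul_le_mul hu0 this (Int.natCast_nonneg _) (Int.natCast_nonneg _)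
    have hui : |u i * (w (r i) : ℤ)| ≤ ((H ^ 2 : ℕ) : ℤ) := by
      rw [abs_mul, Nat.abs_cast]
      have : (w (r i) : ℤ) ≤ H := by exact_mod_cast hw0
      push_cast
      rw [pow_two]
      exact mul_le_mul hu this (Int.natCast_nonneg _) (Int.natCast_nonneg _)
    have hva1 : 1 ≤ v (r i) * w i := Nat.one_le_iff_ne_zero.mpr (by positivity)
    have hva : v (r i) * w i ≤ H ^ 2 := by rw [pow_two]; exact Nat.mul_le_mul hv0 hw
    have hvi1 : 1 ≤ v i * w (r i) := Nat.one_le_iff_ne_zero.mpr (by positivity)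
    have hvi : v i * w (r i) ≤ H ^ 2 := by rw [pow_two]; exact Nat.mul_le_mul hv hw0
    have e1 : (t (r i) : ℂ) = (((u (r i) * (w i : ℤ) : ℤ) : ℂ) +
        ((v (r i) * w i : ℕ) : ℂ) * s i) / ((w i * w (r i) : ℕ) : ℂ) := by
      rw [ht0, hsa]
      push_cast
      field_simp
    have e2 : (t i : ℂ) = (((u i * (w (r i) : ℤ) : ℤ) : ℂ) +
        ((v i * w (r i) : ℕ) : ℂ) * s i) / ((w i * w (r i) : ℕ) : ℂ) := by
      rw [ht]
      push_cast
      field_simp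
    exact hA' (H ^ 2) (d i) (w i * w (r i)) (u (r i) * (w i : ℤ)) (u i * (w (r i) : ℤ))
      (v (r i) * w i) (v i * w (r i)) (s i) (t (r i)) (t i) hH2 hdH hww1 hww hua hui hva1 hva
      hvi1 hvi hs e1 e2 (hne (r i)).1 (hne (r i)).2 (hne i).1 (hne i).2
  choose K1 f1 q1 l1 using h1
  choose K2 f2 q2 l2 using h2
  have hfd : ∀ i ∈ (univ : Finset (Fin n)),
      FiniteDimensional ℚ (K1 i ⊔ K2 i : IntermediateField ℚ ℂ) := fun i _ ↦ by
    have := f1 i
    have := f2 i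
    exact IntermediateField.finiteDimensional_sup _ _
  obtain ⟨g1, g2⟩ := finrank_fsup univ (fun i ↦ K1 i ⊔ K2 i) hfd
  set K : IntermediateField ℚ ℂ := univ.sup (fun i ↦ K1 i ⊔ K2 i) with hK
  have hle1 : ∀ i, K1 i ≤ K := fun i ↦ le_sup_left.trans
    (Finset.le_sup (f := fun i ↦ K1 i ⊔ K2 i) (mem_univ i))
  have hle2 : ∀ i, K2 i ≤ K := fun i ↦ le_sup_right.trans
    (Finset.le_sup (f := fun i ↦ K1 i ⊔ K2 i) (mem_univ i))
  refine ⟨K, g1, ?_, fun L _ _ σ hσ ↦ ?_⟩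
  · refine g2.trans ?_
    calc ∏ i, Module.finrank ℚ (K1 i ⊔ K2 i : IntermediateField ℚ ℂ)
        ≤ ∏ _i : Fin n, ((H ^ 4) ^ A * (H ^ 2) ^ A') := by
          refine prod_le_prod (fun _ _ ↦ Nat.zero_le _) fun i _ ↦ ?_
          exact (IntermediateField.finrank_sup_le _ _).trans (Nat.mul_le_mul (q1 i) (q2 i))
      _ = H ^ ((4 * A + 2 * A') * n) := by
          rw [prod_const, card_univ, Fintype.card_fin, ← pow_mul, ← pow_mul, ← pow_add, ← pow_mul]
      _ ≤ _ := Nat.pow_le_pow_right hH1 (Nat.mul_le_mul_left _ (by omega))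
  · have e1 := fun i ↦ l1 i L σ (fun x hx ↦ hσ x (hle1 i hx))
    have e2 := fun i ↦ l2 i L σ (fun x hx ↦ hσ x (hle2 i hx))
    choose yt ytb yJ yφ s1 s2 s3 s4 b1 b2 b3 b4 using e1
    choose yβ s5 b5 using e2
    have hT1 : ((H ^ 4 : ℕ) : ℝ) ^ A ≤ (H : ℝ) ^ ((4 * A + 2 * A') * (n + 1)) := by
      push_cast
      rw [← pow_mul]
      exact pow_le_pow_right₀ hHr1 (by nlinarith)
    have hT2 : ((H ^ 2 : ℕ) : ℝ) ^ A' ≤ (H : ℝ) ^ ((4 * A + 2 * A') * (n + 1)) := by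
      push_cast
      rw [← pow_mul]
      exact pow_le_pow_right₀ hHr1 (by nlinarith)
    refine ⟨fun x ↦ ![yt x.1, ytb x.1, yJ x.1, yφ x.1, yβ x.1] x.2, ?_, ?_⟩
    · rintro ⟨i, l⟩
      fin_cases l
      · exact s1 i
      · exact s2 i
      · exact (s3 i).trans (jc_coe (t i)).symm
      · exact (s4 i).trans (ph_coe (t i)).symm
      · exact s5 i
    · rintro ⟨i, l⟩
      fin_cases l
      · exact (b1 i).mono hT1
      · exact (b2 i).mono hT1
      · exact (b3 i).mono hT1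
      · exact (b4 i).mono hT1
      · exact (b5 i).mono hT2

/-- Liouville inequality for tuples. -/
theorem liouville_n (n : ℕ) : ∃ A : ℕ, ∀ (r : Fin n → Fin n)
    (G : MvPolynomial (Fin n × Fin 5) ℤ),
    ∃ C : ℝ, 0 ≤ C ∧ ∀ (H : ℕ) (t : Fin n → ℍ), Tup n H r t →
    (∀ i, E₄ (t i) ≠ 0 ∧ E₆ (t i) ≠ 0) →
    MvPolynomial.aeval (Y5 r (fun i ↦ (t i : ℂ))) G = 0 ∨
      Real.exp (-(C * (H : ℝ) ^ A)) ≤ ‖MvPolynomial.aeval (Y5 r (fun i ↦ (t i : ℂ))) G‖ := by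
  obtain ⟨A, hA⟩ := field_n n
  refine ⟨2 * A, fun r G ↦ ⟨Real.log (max 1 (nrm G)) + (5 * n : ℕ) * G.totalDegree, ?_, ?_⟩⟩
  · have := Real.log_nonneg (le_max_left 1 (nrm G))
    positivity
  intro H t hT hne
  obtain ⟨K, hK, hKA, hL⟩ := hA r H t hT hne
  have hNF : NumberField K := { to_charZero := inferInstance, to_finiteDimensional := hK }
  obtain ⟨v, hv, hvb⟩ := hL K (algebraMap K ℂ) (fun x hx ↦ ⟨⟨x, hx⟩, rfl⟩)
  have hval : algebraMap K ℂ (MvPolynomial.aeval v G) =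
      MvPolynomial.aeval (Y5 r (fun i ↦ (t i : ℂ))) G := by
    have h5 := MvPolynomial.comp_aeval_apply v (algebraMap K ℂ).toIntAlgHom G
    have h6 : (fun i ↦ (algebraMap K ℂ).toIntAlgHom (v i)) = Y5 r (fun i ↦ (t i : ℂ)) := by
      ext x
      exact hv x
    rw [h6] at h5
    exact h5
  by_cases h0 : MvPolynomial.aeval (Y5 r (fun i ↦ (t i : ℂ))) G = 0
  · exact Or.inl h0
  right
  have hy : MvPolynomial.aeval v G ≠ 0 := by
    intro h5
    rw [h5, map_zero] at hval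
    exact h0 hval.symm
  have h5 := liouville (algebraMap K ℂ) hy
  rw [hval] at h5
  refine le_trans ?_ h5
  have h6 := HB.aeval hvb G le_rfl (le_max_left 1 (nrm G)) (le_max_right _ _)
  unfold HB at h6
  have hH1 : (1 : ℝ) ≤ (H : ℝ) ^ A := by
    apply one_le_pow₀
    have : (2 : ℝ) ≤ H := by exact_mod_cast hT.1
    linarith
  have hd : (totalWeight K : ℝ) ≤ (H : ℝ) ^ A := by
    rw [totalWeight_eq_finrank]
    exact_mod_cast hKA
  have hlog := Real.log_nonneg (le_max_left 1 (nrm G))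
  have hcard : Fintype.card (Fin n × Fin 5) = 5 * n := by
    rw [Fintype.card_prod, Fintype.card_fin, Fintype.card_fin, mul_comm]
  have h7 : logHeight₁ (MvPolynomial.aeval v G) ≤
      (Real.log (max 1 (nrm G)) + (5 * n : ℕ) * G.totalDegree) * (H : ℝ) ^ (2 * A) := by
    refine h6.trans ?_
    rw [hcard]
    have h8 : (H : ℝ) ^ (2 * A) = (H : ℝ) ^ A * (H : ℝ) ^ A := by ring
    rw [h8, ← mul_assoc]
    have h9 : Real.log (max 1 (nrm G)) + (5 * n : ℕ) * G.totalDegree * (H : ℝ) ^ A ≤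
        (Real.log (max 1 (nrm G)) + (5 * n : ℕ) * G.totalDegree) * (H : ℝ) ^ A := by
      rw [add_mul]
      have := le_mul_of_one_le_right hlog hH1
      linarith
    gcongr
  rw [Real.exp_neg]
  apply inv_anti₀ (mulHeight₁_pos _)
  rw [logHeight₁_eq_log_mulHeight₁, Real.log_le_iff_le_exp (mulHeight₁_pos _)] at h7
  exact h7

end H32.T3
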