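import Pool.Agent.H32.T3.D9
import Pool.Agent.H32.Hier

/-!
# Explicit tuples
-/

open scoped Real Topology

namespace H32.T3

open Finset Filter

lemma tex_pos {m : ℕ} (hm : 0 < m) (s : Fin m) : 0 < tex m s :=
  (summable_tex hm s).tsum_pos (fun _ ↦ by positivity) 0 (by positivity)

lemma tex_le {m : ℕ} (hm : 0 < m) (s : Fin m) : tex m s ≤ 2 := by
  have h1 : ∀ k : ℕ, (1 / 2 : ℝ) ^ TT (m * k + s) ≤ (1 / 2 : ℝ) ^ k := by
    intro k
    refine pow_le_pow_of_le_one (by norm_num) (by norm_num) ?_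
    have h1 := le_TT (m * k + s)
    have h2 : k ≤ m * k := Nat.le_mul_of_pos_left _ hm
    omega
  exact hasSum_le h1 (summable_tex hm s).hasSum hasSum_geometric_two

lemma hier_eps {c C : ℝ} (hc : 0 < c) (hC : 0 < C) (B : ℕ) : ∃ K : ℕ, ∀ (q : ℕ) (ε ε' g g' : ℝ),
    K ≤ q → 0 < ε' → ε' ≤ Real.exp (-(q : ℝ)) → c * ε' ≤ g' → g ≤ C * ε → ε < ε' ^ K →
    g < g' ^ B := by
  have h1 : Tendsto (fun n : ℕ ↦ Real.exp (-(n : ℝ))) atTop (𝓝 0) :=
    Real.tendsto_exp_neg_atTop_nhds_zero.comp tendsto_natCast_atTop_atTop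
  have h2 : ∀ᶠ n : ℕ in atTop, Real.exp (-(n : ℝ)) < c ^ B / C :=
    h1.eventually_lt_const (by positivity)
  obtain ⟨K, hK1, hK2⟩ := (h2.and (eventually_ge_atTop (B + 1))).exists
  refine ⟨K, fun q ε ε' g g' hq hε' hε'q hg' hg hεε' ↦ ?_⟩
  have hqK : Real.exp (-(q : ℝ)) ≤ Real.exp (-(K : ℝ)) := by
    apply Real.exp_le_exp.mpr
    have : (K : ℝ) ≤ q := by exact_mod_cast hq
    linarith
  have hε1 : ε' ≤ 1 := by
    refine hε'q.trans (Real.exp_le_one_iff.mpr ?_)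
    have : (0 : ℝ) ≤ q := Nat.cast_nonneg q
    linarith
  have h3 : C * ε' ≤ c ^ B := by
    have : ε' ≤ c ^ B / C := (hε'q.trans hqK).trans hK1.le
    rwa [le_div_iff₀ hC, mul_comm] at this
  calc g ≤ C * ε := hg
    _ < C * ε' ^ K := by gcongr
    _ ≤ C * ε' ^ (B + 1) := by
      have := pow_le_pow_of_le_one hε'.le hε1 hK2
      gcongr
    _ = (C * ε') * ε' ^ B := by ring
    _ ≤ c ^ B * ε' ^ B := by gcongr
    _ = (c * ε') ^ B := by rw [mul_pow]
    _ ≤ g' ^ B := by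
      have : 0 < c * ε' := by positivity
      gcongr

lemma ex_data {m : ℕ} (hm : 0 < m) (κ B : ℕ) {c C δ : ℝ} (hc : 0 < c) (hC : 0 < C) (hδ : 0 < δ) :
    ∃ q : ℕ, 2 ≤ q ∧ B ≤ q ∧ ∃ p : Fin m → ℕ,
      (∀ s, 1 ≤ p s ∧ p s ≤ 3 * q ∧ 0 < |tex m s - p s / q| ∧ |tex m s - p s / q| ≤ δ ∧
        C * |tex m s - p s / q| < Real.exp (-((3 * q ^ 2 * q : ℕ) : ℝ) ^ κ)) ∧
      ∀ r s, r < s → |tex m s - p s / q| ≤ |tex m r - p r / q| ^ 2 ∧
        ∀ g g' : ℝ, c * |tex m r - p r / q| ≤ g' → g ≤ C * |tex m s - p s / q| → g < g' ^ B := by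
  obtain ⟨K, hK⟩ := hier_eps hc hC B
  have h1 : Tendsto (fun n : ℕ ↦ Real.exp (-(n : ℝ))) atTop (𝓝 0) :=
    Real.tendsto_exp_neg_atTop_nhds_zero.comp tendsto_natCast_atTop_atTop
  have h2 : ∀ᶠ n : ℕ in atTop, ∀ s : Fin m, Real.exp (-(n : ℝ)) < min δ (tex m s) := by
    rw [eventually_all]
    intro s
    exact h1.eventually_lt_const (lt_min hδ (tex_pos hm s))
  obtain ⟨K2, hK2⟩ := h2.exists
  set K3 : ℕ := K + K2 + B + ⌈C⌉₊ + 3 with hK3
  obtain ⟨q, hq, p, hp1, hp2⟩ := tex_hier hm ((5 * κ + 1 : ℕ) : ℝ) K3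
  have hq2 : 2 ≤ q := by omega
  have hq0 : (0 : ℝ) < q := by exact_mod_cast (by omega : 0 < q)
  have hq1 : (1 : ℝ) ≤ q := by exact_mod_cast (by omega : 1 ≤ q)
  have hqC : C ≤ q := by
    have h3 : C ≤ (⌈C⌉₊ : ℝ) := Nat.le_ceil C
    have h4 : (⌈C⌉₊ : ℝ) ≤ q := by exact_mod_cast (by omega : ⌈C⌉₊ ≤ q)
    exact h3.trans h4
  have hexp : ∀ s, |tex m s - p s / q| < Real.exp (-(q : ℝ)) := by
    intro s
    refine (hp1 s).2.trans_le (Real.exp_le_exp.mpr (neg_le_neg ?_))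
    rw [Real.rpow_natCast]
    exact le_self_pow₀ hq1 (by omega)
  have hexp2 : Real.exp (-(q : ℝ)) ≤ Real.exp (-(K2 : ℝ)) := by
    apply Real.exp_le_exp.mpr
    have : (K2 : ℝ) ≤ q := by exact_mod_cast (by omega : K2 ≤ q)
    linarith
  have hsmall : ∀ s, |tex m s - p s / q| < min δ (tex m s) := fun s ↦
    (hexp s).trans_le (hexp2.trans (hK2 s).le)
  have hp0 : ∀ s, 0 < p s := by
    intro s
    have h3 := (abs_lt.mp ((hsmall s).trans_le (min_le_right _ _))).2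
    have h4 : 0 < (p s : ℝ) / q := by linarith
    have h5 : 0 < (p s : ℝ) := by
      rcases lt_or_ge 0 (p s : ℝ) with h | h
      · exact h
      · exact absurd h4 (not_lt.mpr (div_nonpos_of_nonpos_of_nonneg h hq0.le))
    exact_mod_cast h5
  have hexp1 : Real.exp (-(q : ℝ)) ≤ 1 := by
    rw [Real.exp_le_one_iff]
    linarith
  have hcast : ∀ s, (((p s).toNat : ℕ) : ℝ) = (p s : ℝ) := by
    intro s
    have : ((p s).toNat : ℤ) = p s := Int.toNat_of_nonneg (hp0 s).le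
    exact_mod_cast this
  refine ⟨q, hq2, by omega, fun s ↦ (p s).toNat, fun s ↦ ?_, fun r s hrs ↦ ?_⟩
  · rw [hcast]
    refine ⟨by
      have := hp0 s
      change 1 ≤ (p s).toNat
      omega, ?_, (hp1 s).1, ((hsmall s).trans_le (min_le_left _ _)).le, ?_⟩
    · have h3 := (abs_lt.mp ((hexp s).trans_le hexp1)).1
      have h4 : (p s : ℝ) / q < 3 := by
        have := tex_le hm s
        linarith
      rw [div_lt_iff₀ hq0] at h4
      have h5 : (((p s).toNat : ℕ) : ℝ) < ((3 * q : ℕ) : ℝ) := by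
        rw [hcast]; push_cast; exact h4
      exact (by exact_mod_cast h5 : (p s).toNat < 3 * q).le
    · have h3 : |tex m s - p s / q| < Real.exp (-(q : ℝ) ^ (5 * κ + 1)) := by
        have := (hp1 s).2
        rwa [Real.rpow_natCast] at this
      have hq3 : (3 : ℝ) ≤ q := by exact_mod_cast (by omega : 3 ≤ q)
      have h4 : (((3 * q ^ 2 * q : ℕ) : ℝ)) ^ κ ≤ (q : ℝ) ^ (5 * κ) := by
        rw [pow_mul]
        gcongr
        push_cast
        calc (3 : ℝ) * q ^ 2 * q ≤ q * q ^ 2 * q := by gcongr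
          _ = (q : ℝ) ^ 4 := by ring
          _ ≤ (q : ℝ) ^ 5 := pow_le_pow_right₀ hq1 (by norm_num)
      have h5 : Real.log C + (q : ℝ) ^ (5 * κ) ≤ (q : ℝ) ^ (5 * κ + 1) := by
        have h6 : Real.log C ≤ q - 1 := by
          have := Real.log_le_sub_one_of_pos hC
          linarith
        have h7 : (1 : ℝ) ≤ (q : ℝ) ^ (5 * κ) := one_le_pow₀ hq1
        have h8 : (q : ℝ) - 1 ≤ (q - 1) * (q : ℝ) ^ (5 * κ) :=
          le_mul_of_one_le_right (by linarith) h7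
        have h9 : (q : ℝ) ^ (5 * κ + 1) = (q - 1) * (q : ℝ) ^ (5 * κ) + (q : ℝ) ^ (5 * κ) := by
          ring
        linarith
      calc C * |tex m s - p s / q| < C * Real.exp (-(q : ℝ) ^ (5 * κ + 1)) := by gcongr
        _ = Real.exp (Real.log C - (q : ℝ) ^ (5 * κ + 1)) := by
          rw [sub_eq_add_neg, Real.exp_add, Real.exp_log hC]
        _ ≤ _ := by
          apply Real.exp_le_exp.mpr
          linarith
  · rw [hcast, hcast]
    have hεr := (hp1 r).1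
    have hr1 : |tex m r - p r / q| ≤ 1 := (hexp r).le.trans hexp1
    constructor
    · exact (hp2 r s hrs).le.trans (pow_le_pow_of_le_one hεr.le hr1 (by omega))
    · intro g g' hg' hg
      refine hK q _ _ g g' (by omega) hεr (hexp r).le hg' hg ((hp2 r s hrs).trans_le ?_)
      exact pow_le_pow_of_le_one hεr.le hr1 (by omega)

/-- The first family: `√(-t_s)`. -/
theorem ex_one (n : ℕ) (hn : 0 < n) (κ : ℕ) (B : ℕ) :
    ∃ H : ℕ, B ≤ H ∧ ∃ (d w v : Fin n → ℕ) (u : Fin n → ℤ) (τ : Fin n → ℂ),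
      (∀ i, 1 ≤ d i ∧ d i ≤ H ∧ 1 ≤ w i ∧ w i ≤ H ∧ 1 ≤ v i ∧ v i ≤ H ∧ |u i| ≤ H ∧
        τ i = (u i + v i * (Real.sqrt (d i) * Complex.I)) / w i ∧
        ‖τ i - (Real.sqrt (tex n i) : ℂ) * Complex.I‖ < Real.exp (-(H : ℝ) ^ κ)) ∧
      (∀ i j, i = j → d i = d j) ∧
      (∀ p : Fin n, 0 < gp (fun i ↦ (Real.sqrt (tex n i) : ℂ) * Complex.I) τ (Fin.rev p, false)) ∧
      ∀ p q : Fin n, p < q →
        gp (fun i ↦ (Real.sqrt (tex n i) : ℂ) * Complex.I) τ (Fin.rev p, false) <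
        gp (fun i ↦ (Real.sqrt (tex n i) : ℂ) * Complex.I) τ (Fin.rev q, false) ^ B := by
  have hne : (univ : Finset (Fin n)).Nonempty := ⟨⟨0, hn⟩, mem_univ _⟩
  obtain ⟨i0, -, hi0⟩ := exists_min_image univ (fun i ↦ Real.sqrt (tex n i)) hne
  set y : ℝ := Real.sqrt (tex n i0) with hy
  have hy0 : 0 < y := Real.sqrt_pos.mpr (tex_pos hn i0)
  obtain ⟨q, hq2, hqB, p, hp, hhier⟩ := ex_data hn κ B (c := 1 / 4) (C := 1 / y) (δ := 1)
    (by norm_num) (by positivity) one_pos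
  have hq0 : (0 : ℝ) < q := by exact_mod_cast (by omega : 0 < q)
  set τ : Fin n → ℂ := fun i ↦ (Real.sqrt (p i / q) : ℂ) * Complex.I with hτ
  have hg : ∀ i, ‖τ i - (Real.sqrt (tex n i) : ℂ) * Complex.I‖ =
      |Real.sqrt (tex n i) - Real.sqrt (p i / q)| := by
    intro i
    rw [hτ]
    simp only
    rw [← sub_mul, norm_mul, Complex.norm_I, mul_one, ← Complex.ofReal_sub, Complex.norm_real,
      Real.norm_eq_abs, abs_sub_comm]
  have hid : ∀ i, |tex n i - p i / q| =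
      |Real.sqrt (tex n i) - Real.sqrt (p i / q)| * (Real.sqrt (tex n i) + Real.sqrt (p i / q)) := by
    intro i
    have h1 : 0 ≤ Real.sqrt (tex n i) + Real.sqrt (p i / q) := by positivity
    rw [← abs_of_nonneg h1, ← abs_mul]
    congr 1
    have h2 := Real.sq_sqrt (tex_pos hn i).le
    have h3 := Real.sq_sqrt (show 0 ≤ (p i : ℝ) / q by positivity)
    nlinarith
  have hsum : ∀ i, y ≤ Real.sqrt (tex n i) + Real.sqrt (p i / q) ∧
      Real.sqrt (tex n i) + Real.sqrt (p i / q) ≤ 4 := by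
    intro i
    have h1 : y ≤ Real.sqrt (tex n i) := hi0 i (mem_univ _)
    have h2 : 0 ≤ Real.sqrt (p i / q) := Real.sqrt_nonneg _
    have h3 : Real.sqrt (tex n i) ≤ 2 := by
      rw [show (2 : ℝ) = Real.sqrt 4 by
        rw [show (4 : ℝ) = 2 ^ 2 by norm_num, Real.sqrt_sq (by norm_num)]]
      exact Real.sqrt_le_sqrt ((tex_le hn i).trans (by norm_num))
    have h4 : Real.sqrt (p i / q) ≤ 2 := by
      rw [show (2 : ℝ) = Real.sqrt 4 by
        rw [show (4 : ℝ) = 2 ^ 2 by norm_num, Real.sqrt_sq (by norm_num)]]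
      apply Real.sqrt_le_sqrt
      rw [div_le_iff₀ hq0]
      have : (p i : ℝ) ≤ ((3 * q : ℕ) : ℝ) := by exact_mod_cast (hp i).2.1
      push_cast at this
      linarith
    constructor <;> linarith
  have hlow : ∀ i, 1 / 4 * |tex n i - p i / q| ≤ ‖τ i - (Real.sqrt (tex n i) : ℂ) * Complex.I‖ := by
    intro i
    rw [hg, hid]
    have h1 := (hsum i).2
    have h2 := abs_nonneg (Real.sqrt (tex n i) - Real.sqrt (p i / q))
    nlinarith
  have hup : ∀ i, ‖τ i - (Real.sqrt (tex n i) : ℂ) * Complex.I‖ ≤ 1 / y * |tex n i - p i / q| := by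
    intro i
    rw [hg, hid, one_div, le_inv_mul_iff₀ hy0, mul_comm]
    have h1 := (hsum i).1
    have h2 := abs_nonneg (Real.sqrt (tex n i) - Real.sqrt (p i / q))
    gcongr
  refine ⟨3 * q ^ 2 * q, ?_, fun i ↦ p i * q, fun _ ↦ q, fun _ ↦ 1, fun _ ↦ 0, τ, ?_, ?_, ?_, ?_⟩
  · calc B ≤ q := hqB
      _ = 1 * 1 * q := by ring
      _ ≤ 3 * q ^ 2 * q := by
        have : 1 ≤ q ^ 2 := Nat.one_le_pow _ _ (by omega)
        gcongr
        norm_num
  · intro i
    obtain ⟨h1, h2, h3, h4, h5⟩ := hp i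
    have hqq : q ≤ 3 * q ^ 2 * q := by
      calc q = 1 * 1 * q := by ring
        _ ≤ 3 * q ^ 2 * q := by
          have : 1 ≤ q ^ 2 := Nat.one_le_pow _ _ (by omega)
          gcongr
          norm_num
    have hq1 : 1 ≤ q := by omega
    refine ⟨Nat.mul_pos h1 hq1, ?_, hq1, hqq, le_rfl, hq1.trans hqq, ?_, ?_, ?_⟩
    · calc p i * q ≤ 3 * q * q := by gcongr
        _ ≤ 3 * q ^ 2 * q := by
          have : q ≤ q ^ 2 := Nat.le_self_pow (by norm_num) q
          gcongr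
    · change |(0 : ℤ)| ≤ _
      rw [abs_zero]
      exact Int.natCast_nonneg _
    · have e1 : Real.sqrt ((p i * q : ℕ) : ℝ) = Real.sqrt (p i / q) * q := by
        rw [show (((p i * q : ℕ)) : ℝ) = (p i / q) * q ^ 2 by
          push_cast
          field_simp]
        rw [Real.sqrt_mul (by positivity), Real.sqrt_sq hq0.le]
      rw [e1, hτ]
      have : (q : ℂ) ≠ 0 := by exact_mod_cast hq0.ne'
      push_cast
      field_simp
      ring
    · exact (hup i).trans_lt h5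
  · intro i j hij
    rw [hij]
  · intro r
    refine lt_of_lt_of_le ?_ (hlow (Fin.rev r))
    have := (hp (Fin.rev r)).2.2.1
    positivity
  · intro r s hrs
    have h1 : Fin.rev s < Fin.rev r := Fin.rev_lt_rev.mpr hrs
    exact (hhier (Fin.rev s) (Fin.rev r) h1).2 _ _ (hlow _) (hup _)

lemma two_sqrt {t l t' l' ε η y : ℝ} (hy : 0 < y) (hl : y ^ 2 ≤ l)
    (ht2 : t ≤ 2) (hl2 : l ≤ 4) (ht'0 : 0 ≤ t') (hl'0 : 0 ≤ l') (hε : |t - t'| = ε)
    (hη : |l - l'| = η) (hηε : η ≤ ε ^ 2) (hε0 : 0 < ε) (hε1 : ε ≤ 1) (hεy : 3 * ε ≤ y ^ 2 / 2) :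
    y / 2 * ε ≤ |t * Real.sqrt l - t' * Real.sqrt l'| ∧
      |t * Real.sqrt l - t' * Real.sqrt l'| ≤ (2 + 1 / y * 3) * ε := by
  have hyl : y ≤ Real.sqrt l := by
    rw [← Real.sqrt_sq hy.le]
    exact Real.sqrt_le_sqrt hl
  have hl0 : 0 ≤ l := (sq_nonneg y).trans hl
  have hl4 : Real.sqrt l ≤ 2 := by
    rw [show (2 : ℝ) = Real.sqrt 4 by
      rw [show (4 : ℝ) = 2 ^ 2 by norm_num, Real.sqrt_sq (by norm_num)]]
    exact Real.sqrt_le_sqrt hl2
  have hl'n : 0 ≤ Real.sqrt l' := Real.sqrt_nonneg _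
  have h1 := Real.sq_sqrt hl0
  have h2 := Real.sq_sqrt hl'0
  set a := Real.sqrt l with ha
  set b := Real.sqrt l' with hb
  -- |a - b| ≤ η / y
  have h3 : |a - b| * y ≤ η := by
    rw [← hη, ← h1, ← h2, show a ^ 2 - b ^ 2 = (a - b) * (a + b) by ring, abs_mul,
      abs_of_nonneg (show 0 ≤ a + b by linarith)]
    have := abs_nonneg (a - b)
    gcongr
    linarith
  have h4 : |t'| ≤ 3 := by
    rw [abs_of_nonneg ht'0]
    have := (abs_le.mp hε.le).1
    linarith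
  have e1 : t * a - t' * b = (t - t') * a + t' * (a - b) := by ring
  have h5 : |(t - t') * a| = ε * a := by
    rw [abs_mul, hε, abs_of_nonneg (show 0 ≤ a by linarith)]
  have h6 : |t' * (a - b)| * y ≤ 3 * ε ^ 2 := by
    rw [abs_mul]
    have h7 := abs_nonneg (a - b)
    have h8 := abs_nonneg t'
    calc |t'| * |a - b| * y = |t'| * (|a - b| * y) := by ring
      _ ≤ 3 * ε ^ 2 := by
        have : |a - b| * y ≤ ε ^ 2 := h3.trans hηε
        gcongr
  have h9 : |t' * (a - b)| ≤ 3 * ε ^ 2 / y := by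
    rw [le_div_iff₀ hy]
    exact h6
  have h10 : 3 * ε ^ 2 / y ≤ y / 2 * ε := by
    rw [div_le_iff₀ hy]
    nlinarith
  have h11 : 3 * ε ^ 2 / y ≤ 1 / y * 3 * ε := by
    rw [div_le_iff₀ hy]
    have : 1 / y * 3 * ε * y = 3 * ε := by field_simp
    rw [this]
    nlinarith
  constructor
  · rw [e1]
    have h12 : |(t - t') * a| - |t' * (a - b)| ≤ |(t - t') * a + t' * (a - b)| := by
      have := abs_sub_abs_le_abs_sub ((t - t') * a) (-(t' * (a - b)))
      rwa [abs_neg, sub_neg_eq_add] at this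
    rw [h5] at h12
    have h13 : y * ε ≤ ε * a := by nlinarith
    linarith
  · rw [e1]
    refine (abs_add_le _ _).trans ?_
    rw [h5]
    have h13 : ε * a ≤ 2 * ε := by nlinarith
    linarith

/-- The second family: `t_s √(-t_n)`. -/
theorem ex_all (n : ℕ) (κ : ℕ) (B : ℕ) :
    ∃ H : ℕ, B ≤ H ∧ ∃ (d w v : Fin n → ℕ) (u : Fin n → ℤ) (τ : Fin n → ℂ),
      (∀ i, 1 ≤ d i ∧ d i ≤ H ∧ 1 ≤ w i ∧ w i ≤ H ∧ 1 ≤ v i ∧ v i ≤ H ∧ |u i| ≤ H ∧
        τ i = (u i + v i * (Real.sqrt (d i) * Complex.I)) / w i ∧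
        ‖τ i - ((tex (n + 1) i.castSucc * Real.sqrt (tex (n + 1) (Fin.last n)) : ℝ) : ℂ) *
          Complex.I‖ < Real.exp (-(H : ℝ) ^ κ)) ∧
      (∀ i j, (0 : Fin 1) = (0 : Fin 1) → d i = d j) ∧
      (∀ p : Fin n, 0 < gp (fun i ↦ ((tex (n + 1) i.castSucc *
        Real.sqrt (tex (n + 1) (Fin.last n)) : ℝ) : ℂ) * Complex.I) τ (Fin.rev p, false)) ∧
      ∀ p q : Fin n, p < q →
        gp (fun i ↦ ((tex (n + 1) i.castSucc * Real.sqrt (tex (n + 1) (Fin.last n)) : ℝ) : ℂ) *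
          Complex.I) τ (Fin.rev p, false) <
        gp (fun i ↦ ((tex (n + 1) i.castSucc * Real.sqrt (tex (n + 1) (Fin.last n)) : ℝ) : ℂ) *
          Complex.I) τ (Fin.rev q, false) ^ B := by
  have hm : 0 < n + 1 := Nat.succ_pos n
  set l : ℝ := tex (n + 1) (Fin.last n) with hl
  have hl0 : 0 < l := tex_pos hm _
  set y : ℝ := Real.sqrt l with hy
  have hy0 : 0 < y := Real.sqrt_pos.mpr hl0
  have hyl : y ^ 2 = l := Real.sq_sqrt hl0.le
  obtain ⟨q, hq2, hqB, p, hp, hhier⟩ := ex_data hm κ B (c := y / 2) (C := 2 + 1 / y * 3)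
    (δ := min 1 (y ^ 2 / 6)) (by positivity) (by positivity) (by positivity)
  have hq0 : (0 : ℝ) < q := by exact_mod_cast (by omega : 0 < q)
  set τ : Fin n → ℂ := fun i ↦ ((p i.castSucc / q * Real.sqrt (p (Fin.last n) / q) : ℝ) : ℂ) *
    Complex.I with hτ
  have hg : ∀ i : Fin n, ‖τ i - ((tex (n + 1) i.castSucc * Real.sqrt l : ℝ) : ℂ) * Complex.I‖ =
      |tex (n + 1) i.castSucc * Real.sqrt l - p i.castSucc / q *
        Real.sqrt (p (Fin.last n) / q)| := by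
    intro i
    rw [hτ]
    simp only
    rw [← sub_mul, norm_mul, Complex.norm_I, mul_one, ← Complex.ofReal_sub, Complex.norm_real,
      Real.norm_eq_abs, abs_sub_comm]
  have hb : ∀ i : Fin n, y / 2 * |tex (n + 1) i.castSucc - p i.castSucc / q| ≤
      ‖τ i - ((tex (n + 1) i.castSucc * Real.sqrt l : ℝ) : ℂ) * Complex.I‖ ∧
      ‖τ i - ((tex (n + 1) i.castSucc * Real.sqrt l : ℝ) : ℂ) * Complex.I‖ ≤
        (2 + 1 / y * 3) * |tex (n + 1) i.castSucc - p i.castSucc / q| := by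
    intro i
    rw [hg]
    have h1 := (hhier i.castSucc (Fin.last n) (Fin.castSucc_lt_last i)).1
    have h2 := (hp i.castSucc).2.2.2.1
    have h3 := (hp i.castSucc).2.2.1
    refine two_sqrt (η := |l - p (Fin.last n) / q|) hy0 hyl.le (tex_le hm _)
      ((tex_le hm _).trans (by norm_num)) (by positivity) (by positivity) rfl rfl h1 h3
      (h2.trans (min_le_left _ _)) ?_
    have h4 := h2.trans (min_le_right _ _)
    linarith
  have hqq : q ≤ 3 * q ^ 2 * q := by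
    calc q = 1 * 1 * q := by ring
      _ ≤ 3 * q ^ 2 * q := by
        have : 1 ≤ q ^ 2 := Nat.one_le_pow _ _ (by omega)
        gcongr
        norm_num
  refine ⟨3 * q ^ 2 * q, hqB.trans hqq, fun _ ↦ p (Fin.last n) * q, fun _ ↦ q * q,
    fun i ↦ p i.castSucc, fun _ ↦ 0, τ, ?_, ?_, ?_, ?_⟩
  · intro i
    obtain ⟨h1, h2, h3, h4, h5⟩ := hp i.castSucc
    obtain ⟨g1, g2, g3, g4, g5⟩ := hp (Fin.last n)
    have hq1 : 1 ≤ q := by omega
    have hq2' : q ≤ q ^ 2 := Nat.le_self_pow (by norm_num) q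
    refine ⟨Nat.mul_pos g1 hq1, ?_, Nat.mul_pos hq1 hq1, ?_, h1, ?_, ?_, ?_, ?_⟩
    · calc p (Fin.last n) * q ≤ 3 * q * q := by gcongr
        _ ≤ 3 * q ^ 2 * q := by gcongr
    · calc q * q = 1 * q * q := by ring
        _ ≤ 3 * q ^ 2 * q := by gcongr; norm_num
    · calc p i.castSucc ≤ 3 * q := h2
        _ = 3 * q * 1 := by ring
        _ ≤ 3 * q ^ 2 * q := by gcongr
    · change |(0 : ℤ)| ≤ _
      rw [abs_zero]
      exact Int.natCast_nonneg _
    · have e1 : Real.sqrt ((p (Fin.last n) * q : ℕ) : ℝ) =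
          Real.sqrt (p (Fin.last n) / q) * q := by
        rw [show (((p (Fin.last n) * q : ℕ)) : ℝ) = (p (Fin.last n) / q) * q ^ 2 by
          push_cast
          field_simp]
        rw [Real.sqrt_mul (by positivity), Real.sqrt_sq hq0.le]
      rw [e1, hτ]
      have : (q : ℂ) ≠ 0 := by exact_mod_cast hq0.ne'
      push_cast
      field_simp
      ring
    · exact (hb i).2.trans_lt h5
  · intro i j _
    rfl
  · intro r
    refine lt_of_lt_of_le ?_ (hb (Fin.rev r)).1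
    have := (hp (Fin.rev r).castSucc).2.2.1
    positivity
  · intro r s hrs
    have h1 : (Fin.rev s).castSucc < (Fin.rev r).castSucc :=
      Fin.castSucc_lt_castSucc_iff.mpr (Fin.rev_lt_rev.mpr hrs)
    exact (hhier _ _ h1).2 _ _ (hb _).1 (hb _).2

end H32.T3
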