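import Pool.Agent.H32.T3.D1

/-!
# Algebraic points attached to roots of specialised relations, several points
-/

open UpperHalfPlane hiding I
open Complex EisensteinSeries ModularForm MatrixGroups Manifold
open scoped Real Topology

namespace H32.T3

open Height Height.AdmissibleAbsValues Finset NumberField Filter

lemma ps_eq (τ : ℍ) (h4 : E₄ τ ≠ 0) (h6 : E₆ τ ≠ 0) :
    ps τ = ph τ - 12 / (((τ : ℂ) - (starRingEnd ℂ) τ) * Wf τ) := by
  have hpi : (π : ℂ) ≠ 0 := by exact_mod_cast Real.pi_ne_zero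
  have him : ((τ.im : ℝ) : ℂ) ≠ 0 := by exact_mod_cast τ.im_pos.ne'
  have hsub : (τ : ℂ) - (starRingEnd ℂ) τ = 2 * ((τ.im : ℝ) : ℂ) * Complex.I := by
    rw [Complex.sub_conj, UpperHalfPlane.coe_im]
    push_cast
    ring
  rw [hsub, ps, ph, Wf, e2, e4, e6, ofComplex_apply, UpperHalfPlane.coe_im]
  field_simp
  ring_nf
  rw [Complex.I_sq]
  ring

/-- The number field attached to a root. -/
theorem point_bound_n (n : ℕ) : ∃ A : ℕ, ∀ (r : Fin n → Fin n) (a : Fin n)
    (G : ℕ → MvPolynomial (Fin n × Fin 5) ℤ) (m : ℕ), ∃ C1 : ℕ,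
    ∀ (H : ℕ) (t : Fin n → ℍ), Tup n H r t →
    (∀ i, E₄ (t i) ≠ 0 ∧ E₆ (t i) ≠ 0) →
    MvPolynomial.aeval (Y5 r (fun i ↦ (t i : ℂ))) (G m) ≠ 0 → ∀ e ρ : ℂ,
    4 * e ^ 3 - 2 * (27 / 2 * (E₄ (t a) ^ 3 / E₆ (t a) ^ 2)) * e -
        2 * (27 / 2 * (E₄ (t a) ^ 3 / E₆ (t a) ^ 2)) = 0 →
    ∑ i ∈ range (m + 1), MvPolynomial.aeval (Y5 r (fun i ↦ (t i : ℂ))) (G i) * ρ ^ i = 0 →
    ∃ (L : Type) (_ : Field L) (_ : NumberField L) (s : L →+* ℂ) (x0 x3 x4 : L),
      s x0 = e ∧ s x3 = 27 / 2 * (E₄ (t a) ^ 3 / E₆ (t a) ^ 2) ∧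
      s x4 = 3 / 2 * (ph (t a) - 12 / (((t a : ℂ) - (starRingEnd ℂ) (t a)) * ρ)) ∧
      totalWeight L ≤ C1 * H ^ (2 * A) ∧
      mulHeight₁ x0 ≤ Real.exp ((C1 * H ^ (2 * A) : ℕ) : ℝ) ∧
      mulHeight₁ x3 ≤ Real.exp ((C1 * H ^ (2 * A) : ℕ) : ℝ) ∧
      mulHeight₁ x4 ≤ Real.exp ((C1 * H ^ (2 * A) : ℕ) : ℝ) := by
  obtain ⟨A, hA⟩ := field_n n
  refine ⟨A, fun r a G m ↦ ?_⟩
  set D : ℕ := ∑ i ∈ range (m + 1), (G i).totalDegree with hD
  set B : ℝ := 1 + ∑ i ∈ range (m + 1), nrm (G i) with hB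
  have hBs : 0 ≤ ∑ i ∈ range (m + 1), nrm (G i) := sum_nonneg fun i _ ↦ nrm_nonneg _
  have hB1 : 1 ≤ B := by rw [hB]; linarith
  have hlB : 0 ≤ Real.log B := Real.log_nonneg hB1
  -- the budget
  set N5 : ℕ := 5 * n with hN5
  set Q : ℝ := 2000 + m + Real.log B + N5 * D with hQ
  set C1 : ℕ := ⌈Q⌉₊ * (3 * m + 1) with hC1
  refine ⟨C1, fun H t hTup hne hGm e ρ he hρ ↦ ?_⟩
  obtain ⟨K, hK, hKA, hL⟩ := hA r H t hTup hne
  have hH : 2 ≤ H := hTup.1
  have hH2 : (2 : ℝ) ≤ H := by exact_mod_cast hH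
  have hT1 : (1 : ℝ) ≤ (H : ℝ) ^ A := one_le_pow₀ (by linarith)
  set T : ℝ := (H : ℝ) ^ A with hT
  set τ := t a with hτ
  have h6 : E₆ τ ≠ 0 := (hne a).2
  have hΔ := discriminant_ne_zero τ
  have hJ1728 : jf τ - 1728 ≠ 0 := by
    intro h0
    have := jf_sub τ
    rw [h0, zero_mul] at this
    exact pow_ne_zero 2 h6 this.symm
  have hh : 27 / 2 * (E₄ τ ^ 3 / E₆ τ ^ 2) = 27 / 2 * (jf τ / (jf τ - 1728)) := by
    congr 1
    rw [← jf_mul, ← jf_sub]
    field_simp
  set h := 27 / 2 * (E₄ τ ^ 3 / E₆ τ ^ 2) with hhdef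
  have hcard : Fintype.card (Fin n × Fin 5) = N5 := by
    rw [Fintype.card_prod, Fintype.card_fin, Fintype.card_fin, mul_comm]
  -- first step: adjoin `ρ`
  have hNF : NumberField K := { to_charZero := inferInstance, to_finiteDimensional := hK }
  obtain ⟨v, hv, -⟩ := hL K (algebraMap K ℂ) (fun x hx ↦ ⟨⟨x, hx⟩, rfl⟩)
  have hval : ∀ P : MvPolynomial (Fin n × Fin 5) ℤ,
      algebraMap K ℂ (MvPolynomial.aeval v P) =
        MvPolynomial.aeval (Y5 r (fun i ↦ (t i : ℂ))) P := by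
    intro P
    have h5 := MvPolynomial.comp_aeval_apply v (algebraMap K ℂ).toIntAlgHom P
    have h6 : (fun i ↦ (algebraMap K ℂ).toIntAlgHom (v i)) = Y5 r (fun i ↦ (t i : ℂ)) := by
      ext x
      exact hv x
    rw [h6] at h5
    exact h5
  set f : Polynomial K := ∑ i ∈ range (m + 1),
    Polynomial.C (MvPolynomial.aeval v (G i)) * Polynomial.X ^ i with hf
  have hfd : f.natDegree ≤ m := by
    refine Polynomial.natDegree_sum_le_of_forall_le _ _ fun i hi ↦ ?_
    exact (Polynomial.natDegree_C_mul_X_pow_le _ _).trans (Nat.lt_succ_iff.mp (mem_range.mp hi))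
  have hf0 : f ≠ 0 := by
    intro h0
    have h1 := congrArg (fun p ↦ p.coeff m) h0
    simp only [hf, Polynomial.finsetSum_coeff, Polynomial.coeff_C_mul, Polynomial.coeff_X_pow,
      Polynomial.coeff_zero] at h1
    rw [sum_eq_single m] at h1
    · rw [if_pos rfl, mul_one] at h1
      apply hGm
      rw [← hval, h1, map_zero]
    · intro i _ hi
      rw [if_neg (Ne.symm hi), mul_zero]
    · intro hM
      exact absurd (mem_range.mpr (Nat.lt_succ_self m)) hM
  obtain ⟨K1, hK1, hρ1, hf1, hd1⟩ := one_step K ρ f hf0 (by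
    rw [hf, map_sum, ← hρ]
    refine sum_congr rfl fun i _ ↦ ?_
    rw [map_mul, Polynomial.aeval_C, map_pow, Polynomial.aeval_X, hval])
  -- second step: adjoin `e`
  have hhK : h ∈ K1 := by
    rw [hh]
    have hJK : jf τ ∈ K1 := by
      apply hK1
      have : jf τ = algebraMap K ℂ (v (a, 2)) := by
        rw [hv]
        exact (jc_coe τ).symm
      rw [this]
      exact (v (a, 2)).2
    have h27 : (27 / 2 : ℂ) ∈ K1 := by
      have : (27 / 2 : ℂ) = algebraMap ℚ ℂ (27 / 2) := by simp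
      rw [this]
      exact K1.algebraMap_mem _
    have h17 : (1728 : ℂ) ∈ K1 := by
      have : (1728 : ℂ) = algebraMap ℚ ℂ 1728 := by simp
      rw [this]
      exact K1.algebraMap_mem _
    exact K1.mul_mem h27 (K1.div_mem hJK (K1.sub_mem hJK h17))
  set g : Polynomial K1 := Polynomial.C 4 * Polynomial.X ^ 3 -
    Polynomial.C (2 * ⟨h, hhK⟩) * Polynomial.X - Polynomial.C (2 * ⟨h, hhK⟩) with hg
  have hgd : g.natDegree ≤ 3 := by
    rw [hg]
    compute_degree
  have hg0 : g ≠ 0 := by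
    intro h0
    have h1 := congrArg (fun p ↦ p.coeff 3) h0
    simp only [hg, Polynomial.coeff_sub, Polynomial.coeff_C_mul, Polynomial.coeff_X_pow,
      Polynomial.coeff_X, Polynomial.coeff_C, Polynomial.coeff_zero] at h1
    norm_num at h1
  obtain ⟨K2, hK2, he2, hf2, hd2⟩ := one_step K1 e g hg0 (by
    rw [hg, map_sub, map_sub, map_mul, map_mul, map_pow, Polynomial.aeval_X, Polynomial.aeval_C,
      Polynomial.aeval_C, ← he]
    have e1 : algebraMap K1 ℂ (2 * ⟨h, hhK⟩) = 2 * h := rfl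
    rw [e1]
    rfl)
  have hNF2 : NumberField K2 := { to_charZero := inferInstance, to_finiteDimensional := hf2 }
  obtain ⟨v', hv', hvb⟩ := hL K2 (algebraMap K2 ℂ) (fun x hx ↦ ⟨⟨x, hK2 (hK1 hx)⟩, rfl⟩)
  have hval' : ∀ P : MvPolynomial (Fin n × Fin 5) ℤ,
      algebraMap K2 ℂ (MvPolynomial.aeval v' P) =
        MvPolynomial.aeval (Y5 r (fun i ↦ (t i : ℂ))) P := by
    intro P
    have h5 := MvPolynomial.comp_aeval_apply v' (algebraMap K2 ℂ).toIntAlgHom P
    have h6 : (fun i ↦ (algebraMap K2 ℂ).toIntAlgHom (v' i)) = Y5 r (fun i ↦ (t i : ℂ)) := by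
      ext x
      exact hv' x
    rw [h6] at h5
    exact h5
  set rt : K2 := ⟨ρ, hK2 hρ1⟩ with hrt
  set ee : K2 := ⟨e, he2⟩ with hee
  have hJ' : algebraMap K2 ℂ (v' (a, 2)) = jf τ := (hv' (a, 2)).trans (jc_coe τ)
  have ht' : algebraMap K2 ℂ (v' (a, 0)) = (τ : ℂ) := hv' (a, 0)
  have htb' : algebraMap K2 ℂ (v' (a, 1)) = (starRingEnd ℂ) (τ : ℂ) := hv' (a, 1)
  have hph' : algebraMap K2 ℂ (v' (a, 3)) = ph τ := hv' (a, 3)
  set x3 : K2 := ((27 : ℤ) : K2) / ((2 : ℤ) : K2) *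
    (v' (a, 2) / (v' (a, 2) - ((1728 : ℤ) : K2))) with hx3
  have hx3v : algebraMap K2 ℂ x3 = h := by
    rw [hx3, hh, map_mul, map_div₀, map_div₀, map_sub, hJ', map_intCast, map_intCast, map_intCast]
    push_cast
    rfl
  -- heights
  have hx3b : HB (2 * T + 1758) x3 :=
    (((HB.int 27).div (HB.int 2)).mul ((hvb (a, 2)).div ((hvb (a, 2)).sub (HB.int 1728)))).mono (by
      norm_num
      linarith)
  have hrb : HB (m + Real.log B + N5 * D * T) rt := by
    have hroot := HB.root hvb (n := m) (fun j ↦ if j ≤ m then G j else 0) (D := D)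
      (fun j ↦ by
        split_ifs with hj
        · exact single_le_sum (f := fun i ↦ (G i).totalDegree) (fun _ _ ↦ Nat.zero_le _)
            (mem_range.mpr (Nat.lt_succ_of_le hj))
        · simp) (B := B) hB1 (fun j ↦ by
        split_ifs with hj
        · have := single_le_sum (f := fun i ↦ nrm (G i)) (fun _ _ ↦ nrm_nonneg _)
            (mem_range.mpr (Nat.lt_succ_of_le hj))
          rw [hB]
          linarith
        · rw [nrm_zero]; linarith) rt ?_ ?_
    · refine hroot.mono ?_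
      rw [hcard]
    · rw [if_pos le_rfl]
      intro h0
      apply hGm
      rw [← hval', h0, map_zero]
    · apply (algebraMap K2 ℂ).injective
      rw [map_zero, map_sum, ← hρ]
      refine sum_congr rfl fun i hi ↦ ?_
      rw [if_pos (Nat.lt_succ_iff.mp (mem_range.mp hi)), map_mul, map_pow, hval']
      rfl
  set x4 : K2 := ((3 : ℤ) : K2) / ((2 : ℤ) : K2) *
    (v' (a, 3) - ((12 : ℤ) : K2) / ((v' (a, 0) - v' (a, 1)) * rt)) with hx4
  have hx4b : HB (3 * T + 19 + (m + Real.log B + N5 * D * T)) x4 :=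
    (((HB.int 3).div (HB.int 2)).mul ((hvb (a, 3)).sub ((HB.int 12).div
      (((hvb (a, 0)).sub (hvb (a, 1))).mul hrb)))).mono (by
        norm_num
        linarith)
  have hx4v : algebraMap K2 ℂ x4 =
      3 / 2 * (ph τ - 12 / (((τ : ℂ) - (starRingEnd ℂ) τ) * ρ)) := by
    have e1 : algebraMap K2 ℂ rt = ρ := rfl
    rw [hx4, map_mul, map_div₀, map_sub, map_div₀, map_mul, map_sub, hph', ht', htb', e1,
      map_intCast, map_intCast, map_intCast]
    push_cast
    rfl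
  have heb : HB (2 * T + 1765) ee := by
    have hroot := HB.root (ι := Fin 1) (x := fun _ ↦ x3) (fun _ ↦ hx3b) (n := 3)
      (fun j ↦ if j = 0 then MvPolynomial.C (-2) * MvPolynomial.X 0 else
        if j = 1 then MvPolynomial.C (-2) * MvPolynomial.X 0 else
        if j = 3 then MvPolynomial.C 4 else 0) (D := 1)
      (fun j ↦ by
        have e1 : (MvPolynomial.C (-2) * MvPolynomial.X 0 :
            MvPolynomial (Fin 1) ℤ).totalDegree ≤ 1 := by
          refine (MvPolynomial.totalDegree_mul _ _).trans ?_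
          rw [MvPolynomial.totalDegree_C, MvPolynomial.totalDegree_X]
        split_ifs
        · exact e1
        · exact e1
        · rw [MvPolynomial.totalDegree_C]; norm_num
        · simp) (B := 4) (by norm_num) (fun j ↦ by
        have e1 : nrm (MvPolynomial.C (-2) * MvPolynomial.X 0 : MvPolynomial (Fin 1) ℤ) ≤ 4 := by
          refine (nrm_mul_le _ _).trans ?_
          rw [nrm_C, nrm_X]
          norm_num
        split_ifs
        · exact e1
        · exact e1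
        · rw [nrm_C]; norm_num
        · rw [nrm_zero]; norm_num) ee ?_ ?_
    · refine hroot.mono ?_
      have h4 : Real.log 4 ≤ 4 - 1 := Real.log_le_sub_one_of_pos (by norm_num)
      simp only [Fintype.card_fin, Nat.cast_one, one_mul, Nat.cast_ofNat]
      linarith
    · rw [if_neg (by norm_num), if_neg (by norm_num), if_pos rfl, MvPolynomial.aeval_C]
      simp
    · clear_value x3
      have hrel : 4 * ee ^ 3 - 2 * x3 * ee - 2 * x3 = 0 := by
        apply (algebraMap K2 ℂ).injective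
        have e1 : algebraMap K2 ℂ ee = e := rfl
        simp only [map_zero, map_sub, map_mul, map_pow, hx3v, map_ofNat, e1]
        exact he
      simp only [sum_range_succ, sum_range_zero]
      norm_num [MvPolynomial.aeval_C, MvPolynomial.aeval_X]
      linear_combination hrel
  have hd : Module.finrank ℚ K2 ≤ H ^ A * (3 * m + 1) := by
    calc Module.finrank ℚ K2 ≤ Module.finrank ℚ K1 * 3 := hd2.trans (Nat.mul_le_mul_left _ hgd)
      _ ≤ (Module.finrank ℚ K * m) * 3 :=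
        Nat.mul_le_mul_right _ (hd1.trans (Nat.mul_le_mul_left _ hfd))
      _ ≤ (H ^ A * m) * 3 := by gcongr
      _ = H ^ A * (3 * m) := by ring
      _ ≤ H ^ A * (3 * m + 1) := by gcongr; omega
  have hQ0 : 0 ≤ Q := by
    rw [hQ]
    positivity
  have hQceil : Q ≤ (⌈Q⌉₊ : ℝ) := Nat.le_ceil Q
  have hC1' : (C1 : ℝ) * T ^ 2 = ⌈Q⌉₊ * T * (T * (3 * m + 1)) := by
    rw [hC1]; push_cast; ring
  have hd' : (totalWeight K2 : ℝ) ≤ T * (3 * m + 1) := by
    rw [totalWeight_eq_finrank, hT]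
    exact_mod_cast hd
  have hfin : ∀ (S : ℝ) (x : K2), 0 ≤ S → HB S x → S ≤ Q * T →
      mulHeight₁ x ≤ Real.exp ((C1 * H ^ (2 * A) : ℕ) : ℝ) := by
    intro S x hS hx hSQ
    unfold HB at hx
    rw [← Real.log_le_iff_le_exp (mulHeight₁_pos _), ← logHeight₁_eq_log_mulHeight₁]
    have e1 : ((C1 * H ^ (2 * A) : ℕ) : ℝ) = C1 * T ^ 2 := by
      rw [hT]; push_cast; ring
    rw [e1, hC1']
    calc logHeight₁ x ≤ S * totalWeight K2 := hx
      _ ≤ (⌈Q⌉₊ * T) * (T * (3 * m + 1)) := by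
        have : S ≤ ⌈Q⌉₊ * T := hSQ.trans (by gcongr)
        gcongr
  have hQT : Q * T = 2000 * T + m * T + Real.log B * T + N5 * D * T := by rw [hQ]; ring
  have hnT : (m : ℝ) ≤ m * T := le_mul_of_one_le_right (by positivity) hT1
  have hlT : Real.log B ≤ Real.log B * T := le_mul_of_one_le_right hlB hT1
  have hDT0 : (0 : ℝ) ≤ N5 * D * T := by positivity
  have hnT0 : (0 : ℝ) ≤ m * T := by positivity
  have hlT0 : (0 : ℝ) ≤ Real.log B * T := by positivity
  refine ⟨K2, inferInstance, hNF2, algebraMap K2 ℂ, ee, x3, x4,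
    rfl, hx3v, hx4v, ?_, hfin _ _ (by positivity) heb ?_, hfin _ _ (by positivity) hx3b ?_,
    hfin _ _ (by positivity) hx4b ?_⟩
  · rw [totalWeight_eq_finrank]
    refine hd.trans ?_
    have h5 : 1 ≤ ⌈Q⌉₊ := by
      rw [Nat.one_le_ceil_iff, hQ]
      positivity
    have h6 : 1 ≤ H ^ A := Nat.one_le_pow _ _ (by omega)
    calc H ^ A * (3 * m + 1) = 1 * (1 * (H ^ A * (3 * m + 1))) := by ring
      _ ≤ ⌈Q⌉₊ * (H ^ A * (H ^ A * (3 * m + 1))) := by gcongr
      _ = C1 * H ^ (2 * A) := by rw [hC1]; ring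
  · rw [hQT]; linarith
  · rw [hQT]; linarith
  · rw [hQT]; linarith

end H32.T3
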