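import Pool.Agent.H32.T3.D2
import Pool.Agent.H32.T3.Measure2

/-!
# Transfer of relations to tuples of CM points
-/

open UpperHalfPlane hiding I
open Complex EisensteinSeries ModularForm MatrixGroups Manifold
open scoped Real Topology

namespace H32.T3

open Height Height.AdmissibleAbsValues Finset NumberField Filter Asymptotics

/-- Simultaneous approximations. -/
structure ApxN (κ n : ℕ) (r : Fin n → Fin n) (z : Fin n → ℂ) where
  /-- heights -/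
  H : ℕ → ℕ
  /-- the points -/
  t : ℕ → Fin n → ℍ
  hH : ∀ k, k + 2 ≤ H k
  hT : ∀ k, Tup n (H k) r (t k)
  hlt : ∀ k i, ‖z i - t k i‖ < Real.exp (-(H k : ℝ) ^ κ)
  hne : ∀ k i, (t k i : ℂ) ≠ z i

lemma ApxN.apx {κ n : ℕ} {r : Fin n → Fin n} {z : Fin n → ℂ} (S : ApxN κ n r z) {κ' : ℕ} (h : 4 * κ' ≤ κ)
    (i : Fin n) : Nonempty (Apx κ' (z i)) := by
  have h1 : ∀ k, ∃ a b c : ℤ, 0 < a ∧ |a| ≤ (S.H k ^ 4 : ℕ) ∧ |b| ≤ (S.H k ^ 4 : ℕ) ∧
      |c| ≤ (S.H k ^ 4 : ℕ) ∧ (a : ℂ) * (S.t k i : ℂ) ^ 2 + b * (S.t k i : ℂ) + c = 0 := by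
    intro k
    obtain ⟨hH, d, w, u, v, s, huv, -⟩ := S.hT k
    obtain ⟨hd, hw1, hw, hu, hv1, hv, hs, ht⟩ := huv i
    obtain ⟨c1, c2, c3, c4⟩ := cm_uv_bounds hH hd hw1 hw hu hv
    exact ⟨_, _, _, c1, c2, c3, c4, cm_uv hw1 hs ht⟩
  choose a b c h2 h3 h4 h5 h6 using h1
  refine ⟨⟨fun k ↦ S.H k ^ 4, a, b, c, fun k ↦ S.t k i, ?_, h2, h3, h4, h5, h6, ?_,
    fun k ↦ S.hne k i⟩⟩
  · intro k
    exact (S.hH k).trans (Nat.le_self_pow (by norm_num) _)
  · intro k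
    refine (S.hlt k i).trans_le ?_
    apply Real.exp_le_exp.mpr
    apply neg_le_neg
    push_cast
    rw [← pow_mul]
    have : (1 : ℝ) ≤ S.H k := by exact_mod_cast (by have := S.hH k; omega : 1 ≤ S.H k)
    exact pow_le_pow_right₀ this h

theorem e46_ne_n : ∃ A : ℕ, ∀ (κ : ℕ), A < κ → ∀ (n : ℕ) (r : Fin n → Fin n) (z : Fin n → ℂ)
    (_ : ApxN κ n r z), (∀ i, 0 < (z i).im) → ∀ i, e4 (z i) ≠ 0 ∧ e6 (z i) ≠ 0 := by
  obtain ⟨A, hA⟩ := e46_ne
  refine ⟨4 * (A + 1), fun κ hκ n r z S hz i ↦ ?_⟩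
  obtain ⟨T⟩ := S.apx (κ' := A + 1) (by omega) i
  exact hA (A + 1) (by omega) (z i) T (hz i)

lemma ApxN.tendsto {κ n : ℕ} (hκ : 1 ≤ κ) {r : Fin n → Fin n} {z : Fin n → ℂ}
    (S : ApxN κ n r z) :
    Tendsto (fun k i ↦ (S.t k i : ℂ)) atTop (𝓝 z) := by
  rw [tendsto_iff_norm_sub_tendsto_zero]
  have h1 : Tendsto (fun n : ℕ ↦ Real.exp (-(n : ℝ))) atTop (𝓝 0) :=
    Real.tendsto_exp_neg_atTop_nhds_zero.comp tendsto_natCast_atTop_atTop
  refine squeeze_zero (fun _ ↦ norm_nonneg _) (fun k ↦ ?_) h1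
  rw [pi_norm_le_iff_of_nonneg (Real.exp_pos _).le]
  intro i
  rw [Pi.sub_apply, norm_sub_rev]
  refine (S.hlt k i).le.trans (Real.exp_le_exp.mpr (neg_le_neg ?_))
  have h2 : (k : ℝ) ≤ S.H k := by exact_mod_cast (Nat.le_of_lt (by have := S.hH k; omega))
  have h3 : (1 : ℝ) ≤ S.H k := by exact_mod_cast (by have := S.hH k; omega : 1 ≤ S.H k)
  exact h2.trans (le_self_pow₀ h3 (by omega))

lemma ApxN.tendsto_ne {κ n : ℕ} (hκ : 1 ≤ κ) {r : Fin n → Fin n} {z : Fin n → ℂ}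
    (S : ApxN κ n r z) (i : Fin n) : Tendsto (fun k ↦ (S.t k i : ℂ)) atTop (𝓝[≠] (z i)) :=
  tendsto_nhdsWithin_iff.mpr ⟨(tendsto_pi_nhds.mp (S.tendsto hκ)) i,
    Eventually.of_forall fun k ↦ S.hne k i⟩

lemma diff_Wf {z : ℂ} (hz : 0 < z.im) (h4 : e4 z ≠ 0) : DifferentiableAt ℝ Wf z := by
  have d4 : DifferentiableAt ℝ e4 z := (hasDeriv_e4 hz).differentiableAt.restrictScalars ℝ
  have d6 : DifferentiableAt ℝ e6 z := (hasDeriv_e6 hz).differentiableAt.restrictScalars ℝ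
  exact ((differentiableAt_const _).mul d6).mul (d4.inv h4)

lemma Wf_ne {w : ℂ} (h4 : e4 w ≠ 0) (h6 : e6 w ≠ 0) : Wf w ≠ 0 := by
  have hpi : (π : ℂ) ≠ 0 := by exact_mod_cast Real.pi_ne_zero
  rw [Wf]
  exact div_ne_zero (mul_ne_zero (mul_ne_zero (mul_ne_zero two_ne_zero hpi) Complex.I_ne_zero) h6) h4

lemma diff_ph {z : ℂ} (hz : 0 < z.im) (h6 : e6 z ≠ 0) : DifferentiableAt ℝ ph z :=
  diff_V4 hz h6 3

lemma diff_V5 {n : ℕ} (r : Fin n → Fin n) (a : Fin n) {z : Fin n → ℂ} (hz : ∀ i, 0 < (z i).im)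
    (h : ∀ i, e4 (z i) ≠ 0 ∧ e6 (z i) ≠ 0) (x : Fin n × Fin 5) :
    DifferentiableAt ℝ (fun w : Fin n → ℂ ↦ V5 r a w x) z := by
  obtain ⟨i, l⟩ := x
  have hp : DifferentiableAt ℝ (fun w : Fin n → ℂ ↦ w i) z := differentiableAt_apply i z
  have hp' : DifferentiableAt ℝ (fun w : Fin n → ℂ ↦ w (r i)) z := differentiableAt_apply (r i) z
  have r1 : DifferentiableAt ℝ (starRingEnd ℂ : ℂ → ℂ) (z i) := Complex.conjCLE.differentiableAt
  have r2 : DifferentiableAt ℝ jc (z i) :=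
    (hasDeriv_jc (hz i)).differentiableAt.restrictScalars ℝ
  have r3 := diff_ph (hz i) (h i).2
  have r4 := diff_Wf (hz i) (h i).1
  have r4' := diff_Wf (hz (r i)) (h (r i)).1
  have q1 := DifferentiableAt.comp z r1 hp
  have q2 := DifferentiableAt.comp z r2 hp
  have q3 := DifferentiableAt.comp z r3 hp
  have q4 : DifferentiableAt ℝ (fun w : Fin n → ℂ ↦ Wf (w i)) z :=
    DifferentiableAt.comp (g := Wf) z r4 hp
  have q4' : DifferentiableAt ℝ (fun w : Fin n → ℂ ↦ Wf (w (r i))) z :=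
    DifferentiableAt.comp (g := Wf) z r4' hp'
  have q5 : DifferentiableAt ℝ (fun w : Fin n → ℂ ↦ wv r a w i) z := by
    by_cases hi : r i = a
    · simp only [wv, if_pos hi]
      exact q4
    · simp only [wv, if_neg hi, div_eq_mul_inv]
      exact q4.mul (q4'.inv (Wf_ne (h (r i)).1 (h (r i)).2))
  fin_cases l
  · exact hp
  · exact q1
  · exact q2
  · exact q3
  · exact q5

lemma diff_aeval5 {n : ℕ} (r : Fin n → Fin n) (a : Fin n) {z : Fin n → ℂ} (hz : ∀ i, 0 < (z i).im)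
    (h : ∀ i, e4 (z i) ≠ 0 ∧ e6 (z i) ≠ 0) (G : MvPolynomial (Fin n × Fin 5) ℤ) :
    DifferentiableAt ℝ (fun w : Fin n → ℂ ↦ MvPolynomial.aeval (V5 r a w) G) z := by
  induction G using MvPolynomial.induction_on with
  | C c =>
    simp only [MvPolynomial.aeval_C]
    exact differentiableAt_const _
  | add p q hp hq =>
    simp only [map_add]
    exact hp.add hq
  | mul_X p i hp =>
    simp only [map_mul, MvPolynomial.aeval_X]
    exact hp.mul (diff_V5 r a hz h i)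

/-- Homogenisation in the last variables. -/
noncomputable def Th (n : ℕ) (r : Fin n → Fin n) (a : Fin n) : MvPolynomial (Fin n × Fin 5) ℤ →ₐ[ℤ]
    Polynomial (MvPolynomial (Fin n × Fin 5) ℤ) :=
  MvPolynomial.aeval fun x ↦ if x.2 = 4 ∧ r x.1 = a then
    Polynomial.C (MvPolynomial.X x) * Polynomial.X else Polynomial.C (MvPolynomial.X x)

lemma Th_eval {n : ℕ} (r : Fin n → Fin n) (a : Fin n) (G : MvPolynomial (Fin n × Fin 5) ℤ)
    (y : Fin n × Fin 5 → ℂ) (b : ℂ) :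
    ((Th n r a G).map (MvPolynomial.aeval y : MvPolynomial (Fin n × Fin 5) ℤ →ₐ[ℤ] ℂ).toRingHom).eval
      b = MvPolynomial.aeval (fun x ↦ if x.2 = 4 ∧ r x.1 = a then y x * b else y x) G := by
  induction G using MvPolynomial.induction_on with
  | C c =>
    simp [Th]
  | add p q hp hq =>
    simp only [map_add, Polynomial.map_add, Polynomial.eval_add, hp, hq]
  | mul_X p i hp =>
    simp only [map_mul, Polynomial.map_mul, Polynomial.eval_mul, hp, MvPolynomial.aeval_X]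
    congr 1
    rw [Th, MvPolynomial.aeval_X]
    by_cases h : i.2 = 4 ∧ r i.1 = a
    · rw [if_pos h, if_pos h]
      simp
    · rw [if_neg h, if_neg h]
      simp

lemma V5_eq {n : ℕ} {r : Fin n → Fin n} {a : Fin n} {w : Fin n → ℂ} (h : Wf (w a) ≠ 0) :
    V5 r a w = fun x ↦ if x.2 = 4 ∧ r x.1 = a then Y5 r w x * Wf (w a) else Y5 r w x := by
  ext ⟨i, l⟩
  by_cases hl : l = 4
  · subst hl
    by_cases hi : r i = a
    · rw [if_pos ⟨rfl, hi⟩]
      change wv r a w i = Wf (w i) / Wf (w (r i)) * Wf (w a)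
      rw [wv, if_pos hi, hi]
      field_simp
    · rw [if_neg (fun h ↦ hi h.2)]
      change wv r a w i = Wf (w i) / Wf (w (r i))
      rw [wv, if_neg hi]
  · rw [if_neg (fun h ↦ hl h.1)]
    fin_cases l
    · have e1 : V5 r a w (i, 0) = w i := rfl
      have e2 : Y5 r w (i, 0) = w i := rfl
      exact e1.trans e2.symm
    · have e1 : V5 r a w (i, 1) = (starRingEnd ℂ) (w i) := rfl
      have e2 : Y5 r w (i, 1) = (starRingEnd ℂ) (w i) := rfl
      exact e1.trans e2.symm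
    · have e1 : V5 r a w (i, 2) = jc (w i) := rfl
      have e2 : Y5 r w (i, 2) = jc (w i) := rfl
      exact e1.trans e2.symm
    · have e1 : V5 r a w (i, 3) = ph (w i) := rfl
      have e2 : Y5 r w (i, 3) = ph (w i) := rfl
      exact e1.trans e2.symm
    · exact absurd rfl hl

lemma near_bound {W ρ y φ : ℂ} {c0 y0 E : ℝ} (hc0 : 0 < c0) (hW : c0 ≤ ‖W‖) (hy0 : 0 < y0)
    (hy : y0 ≤ ‖y‖) (hE0 : 0 ≤ E) (hE1 : E ≤ 1)
    (h : E ≤ ‖3 / 2 * (φ - 12 / (y * W)) - 3 / 2 * (φ - 12 / (y * ρ))‖) :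
    min (c0 / 2) (y0 * c0 ^ 2 / 36) * E ≤ ‖W - ρ‖ := by
  rcases le_or_gt (c0 / 2) ‖W - ρ‖ with h1 | h1
  · refine le_trans ?_ h1
    calc min (c0 / 2) (y0 * c0 ^ 2 / 36) * E ≤ c0 / 2 * 1 := by
          have := min_le_left (c0 / 2) (y0 * c0 ^ 2 / 36)
          gcongr
      _ = _ := mul_one _
  have hρ : c0 / 2 ≤ ‖ρ‖ := by
    have := norm_sub_norm_le W ρ
    linarith
  have hW0 : W ≠ 0 := by
    intro h0
    rw [h0, norm_zero] at hW
    linarith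
  have hρ0 : ρ ≠ 0 := by
    intro h0
    rw [h0, norm_zero] at hρ
    linarith
  have hy00 : y ≠ 0 := by
    intro h0
    rw [h0, norm_zero] at hy
    linarith
  have e1 : 3 / 2 * (φ - 12 / (y * W)) - 3 / 2 * (φ - 12 / (y * ρ)) =
      18 * (W - ρ) / (y * ρ * W) := by
    field_simp
    ring
  have e2 : ‖(18 : ℂ)‖ = 18 := by norm_num
  rw [e1, norm_div, norm_mul, norm_mul, norm_mul, e2] at h
  have h2 : E ≤ 18 * ‖W - ρ‖ / (y0 * (c0 / 2) * c0) := by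
    refine h.trans ?_
    gcongr
  rw [le_div_iff₀ (by positivity)] at h2
  calc min (c0 / 2) (y0 * c0 ^ 2 / 36) * E ≤ y0 * c0 ^ 2 / 36 * E := by
        have := min_le_right (c0 / 2) (y0 * c0 ^ 2 / 36)
        gcongr
    _ = E * (y0 * (c0 / 2) * c0) / 18 := by ring
    _ ≤ _ := by linarith

end H32.T3
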