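import Pool.Agent.H32.T3.D3

/-!
# Transfer of relations to tuples of CM points: the main statement
-/

open UpperHalfPlane hiding I
open Complex EisensteinSeries ModularForm MatrixGroups Manifold
open scoped Real Topology

namespace H32.T3

open Height Height.AdmissibleAbsValues Finset NumberField Filter Asymptotics

lemma root_ineq {m : ℕ} {δ c3 a C E1 E2 E3 : ℝ} (hc3 : 0 < c3) (hE2 : 0 ≤ E2)
    (hE3 : 0 < E3)
    (h1 : δ ^ m * a ≤ C * E1) (h2 : c3 * E2 ≤ δ) (h3 : E3 ≤ a) :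
    c3 ^ m * (E2 ^ m * E3) ≤ C * E1 := by
  have hδ : 0 ≤ δ := le_trans (by positivity) h2
  have hδm : 0 ≤ δ ^ m := pow_nonneg hδ m
  calc c3 ^ m * (E2 ^ m * E3) = (c3 * E2) ^ m * E3 := by rw [mul_pow]; ring
    _ ≤ δ ^ m * a := by gcongr
    _ ≤ _ := h1

/-- The key step: no specialised relation of exact degree `m`. -/
theorem no_rel (n : ℕ) : ∃ A : ℕ, ∀ (κ : ℕ), A < κ → ∀ (r : Fin n → Fin n) (a : Fin n)
    (z : Fin n → ℂ) (S : ApxN κ n r z),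
    (∀ i, 0 < (z i).im) → ∀ (G : ℕ → MvPolynomial (Fin n × Fin 5) ℤ) (m : ℕ) (C' : ℝ),
    0 < C' →
    ∀ᶠ k in atTop, MvPolynomial.aeval (Y5 r (fun i ↦ (S.t k i : ℂ))) (G m) = 0 ∨
      C' * Real.exp (-(S.H k : ℝ) ^ κ) < ‖∑ i ∈ range (m + 1),
        MvPolynomial.aeval (Y5 r (fun i ↦ (S.t k i : ℂ))) (G i) * Wf (S.t k a) ^ i‖ := by
  obtain ⟨A, hA⟩ := point_bound_n n
  obtain ⟨A', hA'⟩ := e46_ne_n
  obtain ⟨A'', hA''⟩ := liouville_n n
  refine ⟨44 * A + A' + A'', fun κ hκ r a z S hz G m C' hC'0 ↦ ?_⟩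
  have h46 := hA' κ (by omega) n r z S hz
  obtain ⟨h4, h6⟩ := h46 a
  obtain ⟨CL, hCL0, hCL⟩ := hA'' r (G m)
  obtain ⟨C1, hC1⟩ := hA r a G m
  have h4' : E₄ (⟨z a, hz a⟩ : ℍ) ≠ 0 := by
    have : ofComplex (z a) = ⟨z a, hz a⟩ := ofComplex_apply_of_im_pos (hz a)
    rw [e4, this] at h4
    exact h4
  have h6' : E₆ (⟨z a, hz a⟩ : ℍ) ≠ 0 := by
    have : ofComplex (z a) = ⟨z a, hz a⟩ := ofComplex_apply_of_im_pos (hz a)
    rw [e6, this] at h6
    exact h6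
  obtain ⟨Λ0, hΛ⟩ := measure_tau ⟨z a, hz a⟩ h4' h6'
  have hTn := fun i ↦ S.tendsto_ne (by omega) i
  have hT0 : Tendsto (fun k ↦ (S.t k a : ℂ)) atTop (𝓝 (z a)) :=
    (tendsto_nhdsWithin_iff.mp (hTn a)).1
  have hTH : Tendsto (fun k ↦ S.t k a) atTop (𝓝 (⟨z a, hz a⟩ : ℍ)) := by
    rw [UpperHalfPlane.isEmbedding_coe.tendsto_nhds_iff]
    exact hT0
  -- lower bounds
  set c0 : ℝ := ‖Wf (z a)‖ / 2 with hc0
  have hW0 : 0 < ‖Wf (z a)‖ := norm_pos_iff.mpr (Wf_ne h4 h6)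
  have hc00 : 0 < c0 := by positivity
  have hWc : ∀ᶠ k in atTop, c0 < ‖Wf (S.t k a)‖ := by
    have h1 := (diff_Wf (hz a) h4).continuousAt.norm
    have h2 : ∀ᶠ w in 𝓝 (z a), c0 < ‖Wf w‖ := h1.eventually_const_lt (by linarith)
    exact hT0.eventually h2
  set y0 : ℝ := ‖z a - (starRingEnd ℂ) (z a)‖ / 2 with hy0
  have hyz : 0 < ‖z a - (starRingEnd ℂ) (z a)‖ := by
    rw [norm_pos_iff, sub_ne_zero]
    intro h0
    have := Complex.conj_eq_iff_im.mp h0.symm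
    have := hz a
    linarith
  have hy00 : 0 < y0 := by positivity
  have hyc : ∀ᶠ k in atTop, y0 < ‖(S.t k a : ℂ) - (starRingEnd ℂ) (S.t k a : ℂ)‖ := by
    have h1 : ContinuousAt (fun w : ℂ ↦ ‖w - (starRingEnd ℂ) w‖) (z a) :=
      (continuous_id.sub Complex.continuous_conj).norm.continuousAt
    have h2 : ∀ᶠ w in 𝓝 (z a), y0 < ‖w - (starRingEnd ℂ) w‖ :=
      h1.eventually_const_lt (by linarith)
    exact hT0.eventually h2
  set c3 : ℝ := min (c0 / 2) (y0 * c0 ^ 2 / 36) with hc3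
  have hc30 : 0 < c3 := by
    rw [hc3]
    positivity
  -- numerical contradictions
  obtain ⟨H0, hH0⟩ := num_contra (C := m * ((C1 + Λ0 : ℕ) : ℝ) ^ 22 + CL)
    (C' := C' / c3 ^ m) (44 * A + A'') κ (by omega) (by positivity)
  obtain ⟨H1, hH1⟩ := num_contra (C := CL) (C' := C') A'' κ (by omega) hC'0
  have hlarge : ∀ᶠ k : ℕ in atTop, max H0 H1 ≤ (k : ℝ) :=
    tendsto_natCast_atTop_atTop.eventually_ge_atTop _
  have hne : ∀ᶠ k in atTop, ∀ i, E₄ (S.t k i) ≠ 0 ∧ E₆ (S.t k i) ≠ 0 := by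
    rw [eventually_all]
    intro i
    filter_upwards [(hTn i).eventually (e4_ev (hz i)), (hTn i).eventually (e6_ev (hz i))] with
      k p1 p2
    rw [e4, ofComplex_apply] at p1
    rw [e6, ofComplex_apply] at p2
    exact ⟨p1, p2⟩
  filter_upwards [hTH.eventually hΛ, hWc, hyc, hlarge, hne] with k q3 q6 q7 q5 q8
  obtain ⟨e, he, hmeas⟩ := q3
  by_cases hGk : MvPolynomial.aeval (Y5 r (fun i ↦ (S.t k i : ℂ))) (G m) = 0
  · exact Or.inl hGk
  right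
  by_contra hcon
  rw [not_lt] at hcon
  have hkH : (k : ℝ) ≤ S.H k := by
    have := S.hH k
    exact_mod_cast (by omega : k ≤ S.H k)
  have hlow := (hCL (S.H k) (S.t k) (S.hT k) q8).resolve_left hGk
  have hn0 : m ≠ 0 := by
    intro h0
    subst h0
    rw [zero_add, sum_range_one, pow_zero, mul_one] at hcon
    have := hH1 (S.H k) (((le_max_right _ _).trans q5).trans hkH)
    linarith
  set τ := S.t k a with hτ
  obtain ⟨q84, q86⟩ := q8 a
  -- the root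
  set f : Polynomial ℂ := ∑ i ∈ range (m + 1),
    Polynomial.C (MvPolynomial.aeval (Y5 r (fun i ↦ (S.t k i : ℂ))) (G i)) * Polynomial.X ^ i with hf
  have hfc : f.coeff m = MvPolynomial.aeval (Y5 r (fun i ↦ (S.t k i : ℂ))) (G m) := by
    simp only [hf, Polynomial.finsetSum_coeff, Polynomial.coeff_C_mul, Polynomial.coeff_X_pow]
    rw [sum_eq_single m]
    · rw [if_pos rfl, mul_one]
    · intro i _ hi
      rw [if_neg (Ne.symm hi), mul_zero]
    · intro hM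
      exact absurd (mem_range.mpr (Nat.lt_succ_self m)) hM
  have hfd : f.natDegree ≤ m := by
    refine Polynomial.natDegree_sum_le_of_forall_le _ _ fun i hi ↦ ?_
    exact (Polynomial.natDegree_C_mul_X_pow_le _ _).trans (Nat.lt_succ_iff.mp (mem_range.mp hi))
  have hfd' : f.natDegree = m :=
    le_antisymm hfd (Polynomial.le_natDegree_of_ne_zero (by rw [hfc]; exact hGk))
  have hfev : ∀ y, f.eval y = ∑ i ∈ range (m + 1),
      MvPolynomial.aeval (Y5 r (fun i ↦ (S.t k i : ℂ))) (G i) * y ^ i := by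
    intro y
    rw [hf, Polynomial.eval_finsetSum]
    refine sum_congr rfl fun i _ ↦ ?_
    rw [Polynomial.eval_mul, Polynomial.eval_C, Polynomial.eval_pow, Polynomial.eval_X]
  obtain ⟨ρ, hρ, hρ2⟩ := exists_near_root f (by rw [hfd']; exact hn0) (Wf τ)
  rw [hfd', Polynomial.leadingCoeff, hfd', hfc, hfev] at hρ2
  rw [hfev] at hρ
  obtain ⟨L, iF, iN, s, x0, x3, x4, s0, s3, s4, b0, b1, b2, b3⟩ :=
    hC1 (S.H k) (S.t k) (S.hT k) q8 hGk e ρ he hρ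
  set Λ : ℕ := (C1 + Λ0) * S.H k ^ (2 * A) with hΛdef
  have hH1' : 1 ≤ S.H k := by have := S.hH k; omega
  have hHp : 1 ≤ S.H k ^ (2 * A) := Nat.one_le_pow _ _ hH1'
  have hle : C1 * S.H k ^ (2 * A) ≤ Λ := by
    rw [hΛdef]; gcongr; omega
  have hle' : Real.exp ((C1 * S.H k ^ (2 * A) : ℕ) : ℝ) ≤ Real.exp (Λ : ℝ) := by
    apply Real.exp_le_exp.mpr
    exact_mod_cast hle
  have hΛ0 : Λ0 ≤ Λ := by
    rw [hΛdef]
    calc Λ0 ≤ (C1 + Λ0) * 1 := by omega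
      _ ≤ _ := Nat.mul_le_mul_left _ hHp
  have hm := hmeas L s x0 x3 x4 Λ hΛ0 (b0.trans hle) (b1.trans hle') (b2.trans hle')
    (b3.trans hle') s0 s3
  have hpsτ : E2 τ * E₄ τ / E₆ τ = ps τ := by
    rw [ps, e2, e4, e6, ofComplex_apply]
  rw [s4, hpsτ, ps_eq τ q84 q86] at hm
  have hEle : Real.exp (-(Λ : ℝ) ^ 22) ≤ 1 := by
    rw [Real.exp_le_one_iff]
    have : (0 : ℝ) ≤ (Λ : ℝ) ^ 22 := by positivity
    linarith
  have hm2 : c3 * Real.exp (-(Λ : ℝ) ^ 22) ≤ ‖Wf τ - ρ‖ :=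
    near_bound hc00 q6.le hy00 q7.le (Real.exp_pos _).le hEle hm
  have hm3 := root_ineq hc30 (Real.exp_pos _).le (Real.exp_pos _) (hρ2.trans hcon) hm2 hlow
  have hm4 := hH0 (S.H k) (((le_max_left _ _).trans q5).trans hkH)
  have hHr : (1 : ℝ) ≤ S.H k := by exact_mod_cast hH1'
  have e1 : Real.exp (-((m * ((C1 + Λ0 : ℕ) : ℝ) ^ 22 + CL) * (S.H k : ℝ) ^ (44 * A + A''))) ≤
      Real.exp (-(Λ : ℝ) ^ 22) ^ m * Real.exp (-(CL * (S.H k : ℝ) ^ A'')) := by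
    rw [← Real.exp_nat_mul, ← Real.exp_add]
    apply Real.exp_le_exp.mpr
    have e2 : (Λ : ℝ) ^ 22 = ((C1 + Λ0 : ℕ) : ℝ) ^ 22 * (S.H k : ℝ) ^ (44 * A) := by
      rw [hΛdef]
      push_cast
      ring
    rw [e2]
    have e3 : (S.H k : ℝ) ^ (44 * A) ≤ (S.H k : ℝ) ^ (44 * A + A'') :=
      pow_le_pow_right₀ hHr (by omega)
    have e4 : (S.H k : ℝ) ^ A'' ≤ (S.H k : ℝ) ^ (44 * A + A'') :=
      pow_le_pow_right₀ hHr (by omega)
    have e5 : (m : ℝ) * (((C1 + Λ0 : ℕ) : ℝ) ^ 22 * (S.H k : ℝ) ^ (44 * A)) ≤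
        m * (((C1 + Λ0 : ℕ) : ℝ) ^ 22 * (S.H k : ℝ) ^ (44 * A + A'')) := by gcongr
    have e6 : CL * (S.H k : ℝ) ^ A'' ≤ CL * (S.H k : ℝ) ^ (44 * A + A'') := by gcongr
    linarith
  have hm5 := hm4.trans_le e1
  rw [div_mul_eq_mul_div, div_lt_iff₀ (by positivity)] at hm5
  linarith

/-- All relations at `z` hold at the tuples of CM points. -/
theorem transfer_n (n : ℕ) : ∃ A : ℕ, ∀ (κ : ℕ), A < κ → ∀ (r : Fin n → Fin n) (a : Fin n)
    (z : Fin n → ℂ) (S : ApxN κ n r z), (∀ i, 0 < (z i).im) →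
    ∀ (G : MvPolynomial (Fin n × Fin 5) ℤ),
    MvPolynomial.aeval (V5 r a z) G = 0 →
    ∀ᶠ k in atTop, MvPolynomial.aeval (V5 r a (fun i ↦ (S.t k i : ℂ))) G = 0 := by
  obtain ⟨A, hA⟩ := no_rel n
  obtain ⟨A', hA'⟩ := e46_ne_n
  refine ⟨A + A', fun κ hκ r a z S hz G hG ↦ ?_⟩
  have h46 := hA' κ (by omega) n r z S hz
  have hTn := fun i ↦ S.tendsto_ne (by omega) i
  -- the Lipschitz bound
  have hFO : (fun w : Fin n → ℂ ↦ MvPolynomial.aeval (V5 r a w) G) =O[𝓝 z] (fun w ↦ w - z) := by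
    have h1 := (diff_aeval5 r a hz h46 G).isBigO_sub
    rw [hG] at h1
    simpa using h1
  obtain ⟨C', hC'0, hC'⟩ := hFO.exists_pos
  rw [IsBigOWith] at hC'
  have hLip := (S.tendsto (by omega)).eventually hC'
  have hall : ∀ᶠ k in atTop, ∀ m ∈ range ((Th n r a G).natDegree + 1),
      MvPolynomial.aeval (Y5 r (fun i ↦ (S.t k i : ℂ))) ((Th n r a G).coeff m) = 0 ∨
      C' * Real.exp (-(S.H k : ℝ) ^ κ) < ‖∑ i ∈ range (m + 1),
        MvPolynomial.aeval (Y5 r (fun i ↦ (S.t k i : ℂ))) ((Th n r a G).coeff i) *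
          Wf (S.t k a) ^ i‖ := by
    rw [Filter.eventually_all_finset]
    intro m _
    exact hA κ (by omega) r a z S hz (fun i ↦ (Th n r a G).coeff i) m C' hC'0
  filter_upwards [hLip, hall, (hTn a).eventually (e4_ev (hz a)),
    (hTn a).eventually (e6_ev (hz a))] with k q1 q2 q3 q4
  have hW := Wf_ne q3 q4
  have hval : ∀ b : ℂ, ((Th n r a G).map (MvPolynomial.aeval (Y5 r (fun i ↦ (S.t k i : ℂ))) :
      MvPolynomial (Fin n × Fin 5) ℤ →ₐ[ℤ] ℂ).toRingHom).eval b =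
      MvPolynomial.aeval (fun x ↦ if x.2 = 4 ∧ r x.1 = a then Y5 r (fun i ↦ (S.t k i : ℂ)) x * b else
        Y5 r (fun i ↦ (S.t k i : ℂ)) x) G := fun b ↦ Th_eval r a G _ b
  set P : Polynomial ℂ := (Th n r a G).map (MvPolynomial.aeval (Y5 r (fun i ↦ (S.t k i : ℂ))) :
      MvPolynomial (Fin n × Fin 5) ℤ →ₐ[ℤ] ℂ).toRingHom with hP
  have hV : MvPolynomial.aeval (V5 r a (fun i ↦ (S.t k i : ℂ))) G = P.eval (Wf (S.t k a)) := by
    rw [hval, V5_eq (r := r) (a := a) (w := fun i ↦ (S.t k i : ℂ)) hW]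
  have hcoeff : ∀ i, P.coeff i =
      MvPolynomial.aeval (Y5 r (fun i ↦ (S.t k i : ℂ))) ((Th n r a G).coeff i) := by
    intro i
    rw [hP, Polynomial.coeff_map]
    rfl
  by_contra h0
  have hP0 : P ≠ 0 := by
    intro h1
    rw [hV, h1, Polynomial.eval_zero] at h0
    exact h0 rfl
  have hdeg : P.natDegree ≤ (Th n r a G).natDegree := Polynomial.natDegree_map_le
  rcases q2 P.natDegree (mem_range.mpr (by omega)) with h1 | h1
  · rw [← hcoeff] at h1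
    exact hP0 (Polynomial.leadingCoeff_eq_zero.mp h1)
  · have h2 : ∑ i ∈ range (P.natDegree + 1),
        MvPolynomial.aeval (Y5 r (fun i ↦ (S.t k i : ℂ))) ((Th n r a G).coeff i) *
          Wf (S.t k a) ^ i = P.eval (Wf (S.t k a)) := by
      rw [Polynomial.eval_eq_sum_range]
      refine sum_congr rfl fun i _ ↦ ?_
      rw [hcoeff]
    rw [h2, ← hV] at h1
    have h3 : ‖(fun i ↦ (S.t k i : ℂ)) - z‖ ≤ Real.exp (-(S.H k : ℝ) ^ κ) := by
      rw [pi_norm_le_iff_of_nonneg (Real.exp_pos _).le]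
      intro i
      rw [Pi.sub_apply, norm_sub_rev]
      exact (S.hlt k i).le
    have h4 : C' * ‖(fun i ↦ (S.t k i : ℂ)) - z‖ ≤ C' * Real.exp (-(S.H k : ℝ) ^ κ) := by
      gcongr
    exact absurd (h1.trans_le (q1.trans h4)) (lt_irrefl _)

end H32.T3
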