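import Pool.Agent.H32.T3.D4
import Pool.Agent.H32.T3.C5
import Pool.Agent.H32.Nonvanish
import Pool.Agent.H32.Indep3

/-!
# Independence along hierarchical sequences
-/

open UpperHalfPlane hiding I
open Complex EisensteinSeries ModularForm MatrixGroups Manifold
open scoped Real Topology

namespace H32.T3

open Finset Filter Asymptotics

/-- The errors. -/
noncomputable def gp {n : ℕ} (z τ : Fin n → ℂ) (x : Fin n × Bool) : ℝ :=
  if x.2 then |(τ x.1 - z x.1).re| else ‖τ x.1 - z x.1‖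

/-- The shift. -/
noncomputable def al {n : ℕ} (x : Fin n × Bool) : ℂ := if x.2 then Complex.I else 0

/-- The coordinate. -/
noncomputable def rr {n : ℕ} (τ : Fin n → ℂ) (x : Fin n × Bool) : ℂ :=
  if x.2 then ((τ x.1).re : ℂ) else τ x.1

lemma norm_rr {n : ℕ} (z τ : Fin n → ℂ) (x : Fin n × Bool) : ‖rr τ x - rr z x‖ = gp z τ x := by
  obtain ⟨i, b⟩ := x
  cases b
  · rfl
  · change ‖((τ i).re : ℂ) - ((z i).re : ℂ)‖ = |(τ i - z i).re|
    rw [← Complex.ofReal_sub, Complex.norm_real, Real.norm_eq_abs, Complex.sub_re]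

lemma aeval_mkU' {σ : Type} (v : σ → ℕ → ℂ) (P : MvPolynomial σ ℂ) :
    MvPolynomial.aeval (fun i ↦ mkU (v i)) P =
      mkU (fun n ↦ MvPolynomial.aeval (fun i ↦ v i n) P) := by
  induction P using MvPolynomial.induction_on with
  | C c =>
    simp only [MvPolynomial.aeval_C]
    rfl
  | add p q hp hq =>
    simp only [map_add, hp, hq]
    rw [← map_add]
    rfl
  | mul_X p i hp =>
    simp only [map_mul, MvPolynomial.aeval_X, hp]
    rw [← map_mul]
    rfl

lemma aeval_mkUZ' {σ : Type} (v : σ → ℕ → ℂ) (P : MvPolynomial σ ℤ) :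
    MvPolynomial.aeval (fun i ↦ mkU (v i)) P =
      mkU (fun n ↦ MvPolynomial.aeval (fun i ↦ v i n) P) := by
  induction P using MvPolynomial.induction_on with
  | C c =>
    simp only [MvPolynomial.aeval_C]
    rw [algebraMap_int_eq, algebraMap_int_eq, eq_intCast, eq_intCast, ← map_intCast mkU]
    rfl
  | add p q hp hq =>
    simp only [map_add, hp, hq]
    rw [← map_add]
    rfl
  | mul_X p i hp =>
    simp only [map_mul, MvPolynomial.aeval_X, hp]
    rw [← map_mul]
    rfl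

theorem ult_indep {n N : ℕ} {z : Fin n → ℂ} (hz : ∀ i, 0 < (z i).im) (t : ℕ → Fin n → ℂ)
    (ht : Tendsto t atTop (𝓝 z)) (e : Fin N → Fin n × Bool)
    (hpos : ∀ᶠ k in atTop, ∀ p, 0 < gp z (t k) (e p))
    (hier : ∀ C : ℕ, ∀ᶠ k in atTop, ∀ p q, p < q → gp z (t k) (e p) ≤ gp z (t k) (e q) ^ C) :
    AlgebraicIndependent ℂ (fun x : Fin N × Fin 4 ↦
      mkU (fun k ↦ H32.DD (al (e x.1)) 1 1 0 (rr (t k) (e x.1)) x.2)) := by
  rw [algebraicIndependent_iff]
  intro P hP
  by_contra hne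
  have him : ∀ p, 0 < (al (e p) + 1 * rr z (e p)).im := by
    intro p
    obtain ⟨i, b⟩ := e p
    cases b
    · change 0 < (0 + 1 * z i).im
      rw [zero_add, one_mul]
      exact hz i
    · change 0 < (Complex.I + 1 * ((z i).re : ℂ)).im
      simp
  have hy : ∀ p, (1 : ℂ) + 0 * rr z (e p) ≠ 0 := by
    intro p
    simp
  have hcomp : ∀ i, Tendsto (fun k ↦ t k i) atTop (𝓝 (z i)) := tendsto_pi_nhds.mp ht
  obtain ⟨c, hc, M, hM⟩ := H32.nonvanish (l := (atTop : Filter ℕ)) N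
    (fun p w ↦ H32.DD (al (e p)) 1 1 0 w) (fun p ↦ rr z (e p)) (fun p k ↦ rr (t k) (e p))
    (fun p l ↦ analytic_DD (him p) (hy p) l)
    (fun p P hP ↦ indep_germ one_ne_zero (him p) (hy p) P hP)
    (fun p ↦ by
      obtain ⟨i, b⟩ := e p
      cases b
      · exact hcomp i
      · change Tendsto (fun k ↦ ((t k i).re : ℂ)) atTop (𝓝 ((z i).re : ℂ))
        exact ((Complex.continuous_ofReal.comp Complex.continuous_re).tendsto (z i)).comp (hcomp i))
    (fun C ↦ (hier C).mono fun k hk p q hpq ↦ by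
      rw [norm_rr, norm_rr]
      exact hk p q hpq) P hne
  rw [aeval_mkU'] at hP
  obtain ⟨k, h1, h2, h3⟩ := ((freq_of_mkU_zero hP).and_eventually (hM.and hpos)).exists
  rw [h1, norm_zero] at h2
  have h4 : 0 < c * (∏ p, ‖rr (t k) (e p) - rr z (e p)‖) ^ M := by
    refine mul_pos hc (pow_pos (prod_pos fun p _ ↦ ?_) _)
    rw [norm_rr]
    exact h3 p
  linarith

end H32.T3
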