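import Pool.Agent.H32.T3.D5

/-!
# Transfer for rational expressions
-/

open UpperHalfPlane hiding I
open Complex EisensteinSeries ModularForm MatrixGroups Manifold
open scoped Real Topology

namespace H32.T3

open Finset Filter Asymptotics

lemma clear {σ τ ι : Type} (good : ι → Prop) (V : ι → σ → ℂ) (U : ι → τ → ℂ)
    (D : MvPolynomial σ ℤ)
    (h : ∀ x, ∃ Q : MvPolynomial σ ℤ, ∀ w, good w →
      MvPolynomial.aeval (V w) Q = MvPolynomial.aeval (V w) D * U w x) (P : MvPolynomial τ ℤ) :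
    ∃ (N : ℕ) (Q : MvPolynomial σ ℤ), ∀ w, good w →
      MvPolynomial.aeval (V w) Q = MvPolynomial.aeval (V w) D ^ N * MvPolynomial.aeval (U w) P := by
  induction P using MvPolynomial.induction_on with
  | C c =>
    refine ⟨0, MvPolynomial.C c, fun w _ ↦ ?_⟩
    rw [MvPolynomial.aeval_C, MvPolynomial.aeval_C, pow_zero, one_mul]
  | add p q hp hq =>
    obtain ⟨N1, Q1, h1⟩ := hp
    obtain ⟨N2, Q2, h2⟩ := hq
    refine ⟨N1 + N2, Q1 * D ^ N2 + Q2 * D ^ N1, fun w hw ↦ ?_⟩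
    rw [map_add, map_mul, map_mul, map_pow, map_pow, h1 w hw, h2 w hw, map_add]
    ring
  | mul_X p x hp =>
    obtain ⟨N, Q, h1⟩ := hp
    obtain ⟨Q', h2⟩ := h x
    refine ⟨N + 1, Q * Q', fun w hw ↦ ?_⟩
    rw [map_mul, h1 w hw, h2 w hw, map_mul, MvPolynomial.aeval_X]
    ring

/-- The functions of the final statement. -/
noncomputable def UU {n : ℕ} (r : Fin n → Fin n) (a : Fin n) (w : Fin n → ℂ)
    (x : Fin n × Fin 5) : ℂ :=
  if r x.1 = a then ![w x.1, jc (w x.1), Wf (w x.1), ps (w x.1), w x.1] x.2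
  else ![w x.1, jc (w x.1), ph (w x.1), (starRingEnd ℂ) (w x.1), Wf (w x.1) / Wf (w (r x.1))] x.2

/-- The denominator. -/
noncomputable def Dn (n : ℕ) : MvPolynomial (Fin n × Fin 5) ℤ :=
  ∏ i, (MvPolynomial.X (i, 0) - MvPolynomial.X (i, 1)) * MvPolynomial.X (i, 4)

/-- Good tuples. -/
def Gd {n : ℕ} (w : Fin n → ℂ) : Prop := ∀ i, 0 < (w i).im ∧ e4 (w i) ≠ 0 ∧ e6 (w i) ≠ 0

lemma ps_eq' {w : ℂ} (hw : 0 < w.im) (h4 : e4 w ≠ 0) (h6 : e6 w ≠ 0) :
    ps w * ((w - (starRingEnd ℂ) w) * Wf w) = ph w * ((w - (starRingEnd ℂ) w) * Wf w) - 12 := by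
  have h := ps_eq (⟨w, hw⟩ : ℍ) (by
    have : ofComplex w = ⟨w, hw⟩ := ofComplex_apply_of_im_pos hw
    rw [e4, this] at h4
    exact h4) (by
    have : ofComplex w = ⟨w, hw⟩ := ofComplex_apply_of_im_pos hw
    rw [e6, this] at h6
    exact h6)
  have hs : w - (starRingEnd ℂ) w ≠ 0 := by
    rw [sub_ne_zero]
    intro h0
    have := Complex.conj_eq_iff_im.mp h0.symm
    linarith
  have hW := Wf_ne h4 h6
  have h' : ps w = ph w - 12 / ((w - (starRingEnd ℂ) w) * Wf w) := h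
  rw [h']
  field_simp

lemma wv_ne {n : ℕ} {r : Fin n → Fin n} {a : Fin n} {w : Fin n → ℂ} (hw : Gd w) (i : Fin n) :
    wv r a w i ≠ 0 := by
  rw [wv]
  split_ifs
  · exact Wf_ne (hw i).2.1 (hw i).2.2
  · exact div_ne_zero (Wf_ne (hw i).2.1 (hw i).2.2) (Wf_ne (hw (r i)).2.1 (hw (r i)).2.2)

lemma aeval_Dn {n : ℕ} (r : Fin n → Fin n) (a : Fin n) (w : Fin n → ℂ) :
    MvPolynomial.aeval (V5 r a w) (Dn n) =
      ∏ i, (w i - (starRingEnd ℂ) (w i)) * wv r a w i := by
  rw [Dn, map_prod]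
  refine prod_congr rfl fun i _ ↦ ?_
  rw [map_mul, map_sub, MvPolynomial.aeval_X, MvPolynomial.aeval_X, MvPolynomial.aeval_X]
  rfl

lemma aeval_Dn_ne {n : ℕ} (r : Fin n → Fin n) (a : Fin n) {w : Fin n → ℂ} (hw : Gd w) :
    MvPolynomial.aeval (V5 r a w) (Dn n) ≠ 0 := by
  rw [aeval_Dn]
  refine prod_ne_zero_iff.mpr fun i _ ↦ ?_
  obtain ⟨h0, h4, h6⟩ := hw i
  refine mul_ne_zero ?_ (wv_ne hw i)
  rw [sub_ne_zero]
  intro h1
  have := Complex.conj_eq_iff_im.mp h1.symm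
  linarith

lemma exists_num {n : ℕ} (r : Fin n → Fin n) (a : Fin n) (x : Fin n × Fin 5) :
    ∃ Q : MvPolynomial (Fin n × Fin 5) ℤ, ∀ w, Gd w →
      MvPolynomial.aeval (V5 r a w) Q =
        MvPolynomial.aeval (V5 r a w) (Dn n) * UU r a w x := by
  have hX : ∀ y : Fin n × Fin 5, (∀ w, UU r a w x = V5 r a w y) →
      ∃ Q : MvPolynomial (Fin n × Fin 5) ℤ, ∀ w, Gd w →
        MvPolynomial.aeval (V5 r a w) Q =
          MvPolynomial.aeval (V5 r a w) (Dn n) * UU r a w x := by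
    intro y hy
    refine ⟨Dn n * MvPolynomial.X y, fun w _ ↦ ?_⟩
    rw [map_mul, MvPolynomial.aeval_X, hy]
  obtain ⟨i, l⟩ := x
  by_cases hi : r i = a
  · have e0 : ∀ w, UU r a w (i, l) = ![w i, jc (w i), Wf (w i), ps (w i), w i] l := by
      intro w
      rw [UU, if_pos hi]
    by_cases h0 : l = 0
    · subst h0
      exact hX (i, 0) fun w ↦ (e0 w).trans (show w i = V5 r a w (i, 0) from rfl)
    by_cases h1 : l = 1
    · subst h1
      exact hX (i, 2) fun w ↦ (e0 w).trans (show jc (w i) = V5 r a w (i, 2) from rfl)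
    by_cases h2 : l = 2
    · subst h2
      refine hX (i, 4) fun w ↦ (e0 w).trans ?_
      have e1 : V5 r a w (i, 4) = wv r a w i := rfl
      rw [e1, wv, if_pos hi]
      rfl
    by_cases h4 : l = 4
    · subst h4
      exact hX (i, 0) fun w ↦ (e0 w).trans (show w i = V5 r a w (i, 0) from rfl)
    · have h3 : l = 3 := by
        fin_cases l
        · exact absurd rfl h0
        · exact absurd rfl h1
        · exact absurd rfl h2
        · rfl
        · exact absurd rfl h4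
      subst h3
      refine ⟨(∏ j ∈ univ.erase i, (MvPolynomial.X (j, 0) - MvPolynomial.X (j, 1)) *
        MvPolynomial.X (j, 4)) * (MvPolynomial.X (i, 3) * ((MvPolynomial.X (i, 0) -
        MvPolynomial.X (i, 1)) * MvPolynomial.X (i, 4)) - MvPolynomial.C 12), fun w hw ↦ ?_⟩
      obtain ⟨hw0, h4, h6⟩ := hw i
      have e1 : UU r a w (i, 3) = ps (w i) := e0 w
      have e2 : V5 r a w (i, 0) = w i := rfl
      have e3 : V5 r a w (i, 1) = (starRingEnd ℂ) (w i) := rfl
      have e4' : V5 r a w (i, 3) = ph (w i) := rfl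
      have e5 : V5 r a w (i, 4) = Wf (w i) := by
        have : V5 r a w (i, 4) = wv r a w i := rfl
        rw [this, wv, if_pos hi]
      have hp := ps_eq' hw0 h4 h6
      rw [e1, Dn, ← mul_prod_erase univ _ (mem_univ i), map_mul, map_mul, map_sub, map_mul, map_mul,
        map_sub, MvPolynomial.aeval_X, MvPolynomial.aeval_X, MvPolynomial.aeval_X,
        MvPolynomial.aeval_X, MvPolynomial.aeval_C, e2, e3, e4', e5, algebraMap_int_eq,
        eq_intCast]
      have h12 : ((12 : ℤ) : ℂ) = 12 := by norm_num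
      rw [h12]
      generalize (MvPolynomial.aeval (V5 r a w)) (∏ j ∈ univ.erase i,
        ((MvPolynomial.X (j, 0) : MvPolynomial (Fin n × Fin 5) ℤ) - MvPolynomial.X (j, 1)) *
          MvPolynomial.X (j, 4)) = R
      linear_combination -R * hp
  · have e0 : ∀ w, UU r a w (i, l) =
        ![w i, jc (w i), ph (w i), (starRingEnd ℂ) (w i), Wf (w i) / Wf (w (r i))] l := by
      intro w
      rw [UU, if_neg hi]
    by_cases h0 : l = 0
    · subst h0
      exact hX (i, 0) fun w ↦ (e0 w).trans (show w i = V5 r a w (i, 0) from rfl)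
    by_cases h1 : l = 1
    · subst h1
      exact hX (i, 2) fun w ↦ (e0 w).trans (show jc (w i) = V5 r a w (i, 2) from rfl)
    by_cases h2 : l = 2
    · subst h2
      exact hX (i, 3) fun w ↦ (e0 w).trans (show ph (w i) = V5 r a w (i, 3) from rfl)
    by_cases h3 : l = 3
    · subst h3
      exact hX (i, 1) fun w ↦ (e0 w).trans (show (starRingEnd ℂ) (w i) = V5 r a w (i, 1) from rfl)
    · have h4 : l = 4 := by
        fin_cases l
        · exact absurd rfl h0
        · exact absurd rfl h1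
        · exact absurd rfl h2
        · exact absurd rfl h3
        · rfl
      subst h4
      refine hX (i, 4) fun w ↦ (e0 w).trans ?_
      have e1 : V5 r a w (i, 4) = wv r a w i := rfl
      rw [e1, wv, if_neg hi]
      rfl

/-- Relations between the functions `UU` transfer. -/
theorem transfer_U (n : ℕ) : ∃ A : ℕ, ∀ (κ : ℕ), A < κ → ∀ (r : Fin n → Fin n) (a : Fin n)
    (z : Fin n → ℂ) (S : ApxN κ n r z), (∀ i, 0 < (z i).im) →
    Gd z ∧ (∀ᶠ k in atTop, Gd (fun i ↦ (S.t k i : ℂ))) ∧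
    ∀ (P : MvPolynomial (Fin n × Fin 5) ℤ), MvPolynomial.aeval (UU r a z) P = 0 →
    ∀ᶠ k in atTop, MvPolynomial.aeval (UU r a (fun i ↦ (S.t k i : ℂ))) P = 0 := by
  obtain ⟨A, hA⟩ := transfer_n n
  obtain ⟨A', hA'⟩ := e46_ne_n
  refine ⟨A + A', fun κ hκ r a z S hz ↦ ?_⟩
  have h46 := hA' κ (by omega) n r z S hz
  have hTn := fun i ↦ S.tendsto_ne (by omega) i
  have hGz : Gd z := fun i ↦ ⟨hz i, h46 i⟩
  have hG : ∀ᶠ k in atTop, Gd (fun i ↦ (S.t k i : ℂ)) := by
    have h1 : ∀ᶠ k in atTop, ∀ i, e4 (S.t k i) ≠ 0 ∧ e6 (S.t k i) ≠ 0 := by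
      rw [eventually_all]
      intro i
      exact ((hTn i).eventually (e4_ev (hz i))).and ((hTn i).eventually (e6_ev (hz i)))
    filter_upwards [h1] with k hk
    intro i
    exact ⟨(S.t k i).im_pos, hk i⟩
  refine ⟨hGz, hG, fun P hP ↦ ?_⟩
  obtain ⟨N, Q, hQ⟩ := clear Gd (V5 r a) (UU r a) (Dn n) (exists_num r a) P
  have h1 := hQ z hGz
  rw [hP, mul_zero] at h1
  have h2 := hA κ (by omega) r a z S hz Q h1
  filter_upwards [h2, hG] with k h3 h4
  have h5 := hQ _ h4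
  rw [h3] at h5
  exact (mul_eq_zero.mp h5.symm).resolve_left (pow_ne_zero _ (aeval_Dn_ne r a h4))

end H32.T3
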