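import Pool.Agent.H32.T3.D6

/-!
# Rank computations
-/

open UpperHalfPlane hiding I
open Complex EisensteinSeries ModularForm MatrixGroups Manifold
open scoped Real Topology

namespace H32.T3

open Finset Filter Asymptotics

lemma alg_gen {R A : Type} [Field R] [Field A] [Algebra R A] (D : Subalgebra R A)
    {J W ψ e2 e4 e6 : A} {c : R} (hc : c ≠ 0) (h12 : (1728 : R) ≠ 0) (h4 : e4 ≠ 0) (h6 : e6 ≠ 0)
    (hW : W * e4 = algebraMap R A c * e6)
    (hJ : J * (e4 ^ 3 - e6 ^ 2) = algebraMap R A 1728 * e4 ^ 3) (hψ : ψ * e6 = e2 * e4)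
    (aJ : IsAlgebraic D J) (aW : IsAlgebraic D W) (aψ : IsAlgebraic D ψ) :
    IsAlgebraic D e2 ∧ IsAlgebraic D e4 ∧ IsAlgebraic D e6 := by
  have aR : ∀ r : R, IsAlgebraic D (algebraMap R A r) := fun r ↦ by
    rw [IsScalarTower.algebraMap_apply R D A]
    exact isAlgebraic_algebraMap _
  have hc' : algebraMap R A c ≠ 0 := (map_ne_zero _).mpr hc
  have h12' : algebraMap R A 1728 ≠ 0 := (map_ne_zero _).mpr h12
  have hJ0 : J - algebraMap R A 1728 ≠ 0 := by
    intro h0
    have e : J = algebraMap R A 1728 := sub_eq_zero.mp h0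
    rw [e, mul_right_inj' h12'] at hJ
    have : e6 ^ 2 = 0 := by linear_combination -hJ
    exact pow_ne_zero 2 h6 this
  set ρ := W * (algebraMap R A c)⁻¹ with hρ
  have hρe : ρ = e6 / e4 := by
    rw [hρ, eq_div_iff h4]
    field_simp
    exact hW
  have hρ0 : ρ ≠ 0 := by
    rw [hρe]
    exact div_ne_zero h6 h4
  have aρ : IsAlgebraic D ρ := aW.mul (aR c).inv
  have a4 : IsAlgebraic D e4 := by
    have e : e4 = J * (J - algebraMap R A 1728)⁻¹ * ρ ^ 2 := by
      rw [hρe]
      field_simp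
      linear_combination hJ
    rw [e]
    exact (aJ.mul (aJ.sub (aR 1728)).inv).mul (aρ.pow 2)
  have a6 : IsAlgebraic D e6 := by
    have e : e6 = e4 * ρ := by
      rw [hρe]; field_simp
    rw [e]
    exact a4.mul aρ
  have a2 : IsAlgebraic D e2 := by
    have e : e2 = ψ * ρ := by
      rw [hρe]
      field_simp
      linear_combination -hψ
    rw [e]
    exact aψ.mul aρ
  exact ⟨a2, a4, a6⟩

theorem rank_U {n N : ℕ} (t : ℕ → Fin n → ℂ) (hG : ∀ᶠ k in atTop, Gd (t k))
    (r : Fin n → Fin n) (a : Fin n) (hr : ∀ i, r (r i) = r i)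
    (F : Finset (Fin n)) (hF : ∀ i ∈ F, r i ≠ a) (e : Fin N → Fin n × Bool)
    (he : ∀ i, ∃ p, e p = (i, false)) (heF : ∀ i ∈ F, ∃ p, e p = (i, true))
    (hX : AlgebraicIndependent ℂ (fun x : Fin N × Fin 4 ↦
      mkU (fun k ↦ H32.DD (al (e x.1)) 1 1 0 (rr (t k) (e x.1)) x.2))) :
    ∃ f : Fin (4 * n + F.card - ((univ.image r).erase a).card) → Fin n × Fin 5,
      AlgebraicIndependent ℂ (fun j ↦ mkU (fun k ↦ UU r a (t k) (f j))) := by
  classical
  set M := AlgebraicIndependent.matroid ℂ Ult with hM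
  choose p hp using he
  choose q hq using heF
  set ι : (Fin n × Fin 4) ⊕ F → Fin N × Fin 4 :=
    Sum.elim (fun y ↦ (p y.1, y.2)) (fun i ↦ (q i i.2, 0)) with hι
  have hιinj : Function.Injective ι := by
    rintro (⟨i, l⟩ | i) (⟨j, m⟩ | j) h
    · have h1 : (p i, l) = (p j, m) := h
      obtain ⟨h2, h3⟩ := Prod.mk.inj h1
      have h4 := hp i
      rw [h2, hp j] at h4
      have h5 : j = i := congrArg Prod.fst h4
      rw [h5, h3]
    · have h1 : (p i, l) = (q j j.2, 0) := h
      have h2 := congrArg (fun x ↦ (e x.1).2) h1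
      simp only [hp, hq] at h2
      exact absurd h2 (by decide)
    · have h1 : (q i i.2, (0 : Fin 4)) = (p j, m) := h
      have h2 := congrArg (fun x ↦ (e x.1).2) h1
      simp only [hp, hq] at h2
      exact absurd h2 (by decide)
    · have h1 : (q i i.2, (0 : Fin 4)) = (q j j.2, 0) := h
      have h2 := congrArg (fun x ↦ (e x.1).1) h1
      simp only [hq] at h2
      rw [Subtype.ext h2]
  have het := hX.comp ι hιinj
  set et : (Fin n × Fin 4) ⊕ F → Ult := (fun x : Fin N × Fin 4 ↦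
      mkU (fun k ↦ H32.DD (al (e x.1)) 1 1 0 (rr (t k) (e x.1)) x.2)) ∘ ι with hetdef
  -- the sequences
  set w : Fin n → Ult := fun i ↦ mkU (fun k ↦ t k i) with hw
  set x : Fin n → Ult := fun i ↦ mkU (fun k ↦ (starRingEnd ℂ) (t k i)) with hx
  set J : Fin n → Ult := fun i ↦ mkU (fun k ↦ jc (t k i)) with hJ
  set φ : Fin n → Ult := fun i ↦ mkU (fun k ↦ ph (t k i)) with hφ
  set ψ : Fin n → Ult := fun i ↦ mkU (fun k ↦ ps (t k i)) with hψ
  set W : Fin n → Ult := fun i ↦ mkU (fun k ↦ Wf (t k i)) with hW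
  set g2 : Fin n → Ult := fun i ↦ mkU (fun k ↦ e2 (t k i)) with hg2
  set g4 : Fin n → Ult := fun i ↦ mkU (fun k ↦ e4 (t k i)) with hg4
  set g6 : Fin n → Ult := fun i ↦ mkU (fun k ↦ e6 (t k i)) with hg6
  have r1 : ∀ i, (φ i - ψ i) * ((w i - x i) * W i) = algebraMap ℂ Ult 12 := by
    intro i
    rw [algebraMap_Ult, hφ, hψ, hw, hx, hW]
    simp only
    rw [← map_sub, ← map_sub, ← map_mul, ← map_mul, ← sub_eq_zero, ← map_sub]
    refine mkU_zero_of_ev (hG.mono fun k hk ↦ ?_)
    obtain ⟨h0, h4, h6⟩ := hk i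
    have h := ps_eq' h0 h4 h6
    simp only [Pi.sub_apply, Pi.mul_apply]
    linear_combination -h
  have r2 : ∀ i, W i * g4 i = algebraMap ℂ Ult (2 * π * I) * g6 i := by
    intro i
    rw [algebraMap_Ult, hW, hg4, hg6]
    simp only
    rw [← map_mul, ← map_mul, ← sub_eq_zero, ← map_sub]
    refine mkU_zero_of_ev (hG.mono fun k hk ↦ ?_)
    obtain ⟨h0, h4, h6⟩ := hk i
    simp only [Pi.sub_apply, Pi.mul_apply]
    rw [Wf, div_mul_cancel₀ _ h4, sub_self]
  have r3 : ∀ i, J i * (g4 i ^ 3 - g6 i ^ 2) = algebraMap ℂ Ult 1728 * g4 i ^ 3 := by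
    intro i
    rw [algebraMap_Ult, hJ, hg4, hg6]
    simp only
    rw [← map_pow, ← map_pow, ← map_sub, ← map_mul, ← map_mul, ← sub_eq_zero, ← map_sub]
    refine mkU_zero_of_ev (Eventually.of_forall fun k ↦ ?_)
    simp only [Pi.sub_apply, Pi.mul_apply, Pi.pow_apply]
    rw [jc, div_mul_cancel₀ _ disc_ne, sub_self]
  have r4 : ∀ i, ψ i * g6 i = g2 i * g4 i := by
    intro i
    rw [hψ, hg2, hg4, hg6]
    simp only
    rw [← map_mul, ← map_mul, ← sub_eq_zero, ← map_sub]
    refine mkU_zero_of_ev (hG.mono fun k hk ↦ ?_)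
    obtain ⟨h0, h4, h6⟩ := hk i
    simp only [Pi.sub_apply, Pi.mul_apply]
    rw [ps, div_mul_cancel₀ _ h6, sub_self]
  have n4 : ∀ i, g4 i ≠ 0 := by
    intro i h0
    obtain ⟨k, h1, h2⟩ := ((freq_of_mkU_zero h0).and_eventually hG).exists
    exact (h2 i).2.1 h1
  have n6 : ∀ i, g6 i ≠ 0 := by
    intro i h0
    obtain ⟨k, h1, h2⟩ := ((freq_of_mkU_zero h0).and_eventually hG).exists
    exact (h2 i).2.2 h1
  -- the sets
  set R : Finset (Fin n) := (univ.image r).erase a with hR
  set S : Fin n × Fin 5 → Ult := fun y ↦ mkU (fun k ↦ UU r a (t k) y) with hS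
  set T : Set Ult := ψ '' (R : Set (Fin n)) with hT
  have hpiI : (2 * π * I : ℂ) ≠ 0 := by
    have hpi : (π : ℂ) ≠ 0 := by exact_mod_cast Real.pi_ne_zero
    exact mul_ne_zero (mul_ne_zero two_ne_zero hpi) Complex.I_ne_zero
  set D : Subalgebra ℂ Ult := Algebra.adjoin ℂ (Set.range S ∪ T) with hD
  have hgen : ∀ v ∈ Set.range S ∪ T, IsAlgebraic D v := by
    intro v hv
    exact isAlgebraic_algebraMap (⟨v, Algebra.subset_adjoin hv⟩ : D)
  have aR : ∀ r : ℂ, IsAlgebraic D (algebraMap ℂ Ult r) := fun r ↦ by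
    rw [IsScalarTower.algebraMap_apply ℂ D Ult]
    exact isAlgebraic_algebraMap _
  have aw : ∀ i, IsAlgebraic D (w i) := by
    intro i
    refine hgen _ (Or.inl ⟨(i, 0), ?_⟩)
    rw [hS, hw]
    refine congrArg mkU (funext fun k ↦ ?_)
    by_cases hi : r i = a
    · rw [UU, if_pos hi]; rfl
    · rw [UU, if_neg hi]; rfl
  have aJ : ∀ i, IsAlgebraic D (J i) := by
    intro i
    refine hgen _ (Or.inl ⟨(i, 1), ?_⟩)
    rw [hS, hJ]
    refine congrArg mkU (funext fun k ↦ ?_)
    by_cases hi : r i = a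
    · rw [UU, if_pos hi]; rfl
    · rw [UU, if_neg hi]; rfl
  have ax : ∀ i, r i ≠ a → IsAlgebraic D (x i) := by
    intro i hi
    refine hgen _ (Or.inl ⟨(i, 3), ?_⟩)
    rw [hS, hx]
    refine congrArg mkU (funext fun k ↦ ?_)
    rw [UU, if_neg hi]
    rfl
  have aφ : ∀ i, r i ≠ a → IsAlgebraic D (φ i) := by
    intro i hi
    refine hgen _ (Or.inl ⟨(i, 2), ?_⟩)
    rw [hS, hφ]
    refine congrArg mkU (funext fun k ↦ ?_)
    rw [UU, if_neg hi]
    rfl
  have h12 : algebraMap ℂ Ult 12 ≠ 0 := (map_ne_zero _).mpr (by norm_num)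
  -- the representatives
  have aWr : ∀ i, r i = i → i ≠ a → IsAlgebraic D (W i) := by
    intro i hri hia
    have hi : r i ≠ a := by rw [hri]; exact hia
    have aψi : IsAlgebraic D (ψ i) := by
      refine hgen _ (Or.inr ⟨i, ?_, rfl⟩)
      rw [hR, Finset.mem_coe, Finset.mem_erase, Finset.mem_image]
      exact ⟨hia, i, mem_univ _, hri⟩
    have h1 := r1 i
    have hprod : (φ i - ψ i) * (w i - x i) ≠ 0 := by
      intro h0
      apply h12
      rw [← h1, ← mul_assoc, h0, zero_mul]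
    have e1 : W i = algebraMap ℂ Ult 12 * ((φ i - ψ i) * (w i - x i))⁻¹ := by
      rw [eq_mul_inv_iff_mul_eq₀ hprod, ← h1]
      ring
    rw [e1]
    exact (aR 12).mul (((aφ i hi).sub aψi).mul ((aw i).sub (ax i hi))).inv
  have aW : ∀ i, IsAlgebraic D (W i) := by
    intro i
    by_cases hi : r i = a
    · refine hgen _ (Or.inl ⟨(i, 2), ?_⟩)
      rw [hS, hW]
      refine congrArg mkU (funext fun k ↦ ?_)
      rw [UU, if_pos hi]
      rfl
    · set Q : Ult := mkU (fun k ↦ Wf (t k i) / Wf (t k (r i))) with hQ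
      have aq : IsAlgebraic D Q := by
        refine hgen _ (Or.inl ⟨(i, 4), ?_⟩)
        rw [hS, hQ]
        refine congrArg mkU (funext fun k ↦ ?_)
        rw [UU, if_neg hi]
        rfl
      have e1 : W i = Q * W (r i) := by
        rw [hW, hQ]
        simp only
        rw [← map_mul, ← sub_eq_zero, ← map_sub]
        refine mkU_zero_of_ev (hG.mono fun k hk ↦ ?_)
        simp only [Pi.sub_apply, Pi.mul_apply]
        have := Wf_ne (hk (r i)).2.1 (hk (r i)).2.2
        field_simp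
        ring
      rw [e1]
      exact aq.mul (aWr (r i) (hr i) hi)
  have aψ : ∀ i, IsAlgebraic D (ψ i) := by
    intro i
    by_cases hi : r i = a
    · refine hgen _ (Or.inl ⟨(i, 3), ?_⟩)
      rw [hS, hψ]
      refine congrArg mkU (funext fun k ↦ ?_)
      rw [UU, if_pos hi]
      rfl
    · have h1 := r1 i
      have hprod : (w i - x i) * W i ≠ 0 := by
        intro h0
        apply h12
        rw [← h1, h0, mul_zero]
      have e1 : ψ i = φ i - algebraMap ℂ Ult 12 * ((w i - x i) * W i)⁻¹ := by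
        rw [← h1, mul_inv_cancel_right₀ hprod]
        ring
      rw [e1]
      exact (aφ i hi).sub ((aR 12).mul (((aw i).sub (ax i hi)).mul (aW i)).inv)
  have key : ∀ i, IsAlgebraic D (g2 i) ∧ IsAlgebraic D (g4 i) ∧ IsAlgebraic D (g6 i) := fun i ↦
    alg_gen D (c := 2 * π * I) hpiI (by norm_num) (n4 i) (n6 i) (r2 i) (r3 i) (r4 i)
      (aJ i) (aW i) (aψ i)
  have hind : M.Indep (Set.range et) := by
    rw [hM, AlgebraicIndependent.matroid_indep_iff]
    exact het.to_subtype_range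
  have hcard : (Set.range et).encard = ((4 * n + F.card : ℕ) : ℕ∞) := by
    rw [← Set.image_univ, het.injective.encard_image, Set.encard_univ, ENat.card_eq_coe_fintype_card]
    rw [Fintype.card_sum, Fintype.card_prod, Fintype.card_fin, Fintype.card_fin, Fintype.card_coe,
      mul_comm n 4]
  have hsub : Set.range et ⊆ M.closure (Set.range S ∪ T) := by
    rw [hM, AlgebraicIndependent.matroid_closure_eq]
    rintro _ ⟨y, rfl⟩
    change IsAlgebraic D (et y)
    rcases y with ⟨i, l⟩ | i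
    · have e0 : et (Sum.inl (i, l)) = mkU (fun k ↦ H32.DD 0 1 1 0 (t k i) l) := by
        change mkU (fun k ↦ H32.DD (al (e (p i))) 1 1 0 (rr (t k) (e (p i))) l) = _
        rw [hp i]
        rfl
      rw [e0]
      fin_cases l
      · exact aw i
      · have e1 : mkU (fun k ↦ H32.DD 0 1 1 0 (t k i) 1) =
            g2 i - algebraMap ℂ Ult (3 / π) := by
          rw [algebraMap_Ult, hg2]
          simp only
          rw [← map_sub]
          refine congrArg mkU (funext fun k ↦ ?_)
          change E2 (ofComplex (0 + 1 * t k i)) - 3 / (π * (1 + 0 * t k i)) = _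
          rw [zero_add, one_mul, zero_mul, add_zero, mul_one]
          rfl
        change IsAlgebraic D (mkU (fun k ↦ H32.DD 0 1 1 0 (t k i) 1))
        rw [e1]
        exact (key i).1.sub (aR _)
      · have e1 : mkU (fun k ↦ H32.DD 0 1 1 0 (t k i) 2) = g4 i := by
          rw [hg4]
          refine congrArg mkU (funext fun k ↦ ?_)
          change E₄ (ofComplex (0 + 1 * t k i)) = _
          rw [zero_add, one_mul]
          rfl
        change IsAlgebraic D (mkU (fun k ↦ H32.DD 0 1 1 0 (t k i) 2))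
        rw [e1]
        exact (key i).2.1
      · have e1 : mkU (fun k ↦ H32.DD 0 1 1 0 (t k i) 3) = g6 i := by
          rw [hg6]
          refine congrArg mkU (funext fun k ↦ ?_)
          change E₆ (ofComplex (0 + 1 * t k i)) = _
          rw [zero_add, one_mul]
          rfl
        change IsAlgebraic D (mkU (fun k ↦ H32.DD 0 1 1 0 (t k i) 3))
        rw [e1]
        exact (key i).2.2
    · have hiE : r (i : Fin n) ≠ a := hF i i.2
      have e0 : et (Sum.inr i) = (w i + x i) * algebraMap ℂ Ult (1 / 2) := by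
        change mkU (fun k ↦ H32.DD (al (e (q i i.2))) 1 1 0 (rr (t k) (e (q i i.2))) 0) = _
        rw [hq i i.2, algebraMap_Ult, hw, hx]
        simp only
        rw [← map_add, ← map_mul]
        refine congrArg mkU (funext fun k ↦ ?_)
        change ((t k i).re : ℂ) = (t k i + (starRingEnd ℂ) (t k i)) * (1 / 2)
        rw [Complex.add_conj]
        push_cast
        ring
      rw [e0]
      exact ((aw i).add (ax i hiE)).mul (aR _)
  obtain ⟨B, hB'⟩ := M.exists_isBasis (Set.range S)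
  have h1 : ((4 * n + F.card : ℕ) : ℕ∞) ≤ M.eRk (Set.range S ∪ T) := by
    rw [← M.eRk_closure_eq, ← hcard]
    exact hind.encard_le_eRk_of_subset hsub
  have hTc : M.eRk T ≤ ((R.card : ℕ) : ℕ∞) := by
    refine (M.eRk_le_encard T).trans ?_
    refine (Set.encard_image_le _ _).trans ?_
    rw [Set.encard_coe_eq_coe_finsetCard]
  have h2 : ((4 * n + F.card : ℕ) : ℕ∞) ≤ B.encard + ((R.card : ℕ) : ℕ∞) := by
    refine h1.trans ((M.eRk_union_le_eRk_add_eRk _ _).trans ?_)
    rw [← hB'.eRk_eq_encard]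
    gcongr
  have hRn : R.card ≤ 4 * n + F.card := by
    have := Finset.card_le_univ R
    rw [Fintype.card_fin] at this
    omega
  have h3 : ((4 * n + F.card - R.card : ℕ) : ℕ∞) ≤ B.encard := by
    have h5 : ((4 * n + F.card - R.card : ℕ) : ℕ∞) + ((R.card : ℕ) : ℕ∞) ≤
        B.encard + ((R.card : ℕ) : ℕ∞) := by
      refine le_trans (le_of_eq ?_) h2
      rw [← Nat.cast_add, Nat.sub_add_cancel hRn]
    exact (ENat.add_le_add_iff_right (ENat.natCast_ne_top _)).mp h5
  refine extract_indep' S (B := B) ?_ hB'.subset h3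
  have := hB'.indep
  rw [hM, AlgebraicIndependent.matroid_indep_iff] at this
  exact this

end H32.T3
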