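import Pool.Agent.H32.T3.D7

/-!
# The final theorem
-/

open UpperHalfPlane hiding I
open Complex EisensteinSeries ModularForm MatrixGroups Manifold
open scoped Real Topology

namespace H32.T3

open Finset Filter Asymptotics

theorem U_indep (n : ℕ) : ∃ A : ℕ, ∀ (κ : ℕ), A < κ → ∀ (r : Fin n → Fin n) (a : Fin n),
    (∀ i, r (r i) = r i) → ∀ F : Finset (Fin n), (∀ i ∈ F, r i ≠ a) →
    ∀ (z : Fin n → ℂ) (S : ApxN κ n r z), (∀ i, 0 < (z i).im) →
    ∀ (N : ℕ) (e : Fin N → Fin n × Bool), (∀ i, ∃ p, e p = (i, false)) →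
    (∀ i ∈ F, ∃ p, e p = (i, true)) →
    (∀ᶠ k in atTop, ∀ p, 0 < gp z (fun i ↦ (S.t k i : ℂ)) (e p)) →
    (∀ C : ℕ, ∀ᶠ k in atTop, ∀ p q, p < q → gp z (fun i ↦ (S.t k i : ℂ)) (e p) ≤
      gp z (fun i ↦ (S.t k i : ℂ)) (e q) ^ C) →
    Gd z ∧ ∃ f : Fin (4 * n + F.card - ((univ.image r).erase a).card) → Fin n × Fin 5,
      AlgebraicIndependent ℤ (fun j ↦ UU r a z (f j)) := by
  obtain ⟨A, hA⟩ := transfer_U n
  refine ⟨A + 1, fun κ hκ r a hr F hF z S hz N e he heF hpos hier ↦ ?_⟩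
  obtain ⟨hGz, hG, htr⟩ := hA κ (by omega) r a z S hz
  have hX := ult_indep hz (fun k i ↦ (S.t k i : ℂ)) (S.tendsto (by omega)) e hpos hier
  obtain ⟨f, hf⟩ := rank_U (fun k i ↦ (S.t k i : ℂ)) hG r a hr F hF e he heF hX
  refine ⟨hGz, f, ?_⟩
  rw [algebraicIndependent_iff]
  intro P hP
  have h1 : MvPolynomial.aeval (UU r a z) (MvPolynomial.rename f P) = 0 := by
    rw [MvPolynomial.aeval_rename]
    exact hP
  have h2 := htr _ h1
  have h3 : MvPolynomial.aeval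
      (fun j ↦ mkU (fun k ↦ UU r a (fun i ↦ (S.t k i : ℂ)) (f j))) P = 0 := by
    rw [aeval_mkUZ']
    refine mkU_zero_of_ev (h2.mono fun k hk ↦ ?_)
    rw [MvPolynomial.aeval_rename] at hk
    exact hk
  have h4 : MvPolynomial.aeval (fun j ↦ mkU (fun k ↦ UU r a (fun i ↦ (S.t k i : ℂ)) (f j)))
      (MvPolynomial.map (Int.castRingHom ℂ) P) = 0 := by
    rw [← h3, ← algebraMap_int_eq, MvPolynomial.aeval_map_algebraMap]
  have h5 := (algebraicIndependent_iff.mp hf) _ h4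
  exact (MvPolynomial.map_injective _ (RingHom.injective_int _)) (by rw [h5, map_zero])

lemma psi_formula {Jv J1v J2v A2 B C : ℂ} (hB : B ≠ 0) (hC : C ≠ 0) (hD : B ^ 3 - C ^ 2 ≠ 0)
    (hJ : Jv = 1728 * B ^ 3 / (B ^ 3 - C ^ 2))
    (hJ1 : J1v = -1728 * (2 * π * I) * (B ^ 2 * C) / (B ^ 3 - C ^ 2))
    (hJ2 : J2v = -1728 * (2 * π * I) ^ 2 * ((1 / 6) * A2 * B ^ 2 * C - (2 / 3) * B * C ^ 2 -
      (1 / 2) * B ^ 4) / (B ^ 3 - C ^ 2)) :
    2 * π * I * C / B = -J1v * Jv⁻¹ ∧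
    A2 * B / C = ((6 : ℚ) : ℂ) * (((2 / 3 : ℚ) : ℂ) + ((1 / 2 : ℚ) : ℂ) * (Jv *
      (Jv - ((1728 : ℚ) : ℂ))⁻¹) - J2v * (Jv * (J1v * Jv⁻¹) ^ 2)⁻¹) := by
  have hpi : (π : ℂ) ≠ 0 := by exact_mod_cast Real.pi_ne_zero
  have hI0 : (I : ℂ) ≠ 0 := Complex.I_ne_zero
  constructor
  · rw [hJ, hJ1]
    field_simp
  · have e1 : Jv - ((1728 : ℚ) : ℂ) = 1728 * C ^ 2 / (B ^ 3 - C ^ 2) := by
      rw [hJ]
      push_cast
      field_simp
      ring
    rw [e1, hJ, hJ1, hJ2]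
    push_cast
    field_simp
    ring

theorem final_closure {E4 E6 J : ℂ → ℂ}
    (h4 : ∀ τ : ℂ, E4 τ = 1 + 240 * ∑' m : ℕ, ((ArithmeticFunction.sigma 3 (m + 1) : ℕ) : ℂ) *
      Complex.exp (2 * (Real.pi : ℂ) * Complex.I * ((m : ℂ) + 1) * τ))
    (h6 : ∀ τ : ℂ, E6 τ = 1 - 504 * ∑' m : ℕ, ((ArithmeticFunction.sigma 5 (m + 1) : ℕ) : ℂ) *
      Complex.exp (2 * (Real.pi : ℂ) * Complex.I * ((m : ℂ) + 1) * τ))
    (hJ : ∀ τ : ℂ, J τ = 1728 * E4 τ ^ 3 / (E4 τ ^ 3 - E6 τ ^ 2))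
    {n : ℕ} (r : Fin n → Fin n) (a : Fin n) (F : Finset (Fin n)) (z : Fin n → ℂ) (hG : Gd z)
    (hconj : ∀ i, r i ≠ a → i ∉ F →
      IsAlgebraic (Algebra.adjoin ℚ (Set.range z)) ((starRingEnd ℂ) (z i)))
    {m : ℕ} (f : Fin m → Fin n × Fin 5)
    (hf : AlgebraicIndependent ℚ (fun j ↦ UU r a z (f j))) :
    ∃ f : Fin (m - F.card) → Fin n × Fin 4, AlgebraicIndependent ℚ (fun k ↦
      ![z (f k).1, J (z (f k).1), deriv J (z (f k).1), deriv (deriv J) (z (f k).1)] (f k).2) := by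
  classical
  set M := AlgebraicIndependent.matroid ℚ ℂ with hM
  set S : Fin n × Fin 4 → ℂ := fun x ↦
    ![z x.1, J (z x.1), deriv J (z x.1), deriv (deriv J) (z x.1)] x.2 with hS
  set T : Set ℂ := (fun i ↦ (starRingEnd ℂ) (z i)) '' (F : Set (Fin n)) with hT
  set D : Subalgebra ℚ ℂ := Algebra.adjoin ℚ (Set.range S ∪ T) with hD
  have hgen : ∀ v ∈ Set.range S ∪ T, IsAlgebraic D v := by
    intro v hv
    exact isAlgebraic_algebraMap (⟨v, Algebra.subset_adjoin hv⟩ : D)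
  have aQ : ∀ q : ℚ, IsAlgebraic D (q : ℂ) := fun q ↦ by
    have : (q : ℂ) = algebraMap D ℂ (algebraMap ℚ D q) := by
      rw [← IsScalarTower.algebraMap_apply]; rfl
    rw [this]
    exact isAlgebraic_algebraMap _
  have aw : ∀ i, IsAlgebraic D (z i) := fun i ↦ hgen _ (Or.inl ⟨(i, 0), rfl⟩)
  have aJ : ∀ i, IsAlgebraic D (J (z i)) := fun i ↦ hgen _ (Or.inl ⟨(i, 1), rfl⟩)
  have aJ1 : ∀ i, IsAlgebraic D (deriv J (z i)) := fun i ↦ hgen _ (Or.inl ⟨(i, 2), rfl⟩)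
  have aJ2 : ∀ i, IsAlgebraic D (deriv (deriv J) (z i)) := fun i ↦ hgen _ (Or.inl ⟨(i, 3), rfl⟩)
  have ax : ∀ i, r i ≠ a → IsAlgebraic D ((starRingEnd ℂ) (z i)) := by
    intro i hi
    by_cases hF : i ∈ F
    · exact hgen _ (Or.inr ⟨i, hF, rfl⟩)
    · have h1 := hconj i hi hF
      have hle : Algebra.adjoin ℚ (Set.range z) ≤ D := by
        refine Algebra.adjoin_mono ?_
        rintro _ ⟨j, rfl⟩
        exact Or.inl ⟨(j, 0), rfl⟩
      obtain ⟨p, hp0, hp⟩ := h1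
      refine ⟨p.map (Subalgebra.inclusion hle).toRingHom, ?_, ?_⟩
      · rwa [Ne, Polynomial.map_eq_zero_iff (Subalgebra.inclusion_injective hle)]
      · rw [← hp, Polynomial.aeval_def, Polynomial.eval₂_map, Polynomial.aeval_def]
        rfl
  have hJv : ∀ i, J (z i) = jc (z i) := fun i ↦ (J_values h4 h6 hJ (hG i).1).1
  have aWψ : ∀ i, IsAlgebraic D (Wf (z i)) ∧ IsAlgebraic D (ps (z i)) := by
    intro i
    obtain ⟨h0, hB, hC⟩ := hG i
    obtain ⟨v0, v1, v2⟩ := J_values h4 h6 hJ h0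
    obtain ⟨f1, f2⟩ := psi_formula hB hC disc_ne v0 v1 v2
    constructor
    · have e1 : Wf (z i) = -deriv J (z i) * (J (z i))⁻¹ := f1
      rw [e1]
      exact (aJ1 i).neg.mul (aJ i).inv
    · have e1 : ps (z i) = ((6 : ℚ) : ℂ) * (((2 / 3 : ℚ) : ℂ) + ((1 / 2 : ℚ) : ℂ) * (J (z i) *
        (J (z i) - ((1728 : ℚ) : ℂ))⁻¹) - deriv (deriv J) (z i) *
          (J (z i) * (deriv J (z i) * (J (z i))⁻¹) ^ 2)⁻¹) := f2
      rw [e1]
      exact (aQ _).mul (((aQ _).add ((aQ _).mul ((aJ i).mul ((aJ i).sub (aQ _)).inv))).sub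
        ((aJ2 i).mul ((aJ i).mul (((aJ1 i).mul (aJ i).inv).pow 2)).inv))
  have aU : ∀ x, IsAlgebraic D (UU r a z x) := by
    rintro ⟨i, l⟩
    by_cases hi : r i = a
    · rw [UU, if_pos hi]
      fin_cases l
      · exact aw i
      · change IsAlgebraic D (jc (z i))
        rw [← hJv]
        exact aJ i
      · exact (aWψ i).1
      · exact (aWψ i).2
      · exact aw i
    · rw [UU, if_neg hi]
      fin_cases l
      · exact aw i
      · change IsAlgebraic D (jc (z i))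
        rw [← hJv]
        exact aJ i
      · change IsAlgebraic D (ph (z i))
        obtain ⟨h0, hB, hC⟩ := hG i
        have hp := ps_eq' h0 hB hC
        have hs : z i - (starRingEnd ℂ) (z i) ≠ 0 := by
          rw [sub_ne_zero]
          intro h0'
          have := Complex.conj_eq_iff_im.mp h0'.symm
          linarith
        have hW := Wf_ne hB hC
        have e1 : ph (z i) = ps (z i) + ((12 : ℚ) : ℂ) *
            ((z i - (starRingEnd ℂ) (z i)) * Wf (z i))⁻¹ := by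
          push_cast
          field_simp
          linear_combination -hp
        rw [e1]
        exact (aWψ i).2.add ((aQ _).mul (((aw i).sub (ax i hi)).mul (aWψ i).1).inv)
      · exact ax i hi
      · change IsAlgebraic D (Wf (z i) / Wf (z (r i)))
        rw [div_eq_mul_inv]
        exact (aWψ i).1.mul (aWψ (r i)).1.inv
  have hind : M.Indep (Set.range (fun j ↦ UU r a z (f j))) := by
    rw [hM, AlgebraicIndependent.matroid_indep_iff]
    exact hf.to_subtype_range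
  have hcard : (Set.range (fun j ↦ UU r a z (f j))).encard =
      ((m : ℕ) : ℕ∞) := by
    rw [← Set.image_univ, hf.injective.encard_image, Set.encard_univ,
      ENat.card_eq_coe_fintype_card, Fintype.card_fin]
  have hsub : Set.range (fun j ↦ UU r a z (f j)) ⊆ M.closure (Set.range S ∪ T) := by
    rw [hM, AlgebraicIndependent.matroid_closure_eq]
    rintro _ ⟨j, rfl⟩
    exact aU _
  obtain ⟨B, hB'⟩ := M.exists_isBasis (Set.range S)
  have h1 : ((m : ℕ) : ℕ∞) ≤ M.eRk (Set.range S ∪ T) := by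
    rw [← M.eRk_closure_eq, ← hcard]
    exact hind.encard_le_eRk_of_subset hsub
  have hTc : M.eRk T ≤ ((F.card : ℕ) : ℕ∞) := by
    refine (M.eRk_le_encard T).trans ?_
    refine (Set.encard_image_le _ _).trans ?_
    rw [Set.encard_coe_eq_coe_finsetCard]
  have h2 : ((m : ℕ) : ℕ∞) ≤ B.encard + ((F.card : ℕ) : ℕ∞) := by
    refine h1.trans ((M.eRk_union_le_eRk_add_eRk _ _).trans ?_)
    rw [← hB'.eRk_eq_encard]
    gcongr
  have h3 : ((m - F.card : ℕ) : ℕ∞) ≤ B.encard := by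
    rcases le_or_gt F.card m with hmF | hmF
    · have h5 : ((m - F.card : ℕ) : ℕ∞) + ((F.card : ℕ) : ℕ∞) ≤
          B.encard + ((F.card : ℕ) : ℕ∞) := by
        refine le_trans (le_of_eq ?_) h2
        rw [← Nat.cast_add, Nat.sub_add_cancel hmF]
      exact (ENat.add_le_add_iff_right (ENat.natCast_ne_top _)).mp h5
    · rw [Nat.sub_eq_zero_of_le hmF.le, Nat.cast_zero]
      exact bot_le
  refine extract_indep' S (B := B) ?_ hB'.subset h3
  have := hB'.indep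
  rw [hM, AlgebraicIndependent.matroid_indep_iff] at this
  exact this

end H32.T3
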