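import Pool.Agent.H32.T3.D8

/-!
# The main theorem in terms of approximations
-/

open UpperHalfPlane hiding I
open Complex EisensteinSeries ModularForm MatrixGroups Manifold
open scoped Real Topology

namespace H32.T3

open Finset Filter Asymptotics

lemma tau_im {d w v : ℕ} {u : ℤ} {τ : ℂ} (hd : 1 ≤ d) (hw : 1 ≤ w) (hv : 1 ≤ v)
    (hτ : τ = (u + v * (Real.sqrt d * Complex.I)) / w) : 0 < τ.im := by
  have hw0 : (0 : ℝ) < w := by exact_mod_cast hw
  have hv0 : (0 : ℝ) < v := by exact_mod_cast hv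
  have hd0 : (0 : ℝ) < d := by exact_mod_cast hd
  have e1 : τ = ((u / w : ℝ) : ℂ) + ((v * Real.sqrt d / w : ℝ) : ℂ) * Complex.I := by
    rw [hτ]
    have : (w : ℂ) ≠ 0 := by exact_mod_cast hw0.ne'
    push_cast
    field_simp
  have e2 : τ.im = v * Real.sqrt d / w := by
    rw [e1]
    simp
  rw [e2]
  have := Real.sqrt_pos.mpr hd0
  positivity

lemma gp_le {n : ℕ} (z τ : Fin n → ℂ) (x : Fin n × Bool) : gp z τ x ≤ ‖τ x.1 - z x.1‖ := by
  obtain ⟨i, b⟩ := x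
  cases b
  · exact le_rfl
  · exact Complex.abs_re_le_norm _

/-- Representatives of the classes. -/
lemma exists_rep {n b : ℕ} (c : Fin n → Fin b) (a : Fin n) : ∃ r : Fin n → Fin n,
    (∀ i, c (r i) = c i) ∧ (∀ i, r (r i) = r i) ∧ (∀ i, r i = a ↔ c i = c a) ∧
    ((univ.image r).erase a).card + 1 ≤ b := by
  classical
  set rep : Fin b → Fin n := fun y ↦ if y = c a then a else
    if h : ∃ j, c j = y then h.choose else a with hrep
  have hc : ∀ i, c (rep (c i)) = c i := by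
    intro i
    rw [hrep]
    simp only
    split_ifs with h1 h2
    · exact h1.symm
    · exact h2.choose_spec
    · exact absurd ⟨i, rfl⟩ h2
  have ha : rep (c a) = a := by
    rw [hrep]
    simp
  refine ⟨fun i ↦ rep (c i), hc, fun i ↦ ?_, fun i ↦ ⟨fun h ↦ ?_, fun h ↦ ?_⟩, ?_⟩
  · change rep (c (rep (c i))) = rep (c i)
    rw [hc]
  · have h' : rep (c i) = a := h
    rw [← hc i, h']
  · change rep (c i) = a
    rw [h, ha]
  · have h1 : (univ.image (fun i ↦ rep (c i))).erase a ⊆ (univ.erase (c a)).image rep := by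
      intro j hj
      rw [mem_erase, mem_image] at hj
      obtain ⟨hja, i, -, hi⟩ := hj
      rw [mem_image]
      refine ⟨c i, ?_, hi⟩
      rw [mem_erase]
      refine ⟨fun h ↦ hja ?_, mem_univ _⟩
      rw [← hi, h, ha]
    have h2 := (card_le_card h1).trans card_image_le
    rw [card_erase_of_mem (mem_univ _), card_univ, Fintype.card_fin] at h2
    have h3 : 0 < b := (c a).pos
    omega

theorem main_approx (n : ℕ) : ∃ κ : ℕ, ∀ (E4 E6 J : ℂ → ℂ)
    (_ : ∀ τ : ℂ, E4 τ = 1 + 240 * ∑' m : ℕ, ((ArithmeticFunction.sigma 3 (m + 1) : ℕ) : ℂ) *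
      Complex.exp (2 * (Real.pi : ℂ) * Complex.I * ((m : ℂ) + 1) * τ))
    (_ : ∀ τ : ℂ, E6 τ = 1 - 504 * ∑' m : ℕ, ((ArithmeticFunction.sigma 5 (m + 1) : ℕ) : ℂ) *
      Complex.exp (2 * (Real.pi : ℂ) * Complex.I * ((m : ℂ) + 1) * τ))
    (_ : ∀ τ : ℂ, J τ = 1728 * E4 τ ^ 3 / (E4 τ ^ 3 - E6 τ ^ 2))
    (b : ℕ) (c : Fin n → Fin b) (a : Fin n) (G : Finset (Fin n)) (N : ℕ)
    (e : Fin N → Fin n × Bool) (z : Fin n → ℂ),
    (∀ i, 0 < (z i).im) → (∀ i, ∃ p, e p = (i, false)) →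
    (∀ B : ℕ, ∃ H : ℕ, B ≤ H ∧ ∃ (d w v : Fin n → ℕ) (u : Fin n → ℤ) (τ : Fin n → ℂ),
      (∀ i, 1 ≤ d i ∧ d i ≤ H ∧ 1 ≤ w i ∧ w i ≤ H ∧ 1 ≤ v i ∧ v i ≤ H ∧ |u i| ≤ H ∧
        τ i = (u i + v i * (Real.sqrt (d i) * Complex.I)) / w i ∧
        ‖τ i - z i‖ < Real.exp (-(H : ℝ) ^ κ)) ∧
      (∀ i j, c i = c j → d i = d j) ∧ (∀ p, 0 < gp z τ (e p)) ∧
      ∀ p q, p < q → gp z τ (e p) < gp z τ (e q) ^ B) →
    (∀ i, c i ≠ c a → i ∉ G → (∃ p, e p = (i, true)) ∨
      IsAlgebraic (Algebra.adjoin ℚ (Set.range z)) ((starRingEnd ℂ) (z i))) →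
    ∃ f : Fin (4 * n + 1 - b - G.card) → Fin n × Fin 4, AlgebraicIndependent ℚ (fun k ↦
      ![z (f k).1, J (z (f k).1), deriv J (z (f k).1), deriv (deriv J) (z (f k).1)] (f k).2) := by
  classical
  obtain ⟨A, hA⟩ := U_indep n
  refine ⟨A + 1, fun E4 E6 J h4 h6 hJ b c a G N e z hz he happ hconj ↦ ?_⟩
  obtain ⟨r, hr1, hr2, hr3, hr4⟩ := exists_rep c a
  set κ := A + 1 with hκ
  choose H hH d w v u τ h1 h2 h3 h5 using fun k : ℕ ↦ happ (k + 2)
  have him : ∀ k i, 0 < (τ k i).im := fun k i ↦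
    tau_im (h1 k i).1 (h1 k i).2.2.1 (h1 k i).2.2.2.2.1 (h1 k i).2.2.2.2.2.2.2.1
  have hpos : ∀ k p, 0 < gp z (τ k) (e p) := h3
  have hH2 : ∀ k, 2 ≤ H k := fun k ↦ le_trans (by omega) (hH k)
  set S : ApxN κ n r z :=
    { H := H
      t := fun k i ↦ ⟨τ k i, him k i⟩
      hH := hH
      hT := fun k ↦ by
        refine ⟨hH2 k, d k, w k, u k, v k, fun i ↦ Real.sqrt (d k i) * Complex.I, ?_, ?_⟩
        · intro i
          obtain ⟨g1, g2, g3, g4, g5, g6, g7, g8, g9⟩ := h1 k i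
          refine ⟨g2, g3, g4, g7, g5, g6, ?_, g8⟩
          rw [mul_pow, Complex.I_sq, ← Complex.ofReal_pow, Real.sq_sqrt (Nat.cast_nonneg _)]
          push_cast
          ring
        · intro i
          have := h2 k (r i) i (hr1 i)
          exact ⟨this, by simp only [this]⟩
      hlt := fun k i ↦ by
        rw [norm_sub_rev]
        exact (h1 k i).2.2.2.2.2.2.2.2
      hne := fun k i ↦ by
        obtain ⟨p, hp⟩ := he i
        have := hpos k p
        rw [hp] at this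
        intro h0
        have h0' : τ k i = z i := h0
        have e1 : gp z (τ k) (i, false) = ‖τ k i - z i‖ := rfl
        rw [e1, h0', sub_self, norm_zero] at this
        exact lt_irrefl _ this } with hS
  set F : Finset (Fin n) := Finset.univ.filter (fun i ↦ r i ≠ a ∧ ∃ p, e p = (i, true)) with hF
  have hFa : ∀ i ∈ F, r i ≠ a := by
    intro i hiF
    rw [hF, Finset.mem_filter] at hiF
    exact hiF.2.1
  have heF : ∀ i ∈ F, ∃ p, e p = (i, true) := by
    intro i hiF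
    rw [hF, Finset.mem_filter] at hiF
    exact hiF.2.2
  have hpos' : ∀ᶠ k in atTop, ∀ p, 0 < gp z (fun i ↦ (S.t k i : ℂ)) (e p) :=
    Eventually.of_forall fun k p ↦ hpos k p
  have hle1 : ∀ k p, gp z (τ k) (e p) ≤ 1 := by
    intro k p
    refine (gp_le _ _ _).trans ((h1 k (e p).1).2.2.2.2.2.2.2.2.le.trans ?_)
    rw [Real.exp_le_one_iff]
    have : (0 : ℝ) ≤ (H k : ℝ) ^ κ := by positivity
    linarith
  have hier : ∀ C : ℕ, ∀ᶠ k in atTop, ∀ p q, p < q → gp z (fun i ↦ (S.t k i : ℂ)) (e p) ≤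
      gp z (fun i ↦ (S.t k i : ℂ)) (e q) ^ C := by
    intro C
    filter_upwards [eventually_ge_atTop C] with k hk p q hpq
    refine (h5 k p q hpq).le.trans ?_
    exact pow_le_pow_of_le_one (hpos k q).le (hle1 k q) (by omega)
  obtain ⟨hG, f, hf⟩ := hA κ (by omega) r a hr2 F hFa z S hz N e he heF hpos' hier
  have halgZQ : Algebra.IsAlgebraic ℤ ℚ := IsLocalization.isAlgebraic ℚ (nonZeroDivisors ℤ)
  have hfQ : AlgebraicIndependent ℚ (fun j ↦ UU r a z (f j)) := hf.extendScalars ℚ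
  obtain ⟨g, hg⟩ := final_closure h4 h6 hJ r a (F ∪ G) z hG (fun i hi hiF ↦ by
    rw [Finset.mem_union, not_or] at hiF
    have hci : c i ≠ c a := fun h ↦ hi ((hr3 i).mpr h)
    refine (hconj i hci hiF.2).resolve_left fun h ↦ hiF.1 ?_
    rw [hF, Finset.mem_filter]
    exact ⟨Finset.mem_univ _, hi, h⟩) f hfQ
  have hle : 4 * n + 1 - b - G.card ≤
      4 * n + F.card - ((univ.image r).erase a).card - (F ∪ G).card := by
    have h6 := Finset.card_union_le F G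
    omega
  exact ⟨g ∘ Fin.castLE hle, hg.comp _ (Fin.castLE_injective hle)⟩

end H32.T3
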