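import Pool.Agent.H32.T3.Ht

/-!
# The derivation attached to an elliptic curve and a quasi-period direction

Variables: `X 0 = ℘`, `X 1 = ℘'`, `X 2 = ζ - κ u`, `X 3 = h` (`= g₂ / 2`), `X 4 = κ`.
-/

namespace H32.T3

open MvPolynomial Finset

/-- The images of the variables. -/
noncomputable def dv : Fin 5 → MvPolynomial (Fin 5) ℤ :=
  ![X 1, C 6 * X 0 ^ 2 - X 3, -X 0 - X 4, 0, 0]

/-- The derivation. -/
noncomputable def DD : Derivation ℤ (MvPolynomial (Fin 5) ℤ) (MvPolynomial (Fin 5) ℤ) :=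
  mkDerivation ℤ dv

lemma nrm_dv (i : Fin 5) : nrm (dv i) ≤ 7 := by
  fin_cases i
  · change nrm (X 1) ≤ 7
    rw [nrm_X]; norm_num
  · change nrm (C 6 * X 0 ^ 2 - X 3) ≤ 7
    rw [sub_eq_add_neg]
    refine (nrm_add_le _ _).trans ?_
    rw [nrm_neg, nrm_X]
    have h1 := nrm_mul_le (C 6 : MvPolynomial (Fin 5) ℤ) (X 0 ^ 2)
    have h2 := nrm_pow_le (X 0 : MvPolynomial (Fin 5) ℤ) 2
    rw [nrm_X, one_pow] at h2
    rw [nrm_C] at h1
    have h3 := nrm_nonneg (X 0 ^ 2 : MvPolynomial (Fin 5) ℤ)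
    have h4 : |((6 : ℤ) : ℝ)| = 6 := by norm_num
    rw [h4] at h1
    linarith
  · change nrm (-X 0 - X 4) ≤ 7
    rw [sub_eq_add_neg]
    refine (nrm_add_le _ _).trans ?_
    rw [nrm_neg, nrm_neg, nrm_X, nrm_X]; norm_num
  · change nrm 0 ≤ 7
    rw [nrm_zero]; norm_num
  · change nrm 0 ≤ 7
    rw [nrm_zero]; norm_num

lemma deg_dv (i : Fin 5) : (dv i).totalDegree ≤ 2 := by
  fin_cases i
  · change (X 1 : MvPolynomial (Fin 5) ℤ).totalDegree ≤ 2
    rw [totalDegree_X]; norm_num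
  · change (C 6 * X 0 ^ 2 - X 3 : MvPolynomial (Fin 5) ℤ).totalDegree ≤ 2
    refine (totalDegree_sub _ _).trans (max_le ?_ ?_)
    · refine (totalDegree_mul _ _).trans ?_
      rw [totalDegree_C, zero_add]
      refine (totalDegree_pow _ _).trans ?_
      rw [totalDegree_X]
    · rw [totalDegree_X]; norm_num
  · change (-X 0 - X 4 : MvPolynomial (Fin 5) ℤ).totalDegree ≤ 2
    refine (totalDegree_sub _ _).trans (max_le ?_ ?_)
    · rw [totalDegree_neg, totalDegree_X]; norm_num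
    · rw [totalDegree_X]; norm_num
  · change (0 : MvPolynomial (Fin 5) ℤ).totalDegree ≤ 2
    simp
  · change (0 : MvPolynomial (Fin 5) ℤ).totalDegree ≤ 2
    simp

lemma DD_monomial (s : Fin 5 →₀ ℕ) (r : ℤ) :
    DD (monomial s r) = r • ∑ i, monomial (s - Finsupp.single i 1) ((s i : ℕ) : ℤ) * dv i := by
  rw [DD, mkDerivation_monomial, Finsupp.sum_fintype _ _ (by simp)]
  simp [smul_eq_mul]

lemma nrm_DD_monomial (s : Fin 5 →₀ ℕ) (r : ℤ) :
    nrm (DD (monomial s r)) ≤ |(r : ℝ)| * (7 * s.degree) := by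
  rw [DD_monomial, smul_eq_C_mul]
  refine (nrm_mul_le _ _).trans ?_
  rw [nrm_C]
  gcongr
  refine (nrm_sum_le _ _).trans ?_
  calc ∑ i, nrm (monomial (s - Finsupp.single i 1) ((s i : ℕ) : ℤ) * dv i)
      ≤ ∑ i, (s i : ℝ) * 7 := by
        refine sum_le_sum fun i _ ↦ (nrm_monomial_mul _ _ _).trans ?_
        have := nrm_dv i
        have h0 : (0 : ℝ) ≤ s i := by positivity
        simp only [Int.cast_natCast, abs_of_nonneg h0]
        gcongr
    _ = 7 * s.degree := by
        rw [← sum_mul, Finsupp.degree_eq_sum]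
        push_cast
        ring

lemma nrm_DD_le (P : MvPolynomial (Fin 5) ℤ) : nrm (DD P) ≤ 7 * P.totalDegree * nrm P := by
  conv_lhs => rw [P.as_sum, map_sum]
  refine (nrm_sum_le _ _).trans ?_
  rw [nrm, mul_sum]
  refine sum_le_sum fun m hm ↦ (nrm_DD_monomial _ _).trans ?_
  have h1 : m.degree ≤ P.totalDegree := by
    have := le_totalDegree hm
    rw [Finsupp.sum_fintype _ _ (by simp)] at this
    rwa [Finsupp.degree_eq_sum]
  have h2 : (m.degree : ℝ) ≤ P.totalDegree := by exact_mod_cast h1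
  have h3 := abs_nonneg ((coeff m P : ℤ) : ℝ)
  nlinarith

lemma deg_DD_monomial (s : Fin 5 →₀ ℕ) (r : ℤ) :
    (DD (monomial s r)).totalDegree ≤ s.degree + 1 := by
  rw [DD_monomial]
  refine (totalDegree_smul_le _ _).trans ?_
  refine totalDegree_finsetSum_le fun i _ ↦ ?_
  rcases Nat.eq_zero_or_pos (s i) with h | h
  · simp [h]
  refine (totalDegree_mul _ _).trans ?_
  have h1 := deg_dv i
  have h2 : (monomial (s - Finsupp.single i 1) ((s i : ℕ) : ℤ)).totalDegree + 1 ≤ s.degree := by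
    rw [totalDegree_monomial _ (by exact_mod_cast h.ne')]
    have h3 : (s - Finsupp.single i 1) + Finsupp.single i 1 = s :=
      tsub_add_cancel_of_le (by
        rw [Finsupp.single_le_iff]; exact h)
    have h4 := congrArg Finsupp.degree h3
    rw [map_add, Finsupp.degree_single] at h4
    rw [Finsupp.degree_eq_sum, ← Finsupp.sum_fintype (f := s - Finsupp.single i 1) (fun _ e ↦ e) (by simp)] at h4
    exact h4.le
  omega

lemma deg_DD_le (P : MvPolynomial (Fin 5) ℤ) : (DD P).totalDegree ≤ P.totalDegree + 1 := by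
  conv_lhs => rw [P.as_sum, map_sum]
  refine totalDegree_finsetSum_le fun m hm ↦ (deg_DD_monomial _ _).trans ?_
  have h1 : m.degree ≤ P.totalDegree := by
    have := le_totalDegree hm
    rw [Finsupp.sum_fintype _ _ (by simp)] at this
    rwa [Finsupp.degree_eq_sum]
  omega

lemma deg_iter (P : MvPolynomial (Fin 5) ℤ) (t : ℕ) :
    (DD^[t] P).totalDegree ≤ P.totalDegree + t := by
  induction t with
  | zero => simp
  | succ t ih =>
    rw [Function.iterate_succ_apply']
    have := deg_DD_le (DD^[t] P)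
    omega

lemma nrm_iter (P : MvPolynomial (Fin 5) ℤ) (t : ℕ) :
    nrm (DD^[t] P) ≤ (7 * (P.totalDegree + t)) ^ t * nrm P := by
  have key : ∀ s, s ≤ t → nrm (DD^[s] P) ≤ (7 * (P.totalDegree + t : ℝ)) ^ s * nrm P := by
    intro s
    induction s with
    | zero => intro _; simp
    | succ s ih =>
      intro hs
      rw [Function.iterate_succ_apply']
      refine (nrm_DD_le _).trans ?_
      have h1 : ((DD^[s] P).totalDegree : ℝ) ≤ P.totalDegree + t := by
        have := deg_iter P s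
        exact_mod_cast (show (DD^[s] P).totalDegree ≤ P.totalDegree + t by omega)
      have h2 := ih (by omega)
      have h3 := nrm_nonneg (DD^[s] P)
      calc 7 * ((DD^[s] P).totalDegree : ℝ) * nrm (DD^[s] P)
          ≤ 7 * (P.totalDegree + t : ℝ) * ((7 * (P.totalDegree + t : ℝ)) ^ s * nrm P) := by gcongr
        _ = _ := by rw [pow_succ]; ring
  exact key t le_rfl

/-- The derivatives of the monomial `℘^a (ζ - κ u)^b`. -/
noncomputable def W (a b t : ℕ) : MvPolynomial (Fin 5) ℤ := DD^[t] (X 0 ^ a * X 2 ^ b)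

lemma deg_X_pow (a b : ℕ) : (X 0 ^ a * X 2 ^ b : MvPolynomial (Fin 5) ℤ).totalDegree ≤ a + b := by
  refine (totalDegree_mul _ _).trans ?_
  have h1 := totalDegree_pow (X 0 : MvPolynomial (Fin 5) ℤ) a
  have h2 := totalDegree_pow (X 2 : MvPolynomial (Fin 5) ℤ) b
  rw [totalDegree_X, mul_one] at h1 h2
  omega

lemma deg_W (a b t : ℕ) : (W a b t).totalDegree ≤ a + b + t :=
  (deg_iter _ _).trans (by have := deg_X_pow a b; omega)

lemma nrm_W (a b t : ℕ) : nrm (W a b t) ≤ (7 * (a + b + t)) ^ t := by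
  refine (nrm_iter _ _).trans ?_
  have h1 : nrm (X 0 ^ a * X 2 ^ b : MvPolynomial (Fin 5) ℤ) ≤ 1 := by
    refine (nrm_mul_le _ _).trans ?_
    have h1 := nrm_pow_le (X 0 : MvPolynomial (Fin 5) ℤ) a
    have h2 := nrm_pow_le (X 2 : MvPolynomial (Fin 5) ℤ) b
    rw [nrm_X, one_pow] at h1 h2
    have h3 := nrm_nonneg (X 0 ^ a : MvPolynomial (Fin 5) ℤ)
    have h4 := nrm_nonneg (X 2 ^ b : MvPolynomial (Fin 5) ℤ)
    nlinarith
  have h2 : ((X 0 ^ a * X 2 ^ b : MvPolynomial (Fin 5) ℤ).totalDegree : ℝ) ≤ a + b := by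
    exact_mod_cast deg_X_pow a b
  have h3 := nrm_nonneg (X 0 ^ a * X 2 ^ b : MvPolynomial (Fin 5) ℤ)
  calc _ ≤ (7 * ((a + b : ℝ) + t)) ^ t * 1 := by gcongr
    _ = _ := by rw [mul_one]

lemma W_succ (a b t : ℕ) : W a b (t + 1) = DD (W a b t) := by
  rw [W, Function.iterate_succ_apply', W]

/-- The analytic meaning of the derivation. -/
lemma hasDerivAt_aeval {f : Fin 5 → ℂ → ℂ} {lam : ℂ} {u : ℂ}
    (hf : ∀ i, HasDerivAt (f i) (lam * aeval (fun j ↦ f j u) (dv i)) u)
    (P : MvPolynomial (Fin 5) ℤ) :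
    HasDerivAt (fun u ↦ aeval (fun j ↦ f j u) P) (lam * aeval (fun j ↦ f j u) (DD P)) u := by
  induction P using MvPolynomial.induction_on with
  | C a =>
    simp only [algHom_C, derivation_C, map_zero, mul_zero]
    exact hasDerivAt_const _ _
  | add p q hp hq =>
    simp only [map_add, mul_add]
    exact hp.add hq
  | mul_X p i hp =>
    have h := hp.mul (hf i)
    have e : (fun u ↦ aeval (fun j ↦ f j u) (p * X i)) =
        (fun u ↦ aeval (fun j ↦ f j u) p) * f i := by
      ext u; simp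
    have hD : DD (X i) = dv i := mkDerivation_X _ _ _
    have e2 : lam * aeval (fun j ↦ f j u) (DD (p * X i)) =
        lam * aeval (fun j ↦ f j u) (DD p) * f i u +
          aeval (fun j ↦ f j u) p * (lam * aeval (fun j ↦ f j u) (dv i)) := by
      rw [Derivation.leibniz, hD]
      simp only [smul_eq_mul, map_add, map_mul, aeval_X]
      ring
    rw [e, e2]
    exact h

end H32.T3
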