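import Pool.Agent.H32.T3.CoreB
import Pool.Agent.H32.T3.Num

/-!
# The transcendence measure
-/

namespace H32.T3

open Complex Filter Topology Finset Height NumberField

lemma exists_big (K : ℝ) (hK : 1 ≤ K) : ∃ Λ0 : ℕ, ∀ Λ : ℕ, Λ0 ≤ Λ → Big K Λ := by
  have h1 : Tendsto (fun Λ : ℕ ↦ (Λ : ℝ) / 100) atTop atTop :=
    tendsto_natCast_atTop_atTop.atTop_div_const (by norm_num)
  have h2 := (Real.tendsto_pow_mul_exp_neg_atTop_nhds_zero 16).comp h1
  have h3 : ∀ᶠ Λ : ℕ in atTop, ((Λ : ℝ) / 100) ^ 16 * Real.exp (-((Λ : ℝ) / 100)) ≤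
      (1 / 100) ^ 16 := h2.eventually_le_const (by norm_num)
  have h4 : ∀ᶠ Λ : ℕ in atTop, 10 ^ 6 * K ^ 2 ≤ (Λ : ℝ) :=
    tendsto_natCast_atTop_atTop.eventually_ge_atTop _
  obtain ⟨Λ0, h⟩ := (h3.and h4).exists_forall_of_atTop
  refine ⟨Λ0, fun Λ hΛ ↦ ⟨hK, (h Λ hΛ).2, ?_⟩⟩
  have h5 := (h Λ hΛ).1
  have h6 : (Λ : ℝ) ^ 16 * Real.exp (-((Λ : ℝ) / 100)) ≤ 1 := by
    have e : ((Λ : ℝ) / 100) ^ 16 = (Λ : ℝ) ^ 16 * (1 / 100) ^ 16 := by rw [div_pow]; ring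
    rw [e] at h5
    have h7 : (0 : ℝ) < (1 / 100) ^ 16 := by positivity
    have h8 : (Λ : ℝ) ^ 16 * Real.exp (-((Λ : ℝ) / 100)) * (1 / 100) ^ 16 ≤ 1 * (1 / 100) ^ 16 := by
      linarith
    exact le_of_mul_le_mul_right h8 h7
  rw [Real.exp_neg] at h6
  rwa [← div_eq_mul_inv, div_le_one (Real.exp_pos _)] at h6

open MvPolynomial in
lemma ringHom_aeval {K : Type*} [Field K] (s : K →+* ℂ) (x : Fin 5 → K)
    (P : MvPolynomial (Fin 5) ℤ) : s (aeval x P) = aeval (fun i ↦ s (x i)) P := by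
  have h := MvPolynomial.comp_aeval_apply x (s.toIntAlgHom) P
  exact h

/-- The transcendence measure for `κ = (3/2) E₂E₄/E₆`, uniform in the analytic data. -/
theorem measure {r C σ : ℝ} (hr : r < 1) (hr0 : 0 < r) (hC : 1 ≤ C) (hσ : 0 < σ) :
    ∃ Λ0 : ℕ, ∀ (p lam G h κ e : ℂ), EllData r C σ p lam G h κ e →
      ∀ (K : Type) [Field K] [NumberField K] (s : K →+* ℂ) (x : Fin 5 → K) (Λ : ℕ), Λ0 ≤ Λ →
        totalWeight K ≤ Λ → (∀ i, mulHeight₁ (x i) ≤ Real.exp Λ) → s (x 0) = e → x 1 = 0 →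
        x 2 = 0 → s (x 3) = h → Real.exp (-(Λ : ℝ) ^ 22) ≤ ‖κ - s (x 4)‖ := by
  -- the constants
  set r1 : ℝ := min ((1 - r) / 2) σ with hr1
  set V : ℝ := 2 * (Real.exp (4 * C) * C ^ 2) with hV
  have hr1pos : 0 < r1 := by rw [hr1]; exact lt_min (by linarith) hσ
  have hr1le : r1 ≤ 1 := by
    rw [hr1]
    exact (min_le_left _ _).trans (by linarith)
  have hexp4 : 1 ≤ Real.exp (4 * C) := Real.one_le_exp (by linarith)
  have hV1 : 1 ≤ V := by
    rw [hV]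
    have := one_le_mul_of_one_le_of_one_le hexp4 (one_le_pow₀ (n := 2) hC)
    linarith
  have h16 : 1 ≤ 16 / r1 := by rw [le_div_iff₀ hr1pos]; linarith
  have hlr : 0 < -Real.log r := by
    have := Real.log_neg hr0 hr
    linarith
  set KK : ℝ := 4 * C + Real.log V + Real.log (16 / r1) + (-Real.log r)⁻¹ + 1 with hKK
  have k1 : 0 ≤ Real.log V := Real.log_nonneg hV1
  have k2 : 0 ≤ Real.log (16 / r1) := Real.log_nonneg h16
  have k3 : 0 < (-Real.log r)⁻¹ := by positivity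
  have hK1 : 1 ≤ KK := by linarith
  have hKC : C ≤ KK := by linarith
  have hK0 : 0 < KK := by linarith
  have c1 : C ≤ Real.exp KK := by
    have := Real.add_one_le_exp KK
    linarith
  have c2 : Real.exp (4 * C) ≤ Real.exp KK := Real.exp_le_exp.mpr (by linarith)
  have c3 : V ≤ Real.exp KK := by
    rw [← Real.exp_log (by linarith : 0 < V)]
    exact Real.exp_le_exp.mpr (by linarith)
  have c4 : 16 / r1 ≤ Real.exp KK := by
    rw [← Real.exp_log (by linarith : 0 < 16 / r1)]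
    exact Real.exp_le_exp.mpr (by linarith)
  have c5 : 4 / r1 ≤ Real.exp KK := by
    refine le_trans ?_ c4
    gcongr
    norm_num
  have c6 : r ≤ Real.exp (-KK⁻¹) := by
    have h1 : KK⁻¹ ≤ -Real.log r := by
      apply inv_le_of_inv_le₀ hlr
      linarith
    calc r = Real.exp (Real.log r) := (Real.exp_log hr0).symm
      _ ≤ _ := Real.exp_le_exp.mpr (by linarith)
  obtain ⟨Λ0, hbig⟩ := exists_big KK hK1
  refine ⟨Λ0, ?_⟩
  intro p lam G h κ e D K _ _ s x Λ hΛ0 hΛK hxh hs0 hx1 hx2 hs3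
  have hb := hbig Λ hΛ0
  have hΛ6 := hb.x6
  have hΛ1 : (1 : ℝ) ≤ Λ := hb.x1
  have hΛpos : (0 : ℝ) < Λ := hb.x0
  have hΛ1' : 1 ≤ Λ := by exact_mod_cast hΛ1
  set L : ℕ := 12 * Λ ^ 5 with hL
  set T : ℕ := 12 * Λ ^ 9 with hT
  set Bn : ℕ := ⌈Real.exp ((Λ : ℝ) ^ 10)⌉₊ with hBn
  have hLr : (L : ℝ) = 12 * (Λ : ℝ) ^ 5 := by rw [hL]; push_cast; ring
  have hTr : (T : ℝ) = 12 * (Λ : ℝ) ^ 9 := by rw [hT]; push_cast; ring
  have hL1 : 1 ≤ L := by rw [hL]; have : 0 < Λ ^ 5 := by positivity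
                         omega
  have hT1 : 1 ≤ T := by rw [hT]; have : 0 < Λ ^ 9 := by positivity
                         omega
  have hB1 : Real.exp ((Λ : ℝ) ^ 10) ≤ (Bn : ℝ) := Nat.le_ceil _
  have hB2 : (Bn : ℝ) ≤ Real.exp ((Λ : ℝ) ^ 10 + 1) := by
    have h1 := (Nat.ceil_lt_add_one (Real.exp_pos ((Λ : ℝ) ^ 10)).le).le
    have h2 : 1 ≤ Real.exp ((Λ : ℝ) ^ 10) := Real.one_le_exp (by positivity)
    rw [Real.exp_add]
    have h3 := Real.add_one_le_exp (1 : ℝ)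
    nlinarith
  have hB1' : (1 : ℝ) ≤ Bn := (Real.one_le_exp (by positivity)).trans hB1
  have hBlog : (Λ : ℝ) ^ 10 ≤ Real.log Bn := by
    rw [Real.le_log_iff_exp_le (by linarith)]
    exact hB1
  have hLT : 12 * Λ * T ≤ L ^ 2 := by
    apply le_of_eq
    rw [hL, hT]
    ring
  have hLpos : (0 : ℝ) < L := by rw [hLr]; positivity
  have hTpos : (0 : ℝ) < T := by rw [hTr]; positivity
  have hSieg : Real.log (L ^ 2 * (7 * (2 * L + T : ℝ)) ^ T) + 3 * (2 * L + T) + 1 ≤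
      Real.log Bn := by
    have h1 := hb.siegel hLr hTr hBlog
    rw [Real.log_mul (by positivity) (by positivity), Real.log_pow, Real.log_pow]
    push_cast
    linarith
  obtain ⟨a, ha0, haB, havan⟩ := exists_aux s hΛ1' hΛK hxh hL1 hT1 hLT hSieg
  have haB' : ∀ i, |(a i : ℝ)| ≤ (Bn : ℝ) := fun i ↦ by
    have := haB i
    exact_mod_cast this
  by_contra hcon
  push Not at hcon
  set k' : ℂ := s (x 4) with hk'
  have hδ := hcon.le
  have hv : (fun i ↦ s (x i)) = ![e, 0, 0, h, k'] := by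
    ext i
    fin_cases i
    · exact hs0
    · change s (x 1) = 0
      rw [hx1, map_zero]
    · change s (x 2) = 0
      rw [hx2, map_zero]
    · exact hs3
    · rfl
  have hval : ∀ P : MvPolynomial (Fin 5) ℤ,
      MvPolynomial.aeval ![e, 0, 0, h, k'] P = s (MvPolynomial.aeval x P) := by
    intro P
    rw [ringHom_aeval, hv]
  have hkC : ‖κ - k'‖ ≤ C⁻¹ := by
    refine hδ.trans ?_
    calc Real.exp (-(Λ : ℝ) ^ 22) ≤ Real.exp (-KK) := by
          apply Real.exp_le_exp.mpr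
          have h1 := hb.Kx
          have h2 : (Λ : ℝ) ≤ (Λ : ℝ) ^ 22 := le_self_pow₀ hΛ1 (by norm_num)
          linarith
      _ = (Real.exp KK)⁻¹ := Real.exp_neg _
      _ ≤ C⁻¹ := inv_anti₀ (by linarith) c1
  set S : ℝ := ‖κ - k'‖ * (L ^ 3 * Bn * V ^ (2 * L) * C * Real.exp (4 * C) ^ (3 * L)) with hS
  have hS0 : 0 ≤ S := by rw [hS]; positivity
  have hS1 : S ≤ Real.exp (-(Λ : ℝ) ^ 22 + 2 * (Λ : ℝ) ^ 10) :=
    hb.S_le hLr hδ (norm_nonneg _) hB2 (by linarith) c3 (by linarith) c1 (by linarith) c2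
      (by positivity) hS
  have hS2 : S ≤ Real.exp (-(Λ : ℝ) ^ 21) := by
    refine hS1.trans (Real.exp_le_exp.mpr ?_)
    have a3 : 10 * (Λ : ℝ) ^ 21 ≤ (Λ : ℝ) ^ 22 := hb.pw (by linarith) (by norm_num)
    have a4 : 10 * (Λ : ℝ) ^ 10 ≤ (Λ : ℝ) ^ 21 := hb.pw (by linarith) (by norm_num)
    have a5 : 0 < (Λ : ℝ) ^ 21 := by positivity
    linarith
  have hpn : 0 < ‖p‖ := norm_pos_iff.mpr D.p0
  have hp1 : ‖p‖ < 1 := D.hp.trans_lt hr
  -- bounds for powers of `‖p‖`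
  have hPinv : ∀ N : ℕ, (‖p‖ ^ (4 * N))⁻¹ ≤ Real.exp (4 * N * KK) := by
    intro N
    have h1 : Real.exp (-KK) ≤ ‖p‖ := (Real.exp_le_exp.mpr (by linarith)).trans D.hpC
    have h2 : Real.exp (-KK) ^ (4 * N) ≤ ‖p‖ ^ (4 * N) := by gcongr
    have h3 : Real.exp (-KK) ^ (4 * N) = (Real.exp (4 * N * KK))⁻¹ := by
      rw [← Real.exp_nat_mul, ← Real.exp_neg]
      congr 1
      push_cast; ring
    rw [h3] at h2
    exact inv_le_of_inv_le₀ (Real.exp_pos _) h2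
  have hhalf : ∀ N : ℕ, KK ≤ N → ‖p‖ ^ (4 * N) ≤ 1 / 2 := by
    intro N hN
    calc ‖p‖ ^ (4 * N) ≤ Real.exp (-KK⁻¹) ^ (4 * N) := by
          gcongr
          exact D.hp.trans c6
      _ = Real.exp (-(4 * (N / KK))) := by
          rw [← Real.exp_nat_mul]
          congr 1
          push_cast; ring
      _ ≤ Real.exp (-1) := by
          apply Real.exp_le_exp.mpr
          have : 1 ≤ N / KK := (one_le_div hK0).mpr hN
          linarith
      _ ≤ 1 / 2 := by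
          rw [Real.exp_neg, one_div]
          apply inv_anti₀ (by norm_num)
          have := Real.add_one_le_exp (1 : ℝ)
          linarith
  have hdata : ∀ (T' N : ℕ), 1 ≤ T' → 1 ≤ N → KK ≤ N → (T' : ℝ) ≤ 1728 * (Λ : ℝ) ^ 15 →
      (N : ℝ) ≤ 12 * (Λ : ℝ) ^ 5 →
      (∀ t < T', MvPolynomial.aeval ![e, 0, 0, h, k'] (PP a t) = 0) →
      ∃ η ε : ℝ, 0 ≤ η ∧ η ≤ Real.exp (-(Λ : ℝ) ^ 21) ∧
        ε = η + (L ^ 2 * Bn * Real.exp (C * (2 * N + 1) ^ 2) ^ (3 * L) + η) *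
          (4 * ‖p‖ ^ N) ^ T' ∧
        (∀ w ∈ Ann p N, ‖FF lam G p a w‖ ≤ ε) ∧
        ‖lam‖ ^ T' * ‖MvPolynomial.aeval ![e, 0, 0, h, k'] (PP a T')‖ ≤
          T'.factorial * (C ^ (3 * L) * ε + S) / (r1 / 16) ^ T' := by
    intro T' N hT' hN hKN hT'2 hN2 hvan
    refine ⟨T' * ((4 / r1) * (‖p‖ ^ (4 * N))⁻¹) ^ T' * S, _, by positivity, ?_, rfl, ?_⟩
    · exact hb.eta_le hT'2 hN2 c5 (by positivity) (hPinv N) (by positivity) hS1 hS0 rfl
    · exact core_small hr hr0.le hC hσ D haB' (by linarith) hkC hT' hN (hhalf N hKN) hvan hr1 hV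
        hS rfl rfl
  by_cases hall : ∀ t < L ^ 3, MvPolynomial.aeval x (PP a t) = 0
  · -- case B
    have hL3 : ((L ^ 3 : ℕ) : ℝ) = 1728 * (Λ : ℝ) ^ 15 := by
      push_cast
      rw [hLr]
      ring
    obtain ⟨η, ε, hη0, hη, hε, hFF, -⟩ := hdata (L ^ 3) L (Nat.one_le_pow _ _ hL1) hL1 (by
      rw [hLr]
      have h1 := hb.Kx
      have h2 : (Λ : ℝ) ≤ (Λ : ℝ) ^ 5 := le_self_pow₀ hΛ1 (by norm_num)
      linarith) hL3.le hLr.le (fun t ht ↦ by rw [hval, hall t ht, map_zero])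
    have hz := zero_est hr hC D haB' (by linarith) ha0 hFF
    exact hb.caseB hLr hL3 hB2 hB1' hKC hC c1 (norm_nonneg _) D.hp c6 hη hη0 hε hz
  · -- case A
    push Not at hall
    obtain ⟨t0, ht0, hne0⟩ := hall
    classical
    set T' := Nat.find (⟨t0, hne0⟩ : ∃ t, MvPolynomial.aeval x (PP a t) ≠ 0) with hT'
    have hT'ne : MvPolynomial.aeval x (PP a T') ≠ 0 :=
      Nat.find_spec (⟨t0, hne0⟩ : ∃ t, MvPolynomial.aeval x (PP a t) ≠ 0)
    have hT'min : ∀ t < T', MvPolynomial.aeval x (PP a t) = 0 := by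
      intro t ht
      have := Nat.find_min (⟨t0, hne0⟩ : ∃ t, MvPolynomial.aeval x (PP a t) ≠ 0) ht
      rwa [not_not] at this
    have hTT' : T ≤ T' := by
      by_contra hlt
      exact hT'ne (havan T' (by omega))
    have hT'lt : T' < L ^ 3 := lt_of_le_of_lt (Nat.find_min' _ hne0) ht0
    have hT'r : 12 * (Λ : ℝ) ^ 9 ≤ (T' : ℝ) := by
      rw [← hTr]; exact_mod_cast hTT'
    have hT'r2 : (T' : ℝ) ≤ 1728 * (Λ : ℝ) ^ 15 := by
      have h1 : (T' : ℝ) ≤ ((L ^ 3 : ℕ) : ℝ) := by exact_mod_cast hT'lt.le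
      refine h1.trans (le_of_eq ?_)
      push_cast
      rw [hLr]
      ring
    have hNr : ((Λ ^ 3 : ℕ) : ℝ) = (Λ : ℝ) ^ 3 := by push_cast; ring
    obtain ⟨η, ε, hη0, hη, hε, hFF, hder⟩ := hdata T' (Λ ^ 3) (by omega)
      (Nat.one_le_pow _ _ hΛ1') (by
      rw [hNr]
      have h1 := hb.Kx
      have h2 : (Λ : ℝ) ≤ (Λ : ℝ) ^ 3 := le_self_pow₀ hΛ1 (by norm_num)
      linarith) hT'r2 (by
      rw [hNr]
      have h2 : (1 : ℝ) * (Λ : ℝ) ^ 3 ≤ (Λ : ℝ) ^ 5 := hb.pw hΛ1 (by norm_num)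
      have h3 : (0 : ℝ) < (Λ : ℝ) ^ 5 := by positivity
      linarith) (fun t ht ↦ by rw [hval, hT'min t ht, map_zero])
    have hε3 := hb.epsA hLr hNr hT'r hT'r2 hB2 (by linarith) hKC (norm_nonneg _) D.hp c6 hη hη0 hε
    have hε0 : 0 ≤ ε := by rw [hε]; positivity
    have hlamC : C⁻¹ ≤ ‖lam‖ := by
      have h1 := D.lamC'
      rw [norm_inv] at h1
      exact inv_le_of_inv_le₀ (norm_pos_iff.mpr D.lam0) h1
    have hlow : ((L ^ 2 * Bn * (7 * (2 * L + T')) ^ T' : ℝ) ^ Λ *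
        Real.exp (5 * Λ * (2 * L + T')))⁻¹ ≤
        ‖MvPolynomial.aeval ![e, 0, 0, h, k'] (PP a T')‖ := by
      rw [hval]
      refine le_trans ?_ (liouville s hT'ne)
      apply inv_anti₀
      · linarith [one_le_mulHeight₁ (MvPolynomial.aeval x (PP a T'))]
      have h1 := height_value hΛK hxh (P := PP a T') (n := 2 * L + T')
        (B := L ^ 2 * Bn * (7 * (2 * L + T' : ℝ)) ^ T') ?_ (nrm_PP haB' T') (deg_PP a T')
      · refine h1.trans (le_of_eq ?_)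
        push_cast
        ring_nf
      · have h2 : (1 : ℝ) ≤ L := by exact_mod_cast hL1
        have h3 : (0 : ℝ) ≤ T' := Nat.cast_nonneg _
        refine one_le_mul_of_one_le_of_one_le (one_le_mul_of_one_le_of_one_le
          (one_le_pow₀ h2) hB1') (one_le_pow₀ (by linarith))
    exact hb.caseA rfl hLr hT'r hT'r2 hB2 hB1' c1 (by linarith) hS2 hε0 hε3
      (by positivity : 0 < r1 / 16) (by rw [inv_div]; exact c4) hlamC hlow hder

end H32.T3
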