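import Pool.Agent.H32.T3.Theta2

/-!
# A Schwarz lemma on the annulus
-/

namespace H32.T3

open Complex Filter Topology Finset

/-- Finite Taylor expansion with bounds. -/
theorem taylor_div {f : ℂ → ℂ} {c : ℂ} {r S : ℝ} (hr : 0 < r)
    (hf : DifferentiableOn ℂ f (Metric.ball c r)) (hS : ∀ w ∈ Metric.ball c r, ‖f w‖ ≤ S) (T : ℕ) :
    ∃ (a : ℕ → ℂ) (g : ℂ → ℂ), DifferentiableOn ℂ g (Metric.ball c r) ∧
      (∀ w, f w = ∑ t ∈ range T, a t * (w - c) ^ t + (w - c) ^ T * g w) ∧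
      (∀ t, t < T → ‖a t‖ ≤ (2 / r) ^ t * S) ∧ (∀ w ∈ Metric.ball c r, ‖g w‖ ≤ (2 / r) ^ T * S) := by
  have hc : c ∈ Metric.ball c r := Metric.mem_ball_self hr
  induction T with
  | zero => exact ⟨0, f, hf, by simp, by simp, by simpa using hS⟩
  | succ T ih =>
    obtain ⟨a, g, hg, hfg, ha, hgS⟩ := ih
    refine ⟨fun t ↦ if t = T then g c else a t, dslope g c, ?_, ?_, ?_, ?_⟩
    · exact (Complex.differentiableOn_dslope (Metric.ball_mem_nhds c hr)).mpr hg
    · intro w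
      rw [sum_range_succ]
      beta_reduce
      rw [if_pos rfl, hfg w]
      have h1 : ∑ t ∈ range T, (if t = T then g c else a t) * (w - c) ^ t =
          ∑ t ∈ range T, a t * (w - c) ^ t := by
        refine sum_congr rfl fun t ht ↦ ?_
        rw [if_neg (by have := mem_range.mp ht; omega)]
      rw [h1]
      have h2 := sub_smul_dslope g c w
      rw [smul_eq_mul] at h2
      rw [pow_succ]
      linear_combination -(w - c) ^ T * h2
    · intro t ht
      rcases eq_or_ne t T with rfl | hne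
      · simp only [if_true]
        exact hgS c hc
      · simp only [hne, if_false]
        exact ha t (by omega)
    · intro w hw
      have hmaps : Set.MapsTo g (Metric.ball c r)
          (Metric.closedBall (g c) (2 * ((2 / r) ^ T * S))) := by
        intro v hv
        rw [Metric.mem_closedBall, dist_eq_norm]
        have h1 := hgS v hv
        have h2 := hgS c hc
        have h3 := norm_sub_le (g v) (g c)
        linarith
      refine (Complex.norm_dslope_le_div_of_mapsTo_ball hg hmaps hw).trans (le_of_eq ?_)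
      rw [pow_succ]
      ring

lemma iter_deriv {U : Set ℂ} (hU : IsOpen U) {Φ : ℕ → ℂ → ℂ} {lam : ℂ}
    (h : ∀ t, ∀ s ∈ U, HasDerivAt (Φ t) (lam * Φ (t + 1) s) s) (t : ℕ) :
    ∀ s ∈ U, iteratedDeriv t (Φ 0) s = lam ^ t * Φ t s := by
  induction t with
  | zero => intro s _; simp
  | succ t ih =>
    intro s hs
    rw [iteratedDeriv_succ]
    have h1 : iteratedDeriv t (Φ 0) =ᶠ[𝓝 s] fun s ↦ lam ^ t * Φ t s := by
      filter_upwards [hU.mem_nhds hs] with v hv using ih v hv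
    rw [h1.deriv_eq, ((h t s hs).const_mul (lam ^ t)).deriv]
    ring

/-- Vanishing order from the derivatives. -/
lemma order_of_system {U : Set ℂ} (hU : IsOpen U) (h0U : (0 : ℂ) ∈ U) {Φ : ℕ → ℂ → ℂ} {lam : ℂ}
    (h : ∀ t, ∀ s ∈ U, HasDerivAt (Φ t) (lam * Φ (t + 1) s) s) {T : ℕ}
    (h0 : ∀ t < T, Φ t 0 = 0) :
    ∃ g, AnalyticAt ℂ g 0 ∧ ∀ᶠ s in 𝓝 (0 : ℂ), Φ 0 s = s ^ T * g s := by
  have hd : DifferentiableOn ℂ (Φ 0) U := fun s hs ↦
    (h 0 s hs).differentiableAt.differentiableWithinAt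
  have han : AnalyticAt ℂ (Φ 0) 0 := hd.analyticAt (hU.mem_nhds h0U)
  have h1 : (T : ℕ∞) ≤ analyticOrderAt (Φ 0) 0 := by
    rw [natCast_le_analyticOrderAt_iff_iteratedDeriv_eq_zero han]
    intro i hi
    rw [iter_deriv hU h i 0 h0U, h0 i hi, mul_zero]
  rw [natCast_le_analyticOrderAt han] at h1
  obtain ⟨g, hg, hev⟩ := h1
  refine ⟨g, hg, ?_⟩
  filter_upwards [hev] with s hs
  rw [hs, sub_zero, smul_eq_mul]

/-- The Schwarz lemma on the annulus. -/
theorem schwarz_ann {p : ℂ} (hp0 : p ≠ 0) (hp1 : ‖p‖ < 1) {N T : ℕ} (hT : 1 ≤ T)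
    (hN : ‖p‖ ^ (4 * N) ≤ 1 / 2)
    {G pol g : ℂ → ℂ} (hG : DifferentiableOn ℂ G {0}ᶜ) (hpol : DifferentiableOn ℂ pol {0}ᶜ)
    (hg : AnalyticAt ℂ g 1) (hloc : ∀ᶠ w in 𝓝 (1 : ℂ), G w - pol w = (w - 1) ^ T * g w)
    {E η : ℝ} (hE : ∀ w ∈ Ann p (2 * N), ‖G w‖ ≤ E) (hη : ∀ w ∈ Ann p (2 * N), ‖pol w‖ ≤ η)
    {w : ℂ} (hw : w ∈ Ann p N) : ‖G w‖ ≤ η + (E + η) * (4 * ‖p‖ ^ N) ^ T := by
  classical
  have hpn : 0 < ‖p‖ := norm_pos_iff.mpr hp0
  set R : ℝ := (‖p‖ ^ (4 * N))⁻¹ with hR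
  have hRpos : 0 < R := by positivity
  have hRinv : R⁻¹ = ‖p‖ ^ (4 * N) := by rw [hR, inv_inv]
  have hR2 : 2 ≤ R := by
    rw [hR]
    rw [le_inv_comm₀ (by norm_num) (by positivity)]
    linarith
  have h1Ann : (1 : ℂ) ∈ Ann p (2 * N) := by
    refine ⟨?_, ?_⟩
    · rw [norm_one]; exact pow_le_one₀ (norm_nonneg _) hp1.le
    · rw [norm_one, one_mul]; exact pow_le_one₀ (norm_nonneg _) hp1.le
  have hE0 : 0 ≤ E := (norm_nonneg _).trans (hE 1 h1Ann)
  have hη0 : 0 ≤ η := (norm_nonneg _).trans (hη 1 h1Ann)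
  have hAnn : ∀ v : ℂ, R⁻¹ ≤ ‖v‖ → ‖v‖ ≤ R → v ∈ Ann p (2 * N) := by
    intro v h1 h2
    have e : 2 * (2 * N) = 4 * N := by ring
    refine ⟨by rw [e, ← hRinv]; exact h1, ?_⟩
    rw [e, ← hRinv]
    calc ‖v‖ * R⁻¹ ≤ R * R⁻¹ := by gcongr
      _ = 1 := mul_inv_cancel₀ hRpos.ne'
  -- the quotient
  set H : ℂ → ℂ := fun w ↦ if w = 1 then g 1 else (G w - pol w) / (w - 1) ^ T with hH
  have hHd : DifferentiableOn ℂ H {0}ᶜ := by
    intro v hv
    rcases eq_or_ne v 1 with rfl | hne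
    · have h1 : H =ᶠ[𝓝 1] g := by
        filter_upwards [hloc] with v hv
        rw [hH]
        simp only
        split_ifs with h
        · rw [h]
        · rw [hv, mul_div_cancel_left₀]
          exact pow_ne_zero _ (sub_ne_zero.mpr h)
      exact (hg.differentiableAt.congr_of_eventuallyEq h1).differentiableWithinAt
    · have h1 : H =ᶠ[𝓝 v] fun w ↦ (G w - pol w) / (w - 1) ^ T := by
        filter_upwards [isOpen_ne.mem_nhds hne] with u hu
        rw [hH]
        simp only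
        rw [if_neg hu]
      have h2 : DifferentiableAt ℂ (fun w ↦ (G w - pol w) / (w - 1) ^ T) v := by
        have hGv := (hG v hv).differentiableAt (isOpen_U.mem_nhds hv)
        have hpv := (hpol v hv).differentiableAt (isOpen_U.mem_nhds hv)
        have h3 : (v - 1) ^ T ≠ 0 := pow_ne_zero _ (sub_ne_zero.mpr hne)
        exact (hGv.fun_sub hpv).fun_div (by fun_prop) h3
      exact (h2.congr_of_eventuallyEq h1).differentiableWithinAt
  set Φ : ℂ → ℂ := fun w ↦ H w ^ 2 * w ^ T with hΦ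
  have hΦd : DifferentiableOn ℂ Φ {0}ᶜ := by
    rw [hΦ]
    fun_prop
  -- the open annulus
  set U : Set ℂ := {v | R⁻¹ < ‖v‖ ∧ ‖v‖ < R} with hU
  have hUb : Bornology.IsBounded U := by
    refine (Metric.isBounded_ball (x := (0 : ℂ)) (r := R)).subset fun v hv ↦ ?_
    rw [mem_ball_zero_iff]; exact hv.2
  have hUcl : closure U ⊆ {v | R⁻¹ ≤ ‖v‖ ∧ ‖v‖ ≤ R} := by
    apply closure_minimal
    · intro v hv; exact ⟨hv.1.le, hv.2.le⟩
    · exact (isClosed_le continuous_const continuous_norm).inter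
        (isClosed_le continuous_norm continuous_const)
  have hUo : IsOpen U := (isOpen_lt continuous_const continuous_norm).inter
    (isOpen_lt continuous_norm continuous_const)
  have hne0 : ∀ v : ℂ, R⁻¹ ≤ ‖v‖ → v ≠ 0 := by
    rintro v hv rfl
    rw [norm_zero] at hv
    have : 0 < R⁻¹ := by positivity
    linarith
  have hdc : DiffContOnCl ℂ Φ U := by
    apply DifferentiableOn.diffContOnCl
    exact hΦd.mono fun v hv ↦ hne0 v (hUcl hv).1
  have hfr : ∀ v ∈ frontier U, ‖Φ v‖ ≤ (E + η) ^ 2 * (4 / R) ^ T := by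
    intro v hv
    have h1 := hUcl (frontier_subset_closure hv)
    have h2 : v ∉ U := by
      have := hUo.frontier_eq ▸ hv
      exact this.2
    have h3 : ‖v‖ = R ∨ ‖v‖ = R⁻¹ := by
      rcases eq_or_lt_of_le h1.2 with h | h
      · exact Or.inl h
      · right
        by_contra hcon
        exact h2 ⟨lt_of_le_of_ne h1.1 (Ne.symm hcon), h⟩
    have hv0 : 0 < ‖v‖ := norm_pos_iff.mpr (hne0 v h1.1)
    have h4 : ‖v‖ / ‖v - 1‖ ^ 2 ≤ 4 / R := by
      rcases h3 with h3 | h3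
      · have h5 : R - 1 ≤ ‖v - 1‖ := by
          have := norm_sub_norm_le v 1
          rw [norm_one, h3] at this
          exact this
        have h6 : 0 < R - 1 := by linarith
        calc ‖v‖ / ‖v - 1‖ ^ 2 ≤ R / (R - 1) ^ 2 := by rw [h3]; gcongr
          _ ≤ 4 / R := by
            rw [div_le_div_iff₀ (by positivity) hRpos]
            nlinarith
      · have h5 : 1 - R⁻¹ ≤ ‖v - 1‖ := by
          have := norm_sub_norm_le 1 v
          rw [norm_one, h3, norm_sub_rev] at this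
          exact this
        have h7 : R⁻¹ ≤ 1 / 2 := by
          rw [hRinv]; exact hN
        have h6 : 0 < 1 - R⁻¹ := by linarith
        calc ‖v‖ / ‖v - 1‖ ^ 2 ≤ R⁻¹ / (1 - R⁻¹) ^ 2 := by rw [h3]; gcongr
          _ ≤ 4 / R := by
            rw [div_le_iff₀ (by positivity), div_eq_mul_inv]
            have h8 : 0 < R⁻¹ := by positivity
            have h9 : 1 ≤ 4 * (1 - R⁻¹) ^ 2 := by nlinarith
            nlinarith
    have hvne : v ≠ 1 := by
      rintro rfl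
      rw [norm_one] at h3
      rcases h3 with h3 | h3
      · linarith
      · have h7 : R⁻¹ ≤ 1 / 2 := by rw [hRinv]; exact hN
        linarith
    have h5 : ‖Φ v‖ = ‖G v - pol v‖ ^ 2 * (‖v‖ / ‖v - 1‖ ^ 2) ^ T := by
      rw [hΦ]
      simp only
      rw [norm_mul, norm_pow, norm_pow, hH]
      simp only [if_neg hvne]
      rw [norm_div, norm_pow, div_pow, div_pow, ← pow_mul, ← pow_mul, mul_comm T 2]
      ring
    rw [h5]
    have h6 : ‖G v - pol v‖ ≤ E + η := by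
      have h7 := hAnn v h1.1 h1.2
      exact (norm_sub_le _ _).trans (add_le_add (hE v h7) (hη v h7))
    gcongr
  -- the conclusion
  have hwn : 0 < ‖w‖ := norm_pos_iff.mpr (Ann_ne_zero hp0 hw)
  have hpN : ‖p‖ ^ (4 * N) = (‖p‖ ^ (2 * N)) ^ 2 := by rw [← pow_mul]; congr 1; ring
  have hp2N : 0 < ‖p‖ ^ (2 * N) := by positivity
  have hp2N1 : ‖p‖ ^ (2 * N) < 1 := by
    by_contra hcon
    push Not at hcon
    rw [hpN] at hN
    nlinarith
  have hw' : w ∈ U := by
    refine ⟨?_, ?_⟩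
    · rw [hRinv, hpN]
      refine lt_of_lt_of_le ?_ hw.1
      nlinarith
    · rw [hR, hpN]
      have h1 : ‖w‖ ≤ (‖p‖ ^ (2 * N))⁻¹ := by
        rw [← one_div]; exact (le_div_iff₀ hp2N).mpr hw.2
      refine h1.trans_lt ?_
      apply inv_strictAnti₀ (by positivity)
      nlinarith
  have hmax := Complex.norm_le_of_forall_mem_frontier_norm_le hUb hdc hfr (subset_closure hw')
  have hsq : ‖G w - pol w‖ ^ 2 ≤ ((E + η) * (4 * ‖p‖ ^ N) ^ T) ^ 2 := by
    rcases eq_or_ne w 1 with rfl | hne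
    · have h1 := hloc.self_of_nhds
      rw [sub_self, zero_pow (by omega), zero_mul] at h1
      rw [h1, norm_zero, zero_pow (by norm_num)]
      positivity
    · have h5 : ‖G w - pol w‖ ^ 2 = ‖Φ w‖ * (‖w - 1‖ ^ 2 / ‖w‖) ^ T := by
        have hd : ‖w - 1‖ ≠ 0 := norm_ne_zero_iff.mpr (sub_ne_zero.mpr hne)
        rw [hΦ]
        simp only
        rw [norm_mul, norm_pow, norm_pow, hH]
        simp only [if_neg hne]
        rw [norm_div, norm_pow, div_pow, div_pow, ← pow_mul, ← pow_mul, mul_comm T 2]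
        field_simp
      have h6 : ‖w - 1‖ ^ 2 / ‖w‖ ≤ 4 * (‖p‖ ^ (2 * N))⁻¹ := by
        have h7 : ‖w - 1‖ ≤ ‖w‖ + 1 := by
          have := norm_sub_le w 1
          rwa [norm_one] at this
        rw [div_le_iff₀ hwn]
        set a := ‖p‖ ^ (2 * N) with ha
        have h8 : a ≤ ‖w‖ := hw.1
        have h9 : ‖w‖ * a ≤ 1 := hw.2
        have h10 : ‖w - 1‖ ^ 2 ≤ (‖w‖ + 1) ^ 2 := by gcongr
        refine h10.trans ?_
        rw [mul_assoc, mul_comm a⁻¹, ← mul_assoc, ← div_eq_mul_inv, le_div_iff₀ hp2N]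
        nlinarith
      have h7 : 4 / R * (4 * (‖p‖ ^ (2 * N))⁻¹) = (4 * ‖p‖ ^ N) ^ 2 := by
        rw [div_eq_mul_inv, hRinv, hpN]
        have : ‖p‖ ^ (2 * N) = (‖p‖ ^ N) ^ 2 := by rw [← pow_mul]; congr 1; ring
        rw [this]
        have h0 : 0 < ‖p‖ ^ N := by positivity
        field_simp
      rw [h5]
      calc ‖Φ w‖ * (‖w - 1‖ ^ 2 / ‖w‖) ^ T
          ≤ ((E + η) ^ 2 * (4 / R) ^ T) * (4 * (‖p‖ ^ (2 * N))⁻¹) ^ T := by gcongr
        _ = (E + η) ^ 2 * ((4 / R) * (4 * (‖p‖ ^ (2 * N))⁻¹)) ^ T := by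
          rw [mul_pow (4 / R : ℝ)]; ring
        _ = _ := by rw [h7, mul_pow (E + η), ← pow_mul, ← pow_mul, mul_comm 2 T]
  have hfin : ‖G w - pol w‖ ≤ (E + η) * (4 * ‖p‖ ^ N) ^ T :=
    le_of_sq_le_sq hsq (by positivity)
  have h1 : ‖G w‖ ≤ ‖G w - pol w‖ + ‖pol w‖ := by
    have := norm_add_le (G w - pol w) (pol w)
    rwa [sub_add_cancel] at this
  have h2 : ‖pol w‖ ≤ η := by
    apply hη
    exact Ann_mono hp1.le (by omega) hw
  linarith

end H32.T3
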