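import Mathlib

/-!
# The theta product

`AA p x = ∏ (1 - p^(2n+1) x)` and `th p w = AA p w * AA p w⁻¹`.
-/

namespace H32.T3

open Complex Filter Topology Finset

/-- Half of the theta product. -/
noncomputable def AA (p x : ℂ) : ℂ := ∏' n : ℕ, (1 + -(p ^ (2 * n + 1) * x))

lemma summable_pow_aux {p : ℂ} (hp : ‖p‖ < 1) (x : ℂ) :
    HasSum (fun n : ℕ ↦ ‖-(p ^ (2 * n + 1) * x)‖) (‖p‖ * ‖x‖ / (1 - ‖p‖ ^ 2)) := by
  have h : (fun n : ℕ ↦ ‖-(p ^ (2 * n + 1) * x)‖) = fun n : ℕ ↦ (‖p‖ * ‖x‖) * (‖p‖ ^ 2) ^ n := by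
    ext n
    rw [norm_neg, norm_mul, norm_pow]
    ring
  rw [h, div_eq_mul_inv]
  refine (hasSum_geometric_of_lt_one (by positivity) ?_).mul_left _
  have := norm_nonneg p
  nlinarith

lemma multipliable_AA {p : ℂ} (hp : ‖p‖ < 1) (x : ℂ) :
    Multipliable fun n : ℕ ↦ (1 + -(p ^ (2 * n + 1) * x)) :=
  multipliable_one_add_of_summable (summable_pow_aux hp x).summable

lemma mlu_AA {p : ℂ} (hp : ‖p‖ < 1) (R : ℝ) :
    MultipliableLocallyUniformlyOn (fun (n : ℕ) (x : ℂ) ↦ 1 + -(p ^ (2 * n + 1) * x))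
      (Metric.ball (0 : ℂ) R) := by
  refine Summable.multipliableLocallyUniformlyOn_nat_one_add
    (f := fun (n : ℕ) (x : ℂ) ↦ -(p ^ (2 * n + 1) * x)) Metric.isOpen_ball
    (summable_pow_aux hp R).summable ?_ ?_
  · refine Filter.Eventually.of_forall fun n x hx ↦ ?_
    rw [mem_ball_zero_iff] at hx
    rw [norm_neg, norm_neg, norm_mul, norm_mul]
    have h1 : ‖x‖ ≤ ‖(R : ℂ)‖ := by
      rw [Complex.norm_real]
      exact hx.le.trans (le_abs_self _)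
    gcongr
  · intro n
    fun_prop

lemma differentiable_AA {p : ℂ} (hp : ‖p‖ < 1) : Differentiable ℂ (AA p) := by
  intro x
  have h := (mlu_AA hp (‖x‖ + 1)).hasProdLocallyUniformlyOn.differentiableOn
    (.of_forall fun _ ↦ by simpa [Finset.prod_fn] using
      DifferentiableOn.finsetProd (fun _ _ ↦ by fun_prop)) Metric.isOpen_ball
  have hx : x ∈ Metric.ball (0 : ℂ) (‖x‖ + 1) := by
    rw [mem_ball_zero_iff]; linarith
  exact (h x hx).differentiableAt (Metric.isOpen_ball.mem_nhds hx)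

lemma AA_succ {p : ℂ} (hp : ‖p‖ < 1) (x : ℂ) : AA p x = (1 - p * x) * AA p (p ^ 2 * x) := by
  have h1 : (fun n : ℕ ↦ 1 + -(p ^ (2 * (n + 1) + 1) * x)) =
      fun n : ℕ ↦ 1 + -(p ^ (2 * n + 1) * (p ^ 2 * x)) := by
    ext n; ring
  have h2 : Multipliable fun n : ℕ ↦ 1 + -(p ^ (2 * (n + 1) + 1) * x) := by
    rw [h1]; exact multipliable_AA hp (p ^ 2 * x)
  rw [AA, tprod_eq_zero_mul' h2, AA, h1]
  congr 1
  ring

lemma AA_iter {p : ℂ} (hp : ‖p‖ < 1) (x : ℂ) (M : ℕ) :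
    AA p x = (∏ n ∈ range M, (1 - p ^ (2 * n + 1) * x)) * AA p (p ^ (2 * M) * x) := by
  induction M with
  | zero => simp
  | succ M ih =>
    rw [ih, prod_range_succ, mul_assoc, AA_succ hp]
    congr 2
    · ring_nf
    · congr 1; ring

lemma AA_sub_one {p : ℂ} (hp : ‖p‖ < 1) (x : ℂ) :
    ‖AA p x - 1‖ ≤ Real.exp (‖p‖ * ‖x‖ / (1 - ‖p‖ ^ 2)) - 1 := by
  have h1 := (multipliable_AA hp x).hasProd
  have h2 : Tendsto (fun s : Finset ℕ ↦ ‖∏ n ∈ s, (1 + -(p ^ (2 * n + 1) * x)) - 1‖) atTop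
      (𝓝 ‖AA p x - 1‖) := ((h1.sub_const 1).norm)
  refine le_of_tendsto h2 (.of_forall fun s ↦ ?_)
  refine (Finset.norm_prod_one_add_sub_one_le s _).trans ?_
  have h3 := summable_pow_aux hp x
  have h4 := h3.summable.sum_le_tsum s (fun _ _ ↦ norm_nonneg _)
  rw [h3.tsum_eq] at h4
  gcongr

lemma AA_ne_zero {p : ℂ} (hp : ‖p‖ < 1) {x : ℂ} (hx : ‖p * x‖ < 1) : AA p x ≠ 0 := by
  refine tprod_one_add_ne_zero_of_summable (fun n h ↦ ?_) (summable_pow_aux hp x).summable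
  have h1 : ‖p ^ (2 * n + 1) * x‖ < 1 := by
    calc ‖p ^ (2 * n + 1) * x‖ = ‖p‖ ^ (2 * n) * ‖p * x‖ := by
          rw [norm_mul, norm_pow, norm_mul]; ring
      _ ≤ 1 * ‖p * x‖ := by
          gcongr
          exact pow_le_one₀ (norm_nonneg _) hp.le
      _ < 1 := by rwa [one_mul]
  have h2 : p ^ (2 * n + 1) * x = 1 := by linear_combination -h
  rw [h2, norm_one] at h1
  exact lt_irrefl _ h1

/-- Upper bound. -/
lemma AA_le {p : ℂ} {r : ℝ} (hr : r < 1) (hp : ‖p‖ ≤ r) {x : ℂ} {M : ℕ}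
    (hx : ‖p‖ ^ (2 * M) * ‖x‖ ≤ 1) :
    ‖AA p x‖ ≤ (1 + ‖x‖) ^ M * Real.exp (r / (1 - r ^ 2)) := by
  have hp1 : ‖p‖ < 1 := hp.trans_lt hr
  have hr0 : 0 ≤ r := (norm_nonneg p).trans hp
  rw [AA_iter hp1 x M, norm_mul]
  have h1 : ‖∏ n ∈ range M, (1 - p ^ (2 * n + 1) * x)‖ ≤ (1 + ‖x‖) ^ M := by
    rw [norm_prod]
    calc ∏ n ∈ range M, ‖1 - p ^ (2 * n + 1) * x‖ ≤ ∏ _n ∈ range M, (1 + ‖x‖) := by
          refine prod_le_prod (fun _ _ ↦ norm_nonneg _) fun n _ ↦ ?_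
          refine (norm_sub_le _ _).trans ?_
          rw [norm_one, norm_mul, norm_pow]
          have : ‖p‖ ^ (2 * n + 1) ≤ 1 := pow_le_one₀ (norm_nonneg _) hp1.le
          have h0 := norm_nonneg x
          nlinarith
      _ = _ := by simp
  have h2 : ‖AA p (p ^ (2 * M) * x)‖ ≤ Real.exp (r / (1 - r ^ 2)) := by
    have h3 := AA_sub_one hp1 (p ^ (2 * M) * x)
    have h4 : ‖AA p (p ^ (2 * M) * x)‖ ≤ ‖AA p (p ^ (2 * M) * x) - 1‖ + 1 := by
      have := norm_add_le (AA p (p ^ (2 * M) * x) - 1) 1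
      rw [sub_add_cancel, norm_one] at this
      exact this
    refine h4.trans ?_
    have h5 : ‖p‖ * ‖p ^ (2 * M) * x‖ / (1 - ‖p‖ ^ 2) ≤ r / (1 - r ^ 2) := by
      rw [norm_mul, norm_pow]
      have h6 : 0 < 1 - r ^ 2 := by nlinarith
      have h7 : ‖p‖ ^ 2 ≤ r ^ 2 := by gcongr
      have h8 := norm_nonneg p
      apply div_le_div₀ hr0 _ h6 (by linarith)
      calc ‖p‖ * (‖p‖ ^ (2 * M) * ‖x‖) ≤ ‖p‖ * 1 := by gcongr
        _ ≤ r := by linarith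
    have h6 := Real.exp_le_exp.mpr h5
    linarith
  gcongr

/-- Lower bound. -/
lemma AA_ge {r ρ : ℝ} (hr : r < 1) (hr0 : 0 ≤ r) (hρ0 : 0 ≤ ρ) (hρ : r * ρ < 1) :
    ∃ c : ℝ, 0 < c ∧ ∀ p x : ℂ, ‖p‖ ≤ r → ‖x‖ ≤ ρ → c ≤ ‖AA p x‖ := by
  have h6 : 0 < 1 - r ^ 2 := by nlinarith
  -- the tail
  obtain ⟨M, hM⟩ : ∃ M : ℕ, r * ((r ^ 2) ^ M * ρ) / (1 - r ^ 2) ≤ Real.log (3 / 2) := by
    have h1 : Tendsto (fun M : ℕ ↦ r * ((r ^ 2) ^ M * ρ) / (1 - r ^ 2)) atTop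
        (𝓝 (r * (0 * ρ) / (1 - r ^ 2))) := by
      have := tendsto_pow_atTop_nhds_zero_of_lt_one (r := r ^ 2) (by positivity) (by nlinarith)
      exact (((this.mul_const ρ).const_mul r).div_const _)
    rw [zero_mul, mul_zero, zero_div] at h1
    have h2 : 0 < Real.log (3 / 2) := Real.log_pos (by norm_num)
    exact (h1.eventually_le_const h2).exists
  refine ⟨(1 - r * ρ) ^ M * (1 / 2), by have : 0 < 1 - r * ρ := by linarith
                                        positivity, fun p x hp hx ↦ ?_⟩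
  have hp1 : ‖p‖ < 1 := hp.trans_lt hr
  rw [AA_iter hp1 x M, norm_mul]
  have h0 : 0 < 1 - r * ρ := by linarith
  have h1 : (1 - r * ρ) ^ M ≤ ‖∏ n ∈ range M, (1 - p ^ (2 * n + 1) * x)‖ := by
    rw [norm_prod]
    calc (1 - r * ρ) ^ M = ∏ _n ∈ range M, (1 - r * ρ) := by simp
      _ ≤ _ := by
        refine prod_le_prod (fun _ _ ↦ h0.le) fun n _ ↦ ?_
        have h2 := norm_sub_norm_le 1 (p ^ (2 * n + 1) * x)
        rw [norm_one] at h2
        have h3 : ‖p ^ (2 * n + 1) * x‖ ≤ r * ρ := by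
          rw [norm_mul, norm_pow, pow_succ]
          have h4 : ‖p‖ ^ (2 * n) ≤ 1 := pow_le_one₀ (norm_nonneg _) hp1.le
          calc ‖p‖ ^ (2 * n) * ‖p‖ * ‖x‖ ≤ 1 * r * ρ := by gcongr
            _ = _ := by rw [one_mul]
        linarith
  have h2 : 1 / 2 ≤ ‖AA p (p ^ (2 * M) * x)‖ := by
    have h3 := AA_sub_one hp1 (p ^ (2 * M) * x)
    have h4 : 1 - ‖AA p (p ^ (2 * M) * x) - 1‖ ≤ ‖AA p (p ^ (2 * M) * x)‖ := by
      have := norm_sub_norm_le (1 : ℂ) (1 - AA p (p ^ (2 * M) * x))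
      rw [norm_one, sub_sub_cancel, norm_sub_rev] at this
      exact this
    have h5 : ‖p‖ * ‖p ^ (2 * M) * x‖ / (1 - ‖p‖ ^ 2) ≤ Real.log (3 / 2) := by
      refine le_trans ?_ hM
      rw [norm_mul, norm_pow, pow_mul]
      have h7 : ‖p‖ ^ 2 ≤ r ^ 2 := by gcongr
      have h8 := norm_nonneg p
      apply div_le_div₀ (by positivity) _ h6 (by linarith)
      gcongr
    have h6 := Real.exp_le_exp.mpr h5
    rw [Real.exp_log (by norm_num)] at h6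
    linarith
  gcongr

/-- The logarithmic derivative. -/
lemma logDeriv_AA {p : ℂ} (hp : ‖p‖ < 1) {x : ℂ} (hx : ‖p * x‖ < 1) :
    logDeriv (AA p) x = ∑' n : ℕ, -(p ^ (2 * n + 1) / (1 - p ^ (2 * n + 1) * x)) := by
  have hx' : x ∈ Metric.ball (0 : ℂ) (‖x‖ + 1) := by
    rw [mem_ball_zero_iff]; linarith
  have hlt : ∀ n : ℕ, ‖p ^ (2 * n + 1) * x‖ ≤ ‖p * x‖ := fun n ↦ by
    calc ‖p ^ (2 * n + 1) * x‖ = ‖p‖ ^ (2 * n) * ‖p * x‖ := by
          rw [norm_mul, norm_pow, norm_mul]; ring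
      _ ≤ 1 * ‖p * x‖ := by
          gcongr
          exact pow_le_one₀ (norm_nonneg _) hp.le
      _ = _ := one_mul _
  have hge : ∀ n : ℕ, 1 - ‖p * x‖ ≤ ‖1 - p ^ (2 * n + 1) * x‖ := fun n ↦ by
    have h2 := norm_sub_norm_le 1 (p ^ (2 * n + 1) * x)
    rw [norm_one] at h2
    have := hlt n
    linarith
  have hld : ∀ n : ℕ, logDeriv (fun x : ℂ ↦ 1 + -(p ^ (2 * n + 1) * x)) x =
      -(p ^ (2 * n + 1) / (1 - p ^ (2 * n + 1) * x)) := by
    intro n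
    rw [logDeriv_apply]
    have : deriv (fun x : ℂ ↦ 1 + -(p ^ (2 * n + 1) * x)) x = -(p ^ (2 * n + 1)) := by
      have h := ((hasDerivAt_id x).const_mul (p ^ (2 * n + 1))).neg.const_add 1
      simp only [mul_one] at h
      exact h.deriv
    rw [this, neg_div, sub_eq_add_neg]
  have hsum : Summable fun n : ℕ ↦ -(p ^ (2 * n + 1) / (1 - p ^ (2 * n + 1) * x)) := by
    refine Summable.of_norm_bounded (g := fun n : ℕ ↦ ‖-(p ^ (2 * n + 1) * 1)‖ / (1 - ‖p * x‖))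
      ((summable_pow_aux hp 1).summable.div_const _) fun n ↦ ?_
    rw [norm_neg, norm_neg, mul_one, norm_div]
    have := hge n
    gcongr
  have key := logDeriv_tprod_eq_tsum (s := Metric.ball (0 : ℂ) (‖x‖ + 1)) Metric.isOpen_ball hx'
    (f := fun (n : ℕ) (x : ℂ) ↦ 1 + -(p ^ (2 * n + 1) * x)) ?_ ?_ ?_ (mlu_AA hp _) ?_
  · change logDeriv (AA p) x = _ at key
    rw [key]
    exact tsum_congr hld
  · intro n h
    have h1 := hge n
    rw [sub_eq_add_neg (1 : ℂ), h, norm_zero] at h1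
    linarith
  · intro n; fun_prop
  · simp_rw [hld]; exact hsum
  · exact AA_ne_zero hp hx

end H32.T3
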