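import Pool.Agent.H32.T3.Theta

/-!
# The functions `th, th1, th2` on the punctured plane
-/

namespace H32.T3

open Complex Filter Topology Finset

/-- The theta product. -/
noncomputable def th (p w : ℂ) : ℂ := AA p w * AA p w⁻¹

/-- The derivation `d / ds` for `w = exp (2 π i s)`. -/
noncomputable def Dw (f : ℂ → ℂ) (w : ℂ) : ℂ := 2 * Real.pi * I * w * deriv f w

noncomputable def th1 (p : ℂ) : ℂ → ℂ := Dw (th p)

noncomputable def th2 (p : ℂ) : ℂ → ℂ := Dw (th1 p)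

lemma isOpen_U : IsOpen ({0}ᶜ : Set ℂ) := isOpen_compl_singleton

lemma mem_U {w : ℂ} : w ∈ ({0}ᶜ : Set ℂ) ↔ w ≠ 0 := by simp

lemma diff_th {p : ℂ} (hp : ‖p‖ < 1) : DifferentiableOn ℂ (th p) {0}ᶜ := by
  intro w hw
  have h1 := differentiable_AA hp w
  have h2 : DifferentiableAt ℂ (fun w ↦ AA p w⁻¹) w :=
    (differentiable_AA hp w⁻¹).comp w (differentiableAt_inv (mem_U.mp hw))
  exact (h1.mul h2).differentiableWithinAt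

lemma diff_Dw {f : ℂ → ℂ} (hf : DifferentiableOn ℂ f {0}ᶜ) : DifferentiableOn ℂ (Dw f) {0}ᶜ := by
  have h := hf.deriv isOpen_U
  unfold Dw
  fun_prop

lemma diff_th1 {p : ℂ} (hp : ‖p‖ < 1) : DifferentiableOn ℂ (th1 p) {0}ᶜ := diff_Dw (diff_th hp)

lemma diff_th2 {p : ℂ} (hp : ‖p‖ < 1) : DifferentiableOn ℂ (th2 p) {0}ᶜ := diff_Dw (diff_th1 hp)

lemma th_q {p : ℂ} (hp : ‖p‖ < 1) (hp0 : p ≠ 0) {w : ℂ} (hw : w ≠ 0) :
    th p (p ^ 2 * w) = -(p * w)⁻¹ * th p w := by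
  rw [th, th, AA_succ hp w, AA_succ hp (p ^ 2 * w)⁻¹]
  have e : p ^ 2 * (p ^ 2 * w)⁻¹ = w⁻¹ := by field_simp
  rw [e]
  field_simp
  ring

lemma Dw_q {p : ℂ} (hp0 : p ≠ 0) {f g : ℂ → ℂ} (hf : DifferentiableOn ℂ f {0}ᶜ)
    (hg : DifferentiableOn ℂ g {0}ᶜ) (h : ∀ w ≠ 0, f (p ^ 2 * w) = -(p * w)⁻¹ * g w)
    {w : ℂ} (hw : w ≠ 0) :
    Dw f (p ^ 2 * w) = -(p * w)⁻¹ * (Dw g w - 2 * Real.pi * I * g w) := by
  have hpw : p ^ 2 * w ≠ 0 := mul_ne_zero (pow_ne_zero _ hp0) hw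
  have h1 : HasDerivAt f (deriv f (p ^ 2 * w)) (p ^ 2 * w) :=
    ((hf _ hpw).differentiableAt (isOpen_U.mem_nhds hpw)).hasDerivAt
  have h2 : HasDerivAt (fun w ↦ f (p ^ 2 * w)) (deriv f (p ^ 2 * w) * (p ^ 2 * 1)) w :=
    h1.comp w ((hasDerivAt_id w).const_mul (p ^ 2))
  have h3 : HasDerivAt g (deriv g w) w :=
    ((hg _ hw).differentiableAt (isOpen_U.mem_nhds hw)).hasDerivAt
  have h4 : HasDerivAt (fun w ↦ -(p * w)⁻¹ * g w)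
      (-(-(p * 1) / (p * w) ^ 2) * g w + -(p * w)⁻¹ * deriv g w) w :=
    ((((hasDerivAt_id w).const_mul p).fun_inv (mul_ne_zero hp0 hw)).fun_neg).mul h3
  have h5 : (fun w ↦ f (p ^ 2 * w)) =ᶠ[𝓝 w] fun w ↦ -(p * w)⁻¹ * g w := by
    filter_upwards [isOpen_U.mem_nhds hw] with v hv using h v hv
  have h6 := h2.unique (h4.congr_of_eventuallyEq h5)
  have h7 : p ^ 2 * deriv f (p ^ 2 * w) = (p * w ^ 2)⁻¹ * g w - (p * w)⁻¹ * deriv g w := by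
    rw [mul_one] at h6
    rw [mul_comm, h6]
    field_simp
    ring
  rw [Dw, Dw]
  have h8 : 2 * Real.pi * I * (p ^ 2 * w) * deriv f (p ^ 2 * w) =
      2 * Real.pi * I * w * (p ^ 2 * deriv f (p ^ 2 * w)) := by ring
  rw [h8, h7]
  field_simp
  ring

lemma th1_q {p : ℂ} (hp : ‖p‖ < 1) (hp0 : p ≠ 0) {w : ℂ} (hw : w ≠ 0) :
    th1 p (p ^ 2 * w) = -(p * w)⁻¹ * (th1 p w - 2 * Real.pi * I * th p w) :=
  Dw_q hp0 (diff_th hp) (diff_th hp) (fun _ hw ↦ th_q hp hp0 hw) hw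

lemma th2_q {p : ℂ} (hp : ‖p‖ < 1) (hp0 : p ≠ 0) {w : ℂ} (hw : w ≠ 0) :
    th2 p (p ^ 2 * w) = -(p * w)⁻¹ *
      (th2 p w - 2 * (2 * Real.pi * I) * th1 p w + (2 * Real.pi * I) ^ 2 * th p w) := by
  have hd : DifferentiableOn ℂ (fun w ↦ th1 p w - 2 * Real.pi * I * th p w) {0}ᶜ :=
    (diff_th1 hp).sub ((diff_th hp).const_mul _)
  have h := Dw_q hp0 (diff_th1 hp) hd (fun _ hw ↦ th1_q hp hp0 hw) hw
  have e : Dw (fun w ↦ th1 p w - 2 * Real.pi * I * th p w) w =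
      th2 p w - 2 * Real.pi * I * th1 p w := by
    have h1 : HasDerivAt (th1 p) (deriv (th1 p) w) w :=
      ((diff_th1 hp _ hw).differentiableAt (isOpen_U.mem_nhds hw)).hasDerivAt
    have h2 : HasDerivAt (th p) (deriv (th p) w) w :=
      ((diff_th hp _ hw).differentiableAt (isOpen_U.mem_nhds hw)).hasDerivAt
    have h3 := (h1.fun_sub (h2.const_mul (2 * Real.pi * I))).deriv
    rw [Dw, h3, th2, th1, Dw, Dw]
    ring
  rw [e] at h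
  change th2 p (p ^ 2 * w) = _ at h
  rw [h]
  ring

/-- The closed annulus. -/
def Ann (p : ℂ) (M : ℕ) : Set ℂ := {w | ‖p‖ ^ (2 * M) ≤ ‖w‖ ∧ ‖w‖ * ‖p‖ ^ (2 * M) ≤ 1}

lemma Ann_ne_zero {p : ℂ} (hp0 : p ≠ 0) {M : ℕ} {w : ℂ} (hw : w ∈ Ann p M) : w ≠ 0 := by
  rintro rfl
  have h1 := hw.1
  rw [norm_zero] at h1
  have h2 : 0 < ‖p‖ ^ (2 * M) := by
    have := norm_pos_iff.mpr hp0
    positivity
  linarith

lemma th_le {p : ℂ} {r c : ℝ} (hr : r < 1) (hp : ‖p‖ ≤ r) (hc : 1 ≤ c)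
    (hpc : Real.exp (-c) ≤ ‖p‖) {M : ℕ} {w : ℂ} (hw : w ∈ Ann p M) :
    ‖th p w‖ ≤ Real.exp ((4 * c + 2 + 2 * r / (1 - r ^ 2)) * (M + 1) ^ 2) := by
  have hp0 : 0 < ‖p‖ := (Real.exp_pos _).trans_le hpc
  have hpn : p ≠ 0 := norm_pos_iff.mp hp0
  have hr0 : 0 ≤ r := hp0.le.trans hp
  have hw0 := Ann_ne_zero hpn hw
  have hwn : 0 < ‖w‖ := norm_pos_iff.mpr hw0
  have hpM : 0 < ‖p‖ ^ (2 * M) := by positivity
  have hpinv : (‖p‖ ^ (2 * M))⁻¹ ≤ Real.exp (2 * c * M) := by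
    have h1 : Real.exp (-c) ^ (2 * M) ≤ ‖p‖ ^ (2 * M) := by gcongr
    have h2 : Real.exp (-c) ^ (2 * M) = (Real.exp (2 * c * M))⁻¹ := by
      rw [← Real.exp_nat_mul, ← Real.exp_neg]
      congr 1
      push_cast; ring
    rw [h2] at h1
    exact inv_le_of_inv_le₀ (Real.exp_pos _) h1
  have key : ∀ x : ℂ, ‖x‖ * ‖p‖ ^ (2 * M) ≤ 1 → ‖AA p x‖ ≤
      Real.exp ((2 * c * M + 1) * M + r / (1 - r ^ 2)) := by
    intro x hx
    have h1 := AA_le hr hp (x := x) (M := M) (by linarith)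
    have hxle : ‖x‖ ≤ Real.exp (2 * c * M) := by
      refine le_trans ?_ hpinv
      rw [← one_div]
      exact (le_div_iff₀ hpM).mpr hx
    have h2 : 1 + ‖x‖ ≤ Real.exp (2 * c * M + 1) := by
      rw [Real.exp_add]
      have h3 : 1 ≤ Real.exp (2 * c * M) := Real.one_le_exp (by positivity)
      have h4 := Real.add_one_le_exp (1 : ℝ)
      nlinarith
    refine h1.trans ?_
    rw [Real.exp_add, mul_comm (2 * c * M + 1 : ℝ), Real.exp_nat_mul]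
    gcongr
  have h1 := key w hw.2
  have h2 := key w⁻¹ (by
    rw [norm_inv]
    calc ‖w‖⁻¹ * ‖p‖ ^ (2 * M) ≤ ‖w‖⁻¹ * ‖w‖ := by gcongr; exact hw.1
      _ = 1 := inv_mul_cancel₀ hwn.ne')
  rw [th, norm_mul]
  calc ‖AA p w‖ * ‖AA p w⁻¹‖ ≤ Real.exp ((2 * c * M + 1) * M + r / (1 - r ^ 2)) *
        Real.exp ((2 * c * M + 1) * M + r / (1 - r ^ 2)) := by gcongr
    _ = Real.exp (2 * ((2 * c * M + 1) * M + r / (1 - r ^ 2))) := by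
      rw [← Real.exp_add]; congr 1; ring
    _ ≤ _ := by
      apply Real.exp_le_exp.mpr
      have h6 : 0 < 1 - r ^ 2 := by nlinarith
      have h7 : 0 ≤ r / (1 - r ^ 2) := by positivity
      have hM : (0 : ℝ) ≤ M := Nat.cast_nonneg M
      have e : 2 * r / (1 - r ^ 2) = 2 * (r / (1 - r ^ 2)) := by ring
      rw [e]
      set a := r / (1 - r ^ 2)
      have h8 : a ≤ a * (M + 1) ^ 2 := by
        refine le_mul_of_one_le_right h7 (one_le_pow₀ (by linarith))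
      nlinarith [mul_nonneg (by linarith : (0:ℝ) ≤ c) hM]

lemma Ann_ball {p : ℂ} {r : ℝ} (hr : r < 1) (hp0 : p ≠ 0) (hp : ‖p‖ ≤ r) {M : ℕ}
    {w : ℂ} (hw : w ∈ Ann p M) {v : ℂ} (hv : ‖v - w‖ ≤ (1 - r ^ 2) * ‖w‖) : v ∈ Ann p (M + 1) := by
  have hw0 := Ann_ne_zero hp0 hw
  have hwn : 0 < ‖w‖ := norm_pos_iff.mpr hw0
  have hpn : 0 < ‖p‖ := norm_pos_iff.mpr hp0
  have hr0 : 0 < r := hpn.trans_le hp
  have hρ : 0 < 1 - r ^ 2 := by nlinarith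
  have hpr : ‖p‖ ^ 2 ≤ r ^ 2 := by gcongr
  have h1 : ‖w‖ - (1 - r ^ 2) * ‖w‖ ≤ ‖v‖ := by
    have := norm_sub_norm_le w v
    rw [norm_sub_rev] at this
    linarith
  have h2 : ‖v‖ ≤ ‖w‖ + (1 - r ^ 2) * ‖w‖ := by
    have := norm_sub_norm_le v w
    linarith
  have h3 : ‖p‖ ^ (2 * (M + 1)) = ‖p‖ ^ (2 * M) * ‖p‖ ^ 2 := by ring
  refine ⟨?_, ?_⟩
  · rw [h3]
    calc ‖p‖ ^ (2 * M) * ‖p‖ ^ 2 ≤ ‖w‖ * r ^ 2 := by gcongr; exact hw.1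
      _ ≤ ‖v‖ := by linarith
  · rw [h3]
    calc ‖v‖ * (‖p‖ ^ (2 * M) * ‖p‖ ^ 2) ≤ (‖w‖ + (1 - r ^ 2) * ‖w‖) * (‖p‖ ^ (2 * M) * r ^ 2) := by
          gcongr
      _ = (‖w‖ * ‖p‖ ^ (2 * M)) * ((2 - r ^ 2) * r ^ 2) := by ring
      _ ≤ 1 * 1 := by
          gcongr
          · nlinarith
          · exact hw.2
          · nlinarith [sq_nonneg (r ^ 2 - 1)]
      _ = 1 := one_mul 1

/-- Cauchy's estimate for `Dw`. -/
lemma Dw_le {p : ℂ} {r : ℝ} (hr : r < 1) (hp0 : p ≠ 0) (hp : ‖p‖ ≤ r) {f : ℂ → ℂ}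
    (hf : DifferentiableOn ℂ f {0}ᶜ) {M : ℕ} {S : ℝ} (hS : ∀ w ∈ Ann p (M + 1), ‖f w‖ ≤ S)
    {w : ℂ} (hw : w ∈ Ann p M) : ‖Dw f w‖ ≤ 2 * Real.pi / (1 - r ^ 2) * S := by
  have hw0 := Ann_ne_zero hp0 hw
  have hwn : 0 < ‖w‖ := norm_pos_iff.mpr hw0
  have hpn : 0 < ‖p‖ := norm_pos_iff.mpr hp0
  have hr0 : 0 < r := hpn.trans_le hp
  have hρ : 0 < 1 - r ^ 2 := by nlinarith
  have hR : 0 < (1 - r ^ 2) * ‖w‖ := by positivity
  have hsub : ∀ v : ℂ, dist v w ≤ (1 - r ^ 2) * ‖w‖ → v ∈ Ann p (M + 1) := by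
    intro v hv
    rw [dist_eq_norm] at hv
    exact Ann_ball hr hp0 hp hw hv
  have hd : DiffContOnCl ℂ f (Metric.ball w ((1 - r ^ 2) * ‖w‖)) := by
    apply DifferentiableOn.diffContOnCl
    apply hf.mono
    intro v hv
    have h1 := Metric.closure_ball_subset_closedBall hv
    exact Ann_ne_zero hp0 (hsub v (Metric.mem_closedBall.mp h1))
  have h1 := Complex.norm_deriv_le_of_forall_mem_sphere_norm_le hR hd
    (fun z hz ↦ hS z (hsub z (le_of_eq (Metric.mem_sphere.mp hz))))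
  rw [Dw]
  have e : ‖2 * (Real.pi : ℂ) * I * w * deriv f w‖ = 2 * Real.pi * ‖w‖ * ‖deriv f w‖ := by
    rw [norm_mul, norm_mul, norm_mul, norm_mul, Complex.norm_I, Complex.norm_real,
      Real.norm_of_nonneg Real.pi_pos.le]
    norm_num
  rw [e]
  calc 2 * Real.pi * ‖w‖ * ‖deriv f w‖ ≤ 2 * Real.pi * ‖w‖ * (S / ((1 - r ^ 2) * ‖w‖)) := by
        gcongr
    _ = _ := by field_simp

lemma Ann_mono {p : ℂ} (hp : ‖p‖ ≤ 1) {M N : ℕ} (h : M ≤ N) : Ann p M ⊆ Ann p N := by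
  intro w hw
  have h1 : ‖p‖ ^ (2 * N) ≤ ‖p‖ ^ (2 * M) := pow_le_pow_of_le_one (norm_nonneg _) hp (by omega)
  refine ⟨h1.trans hw.1, le_trans ?_ hw.2⟩
  gcongr

end H32.T3
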