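import Pool.Agent.H32.T3.Theta2

/-!
# Uniform bounds for the theta functions
-/

namespace H32.T3

open Complex Filter Topology Finset

noncomputable def P1 (lam p w : ℂ) : ℂ := lam⁻¹ * th1 p w

noncomputable def P2 (lam G p w : ℂ) : ℂ :=
  (lam ^ 2)⁻¹ * (th1 p w ^ 2 - th p w * th2 p w - G * th p w ^ 2)

lemma diff_P1 {p : ℂ} (hp : ‖p‖ < 1) (lam : ℂ) : DifferentiableOn ℂ (P1 lam p) {0}ᶜ :=
  (diff_th1 hp).const_mul _

lemma diff_P2 {p : ℂ} (hp : ‖p‖ < 1) (lam G : ℂ) : DifferentiableOn ℂ (P2 lam G p) {0}ᶜ := by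
  have h0 := diff_th hp
  have h1 := diff_th1 hp
  have h2 := diff_th2 hp
  unfold P2
  fun_prop

lemma P1_q {p : ℂ} (hp : ‖p‖ < 1) (hp0 : p ≠ 0) (lam : ℂ) {w : ℂ} (hw : w ≠ 0) :
    P1 lam p (p ^ 2 * w) = -(p * w)⁻¹ * (P1 lam p w - 2 * Real.pi * I / lam * th p w) := by
  rw [P1, P1, th1_q hp hp0 hw]
  ring

lemma P2_q {p : ℂ} (hp : ‖p‖ < 1) (hp0 : p ≠ 0) (lam G : ℂ) {w : ℂ} (hw : w ≠ 0) :
    P2 lam G p (p ^ 2 * w) = (-(p * w)⁻¹) ^ 2 * P2 lam G p w := by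
  rw [P2, P2, th_q hp hp0 hw, th1_q hp hp0 hw, th2_q hp hp0 hw]
  ring

/-- Uniform growth bounds. -/
theorem growth {r c B0 : ℝ} (hr : r < 1) (hr0 : 0 ≤ r) (hc : 1 ≤ c) (hB0 : 1 ≤ B0) :
    ∃ C : ℝ, 1 ≤ C ∧ ∀ p lam G : ℂ, ‖p‖ ≤ r → Real.exp (-c) ≤ ‖p‖ → ‖lam⁻¹‖ ≤ B0 → ‖G‖ ≤ B0 →
      ∀ (M : ℕ), ∀ w ∈ Ann p M, ‖th p w‖ ≤ Real.exp (C * (M + 1) ^ 2) ∧
        ‖P1 lam p w‖ ≤ Real.exp (C * (M + 1) ^ 2) ∧
        ‖P2 lam G p w‖ ≤ Real.exp (C * (M + 1) ^ 2) := by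
  have hρ : 0 < 1 - r ^ 2 := by nlinarith
  set C1 : ℝ := 4 * c + 2 + 2 * r / (1 - r ^ 2) with hC1
  have hC10 : 0 ≤ C1 := by positivity
  set K : ℝ := 1 + 2 * Real.pi / (1 - r ^ 2) with hK
  have hK1 : 1 ≤ K := by
    have : 0 ≤ 2 * Real.pi / (1 - r ^ 2) := by positivity
    linarith
  have hK0 : 2 * Real.pi / (1 - r ^ 2) ≤ K := by linarith
  refine ⟨Real.log (3 * B0 ^ 3 * K ^ 2) + 18 * C1 + 1, ?_, ?_⟩
  · have : 0 ≤ Real.log (3 * B0 ^ 3 * K ^ 2) := by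
      apply Real.log_nonneg
      have h1 : 1 ≤ B0 ^ 3 := one_le_pow₀ hB0
      have h2 : 1 ≤ K ^ 2 := one_le_pow₀ hK1
      nlinarith
    linarith
  intro p lam G hp hpc hlam hG M w hw
  have hpn : 0 < ‖p‖ := (Real.exp_pos _).trans_le hpc
  have hp0 : p ≠ 0 := norm_pos_iff.mp hpn
  have hp1 : ‖p‖ < 1 := hp.trans_lt hr
  have b0 : ∀ N : ℕ, ∀ w ∈ Ann p N, ‖th p w‖ ≤ Real.exp (C1 * (N + 1) ^ 2) :=
    fun N w hw ↦ th_le hr hp hc hpc hw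
  have b1 : ∀ N : ℕ, ∀ w ∈ Ann p N, ‖th1 p w‖ ≤ K * Real.exp (C1 * (N + 2) ^ 2) := by
    intro N w hw
    refine (Dw_le hr hp0 hp (diff_th hp1) (b0 (N + 1)) hw).trans ?_
    push_cast
    rw [show ((N : ℝ) + 1 + 1) = N + 2 by ring]
    gcongr
  have b2 : ∀ N : ℕ, ∀ w ∈ Ann p N, ‖th2 p w‖ ≤ K ^ 2 * Real.exp (C1 * (N + 3) ^ 2) := by
    intro N w hw
    refine (Dw_le hr hp0 hp (diff_th1 hp1) (b1 (N + 1)) hw).trans ?_
    push_cast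
    rw [show ((N : ℝ) + 1 + 2) = N + 3 by ring, pow_two K, mul_assoc]
    gcongr
  have hM : (0 : ℝ) ≤ M := Nat.cast_nonneg M
  set E : ℝ := Real.exp (C1 * (M + 3) ^ 2) with hE
  have hE1 : 1 ≤ E := Real.one_le_exp (by positivity)
  have e0 : ‖th p w‖ ≤ E := (b0 M w hw).trans (Real.exp_le_exp.mpr (by gcongr; linarith))
  have e1 : ‖th1 p w‖ ≤ K * E := (b1 M w hw).trans (by
    rw [hE]; gcongr; linarith)
  have e2 : ‖th2 p w‖ ≤ K ^ 2 * E := b2 M w hw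
  have hEE : 3 * B0 ^ 3 * K ^ 2 * E ^ 2 ≤
      Real.exp ((Real.log (3 * B0 ^ 3 * K ^ 2) + 18 * C1 + 1) * (M + 1) ^ 2) := by
    have h1 : 3 * B0 ^ 3 * K ^ 2 * E ^ 2 =
        Real.exp (Real.log (3 * B0 ^ 3 * K ^ 2) + 2 * (C1 * (M + 3) ^ 2)) := by
      rw [Real.exp_add, Real.exp_log (by positivity), hE, ← Real.exp_nat_mul]
      norm_num
    rw [h1]
    apply Real.exp_le_exp.mpr
    have h2 : 0 ≤ Real.log (3 * B0 ^ 3 * K ^ 2) := by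
      apply Real.log_nonneg
      have h1 : 1 ≤ B0 ^ 3 := one_le_pow₀ hB0
      have h2 : 1 ≤ K ^ 2 := one_le_pow₀ hK1
      nlinarith
    have h3 : Real.log (3 * B0 ^ 3 * K ^ 2) ≤ Real.log (3 * B0 ^ 3 * K ^ 2) * (M + 1) ^ 2 :=
      le_mul_of_one_le_right h2 (one_le_pow₀ (by linarith))
    have h4 : 2 * (C1 * (M + 3) ^ 2) ≤ 18 * C1 * (M + 1) ^ 2 := by
      have : ((M : ℝ) + 3) ^ 2 ≤ 9 * (M + 1) ^ 2 := by nlinarith
      nlinarith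
    have h5 : (0 : ℝ) ≤ (M + 1) ^ 2 := by positivity
    nlinarith
  have hB3 : 1 ≤ B0 ^ 3 := one_le_pow₀ hB0
  have hB2 : 1 ≤ B0 ^ 2 := one_le_pow₀ hB0
  have hK2 : 1 ≤ K ^ 2 := one_le_pow₀ hK1
  refine ⟨?_, ?_, ?_⟩
  · refine le_trans ?_ hEE
    calc ‖th p w‖ ≤ 1 * 1 * 1 * E := by linarith
      _ ≤ 3 * B0 ^ 3 * K ^ 2 * E ^ 2 := by
        gcongr
        · nlinarith
        · exact le_self_pow₀ hE1 (by norm_num)
  · refine le_trans ?_ hEE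
    rw [P1, norm_mul]
    calc ‖lam⁻¹‖ * ‖th1 p w‖ ≤ B0 * (K * E) := by gcongr
      _ = B0 * K * E := by ring
      _ ≤ 3 * B0 ^ 3 * K ^ 2 * E ^ 2 := by
        gcongr
        · have : B0 ≤ B0 ^ 3 := le_self_pow₀ hB0 (by norm_num)
          nlinarith
        · exact le_self_pow₀ hK1 (by norm_num)
        · exact le_self_pow₀ hE1 (by norm_num)
  · refine le_trans ?_ hEE
    rw [P2, norm_mul, ← inv_pow, norm_pow]
    have h1 : ‖th1 p w ^ 2 - th p w * th2 p w - G * th p w ^ 2‖ ≤ 3 * B0 * K ^ 2 * E ^ 2 := by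
      calc ‖th1 p w ^ 2 - th p w * th2 p w - G * th p w ^ 2‖
          ≤ ‖th1 p w‖ ^ 2 + ‖th p w‖ * ‖th2 p w‖ + ‖G‖ * ‖th p w‖ ^ 2 := by
            refine (norm_sub_le _ _).trans ?_
            rw [norm_mul, norm_pow]
            gcongr
            refine (norm_sub_le _ _).trans ?_
            rw [norm_mul, norm_pow]
        _ ≤ (K * E) ^ 2 + E * (K ^ 2 * E) + B0 * E ^ 2 := by gcongr
        _ = (2 * K ^ 2 + B0) * E ^ 2 := by ring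
        _ ≤ _ := by
          gcongr
          nlinarith
    calc ‖lam⁻¹‖ ^ 2 * ‖th1 p w ^ 2 - th p w * th2 p w - G * th p w ^ 2‖
        ≤ B0 ^ 2 * (3 * B0 * K ^ 2 * E ^ 2) := by gcongr
      _ = _ := by ring

/-- Lower bound near `w = 1`. -/
theorem near_one {r : ℝ} (hr : r < 1) (hr0 : 0 ≤ r) :
    ∃ c : ℝ, 0 < c ∧ ∀ p w : ℂ, ‖p‖ ≤ r → ‖w - 1‖ ≤ (1 - r) / 2 → c ≤ ‖th p w‖ := by
  have hρ : r * (2 / (1 + r)) < 1 := by
    rw [mul_div_assoc', div_lt_one (by linarith)]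
    linarith
  obtain ⟨c, hc, h⟩ := AA_ge hr hr0 (ρ := 2 / (1 + r)) (by positivity) hρ
  refine ⟨c * c, by positivity, fun p w hp hw ↦ ?_⟩
  have h1 : ‖w‖ ≤ 2 / (1 + r) := by
    have h2 := norm_sub_norm_le w 1
    rw [norm_one] at h2
    rw [le_div_iff₀ (by linarith)]
    nlinarith [norm_nonneg w, sq_nonneg (1 - r)]
  have h2 : ‖w⁻¹‖ ≤ 2 / (1 + r) := by
    have h2 := norm_sub_norm_le 1 w
    rw [norm_one, norm_sub_rev] at h2
    have h3 : (1 + r) / 2 ≤ ‖w‖ := by linarith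
    rw [norm_inv]
    have h4 : (2 / (1 + r)) = ((1 + r) / 2)⁻¹ := by rw [inv_div]
    rw [h4]
    exact inv_anti₀ (by positivity) h3
  rw [th, norm_mul]
  have := h p w hp h1
  have := h p w⁻¹ hp h2
  gcongr

lemma th_p {p : ℂ} (hp : ‖p‖ < 1) (hp0 : p ≠ 0) : th p p = 0 := by
  rw [th, AA_succ hp p⁻¹, mul_inv_cancel₀ hp0]
  simp

lemma th_fac {p : ℂ} (hp : ‖p‖ < 1) {w : ℂ} :
    th p w = (1 - p * w⁻¹) * (AA p w * AA p (p ^ 2 * w⁻¹)) := by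
  rw [th, AA_succ hp w⁻¹]
  ring

lemma th1_p {p : ℂ} (hp : ‖p‖ < 1) (hp0 : p ≠ 0) :
    th1 p p = 2 * Real.pi * I * (AA p p * AA p p) := by
  have h1 : HasDerivAt (AA p) (deriv (AA p) p) p := (differentiable_AA hp p).hasDerivAt
  have hinv : HasDerivAt (fun w : ℂ ↦ w⁻¹) (-(p ^ 2)⁻¹) p := hasDerivAt_inv hp0
  have h2 : HasDerivAt (fun w ↦ AA p (p ^ 2 * w⁻¹))
      (deriv (AA p) (p ^ 2 * p⁻¹) * (p ^ 2 * (-(p ^ 2)⁻¹))) p :=
    HasDerivAt.comp (h₂ := AA p) (h := fun w : ℂ ↦ p ^ 2 * w⁻¹) p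
      (differentiable_AA hp (p ^ 2 * p⁻¹)).hasDerivAt (hinv.const_mul (p ^ 2))
  have h3 : HasDerivAt (fun w : ℂ ↦ 1 - p * w⁻¹) (-(p * (-(p ^ 2)⁻¹))) p :=
    (hinv.const_mul p).const_sub 1
  have h4 := (h3.mul (h1.mul h2)).deriv
  have e : th p = (fun w : ℂ ↦ 1 - p * w⁻¹) * (AA p * fun w ↦ AA p (p ^ 2 * w⁻¹)) := by
    ext w
    simp only [Pi.mul_apply]
    exact th_fac hp
  rw [th1, Dw, e, h4]
  simp only [Pi.mul_apply]
  have e2 : p ^ 2 * p⁻¹ = p := by field_simp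
  rw [mul_inv_cancel₀ hp0, e2]
  field_simp
  ring

/-- Near the pole. -/
theorem near_pole {r c B0 : ℝ} (hr : r < 1) (hr0 : 0 ≤ r) (hc : 1 ≤ c) (hB0 : 1 ≤ B0) :
    ∃ C : ℝ, 1 ≤ C ∧ ∀ p lam G : ℂ, ‖p‖ ≤ r → Real.exp (-c) ≤ ‖p‖ → lam ≠ 0 → ‖lam⁻¹‖ ≤ B0 →
      ‖lam‖ ≤ B0 → ‖G‖ ≤ B0 → ∀ B : ℝ, 1 ≤ B → ∃ w : ℂ, ‖p‖ ^ 2 ≤ ‖w‖ ∧ ‖w‖ ≤ 1 ∧
        (C * B)⁻¹ ≤ ‖th p w‖ ∧ B * ‖th p w‖ ^ 2 ≤ ‖P2 lam G p w‖ := by
  obtain ⟨C1, hC1, hgr⟩ := growth hr hr0 hc hB0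
  obtain ⟨c1, hc1, hlow⟩ := AA_ge hr hr0 (ρ := 1) (by norm_num) (by linarith)
  set S : ℝ := Real.exp (C1 * 9) with hS
  have hS1 : 1 ≤ S := Real.one_le_exp (by positivity)
  -- lower bound for `P2` at the pole
  set m : ℝ := (B0⁻¹) ^ 2 * (2 * Real.pi * c1 ^ 2) ^ 2 with hm
  have hB00 : 0 < B0 := by linarith
  have hm0 : 0 < m := by
    have := Real.pi_pos
    positivity
  have hρ0 : 0 < 1 - r ^ 2 := by nlinarith
  -- the size of `η`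
  set U : ℝ := Real.exp (r / (1 - r ^ 2)) with hU
  have hU1 : 1 ≤ U := Real.one_le_exp (by positivity)
  set η1 : ℝ := min (min ((1 - r) / 2) ((1 - r ^ 2) / 4))
    (min ((1 - r ^ 2) * m / (12 * S)) (m / (2 * U ^ 4))) with hη1
  have hη10 : 0 < η1 := by
    rw [hη1]
    refine lt_min (lt_min (by linarith) (by linarith)) (lt_min ?_ ?_) <;> positivity
  have hη1a : η1 ≤ (1 - r) / 2 := (min_le_left _ _).trans (min_le_left _ _)
  have hη1b : η1 ≤ (1 - r ^ 2) / 4 := (min_le_left _ _).trans (min_le_right _ _)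
  have hη1c : η1 ≤ (1 - r ^ 2) * m / (12 * S) := (min_le_right _ _).trans (min_le_left _ _)
  have hη1d : η1 ≤ m / (2 * U ^ 4) := (min_le_right _ _).trans (min_le_right _ _)
  refine ⟨max 1 (η1 * c1 ^ 2)⁻¹, le_max_left _ _, ?_⟩
  intro p lam G hp hpc hlam0 hlam hlam' hG B hB
  have hpn : 0 < ‖p‖ := (Real.exp_pos _).trans_le hpc
  have hp0 : p ≠ 0 := norm_pos_iff.mp hpn
  have hp1 : ‖p‖ < 1 := hp.trans_lt hr
  set η : ℝ := η1 / B with hη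
  have hB' : 0 < B := by linarith
  have hη0 : 0 < η := by positivity
  have hηle : η ≤ η1 := div_le_self hη10.le hB
  have hη1' : η < 1 := by linarith
  have hone : (0 : ℝ) < 1 - η := by linarith
  have honeC : ((1 - η : ℝ) : ℂ) ≠ 0 := by exact_mod_cast hone.ne'
  set w : ℂ := p * ((1 - η : ℝ) : ℂ)⁻¹ with hw
  have hw0 : w ≠ 0 := mul_ne_zero hp0 (inv_ne_zero honeC)
  have hpw : p * w⁻¹ = ((1 - η : ℝ) : ℂ) := by
    rw [hw]; field_simp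
  have hnw : ‖w‖ = ‖p‖ / (1 - η) := by
    rw [hw, norm_mul, norm_inv, Complex.norm_real, Real.norm_of_nonneg hone.le, div_eq_mul_inv]
  have hw1 : ‖w‖ ≤ 1 := by
    rw [hnw, div_le_one hone]; linarith
  have hwp : ‖p‖ ≤ ‖w‖ := by
    rw [hnw, le_div_iff₀ hone]; nlinarith
  have hp2 : ‖p‖ ^ 2 ≤ ‖p‖ := by nlinarith
  have hx2 : ‖p ^ 2 * w⁻¹‖ ≤ 1 := by
    have : p ^ 2 * w⁻¹ = p * ((1 - η : ℝ) : ℂ) := by rw [← hpw]; ring
    rw [this, norm_mul, Complex.norm_real, Real.norm_of_nonneg hone.le]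
    nlinarith
  have hthn : ‖th p w‖ = η * (‖AA p w‖ * ‖AA p (p ^ 2 * w⁻¹)‖) := by
    rw [th_fac hp1, hpw, norm_mul, norm_mul]
    congr 1
    have : (1 : ℂ) - ((1 - η : ℝ) : ℂ) = (η : ℂ) := by push_cast; ring
    rw [this, Complex.norm_real, Real.norm_of_nonneg hη0.le]
  have hlo1 := hlow p w hp hw1
  have hlo2 := hlow p _ hp hx2
  have hup : ∀ x : ℂ, ‖x‖ ≤ 1 → ‖AA p x‖ ≤ U := by
    intro x hx
    have := AA_le hr hp (x := x) (M := 0) (by simpa using hx)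
    simpa using this
  have hup1 := hup w hw1
  have hup2 := hup _ hx2
  have hth_lo : η * c1 ^ 2 ≤ ‖th p w‖ := by
    rw [hthn, pow_two c1]
    gcongr
  have hth_hi : ‖th p w‖ ≤ η * U ^ 2 := by
    rw [hthn, pow_two U]
    gcongr
  -- `P2`
  have hpAnn : p ∈ Ann p 1 := by
    refine ⟨by simpa using hp2, ?_⟩
    have : ‖p‖ ^ 2 ≤ 1 := by nlinarith
    simp only [mul_one]
    nlinarith
  have hP2p : m ≤ ‖P2 lam G p p‖ := by
    have e : P2 lam G p p = (lam⁻¹) ^ 2 * (2 * Real.pi * I * (AA p p * AA p p)) ^ 2 := by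
      rw [P2, th_p hp1 hp0, th1_p hp1 hp0]
      ring
    rw [e, norm_mul, norm_pow, norm_pow, hm]
    have h1 : B0⁻¹ ≤ ‖lam⁻¹‖ := by
      rw [norm_inv]
      exact inv_anti₀ (norm_pos_iff.mpr hlam0) hlam'
    have h2 : 2 * Real.pi * c1 ^ 2 ≤ ‖2 * Real.pi * I * (AA p p * AA p p)‖ := by
      have h3 := hlow p p hp hp1.le
      rw [norm_mul, norm_mul, norm_mul, norm_mul, Complex.norm_I, Complex.norm_real,
        Real.norm_of_nonneg Real.pi_pos.le]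
      have h4 := Real.pi_pos
      have h5 : ‖(2 : ℂ)‖ = 2 := by norm_num
      rw [h5, mul_one, pow_two]
      gcongr
    gcongr
  have hball : ∀ v ∈ Metric.ball p ((1 - r ^ 2) * ‖p‖), v ∈ Ann p 2 := by
    intro v hv
    rw [Metric.mem_ball, dist_eq_norm] at hv
    exact Ann_ball hr hp0 hp hpAnn hv.le
  have hS' : ∀ v ∈ Ann p 2, ‖P2 lam G p v‖ ≤ S := by
    intro v hv
    have := (hgr p lam G hp hpc hlam hG 2 v hv).2.2
    rw [hS]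
    norm_num at this ⊢
    exact this
  have hmaps : Set.MapsTo (P2 lam G p) (Metric.ball p ((1 - r ^ 2) * ‖p‖))
      (Metric.ball (P2 lam G p p) (3 * S)) := by
    intro v hv
    rw [Metric.mem_ball, dist_eq_norm]
    have h1 := hS' v (hball v hv)
    have h2 := hS' p (Ann_mono hp1.le (by norm_num) hpAnn)
    have h3 := norm_sub_le (P2 lam G p v) (P2 lam G p p)
    linarith
  have hdist : dist w p ≤ 2 * η * ‖p‖ := by
    rw [dist_eq_norm]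
    have e : w - p = p * (((η / (1 - η) : ℝ)) : ℂ) := by
      have h1 : (1 : ℂ) - (η : ℂ) ≠ 0 := by
        have := honeC
        push_cast at this
        exact this
      rw [hw]
      push_cast
      field_simp
      ring
    rw [e, norm_mul, Complex.norm_real, Real.norm_of_nonneg (by positivity)]
    have : η / (1 - η) ≤ 2 * η := by
      rw [div_le_iff₀ hone]
      nlinarith
    calc ‖p‖ * (η / (1 - η)) ≤ ‖p‖ * (2 * η) := by gcongr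
      _ = _ := by ring
  have hwball : w ∈ Metric.ball p ((1 - r ^ 2) * ‖p‖) := by
    rw [Metric.mem_ball]
    refine hdist.trans_lt ?_
    gcongr
    linarith
  have hdiff : DifferentiableOn ℂ (P2 lam G p) (Metric.ball p ((1 - r ^ 2) * ‖p‖)) :=
    (diff_P2 hp1 lam G).mono fun v hv ↦ Ann_ne_zero hp0 (hball v hv)
  have hlip := Complex.dist_le_div_mul_dist_of_mapsTo_ball hdiff
    (hmaps.mono_right Metric.ball_subset_closedBall) hwball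
  have hlip2 : ‖P2 lam G p w - P2 lam G p p‖ ≤ m / 2 := by
    rw [dist_eq_norm] at hlip
    refine hlip.trans ?_
    calc 3 * S / ((1 - r ^ 2) * ‖p‖) * dist w p
        ≤ 3 * S / ((1 - r ^ 2) * ‖p‖) * (2 * η * ‖p‖) := by gcongr
      _ = 6 * S * η / (1 - r ^ 2) := by field_simp; ring
      _ ≤ 6 * S * ((1 - r ^ 2) * m / (12 * S)) / (1 - r ^ 2) := by
        gcongr
        exact hηle.trans hη1c
      _ = m / 2 := by field_simp; ring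
  have hP2w : m / 2 ≤ ‖P2 lam G p w‖ := by
    have h1 := norm_sub_norm_le (P2 lam G p p) (P2 lam G p w)
    rw [norm_sub_rev] at h1
    linarith
  refine ⟨w, hp2.trans hwp, hw1, ?_, ?_⟩
  · refine le_trans ?_ hth_lo
    rw [mul_inv]
    have h1 : (max 1 (η1 * c1 ^ 2)⁻¹)⁻¹ ≤ η1 * c1 ^ 2 := by
      apply inv_le_of_inv_le₀ (by positivity)
      exact le_max_right _ _
    calc (max 1 (η1 * c1 ^ 2)⁻¹)⁻¹ * B⁻¹ ≤ (η1 * c1 ^ 2) * B⁻¹ := by gcongr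
      _ = _ := by rw [hη]; ring
  · refine le_trans ?_ hP2w
    calc B * ‖th p w‖ ^ 2 ≤ B * (η * U ^ 2) ^ 2 := by gcongr
      _ = η1 * (η1 / B) * U ^ 4 := by rw [hη]; field_simp
      _ ≤ η1 * 1 * U ^ 4 := by
        gcongr
      _ ≤ m / (2 * U ^ 4) * 1 * U ^ 4 := by gcongr
      _ = m / 2 := by field_simp

end H32.T3
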