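import Pool.Agent.H32.T3.Theta2

/-!
# The Weierstrass function of the lattice `ℤ τ + ℤ`
-/

namespace H32.T3

open UpperHalfPlane hiding I
open Complex EisensteinSeries ModularForm Filter Topology

/-- The lattice. -/
noncomputable def LL (τ : ℍ) : PeriodPair where
  ω₁ := τ
  ω₂ := 1
  indep := by
    rw [LinearIndependent.pair_iff]
    intro s t h
    have h1 := congrArg Complex.im h
    have h2 := congrArg Complex.re h
    simp at h1 h2
    have h3 : s = 0 := by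
      rcases h1 with h1 | h1
      · exact h1
      · exact absurd h1 τ.im_ne_zero
    subst h3
    simp at h2
    exact ⟨rfl, h2⟩

lemma LL_symm (τ : ℍ) (x : ℤ × ℤ) :
    ((LL τ).latticeEquivProd.symm x).1 = x.1 * (τ : ℂ) + x.2 := by
  rw [PeriodPair.latticeEquiv_symm_apply]
  simp [LL]

lemma riemannZeta_six : riemannZeta 6 = (Real.pi : ℂ) ^ 6 / 945 := by
  have h := riemannZeta_two_mul_nat (k := 3) (by norm_num)
  rw [show bernoulli (2 * 3) = 1 / 42 by decide +kernel] at h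
  norm_num at h
  rw [h]
  ring

lemma riemannZeta_four' : riemannZeta 4 = (Real.pi : ℂ) ^ 4 / 90 := by
  have h := riemannZeta_two_mul_nat (k := 2) (by norm_num)
  rw [show bernoulli (2 * 2) = -1 / 30 by decide +kernel] at h
  norm_num at h
  rw [h]
  ring

lemma G_eq (τ : ℍ) {k : ℕ} (hk : 3 ≤ k) :
    (LL τ).G k = riemannZeta k * eisensteinSeries (N := 1) 0 k τ := by
  rw [← tsum_eisSummand_eq_riemannZeta_mul_eisensteinSeries hk, PeriodPair.G,
    ← (LL τ).latticeEquivProd.symm.toEquiv.tsum_eq, ← (finTwoArrowEquiv ℤ).symm.tsum_eq]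
  refine tsum_congr fun x ↦ ?_
  have := LL_symm τ x
  change (((((LL τ).latticeEquivProd.symm x).1 : ℂ)) ^ k)⁻¹ = _
  rw [this]
  simp [eisSummand]

lemma g2_eq (τ : ℍ) : (LL τ).g₂ = 4 * (Real.pi : ℂ) ^ 4 / 3 * E₄ τ := by
  have h : (E₄ τ : ℂ) = (1 / 2 : ℂ) * eisensteinSeries (N := 1) 0 4 τ := rfl
  have h1 := G_eq τ (k := 4) (by norm_num)
  rw [PeriodPair.g₂, h1, h]
  push_cast
  rw [riemannZeta_four']
  ring

lemma g3_eq (τ : ℍ) : (LL τ).g₃ = 8 * (Real.pi : ℂ) ^ 6 / 27 * E₆ τ := by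
  have h : (E₆ τ : ℂ) = (1 / 2 : ℂ) * eisensteinSeries (N := 1) 0 6 τ := rfl
  have h1 := G_eq τ (k := 6) (by norm_num)
  rw [PeriodPair.g₃, h1, h]
  push_cast
  rw [riemannZeta_six]
  ring

/-- `x / (1 - x)^2`. -/
noncomputable def ff (x : ℂ) : ℂ := x / (1 - x) ^ 2

lemma tsum_row {z : ℂ} (hz : 0 < z.im) :
    ∑' n : ℤ, 1 / (z + n) ^ 2 = (2 * Real.pi * I) ^ 2 * ff (Complex.exp (2 * Real.pi * I * z)) := by
  have h := qExpansion_identity (k := 1) le_rfl ⟨z, hz⟩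
  have h1 : ‖Complex.exp (2 * Real.pi * I * z)‖ < 1 := norm_exp_two_pi_I_lt_one ⟨z, hz⟩
  have h2 := tsum_coe_mul_geometric_of_norm_lt_one h1
  simp only [pow_one, Nat.factorial_one, Nat.cast_one, div_one] at h
  change ∑' n : ℤ, 1 / (z + n) ^ 2 = _ at h
  rw [h]
  change _ * ∑' n : ℕ, (n : ℂ) * Complex.exp (2 * Real.pi * I * z) ^ n = _
  rw [h2, ff]
  ring

lemma tsum_row_neg {z : ℂ} (hz : z.im < 0) :
    ∑' n : ℤ, 1 / (z + n) ^ 2 =
      (2 * Real.pi * I) ^ 2 * ff (Complex.exp (2 * Real.pi * I * (-z))) := by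
  rw [← tsum_row (z := -z) (by simpa using hz), ← (Equiv.neg ℤ).tsum_eq]
  refine tsum_congr fun n ↦ ?_
  simp only [Equiv.neg_apply]
  congr 1
  push_cast
  ring

lemma summable_row (z : ℂ) : Summable fun n : ℤ ↦ 1 / (z + n) ^ 2 := by
  have h := linear_right_summable z 1 (k := 2) le_rfl
  refine h.congr fun n ↦ ?_
  simp

lemma norm_ff_le {x : ℂ} {ρ : ℝ} (hρ : ρ < 1) (hx : ‖x‖ ≤ ρ) : ‖ff x‖ ≤ ‖x‖ / (1 - ρ) ^ 2 := by
  rw [ff, norm_div, norm_pow]
  have h1 := norm_sub_norm_le 1 x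
  rw [norm_one] at h1
  have h2 : 0 < 1 - ρ := by linarith
  gcongr
  linarith

lemma summable_ff {q v : ℂ} (hq : ‖q‖ < 1) (hv : ‖v‖ < 1) :
    Summable fun n : ℕ ↦ ff (q ^ n * v) := by
  refine Summable.of_norm_bounded (g := fun n : ℕ ↦ ‖q‖ ^ n * (‖v‖ / (1 - ‖v‖) ^ 2))
    ((summable_geometric_of_lt_one (norm_nonneg _) hq).mul_right _) fun n ↦ ?_
  have h1 : ‖q ^ n * v‖ ≤ ‖v‖ := by
    rw [norm_mul, norm_pow]
    exact mul_le_of_le_one_left (norm_nonneg _) (pow_le_one₀ (norm_nonneg _) hq.le)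
  refine (norm_ff_le hv h1).trans (le_of_eq ?_)
  rw [norm_mul, norm_pow]
  ring

/-- The row-sum formula for `℘`. -/
theorem wp_eq (τ : ℍ) {u : ℂ} (h0 : 0 < u.im) (h1 : u.im < τ.im) :
    (LL τ).weierstrassP u = (2 * Real.pi * I) ^ 2 *
      (∑' n : ℕ, ff (Complex.exp (2 * Real.pi * I * τ) ^ n * Complex.exp (2 * Real.pi * I * u)) +
        ∑' n : ℕ, ff (Complex.exp (2 * Real.pi * I * τ) ^ n *
          Complex.exp (2 * Real.pi * I * (τ - u)))) - G2 τ := by
  set q := Complex.exp (2 * Real.pi * I * τ) with hq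
  set v := Complex.exp (2 * Real.pi * I * u) with hv
  set v' := Complex.exp (2 * Real.pi * I * (τ - u)) with hv'
  have hq1 : ‖q‖ < 1 := norm_exp_two_pi_I_lt_one τ
  have hv1 : ‖v‖ < 1 := norm_exp_two_pi_I_lt_one ⟨u, h0⟩
  have hv1' : ‖v'‖ < 1 := norm_exp_two_pi_I_lt_one ⟨τ - u, by
    change 0 < ((τ : ℂ) - u).im
    rw [Complex.sub_im, UpperHalfPlane.coe_im]; linarith⟩
  -- the double sum
  have hs1 := (LL τ).hasSum_weierstrassP u
  have hs2 : HasSum (fun x : ℤ × ℤ ↦ 1 / (u - (x.1 * (τ : ℂ) + x.2)) ^ 2 -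
      1 / (x.1 * (τ : ℂ) + x.2) ^ 2) ((LL τ).weierstrassP u) := by
    rw [← (LL τ).latticeEquivProd.symm.toEquiv.hasSum_iff] at hs1
    have e : (fun x : ℤ × ℤ ↦ 1 / (u - (x.1 * (τ : ℂ) + x.2)) ^ 2 -
      1 / (x.1 * (τ : ℂ) + x.2) ^ 2) = (fun l : (LL τ).lattice ↦ 1 / (u - (l : ℂ)) ^ 2 -
        1 / (l : ℂ) ^ 2) ∘ (LL τ).latticeEquivProd.symm.toEquiv := by
      ext x
      have := LL_symm τ x
      simp only [Function.comp_apply]
      change _ = 1 / (u - ((((LL τ).latticeEquivProd.symm x).1 : ℂ))) ^ 2 -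
        1 / ((((LL τ).latticeEquivProd.symm x).1 : ℂ)) ^ 2
      rw [this]
    rw [e]
    exact hs1
  -- rows
  set R : ℤ → ℂ := fun m ↦ ∑' n : ℤ, 1 / ((u - m * (τ : ℂ)) + n) ^ 2 with hR
  have hrow : ∀ m : ℤ, HasSum (fun n : ℤ ↦ 1 / (u - (m * (τ : ℂ) + n)) ^ 2 -
      1 / (m * (τ : ℂ) + n) ^ 2) (R m - e2Summand m τ) := by
    intro m
    refine HasSum.sub ?_ ?_
    · have h2 := (summable_row (u - m * (τ : ℂ))).hasSum
      rw [← (Equiv.neg ℤ).hasSum_iff] at h2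
      refine h2.congr_fun fun n ↦ ?_
      simp only [Function.comp_apply, Equiv.neg_apply]
      congr 2
      push_cast
      ring
    · have h2 := (e2Summand_summable m τ).hasSum
      refine h2.congr_fun fun n ↦ ?_
      simp [eisSummand]
  have hcol : HasSum (fun m : ℤ ↦ R m - e2Summand m τ) ((LL τ).weierstrassP u) :=
    hs2.prod_fiberwise hrow
  -- the sum of the rows
  have hR1 : ∀ n : ℕ, R (-(n : ℤ)) = (2 * Real.pi * I) ^ 2 * ff (q ^ n * v) := by
    intro n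
    have him : 0 < (u - ((-(n : ℤ) : ℤ) : ℂ) * (τ : ℂ)).im := by
      have h3 := τ.im_pos
      have h4 : (u - ((-(n : ℤ) : ℤ) : ℂ) * (τ : ℂ)).im = u.im + n * τ.im := by
        push_cast
        simp
      rw [h4]
      positivity
    rw [hR]
    simp only
    rw [tsum_row him]
    congr 2
    rw [hq, hv, ← Complex.exp_nat_mul, ← Complex.exp_add]
    congr 1
    push_cast
    ring
  have hR2 : ∀ n : ℕ, R ((n : ℤ) + 1) = (2 * Real.pi * I) ^ 2 * ff (q ^ n * v') := by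
    intro n
    have him : (u - (((n : ℤ) + 1 : ℤ) : ℂ) * (τ : ℂ)).im < 0 := by
      have h3 := τ.im_pos
      have h4 : (u - (((n : ℤ) + 1 : ℤ) : ℂ) * (τ : ℂ)).im = u.im - (n + 1) * τ.im := by
        push_cast
        simp
      rw [h4]
      have h5 : (0 : ℝ) ≤ n := Nat.cast_nonneg n
      nlinarith
    rw [hR]
    simp only
    rw [tsum_row_neg him]
    congr 2
    rw [hq, hv', ← Complex.exp_nat_mul, ← Complex.exp_add]
    congr 1
    push_cast
    ring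
  have hsR : HasSum R ((2 * Real.pi * I) ^ 2 * (∑' n : ℕ, ff (q ^ n * v)) +
      (2 * Real.pi * I) ^ 2 * ∑' n : ℕ, ff (q ^ n * v')) := by
    rw [← (Equiv.neg ℤ).hasSum_iff]
    refine HasSum.of_nat_of_neg_add_one ?_ ?_
    · have := ((summable_ff hq1 hv1).hasSum).mul_left ((2 * Real.pi * I) ^ 2)
      refine this.congr_fun fun n ↦ ?_
      simp only [Function.comp_apply, Equiv.neg_apply]
      exact hR1 n
    · have := ((summable_ff hq1 hv1').hasSum).mul_left ((2 * Real.pi * I) ^ 2)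
      refine this.congr_fun fun n ↦ ?_
      simp only [Function.comp_apply, Equiv.neg_apply, neg_neg]
      exact hR2 n
  have he : HasSum (fun m : ℤ ↦ e2Summand m τ) _ :=
    (hsR.sub hcol).congr_fun fun m ↦ (by ring : e2Summand m τ = R m - (R m - e2Summand m τ))
  have hG : G2 τ = _ := (tsum_eq_of_summable_unconditional
    (L := SummationFilter.symmetricIcc ℤ) he.summable).trans he.tsum_eq
  rw [hG]
  ring

end H32.T3
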