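import Pool.Agent.H32.T3.Wp
import Pool.Agent.H32.T3.Theta3

/-!
# The logarithmic derivative of the theta product and `℘`
-/

namespace H32.T3

open UpperHalfPlane hiding I
open Complex EisensteinSeries ModularForm Filter Topology

noncomputable def gg (p x : ℂ) : ℂ := ∑' n : ℕ, p ^ (2 * n + 1) * x / (1 - p ^ (2 * n + 1) * x)

lemma norm_pow_mul_le {p x : ℂ} (hp : ‖p‖ < 1) (n : ℕ) : ‖p ^ (2 * n + 1) * x‖ ≤ ‖p * x‖ := by
  calc ‖p ^ (2 * n + 1) * x‖ = ‖p‖ ^ (2 * n) * ‖p * x‖ := by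
        rw [norm_mul, norm_pow, norm_mul]; ring
    _ ≤ 1 * ‖p * x‖ := by
        gcongr
        exact pow_le_one₀ (norm_nonneg _) hp.le
    _ = _ := one_mul _

lemma one_sub_ne {y : ℂ} (hy : ‖y‖ < 1) : 1 - y ≠ 0 := by
  intro h
  have : y = 1 := by linear_combination -h
  rw [this, norm_one] at hy
  exact lt_irrefl _ hy

lemma hasDerivAt_gg {p x : ℂ} (hp : ‖p‖ < 1) (hx : ‖p * x‖ < 1) :
    HasDerivAt (gg p) (∑' n : ℕ, p ^ (2 * n + 1) / (1 - p ^ (2 * n + 1) * x) ^ 2) x := by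
  obtain ⟨ρ, hρ1, hρ2⟩ := exists_between hx
  have hρ0 : 0 < ρ := (norm_nonneg _).trans_lt hρ1
  set U : Set ℂ := {y | ‖p * y‖ < ρ} with hU
  have hUo : IsOpen U := isOpen_lt (by fun_prop) continuous_const
  have hxU : x ∈ U := hρ1
  set F : ℕ → ℂ → ℂ := fun n y ↦ p ^ (2 * n + 1) * y / (1 - p ^ (2 * n + 1) * y) with hF
  have hne : ∀ n, ∀ y ∈ U, 1 - p ^ (2 * n + 1) * y ≠ 0 := fun n y hy ↦
    one_sub_ne (((norm_pow_mul_le hp n).trans_lt hy).trans hρ2)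
  have hd : ∀ n, ∀ y ∈ U, HasDerivAt (F n)
      (p ^ (2 * n + 1) / (1 - p ^ (2 * n + 1) * y) ^ 2) y := by
    intro n y hy
    have h1 : HasDerivAt (fun y : ℂ ↦ p ^ (2 * n + 1) * y) (p ^ (2 * n + 1) * 1) y :=
      (hasDerivAt_id y).const_mul _
    have h2 := h1.fun_div (h1.const_sub 1) (hne n y hy)
    refine h2.congr_deriv ?_
    congr 1
    ring
  have hu : Summable fun n : ℕ ↦ (‖p‖ ^ 2) ^ n * (ρ / (1 - ρ)) :=
    (summable_geometric_of_lt_one (by positivity) (by nlinarith [norm_nonneg p])).mul_right _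
  have hle : ∀ (n : ℕ) (y : ℂ), y ∈ U → ‖F n y‖ ≤ (‖p‖ ^ 2) ^ n * (ρ / (1 - ρ)) := by
    intro n y hy
    rw [hF]
    simp only
    rw [norm_div]
    have h1 := norm_sub_norm_le 1 (p ^ (2 * n + 1) * y)
    rw [norm_one] at h1
    have h2 := (norm_pow_mul_le (x := y) hp n).trans hy.le
    have h3 : ‖p ^ (2 * n + 1) * y‖ ≤ (‖p‖ ^ 2) ^ n * ρ := by
      calc ‖p ^ (2 * n + 1) * y‖ = (‖p‖ ^ 2) ^ n * ‖p * y‖ := by
            rw [norm_mul, norm_pow, norm_mul]; ring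
        _ ≤ _ := by gcongr; exact hy.le
    have h4 : 0 < 1 - ρ := by linarith
    rw [mul_div_assoc']
    gcongr
    linarith
  have hdiff := differentiableOn_tsum_of_summable_norm hu
    (fun n y hy ↦ (hd n y hy).differentiableAt.differentiableWithinAt) hUo hle
  have h1 := hasSum_deriv_of_summable_norm hu
    (fun n y hy ↦ (hd n y hy).differentiableAt.differentiableWithinAt) hUo hle hxU
  have h2 := ((hdiff x hxU).differentiableAt (hUo.mem_nhds hxU)).hasDerivAt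
  have h3 : (fun n ↦ deriv (F n) x) =
      fun n : ℕ ↦ p ^ (2 * n + 1) / (1 - p ^ (2 * n + 1) * x) ^ 2 := by
    ext n; exact (hd n x hxU).deriv
  rw [h3] at h1
  rw [h1.tsum_eq]
  exact h2

lemma mul_deriv_gg {p x : ℂ} :
    x * ∑' n : ℕ, p ^ (2 * n + 1) / (1 - p ^ (2 * n + 1) * x) ^ 2 =
      ∑' n : ℕ, ff (p ^ (2 * n + 1) * x) := by
  rw [← tsum_mul_left]
  refine tsum_congr fun n ↦ ?_
  rw [ff]
  ring

lemma AA_deriv {p x : ℂ} (hp : ‖p‖ < 1) (hx : ‖p * x‖ < 1) :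
    x * deriv (AA p) x = -gg p x * AA p x := by
  have h := logDeriv_AA hp hx
  have h0 := AA_ne_zero hp hx
  rw [logDeriv_apply, div_eq_iff h0] at h
  rw [h, gg, ← mul_assoc, ← tsum_mul_left, ← tsum_neg]
  congr 1
  refine tsum_congr fun n ↦ ?_
  ring

/-- The region where the theta product has no zero. -/
def Reg (p : ℂ) : Set ℂ := {w | w ≠ 0 ∧ ‖p * w‖ < 1 ∧ ‖p * w⁻¹‖ < 1}

lemma isOpen_Reg (p : ℂ) : IsOpen (Reg p) := by
  rw [isOpen_iff_mem_nhds]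
  intro w hw
  have h1 : ContinuousAt (fun w : ℂ ↦ ‖p * w‖) w := by fun_prop
  have h2 : ContinuousAt (fun w : ℂ ↦ ‖p * w⁻¹‖) w :=
    ((continuousAt_inv₀ hw.1).const_mul p).norm
  filter_upwards [isOpen_U.mem_nhds hw.1, h1.eventually_lt continuousAt_const hw.2.1,
    h2.eventually_lt continuousAt_const hw.2.2] with v h3 h4 h5 using ⟨h3, h4, h5⟩

lemma th_ne_zero {p w : ℂ} (hp : ‖p‖ < 1) (hw : w ∈ Reg p) : th p w ≠ 0 :=
  mul_ne_zero (AA_ne_zero hp hw.2.1) (AA_ne_zero hp hw.2.2)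

noncomputable def zt (p w : ℂ) : ℂ := 2 * Real.pi * I * (gg p w⁻¹ - gg p w)

lemma th1_eq {p w : ℂ} (hp : ‖p‖ < 1) (hw : w ∈ Reg p) : th1 p w = th p w * zt p w := by
  obtain ⟨h0, h1, h2⟩ := hw
  have d1 : HasDerivAt (AA p) (deriv (AA p) w) w := (differentiable_AA hp w).hasDerivAt
  have d2 : HasDerivAt (fun w ↦ AA p w⁻¹) (deriv (AA p) w⁻¹ * (-(w ^ 2)⁻¹)) w :=
    HasDerivAt.comp (h₂ := AA p) (h := fun w : ℂ ↦ w⁻¹) w
      (differentiable_AA hp w⁻¹).hasDerivAt (hasDerivAt_inv h0)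
  have d3 := (d1.mul d2).deriv
  have e : th p = AA p * fun w ↦ AA p w⁻¹ := rfl
  rw [th1, Dw, e, d3]
  have e1 := AA_deriv hp h1
  have e2 := AA_deriv hp h2
  have e3 : 2 * Real.pi * I * w * (deriv (AA p) w * AA p w⁻¹ +
      AA p w * (deriv (AA p) w⁻¹ * (-(w ^ 2)⁻¹))) =
      2 * Real.pi * I * ((w * deriv (AA p) w) * AA p w⁻¹ -
        AA p w * (w⁻¹ * deriv (AA p) w⁻¹)) := by
    field_simp
    ring
  rw [e3, e1, e2, zt]
  simp only [Pi.mul_apply]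
  ring

lemma hasDerivAt_zt {p w : ℂ} (hp : ‖p‖ < 1) (hw : w ∈ Reg p) :
    ∃ d : ℂ, HasDerivAt (zt p) d w ∧ 2 * Real.pi * I * w * d =
      -((2 * Real.pi * I) ^ 2 * (∑' n : ℕ, ff (p ^ (2 * n + 1) * w) +
        ∑' n : ℕ, ff (p ^ (2 * n + 1) * w⁻¹))) := by
  obtain ⟨h0, h1, h2⟩ := hw
  have d1 := hasDerivAt_gg hp h1
  have d2 := HasDerivAt.comp (h₂ := gg p) (h := fun w : ℂ ↦ w⁻¹) w (hasDerivAt_gg hp h2)
    (hasDerivAt_inv h0)
  have d3 := (d2.sub d1).const_mul (2 * Real.pi * I)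
  refine ⟨_, d3, ?_⟩
  rw [← mul_deriv_gg, ← mul_deriv_gg]
  field_simp
  ring

lemma P2_eq {p w : ℂ} (hp : ‖p‖ < 1) (hw : w ∈ Reg p) (lam G : ℂ) :
    P2 lam G p w = (lam ^ 2)⁻¹ * (th p w ^ 2 * ((2 * Real.pi * I) ^ 2 *
      (∑' n : ℕ, ff (p ^ (2 * n + 1) * w) + ∑' n : ℕ, ff (p ^ (2 * n + 1) * w⁻¹)) - G)) := by
  obtain ⟨d, hd, hd2⟩ := hasDerivAt_zt hp hw
  have h1 : HasDerivAt (th p) (deriv (th p) w) w :=
    ((diff_th hp _ hw.1).differentiableAt (isOpen_U.mem_nhds hw.1)).hasDerivAt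
  have h2 := h1.mul hd
  have h3 : th1 p =ᶠ[𝓝 w] th p * zt p := by
    filter_upwards [(isOpen_Reg p).mem_nhds hw] with v hv using th1_eq hp hv
  have h4 := (h2.congr_of_eventuallyEq h3).deriv
  have h5 : th2 p w = th1 p w * zt p w + th p w * (2 * Real.pi * I * w * d) := by
    rw [th2, Dw, h4, th1, Dw]
    ring
  rw [P2, h5, hd2, th1_eq hp hw]
  congr 1
  ring

/-- `exp (2 π i s)`. -/
noncomputable def ee (s : ℂ) : ℂ := Complex.exp (2 * Real.pi * I * s)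

noncomputable def pp (τ : ℍ) : ℂ := Complex.exp (Real.pi * I * τ)

lemma ee_ne (s : ℂ) : ee s ≠ 0 := Complex.exp_ne_zero _

lemma pp_ne (τ : ℍ) : pp τ ≠ 0 := Complex.exp_ne_zero _

lemma hasDerivAt_ee (s : ℂ) : HasDerivAt ee (2 * Real.pi * I * ee s) s := by
  have h : HasDerivAt (fun s : ℂ ↦ 2 * Real.pi * I * s) (2 * Real.pi * I * 1) s :=
    (hasDerivAt_id s).const_mul _
  refine h.cexp.congr_deriv ?_
  rw [ee]
  ring

lemma norm_pp (τ : ℍ) : ‖pp τ‖ = Real.exp (-(Real.pi * τ.im)) := by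
  rw [pp, Complex.norm_exp]
  congr 1
  simp [Complex.mul_re, Complex.mul_im]

lemma norm_pp_lt (τ : ℍ) : ‖pp τ‖ < 1 := by
  rw [norm_pp]
  apply Real.exp_lt_one_iff.mpr
  have := τ.im_pos
  have := Real.pi_pos
  nlinarith

lemma norm_ee (s : ℂ) : ‖ee s‖ = Real.exp (-(2 * Real.pi * s.im)) := by
  rw [ee, Complex.norm_exp]
  congr 1
  simp [Complex.mul_re, Complex.mul_im]

lemma ee_mem_Reg {τ : ℍ} {s : ℂ} (hs : |s.im| < τ.im / 2) : ee s ∈ Reg (pp τ) := by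
  rw [abs_lt] at hs
  refine ⟨ee_ne s, ?_, ?_⟩
  · rw [norm_mul, norm_pp, norm_ee, ← Real.exp_add]
    apply Real.exp_lt_one_iff.mpr
    nlinarith [Real.pi_pos]
  · rw [norm_mul, norm_inv, norm_pp, norm_ee, ← Real.exp_neg, ← Real.exp_add]
    apply Real.exp_lt_one_iff.mpr
    nlinarith [Real.pi_pos]

/-- The numerator of `℘`. -/
theorem P2_wp {τ : ℍ} {s : ℂ} (hs : |s.im| < τ.im / 2) (lam : ℂ) :
    P2 lam (G2 τ) (pp τ) (ee s) =
      (lam ^ 2)⁻¹ * (th (pp τ) (ee s) ^ 2 * (LL τ).weierstrassP (s + τ / 2)) := by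
  rw [P2_eq (norm_pp_lt τ) (ee_mem_Reg hs)]
  have hs' := hs
  rw [abs_lt] at hs
  have him : (s + τ / 2 : ℂ).im = s.im + τ.im / 2 := by
    rw [Complex.add_im]
    congr 1
    have : ((τ : ℂ) / 2) = (τ : ℂ) / ((2 : ℝ) : ℂ) := by norm_num
    rw [this, Complex.div_ofReal_im, UpperHalfPlane.coe_im]
  rw [wp_eq τ (u := s + τ / 2) (by rw [him]; linarith) (by rw [him]; linarith)]
  congr 5
  · refine tsum_congr fun n ↦ ?_
    congr 1
    rw [pp, ee, ← Complex.exp_nat_mul, ← Complex.exp_nat_mul, ← Complex.exp_add,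
      ← Complex.exp_add]
    congr 1
    push_cast
    ring
  · refine tsum_congr fun n ↦ ?_
    congr 1
    rw [pp, ee, ← Complex.exp_neg, ← Complex.exp_nat_mul, ← Complex.exp_nat_mul,
      ← Complex.exp_add, ← Complex.exp_add]
    congr 1
    push_cast
    ring

/-- The derivative of the zeta part. -/
theorem hasDerivAt_P1 {τ : ℍ} {s : ℂ} (hs : |s.im| < τ.im / 2) {lam : ℂ} (hlam : lam ≠ 0) :
    HasDerivAt (fun s ↦ P1 lam (pp τ) (ee s) / th (pp τ) (ee s))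
      (lam * (-((lam ^ 2)⁻¹ * (LL τ).weierstrassP (s + τ / 2)) - (lam ^ 2)⁻¹ * G2 τ)) s := by
  have hw := ee_mem_Reg hs
  have hp := norm_pp_lt τ
  obtain ⟨d, hd, hd2⟩ := hasDerivAt_zt hp hw
  have h1 := (hd.comp s (hasDerivAt_ee s)).const_mul lam⁻¹
  have hev : (fun s ↦ P1 lam (pp τ) (ee s) / th (pp τ) (ee s)) =ᶠ[𝓝 s]
      fun s ↦ lam⁻¹ * (zt (pp τ) ∘ ee) s := by
    have hc : ContinuousAt ee s := (hasDerivAt_ee s).continuousAt
    filter_upwards [hc.preimage_mem_nhds ((isOpen_Reg _).mem_nhds hw)] with v hv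
    have h3 := th_ne_zero hp hv
    rw [P1, th1_eq hp hv, Function.comp_apply]
    field_simp
  refine (h1.congr_of_eventuallyEq hev).congr_deriv ?_
  have h4 := P2_eq hp hw lam (G2 τ)
  have h5 := P2_wp hs lam
  rw [h4] at h5
  have h6 := th_ne_zero hp hw
  have h7 : (2 * Real.pi * I) ^ 2 *
      (∑' n : ℕ, ff (pp τ ^ (2 * n + 1) * ee s) + ∑' n : ℕ, ff (pp τ ^ (2 * n + 1) * (ee s)⁻¹)) -
      G2 τ = (LL τ).weierstrassP (s + τ / 2) := by
    have h8 : (lam ^ 2)⁻¹ ≠ 0 := inv_ne_zero (pow_ne_zero _ hlam)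
    exact mul_left_cancel₀ (pow_ne_zero 2 h6) (mul_left_cancel₀ h8 h5)
  rw [← h7]
  have h9 : lam⁻¹ * (d * (2 * Real.pi * I * ee s)) = lam⁻¹ * (2 * Real.pi * I * ee s * d) := by ring
  rw [h9, hd2]
  field_simp
  ring

end H32.T3
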